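import Mathlib

/-!
Fibres of products of elementary symplectic matrices: definitions.
-/

namespace Pool.Agent.Helper72.HD

/-- The elementary symplectic matrix `M_j(z)` of size four: lower triangular for odd `j`, upper
triangular for even `j`, with the symmetric block with entries `z 0`, `z 1`, `z 1`, `z 2`. -/
def M (j : ℕ) (z : Fin 3 → ℂ) : Matrix (Fin 4) (Fin 4) ℂ :=
  if Odd j then !![1, 0, 0, 0; 0, 1, 0, 0; z 0, z 1, 1, 0; z 1, z 2, 0, 1]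
  else !![1, 0, z 0, z 1; 0, 1, z 1, z 2; 0, 0, 1, 0; 0, 0, 0, 1]

/-- The product `M_1(Z_1) M_2(Z_2) ⋯ M_K(Z_K)`. -/
def Psi (K : ℕ) (Z : Fin K → Fin 3 → ℂ) : Matrix (Fin 4) (Fin 4) ℂ :=
  (List.ofFn fun j : Fin K => M ((j : ℕ) + 1) (Z j)).prod

/-- The set of all `Z` for which the last row of `Psi K Z` is `a`. -/
def fibre (K : ℕ) (a : Fin 4 → ℂ) : Set (Fin K → Fin 3 → ℂ) := {Z | Psi K Z 3 = a}

/-- Near each of its points, `F` is the zero set of a map to some `ℂ^r` which is strictly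
differentiable at the point with surjective differential. -/
def IsSmooth {K : ℕ} (F : Set (Fin K → Fin 3 → ℂ)) : Prop :=
  ∀ x ∈ F, ∃ (r : ℕ) (f : (Fin K → Fin 3 → ℂ) → (Fin r → ℂ))
    (f' : (Fin K → Fin 3 → ℂ) →L[ℂ] (Fin r → ℂ)),
    HasStrictFDerivAt f f' x ∧ Function.Surjective f' ∧ ∀ᶠ y in nhds x, y ∈ F ↔ f y = 0

/-- Singular homology with integer coefficients of a subspace. -/
noncomputable abbrev Hom {K : ℕ} (F : Set (Fin K → Fin 3 → ℂ)) (n : ℕ) : ModuleCat.{0} ℤ :=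
  ((AlgebraicTopology.singularHomologyFunctor (ModuleCat.{0} ℤ) n).obj
    (ModuleCat.of ℤ ℤ)).obj (TopCat.of F)

open Classical in
/-- `K - 2` if the half `(a 2, a 3)` of `a` (for odd `K`), respectively `(a 0, a 1)` (for even
`K`), vanishes, and `K - 1` otherwise. -/
noncomputable def level (K : ℕ) (a : Fin 4 → ℂ) : ℕ :=
  if (Odd K ∧ a 2 = 0 ∧ a 3 = 0) ∨ (Even K ∧ a 0 = 0 ∧ a 1 = 0) then K - 2 else K - 1

/-- The degrees in which there is homology. -/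
def degrees (j : ℕ) : Set ℕ :=
  {n | (j = 0 ∧ n = 0) ∨ (Odd j ∧ 6 ∣ n ∧ n ≤ 3 * (j - 1)) ∨
    (Even j ∧ 2 ≤ j ∧ 6 ∣ n ∧ n ≤ 3 * (j - 2)) ∨
    (Even j ∧ 2 ≤ j ∧ Odd n ∧ 2 * j - 1 ≤ n ∧ n ≤ 3 * (j - 1))}

end Pool.Agent.Helper72.HD
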