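import Mathlib

/-!
Affine simplices in convex spaces, signed chains, cones, subdivision and prisms.
-/

set_option linter.unusedSectionVars false

namespace Pool.Agent.Helper72.HZ

open Finset

/-- standard simplex -/
abbrev D (n : ℕ) : Type := stdSimplex ℝ (Fin (n + 1))

theorem D_ext {n : ℕ} {x y : D n} (h : ∀ k, x.1 k = y.1 k) : x = y :=
  Subtype.ext (funext h)

theorem D_sum {n : ℕ} (t : D n) : ∑ i, t.1 i = 1 := t.2.2

theorem D_nonneg {n : ℕ} (t : D n) (i : Fin (n + 1)) : 0 ≤ t.1 i := t.2.1 i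

/-- affine map with prescribed vertices. -/
noncomputable def combD {m n : ℕ} (v : Fin (m + 1) → D n) : C(D m, D n) :=
  ⟨fun t => ⟨fun k => ∑ i, t.1 i * (v i).1 k, by
    refine ⟨fun k => Finset.sum_nonneg fun i _ => mul_nonneg (t.2.1 i) ((v i).2.1 k), ?_⟩
    rw [Finset.sum_comm]
    have : ∀ i, ∑ k, t.1 i * (v i).1 k = t.1 i := by
      intro i
      rw [← Finset.mul_sum]
      rw [show ∑ k, (v i).1 k = 1 from (v i).2.2, mul_one]
    rw [Finset.sum_congr rfl (fun i _ => this i)]
    exact t.2.2⟩, by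
    refine Continuous.subtype_mk ?_ _
    refine continuous_pi fun k => continuous_finsetSum _ fun i _ => ?_
    exact (((continuous_apply i).comp continuous_subtype_val)).mul continuous_const⟩

theorem combD_apply {m n : ℕ} (v : Fin (m + 1) → D n) (t : D m) (k : Fin (n + 1)) :
    (combD v t).1 k = ∑ i, t.1 i * (v i).1 k := rfl

/-- vertices of the simplex -/
noncomputable def io (n : ℕ) : Fin (n + 1) → D n := fun i => stdSimplex.vertex i

theorem io_apply (n : ℕ) (i k : Fin (n + 1)) : (io n i).1 k = if i = k then 1 else 0 := by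
  have := stdSimplex.vertex_coe (S := ℝ) i
  show ((stdSimplex.vertex i : stdSimplex ℝ (Fin (n + 1))) : Fin (n + 1) → ℝ) k = _
  rw [this, Pi.single_apply]
  simp [eq_comm]

/-- A convex space: affine simplices with prescribed vertices. -/
class Cvx (C : Type) [TopologicalSpace C] where
  /-- affine simplex -/
  comb : ∀ {m : ℕ}, (Fin (m + 1) → C) → C(D m, C)
  comb_vertex : ∀ {m : ℕ} (v : Fin (m + 1) → C) (i : Fin (m + 1)), comb v (io m i) = v i
  comb_comb : ∀ {l m : ℕ} (w : Fin (m + 1) → C) (v : Fin (l + 1) → D m) (t : D l),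
    comb w (combD v t) = comb (fun i => comb w (v i)) t

export Cvx (comb comb_vertex comb_comb)

noncomputable instance (n : ℕ) : Cvx (D n) where
  comb := combD
  comb_vertex := by
    intro m v i
    apply D_ext
    intro k
    simp [combD_apply, io_apply]
  comb_comb := by
    intro l m w v t
    apply D_ext
    intro k
    simp only [combD_apply, Finset.sum_mul, Finset.mul_sum]
    rw [Finset.sum_comm]
    refine Finset.sum_congr rfl fun i _ => Finset.sum_congr rfl fun j _ => ?_
    ring

theorem comb_D {m n : ℕ} (v : Fin (m + 1) → D n) : comb v = combD v := rfl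

theorem comb_io {n : ℕ} (t : D n) : comb (io n) t = t := by
  apply D_ext
  intro k
  rw [comb_D]
  simp [combD_apply, io_apply]

/-- affine map with prescribed vertices in the unit interval. -/
noncomputable def combI {m : ℕ} (v : Fin (m + 1) → unitInterval) : C(D m, unitInterval) :=
  ⟨fun t => ⟨∑ i, t.1 i * (v i).1, by
    constructor
    · exact Finset.sum_nonneg fun i _ => mul_nonneg (t.2.1 i) (v i).2.1
    · calc ∑ i, t.1 i * (v i).1 ≤ ∑ i, t.1 i * 1 :=
            Finset.sum_le_sum fun i _ => mul_le_mul_of_nonneg_left (v i).2.2 (t.2.1 i)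
        _ = 1 := by simp only [mul_one]; exact t.2.2⟩, by
    refine Continuous.subtype_mk ?_ _
    refine continuous_finsetSum _ fun i _ => ?_
    exact (((continuous_apply i).comp continuous_subtype_val)).mul continuous_const⟩

theorem combI_apply {m : ℕ} (v : Fin (m + 1) → unitInterval) (t : D m) :
    (combI v t).1 = ∑ i, t.1 i * (v i).1 := rfl

noncomputable instance : Cvx unitInterval where
  comb := combI
  comb_vertex := by
    intro m v i
    apply Subtype.ext
    simp [combI_apply, io_apply]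
  comb_comb := by
    intro l m w v t
    apply Subtype.ext
    simp only [combI_apply, combD_apply, Finset.sum_mul, Finset.mul_sum]
    rw [Finset.sum_comm]
    refine Finset.sum_congr rfl fun i _ => Finset.sum_congr rfl fun j _ => ?_
    ring

noncomputable instance {C C' : Type} [TopologicalSpace C] [TopologicalSpace C'] [Cvx C] [Cvx C'] :
    Cvx (C × C') where
  comb := fun v => (comb (fun i => (v i).1)).prodMk (comb (fun i => (v i).2))
  comb_vertex := by
    intro m v i
    simp [comb_vertex]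
  comb_comb := by
    intro l m w v t
    simp [comb_comb]

theorem comb_prod {C C' : Type} [TopologicalSpace C] [TopologicalSpace C'] [Cvx C] [Cvx C'] {m : ℕ}
    (v : Fin (m + 1) → C × C') (t : D m) :
    comb v t = (comb (fun i => (v i).1) t, comb (fun i => (v i).2) t) := rfl

/-- Affine maps between convex spaces. -/
def IsAff {C C' : Type} [TopologicalSpace C] [TopologicalSpace C'] [Cvx C] [Cvx C']
    (f : C(C, C')) : Prop :=
  ∀ {m : ℕ} (v : Fin (m + 1) → C) (t : D m), f (comb v t) = comb (fun i => f (v i)) t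

theorem isAff_comb {C : Type} [TopologicalSpace C] [Cvx C] {n : ℕ} (w : Fin (n + 1) → C) :
    IsAff (comb w : C(D n, C)) := fun v t => comb_comb w v t

theorem isAff_prodMap {C C' C'' : Type} [TopologicalSpace C] [TopologicalSpace C']
    [TopologicalSpace C''] [Cvx C] [Cvx C'] [Cvx C''] {f : C(C, C')} (hf : IsAff f) :
    IsAff (f.prodMap (ContinuousMap.id C'')) := by
  intro m v t
  rw [comb_prod, comb_prod]
  simp only [ContinuousMap.prodMap_apply, ContinuousMap.coe_id]
  rw [Prod.map_apply, hf]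
  rfl

section chains

variable {R : Type} [CommRing R]
variable {C C' : Type} [TopologicalSpace C] [TopologicalSpace C'] [Cvx C] [Cvx C']

/-- barycenter of a tuple -/
noncomputable def bar {m : ℕ} (v : Fin (m + 1) → C) : C := comb v (stdSimplex.barycenter)

theorem aff_bar {f : C(C, C')} (hf : IsAff f) {m : ℕ} (v : Fin (m + 1) → C) :
    f (bar v) = bar (fun i => f (v i)) := hf v _

/-- chains of tuples -/
abbrev A (R : Type) [CommRing R] (m : ℕ) (C : Type) : Type := (Fin m → C) →₀ R

/-- basis element -/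
noncomputable def e {m : ℕ} (v : Fin m → C) : A R m C := Finsupp.single v 1

theorem A_ext {m : ℕ} {M : Type} [AddCommMonoid M] [Module R M]
    {f g : A R m C →ₗ[R] M} (h : ∀ v, f (e v) = g (e v)) (c : A R m C) : f c = g c := by
  have : f = g := Finsupp.lhom_ext' fun v => LinearMap.ext_ring (h v)
  rw [this]

/-- linear map defined on the basis -/
noncomputable def lift {m : ℕ} {M : Type} [AddCommMonoid M] [Module R M] (f : (Fin m → C) → M) :
    A R m C →ₗ[R] M := Finsupp.linearCombination R f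

theorem lift_e {m : ℕ} {M : Type} [AddCommMonoid M] [Module R M] (f : (Fin m → C) → M)
    (v : Fin m → C) : lift f (e v : A R m C) = f v := by
  simp [lift, e, Finsupp.linearCombination_single]

/-- boundary of tuples -/
noncomputable def dA (m : ℕ) : A R (m + 1) C →ₗ[R] A R m C :=
  lift (fun v => ∑ i : Fin (m + 1), (-1 : R) ^ (i : ℕ) • e (fun j => v (i.succAbove j)))

theorem dA_e {m : ℕ} (v : Fin (m + 1) → C) :
    dA m (e v : A R (m + 1) C) =
      ∑ i : Fin (m + 1), (-1 : R) ^ (i : ℕ) • e (fun j => v (i.succAbove j)) := lift_e _ _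

/-- prepend a point -/
noncomputable def cA (p : C) (m : ℕ) : A R m C →ₗ[R] A R (m + 1) C :=
  lift (fun v => e (Fin.cons p v : Fin (m + 1) → C))

theorem cA_e {m : ℕ} (p : C) (v : Fin m → C) :
    cA p m (e v : A R m C) = e (Fin.cons p v : Fin (m + 1) → C) := lift_e _ _

theorem cons_zero_face {m : ℕ} (p : C) (v : Fin m → C) :
    (fun j => (Fin.cons p v : Fin (m + 1) → C) ((0 : Fin (m + 1)).succAbove j)) = v := by
  funext j
  simp

theorem cons_succ_face {m : ℕ} (p : C) (v : Fin (m + 1) → C) (i : Fin (m + 1)) :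
    (fun j => (Fin.cons p v : Fin (m + 2) → C) (i.succ.succAbove j))
      = Fin.cons p (fun j => v (i.succAbove j)) := by
  funext j
  refine Fin.cases ?_ (fun j => ?_) j
  · simp
  · simp

theorem dA_cA_zero (p : C) (c : A R 0 C) : dA 0 (cA p 0 c) = c := by
  refine A_ext (f := dA 0 ∘ₗ cA p 0) (g := LinearMap.id) ?_ c
  intro v
  simp only [LinearMap.comp_apply, LinearMap.id_apply]
  rw [cA_e, dA_e, Fin.sum_univ_succ, cons_zero_face]
  simp

theorem dA_cA {m : ℕ} (p : C) (c : A R (m + 1) C) :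
    dA (m + 1) (cA p (m + 1) c) = c - cA p m (dA m c) := by
  refine A_ext (f := dA (m + 1) ∘ₗ cA p (m + 1)) (g := LinearMap.id - cA p m ∘ₗ dA m) ?_ c
  intro v
  simp only [LinearMap.comp_apply, LinearMap.id_apply, LinearMap.sub_apply]
  rw [cA_e, dA_e, Fin.sum_univ_succ, cons_zero_face, dA_e, map_sum]
  simp only [Fin.val_zero, pow_zero, one_smul]
  rw [sub_eq_add_neg, ← Finset.sum_neg_distrib]
  congr 1
  refine Finset.sum_congr rfl fun i _ => ?_
  rw [cons_succ_face, map_smul, cA_e, Fin.val_succ, pow_succ, mul_neg_one, neg_smul]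

theorem dA_dA : ∀ (m : ℕ) (c : A R (m + 2) C), dA m (dA (m + 1) c) = 0 := by
  intro m
  induction m with
  | zero =>
    intro c
    refine A_ext (f := dA 0 ∘ₗ dA 1) (g := 0) ?_ c
    intro v
    have hv : (e v : A R 2 C) = cA (v 0) 1 (e (Fin.tail v)) := by
      rw [cA_e, Fin.cons_self_tail]
    simp only [LinearMap.comp_apply, LinearMap.zero_apply]
    rw [hv, dA_cA, map_sub, dA_cA_zero, sub_self]
  | succ m ih =>
    intro c
    refine A_ext (f := dA (m + 1) ∘ₗ dA (m + 2)) (g := 0) ?_ c
    intro v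
    have hv : (e v : A R (m + 3) C) = cA (v 0) (m + 2) (e (Fin.tail v)) := by
      rw [cA_e, Fin.cons_self_tail]
    simp only [LinearMap.comp_apply, LinearMap.zero_apply]
    rw [hv, dA_cA, map_sub, dA_cA, ih, map_zero, sub_zero, sub_self]

/-- subdivision operator -/
noncomputable def sA : (m : ℕ) → A R m C →ₗ[R] A R m C
  | 0 => LinearMap.id
  | (m + 1) => lift (fun v => cA (bar v) m (sA m (dA m (e v))))

theorem sA_succ {m : ℕ} (v : Fin (m + 1) → C) :
    sA (m + 1) (e v : A R (m + 1) C) = cA (bar v) m (sA m (dA m (e v))) := lift_e _ _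

/-- homotopy operator -/
noncomputable def tA : (m : ℕ) → A R m C →ₗ[R] A R (m + 1) C
  | 0 => 0
  | (m + 1) => lift (fun v => cA (bar v) (m + 1) (e v - tA m (dA m (e v))))

theorem tA_succ {m : ℕ} (v : Fin (m + 1) → C) :
    tA (m + 1) (e v : A R (m + 1) C) = cA (bar v) (m + 1) (e v - tA m (dA m (e v))) := lift_e _ _

theorem dA_sA : ∀ (m : ℕ) (c : A R (m + 1) C),
    dA m (sA (m + 1) c) = sA m (dA m c) := by
  intro m
  induction m with
  | zero =>
    intro c
    refine A_ext (f := dA 0 ∘ₗ sA 1) (g := sA 0 ∘ₗ dA 0) ?_ c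
    intro v
    simp only [LinearMap.comp_apply]
    rw [sA_succ, dA_cA_zero]
  | succ m ih =>
    intro c
    refine A_ext (f := dA (m + 1) ∘ₗ sA (m + 2)) (g := sA (m + 1) ∘ₗ dA (m + 1)) ?_ c
    intro v
    simp only [LinearMap.comp_apply]
    rw [sA_succ, dA_cA, ih, dA_dA, map_zero, map_zero, sub_zero]

theorem dA_tA : ∀ (m : ℕ) (c : A R (m + 1) C),
    dA (m + 1) (tA (m + 1) c) = c - sA (m + 1) c - tA m (dA m c) := by
  intro m
  induction m with
  | zero =>
    intro c
    refine A_ext (f := dA 1 ∘ₗ tA 1)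
      (g := LinearMap.id - sA 1 - tA 0 ∘ₗ dA 0) ?_ c
    intro v
    simp only [LinearMap.comp_apply, LinearMap.sub_apply, LinearMap.id_apply]
    rw [tA_succ, dA_cA, map_sub, sA_succ]
    simp only [tA, LinearMap.zero_apply, map_zero, sub_zero, sA, LinearMap.id_apply]
  | succ m ih =>
    intro c
    refine A_ext (f := dA (m + 2) ∘ₗ tA (m + 2))
      (g := LinearMap.id - sA (m + 2) - tA (m + 1) ∘ₗ dA (m + 1)) ?_ c
    intro v
    simp only [LinearMap.comp_apply, LinearMap.sub_apply, LinearMap.id_apply]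
    rw [tA_succ, dA_cA, map_sub, ih, dA_dA, map_zero, sub_zero, sub_sub_cancel, ← sA_succ]
    abel

/-- push forward along affine maps -/
noncomputable def pA (f : C(C, C')) (m : ℕ) : A R m C →ₗ[R] A R m C' :=
  lift (fun v => e (fun i => f (v i)))

theorem pA_e {m : ℕ} (f : C(C, C')) (v : Fin m → C) :
    pA f m (e v : A R m C) = e (fun i => f (v i)) := lift_e _ _

theorem pA_dA {m : ℕ} (f : C(C, C')) (c : A R (m + 1) C) :
    pA f m (dA m c) = dA m (pA f (m + 1) c) := by
  refine A_ext (f := pA f m ∘ₗ dA m) (g := dA m ∘ₗ pA f (m + 1)) ?_ c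
  intro v
  simp only [LinearMap.comp_apply]
  rw [dA_e, map_sum, pA_e, dA_e]
  refine Finset.sum_congr rfl fun i _ => ?_
  rw [map_smul, pA_e]

theorem pA_cA {m : ℕ} (f : C(C, C')) (p : C) (c : A R m C) :
    pA f (m + 1) (cA p m c) = cA (f p) m (pA f m c) := by
  refine A_ext (f := pA f (m + 1) ∘ₗ cA p m) (g := cA (f p) m ∘ₗ pA f m) ?_ c
  intro v
  simp only [LinearMap.comp_apply]
  rw [cA_e, pA_e, pA_e, cA_e]
  congr 1
  funext j
  refine Fin.cases ?_ (fun j => ?_) j
  · simp
  · simp

theorem pA_sA {f : C(C, C')} (hf : IsAff f) : ∀ (m : ℕ) (c : A R m C),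
    pA f m (sA m c) = sA m (pA f m c) := by
  intro m
  induction m with
  | zero => intro c; rfl
  | succ m ih =>
    intro c
    refine A_ext (f := pA f (m + 1) ∘ₗ sA (m + 1)) (g := sA (m + 1) ∘ₗ pA f (m + 1)) ?_ c
    intro v
    simp only [LinearMap.comp_apply]
    rw [sA_succ, pA_cA, ih, pA_dA, aff_bar hf, pA_e, sA_succ]

theorem pA_tA {f : C(C, C')} (hf : IsAff f) : ∀ (m : ℕ) (c : A R m C),
    pA f (m + 1) (tA m c) = tA m (pA f m c) := by
  intro m
  induction m with
  | zero => intro c; simp [tA]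
  | succ m ih =>
    intro c
    refine A_ext (f := pA f (m + 2) ∘ₗ tA (m + 1)) (g := tA (m + 1) ∘ₗ pA f (m + 1)) ?_ c
    intro v
    simp only [LinearMap.comp_apply]
    rw [tA_succ, pA_cA, map_sub, ih, pA_dA, aff_bar hf, pA_e, tA_succ]

/-! ### prisms -/

/-- the inclusion of the slice at height `s` -/
def sl (s : unitInterval) : C(C, C × unitInterval) :=
  ⟨fun x => (x, s), by fun_prop⟩

theorem sl_prod (s : unitInterval) (f : C(C, C')) (x : C) :
    (f.prodMap (ContinuousMap.id unitInterval)) (sl s x) = sl s (f x) := rfl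

/-- prism operator -/
noncomputable def pr : (m : ℕ) → A R m C →ₗ[R] A R (m + 1) (C × unitInterval)
  | 0 => 0
  | (m + 1) => lift (fun v => cA (sl 0 (bar v)) (m + 1)
      (pA (sl 1) (m + 1) (e v) - pA (sl 0) (m + 1) (e v) - pr m (dA m (e v))))

theorem pr_succ {m : ℕ} (v : Fin (m + 1) → C) :
    pr (m + 1) (e v : A R (m + 1) C) = cA (sl 0 (bar v)) (m + 1)
      (pA (sl 1) (m + 1) (e v) - pA (sl 0) (m + 1) (e v) - pr m (dA m (e v))) := lift_e _ _

theorem pA_zero (f f' : C(C, C')) (c : A R 0 C) : pA f 0 c = pA f' 0 c := by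
  refine A_ext (f := pA f 0) (g := pA f' 0) ?_ c
  intro v
  rw [pA_e, pA_e]
  congr 1
  funext i
  exact i.elim0

theorem dA_pr : ∀ (m : ℕ) (c : A R (m + 1) C),
    dA (m + 1) (pr (m + 1) c) =
      pA (sl 1) (m + 1) c - pA (sl 0) (m + 1) c - pr m (dA m c) := by
  intro m
  induction m with
  | zero =>
    intro c
    refine A_ext (f := dA 1 ∘ₗ pr 1)
      (g := pA (sl 1) 1 - pA (sl 0) 1 - pr 0 ∘ₗ dA 0) ?_ c
    intro v
    simp only [LinearMap.comp_apply, LinearMap.sub_apply]
    rw [pr_succ, dA_cA]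
    have h1 : dA 0 (pA (sl 1) 1 (e v) - pA (sl 0) 1 (e v) - pr 0 (dA 0 (e v)) :
        A R 1 (C × unitInterval)) = 0 := by
      simp only [pr, LinearMap.zero_apply, sub_zero]
      rw [map_sub, ← pA_dA, ← pA_dA, pA_zero (sl 1) (sl 0), sub_self]
    have h2 : ∀ x : A R 1 (C × unitInterval), dA 0 x = 0 →
        x - cA (sl 0 (bar v)) 0 (dA 0 x) = x := by
      intro x hx
      rw [hx, map_zero, sub_zero]
    exact h2 _ h1
  | succ m ih =>
    intro c
    refine A_ext (f := dA (m + 2) ∘ₗ pr (m + 2))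
      (g := pA (sl 1) (m + 2) - pA (sl 0) (m + 2) - pr (m + 1) ∘ₗ dA (m + 1)) ?_ c
    intro v
    simp only [LinearMap.comp_apply, LinearMap.sub_apply]
    rw [pr_succ, dA_cA]
    have h1 : dA (m + 1) (pA (sl 1) (m + 2) (e v) - pA (sl 0) (m + 2) (e v)
        - pr (m + 1) (dA (m + 1) (e v)) : A R (m + 2) (C × unitInterval)) = 0 := by
      rw [map_sub, map_sub, ih, ← pA_dA, ← pA_dA, dA_dA, map_zero, sub_zero, sub_self]
    rw [h1, map_zero, sub_zero]

theorem pA_comp {C'' : Type} [TopologicalSpace C''] [Cvx C''] (f : C(C, C')) (f' : C(C', C''))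
    (m : ℕ) (c : A R m C) : pA f' m (pA f m c) = pA (f'.comp f) m c := by
  refine A_ext (f := pA f' m ∘ₗ pA f m) (g := pA (f'.comp f) m) ?_ c
  intro v
  simp only [LinearMap.comp_apply]
  rw [pA_e, pA_e, pA_e]
  rfl

theorem pA_pr {f : C(C, C')} (hf : IsAff f) : ∀ (m : ℕ) (c : A R m C),
    pA (f.prodMap (ContinuousMap.id unitInterval)) (m + 1) (pr m c) = pr m (pA f m c) := by
  intro m
  induction m with
  | zero => intro c; simp [pr]
  | succ m ih =>
    intro c
    refine A_ext (f := pA (f.prodMap (ContinuousMap.id unitInterval)) (m + 2) ∘ₗ pr (m + 1))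
      (g := pr (m + 1) ∘ₗ pA f (m + 1)) ?_ c
    intro v
    simp only [LinearMap.comp_apply]
    have h1 : pA (f.prodMap (ContinuousMap.id unitInterval)) (m + 1)
        (pA (sl 1) (m + 1) (e v) - pA (sl 0) (m + 1) (e v) - pr m (dA m (e v)) :
          A R (m + 1) (C × unitInterval))
        = pA (sl 1) (m + 1) (e (fun i => f (v i))) - pA (sl 0) (m + 1) (e (fun i => f (v i)))
          - pr m (dA m (e (fun i => f (v i)))) := by
      rw [map_sub, map_sub, ih, pA_dA, pA_comp, pA_comp, pA_e, pA_e, pA_e, pA_e, pA_e]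
      rfl
    rw [pr_succ, pA_cA, h1, sl_prod, aff_bar hf, pA_e f v, pr_succ]

end chains

end Pool.Agent.Helper72.HZ
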