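import Mathlib
import Pool.Agent.Helper72.HZ1

/-!
Singular chains, push forward, subdivision, prism operators.
-/

set_option linter.unusedSectionVars false

namespace Pool.Agent.Helper72.HZ

open Finset

variable {R : Type} [CommRing R]
variable {X Y Z : Type} [TopologicalSpace X] [TopologicalSpace Y] [TopologicalSpace Z]
variable {C C' : Type} [TopologicalSpace C] [TopologicalSpace C'] [Cvx C] [Cvx C']

/-- singular chains -/
def L (R : Type) [CommRing R] (X : Type) [TopologicalSpace X] (n : ℕ) : Type := C(D n, X) →₀ R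

noncomputable instance {n : ℕ} : AddCommGroup (L R X n) :=
  inferInstanceAs (AddCommGroup (C(D n, X) →₀ R))

noncomputable instance {n : ℕ} : Module R (L R X n) :=
  inferInstanceAs (Module R (C(D n, X) →₀ R))

/-- chains as finitely supported functions -/
noncomputable def toF (R : Type) [CommRing R] (X : Type) [TopologicalSpace X] (n : ℕ) :
    L R X n ≃ₗ[R] (C(D n, X) →₀ R) where
  toFun z := z
  invFun z := z
  map_add' _ _ := rfl
  map_smul' _ _ := rfl
  left_inv _ := rfl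
  right_inv _ := rfl

/-- basis element -/
noncomputable def s1 {n : ℕ} (σ : C(D n, X)) : L R X n := (toF R X n).symm (Finsupp.single σ 1)

theorem toF_s1 {n : ℕ} (σ : C(D n, X)) : toF R X n (s1 σ) = Finsupp.single σ 1 := rfl

theorem L_ext {n : ℕ} {M : Type} [AddCommMonoid M] [Module R M]
    {f g : L R X n →ₗ[R] M} (h : ∀ σ, f (s1 σ) = g (s1 σ)) (c : L R X n) : f c = g c := by
  have : f ∘ₗ (toF R X n).symm.toLinearMap = g ∘ₗ (toF R X n).symm.toLinearMap :=
    Finsupp.lhom_ext' fun v => LinearMap.ext_ring (h v)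
  exact congrArg (fun φ => φ (toF R X n c)) this

/-- linear map defined on simplices -/
noncomputable def liftL {n : ℕ} {M : Type} [AddCommMonoid M] [Module R M] (f : C(D n, X) → M) :
    L R X n →ₗ[R] M := Finsupp.linearCombination R f ∘ₗ (toF R X n).toLinearMap

theorem liftL_s1 {n : ℕ} {M : Type} [AddCommMonoid M] [Module R M] (f : C(D n, X) → M)
    (σ : C(D n, X)) : liftL f (s1 σ : L R X n) = f σ := by
  rw [liftL, LinearMap.comp_apply, LinearEquiv.coe_coe, toF_s1, Finsupp.linearCombination_single,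
    one_smul]

/-- face inclusion of simplices -/
noncomputable def face {n : ℕ} (i : Fin (n + 2)) : C(D n, D (n + 1)) :=
  comb (fun j => io (n + 1) (i.succAbove j))

/-- boundary -/
noncomputable def dL (n : ℕ) : L R X (n + 1) →ₗ[R] L R X n :=
  liftL (fun σ => ∑ i : Fin (n + 2), (-1 : R) ^ (i : ℕ) • s1 (σ.comp (face i)))

theorem dL_s1 {n : ℕ} (σ : C(D (n + 1), X)) :
    dL n (s1 σ : L R X (n + 1)) =
      ∑ i : Fin (n + 2), (-1 : R) ^ (i : ℕ) • s1 (σ.comp (face i)) := liftL_s1 _ _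

/-- realization of tuple chains -/
noncomputable def rl (τ : C(C, X)) (m : ℕ) : A R (m + 1) C →ₗ[R] L R X m :=
  lift (fun v => s1 (τ.comp (comb v)))

theorem rl_e {m : ℕ} (τ : C(C, X)) (v : Fin (m + 1) → C) :
    rl τ m (e v : A R (m + 1) C) = s1 (τ.comp (comb v)) := lift_e _ _

theorem aff_comp {f : C(C, C')} (hf : IsAff f) {m : ℕ} (v : Fin (m + 1) → C) :
    f.comp (comb v) = comb (fun i => f (v i)) := by
  ext1 t
  exact hf v t

theorem rl_face {m : ℕ} (v : Fin (m + 2) → C) (i : Fin (m + 2)) :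
    (comb v : C(D (m + 1), C)).comp (face i) = comb (fun j => v (i.succAbove j)) := by
  rw [face, aff_comp (isAff_comb v)]
  congr 1
  funext j
  exact comb_vertex v _

theorem dL_rl {m : ℕ} (τ : C(C, X)) (c : A R (m + 2) C) :
    dL m (rl τ (m + 1) c) = rl τ m (dA (m + 1) c) := by
  refine A_ext (f := dL m ∘ₗ rl τ (m + 1)) (g := rl τ m ∘ₗ dA (m + 1)) ?_ c
  intro v
  simp only [LinearMap.comp_apply]
  rw [rl_e, dL_s1, dA_e, map_sum]
  refine Finset.sum_congr rfl fun i _ => ?_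
  rw [map_smul, rl_e, ContinuousMap.comp_assoc, rl_face]

theorem rl_comp {m : ℕ} (τ : C(C, X)) {f : C(C', C)} (hf : IsAff f) (c : A R (m + 1) C') :
    rl (τ.comp f) m c = rl τ m (pA f (m + 1) c) := by
  refine A_ext (f := rl (τ.comp f) m) (g := rl τ m ∘ₗ pA f (m + 1)) ?_ c
  intro v
  simp only [LinearMap.comp_apply]
  rw [rl_e, pA_e, rl_e, ContinuousMap.comp_assoc, aff_comp hf]

theorem pA_io {n : ℕ} (w : Fin (n + 1) → C) :
    pA (comb w) (n + 1) (e (io n)) = (e w : A R (n + 1) C) := by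
  rw [pA_e]
  congr 1
  funext i
  exact comb_vertex w i

theorem rl_io {n : ℕ} (σ : C(D n, X)) : rl σ n (e (io n)) = (s1 σ : L R X n) := by
  rw [rl_e]
  congr 1
  ext1 t
  exact congrArg σ (comb_io t)

/-- subdivision of singular chains -/
noncomputable def SL (n : ℕ) : L R X n →ₗ[R] L R X n :=
  liftL (fun σ => rl σ n (sA (n + 1) (e (io n))))

theorem SL_s1 {n : ℕ} (σ : C(D n, X)) :
    SL n (s1 σ : L R X n) = rl σ n (sA (n + 1) (e (io n))) := liftL_s1 _ _

/-- homotopy -/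
noncomputable def TL (n : ℕ) : L R X n →ₗ[R] L R X (n + 1) :=
  liftL (fun σ => rl σ (n + 1) (tA (n + 1) (e (io n))))

theorem TL_s1 {n : ℕ} (σ : C(D n, X)) :
    TL n (s1 σ : L R X n) = rl σ (n + 1) (tA (n + 1) (e (io n))) := liftL_s1 _ _

theorem SL_rl {m : ℕ} (τ : C(C, X)) (c : A R (m + 1) C) :
    SL m (rl τ m c) = rl τ m (sA (m + 1) c) := by
  refine A_ext (f := SL m ∘ₗ rl τ m) (g := rl τ m ∘ₗ sA (m + 1)) ?_ c
  intro v
  simp only [LinearMap.comp_apply]
  rw [rl_e, SL_s1, rl_comp τ (isAff_comb v), pA_sA (isAff_comb v), pA_io]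

theorem TL_rl {m : ℕ} (τ : C(C, X)) (c : A R (m + 1) C) :
    TL m (rl τ m c) = rl τ (m + 1) (tA (m + 1) c) := by
  refine A_ext (f := TL m ∘ₗ rl τ m) (g := rl τ (m + 1) ∘ₗ tA (m + 1)) ?_ c
  intro v
  simp only [LinearMap.comp_apply]
  rw [rl_e, TL_s1, rl_comp τ (isAff_comb v), pA_tA (isAff_comb v), pA_io]

theorem dL_dL {n : ℕ} (z : L R X (n + 2)) : dL n (dL (n + 1) z) = 0 := by
  refine L_ext (f := dL n ∘ₗ dL (n + 1)) (g := 0) ?_ z
  intro σ
  simp only [LinearMap.comp_apply, LinearMap.zero_apply]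
  rw [← rl_io σ, dL_rl, dL_rl, dA_dA, map_zero]

theorem dL_SL {n : ℕ} (z : L R X (n + 1)) : dL n (SL (n + 1) z) = SL n (dL n z) := by
  refine L_ext (f := dL n ∘ₗ SL (n + 1)) (g := SL n ∘ₗ dL n) ?_ z
  intro σ
  simp only [LinearMap.comp_apply]
  rw [SL_s1, dL_rl, dA_sA, ← SL_rl, ← dL_rl, rl_io]

theorem dL_TL_zero (z : L R X 0) : dL 0 (TL 0 z) = z - SL 0 z := by
  refine L_ext (f := dL 0 ∘ₗ TL 0) (g := LinearMap.id - SL 0) ?_ z
  intro σ
  simp only [LinearMap.comp_apply, LinearMap.sub_apply, LinearMap.id_apply]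
  rw [TL_s1, dL_rl, dA_tA, map_sub, map_sub, rl_io, SL_s1]
  simp [tA]

theorem dL_TL_succ {n : ℕ} (z : L R X (n + 1)) :
    dL (n + 1) (TL (n + 1) z) = z - SL (n + 1) z - TL n (dL n z) := by
  refine L_ext (f := dL (n + 1) ∘ₗ TL (n + 1))
    (g := LinearMap.id - SL (n + 1) - TL n ∘ₗ dL n) ?_ z
  intro σ
  simp only [LinearMap.comp_apply, LinearMap.sub_apply, LinearMap.id_apply]
  rw [TL_s1, dL_rl, dA_tA, map_sub, map_sub, rl_io, SL_s1, ← TL_rl, ← dL_rl, rl_io]

/-! ### chains in subsets -/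

/-- chains in a subset -/
noncomputable def S (R : Type) [CommRing R] {X : Type} [TopologicalSpace X] (W : Set X) (n : ℕ) :
    Submodule R (L R X n) :=
  (Finsupp.supported R R {σ : C(D n, X) | ∀ t, σ t ∈ W}).comap (toF R X n).toLinearMap

theorem s1_mem {W : Set X} {n : ℕ} {σ : C(D n, X)} (h : ∀ t, σ t ∈ W) : s1 σ ∈ S R W n :=
  Finsupp.single_mem_supported _ _ h

theorem S_span (W : Set X) (n : ℕ) :
    S R W n = Submodule.span R (s1 '' {σ : C(D n, X) | ∀ t, σ t ∈ W}) := by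
  have h0 := Finsupp.supported_eq_span_single R {σ : C(D n, X) | ∀ t, σ t ∈ W}
  rw [S, h0]
  have h1 : (s1 '' {σ : C(D n, X) | ∀ t, σ t ∈ W} : Set (L R X n)) =
      (toF R X n).symm '' ((fun σ => Finsupp.single σ (1 : R)) ''
        {σ : C(D n, X) | ∀ t, σ t ∈ W}) := by
    rw [Set.image_image]
    rfl
  have h2 := Submodule.map_span (toF R X n).symm.toLinearMap
    ((fun σ => Finsupp.single σ (1 : R)) '' {σ : C(D n, X) | ∀ t, σ t ∈ W})
  rw [LinearEquiv.coe_coe] at h2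
  rw [h1, ← h2]
  exact Submodule.comap_equiv_eq_map_symm (toF R X n) _

theorem S_map {W : Set X} {n : ℕ} {M : Type} [AddCommMonoid M] [Module R M]
    {f : L R X n →ₗ[R] M} {P : Submodule R M} (h : ∀ σ : C(D n, X), (∀ t, σ t ∈ W) → f (s1 σ) ∈ P)
    {z : L R X n} (hz : z ∈ S R W n) : f z ∈ P := by
  rw [S_span] at hz
  have : Submodule.span R (s1 '' {σ : C(D n, X) | ∀ t, σ t ∈ W}) ≤ P.comap f := by
    rw [Submodule.span_le]
    rintro _ ⟨σ, hσ, rfl⟩
    exact h σ hσ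
  exact this hz

theorem S_ext {W : Set X} {n : ℕ} {M : Type} [AddCommGroup M] [Module R M]
    {f g : L R X n →ₗ[R] M} (h : ∀ σ : C(D n, X), (∀ t, σ t ∈ W) → f (s1 σ) = g (s1 σ))
    {z : L R X n} (hz : z ∈ S R W n) : f z = g z := by
  have h1 := S_map (f := f - g) (P := ⊥) (fun σ hσ => by
    rw [Submodule.mem_bot, LinearMap.sub_apply, h σ hσ, sub_self]) hz
  rw [Submodule.mem_bot, LinearMap.sub_apply] at h1
  exact sub_eq_zero.1 h1

theorem S_mono {W W' : Set X} (h : W ⊆ W') (n : ℕ) : S R W n ≤ S R W' n :=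
  Submodule.comap_mono (Finsupp.supported_mono fun _ hσ t => h (hσ t))

theorem S_inter (P Q : Set X) (n : ℕ) : S R P n ⊓ S R Q n = S R (P ∩ Q) n := by
  rw [S, S, S, ← Submodule.comap_inf, ← Finsupp.supported_inter]
  congr 2
  ext σ
  constructor
  · rintro ⟨h1, h2⟩ t
    exact ⟨h1 t, h2 t⟩
  · intro h
    exact ⟨fun t => (h t).1, fun t => (h t).2⟩

theorem S_univ (n : ℕ) (z : L R X n) : z ∈ S R (Set.univ : Set X) n := by
  intro σ _ t
  trivial

theorem S_empty {n : ℕ} {z : L R X n} (hz : z ∈ S R (∅ : Set X) n) : z = 0 := by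
  have := S_ext (f := LinearMap.id) (g := 0) (W := (∅ : Set X)) (fun σ hσ => by
    exact absurd (hσ (io n 0)) (Set.notMem_empty _)) hz
  simpa using this

theorem dL_mem {W : Set X} {n : ℕ} {z : L R X (n + 1)} (hz : z ∈ S R W (n + 1)) :
    dL n z ∈ S R W n := by
  refine S_map (fun σ hσ => ?_) hz
  rw [dL_s1]
  refine Submodule.sum_mem _ fun i _ => Submodule.smul_mem _ _ (s1_mem fun t => hσ _)

theorem rl_mem {W : Set X} {m : ℕ} {τ : C(C, X)} (hτ : ∀ x, τ x ∈ W) (c : A R (m + 1) C) :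
    rl τ m c ∈ S R W m := by
  have h1 : ∀ c : A R (m + 1) C, ((S R W m).mkQ ∘ₗ rl τ m) c = (0 : _ →ₗ[R] _) c := by
    intro c
    refine A_ext ?_ c
    intro v
    rw [LinearMap.comp_apply, rl_e, LinearMap.zero_apply]
    rw [Submodule.mkQ_apply, Submodule.Quotient.mk_eq_zero]
    exact s1_mem fun t => hτ _
  have h2 := h1 c
  rw [LinearMap.comp_apply, LinearMap.zero_apply, Submodule.mkQ_apply,
    Submodule.Quotient.mk_eq_zero] at h2
  exact h2

theorem SL_mem {W : Set X} {n : ℕ} {z : L R X n} (hz : z ∈ S R W n) : SL n z ∈ S R W n := by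
  refine S_map (fun σ hσ => ?_) hz
  rw [SL_s1]
  exact rl_mem hσ _

theorem TL_mem {W : Set X} {n : ℕ} {z : L R X n} (hz : z ∈ S R W n) :
    TL n z ∈ S R W (n + 1) := by
  refine S_map (fun σ hσ => ?_) hz
  rw [TL_s1]
  exact rl_mem hσ _

/-! ### push forward -/

open Classical in
/-- push forward -/
noncomputable def pf (f : X → Y) (n : ℕ) : L R X n →ₗ[R] L R Y n :=
  liftL (fun σ => if h : Continuous (f ∘ σ) then s1 ⟨f ∘ σ, h⟩ else 0)

theorem pf_s1 {f : X → Y} {n : ℕ} {σ : C(D n, X)} (h : Continuous (f ∘ σ)) :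
    pf f n (s1 σ : L R X n) = s1 ⟨f ∘ σ, h⟩ := by
  rw [pf, liftL_s1, dif_pos h]

theorem comp_cont {f : X → Y} {W : Set X} (hf : ContinuousOn f W) {K : Type} [TopologicalSpace K]
    {σ : C(K, X)} (hσ : ∀ t, σ t ∈ W) : Continuous (f ∘ σ) :=
  hf.comp_continuous σ.continuous hσ

theorem pf_mem {f : X → Y} {W : Set X} {W' : Set Y} (hf : ContinuousOn f W)
    (hm : Set.MapsTo f W W') {n : ℕ} {z : L R X n} (hz : z ∈ S R W n) :
    pf f n z ∈ S R W' n := by
  refine S_map (fun σ hσ => ?_) hz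
  rw [pf_s1 (comp_cont hf hσ)]
  exact s1_mem fun t => hm (hσ t)

theorem dL_pf {f : X → Y} {W : Set X} (hf : ContinuousOn f W) {n : ℕ} {z : L R X (n + 1)}
    (hz : z ∈ S R W (n + 1)) : dL n (pf f (n + 1) z) = pf f n (dL n z) := by
  refine S_ext (f := dL n ∘ₗ pf f (n + 1)) (g := pf f n ∘ₗ dL n) (fun σ hσ => ?_) hz
  simp only [LinearMap.comp_apply]
  rw [pf_s1 (comp_cont hf hσ), dL_s1, dL_s1, map_sum]
  refine Finset.sum_congr rfl fun i _ => ?_
  have h1 : ∀ t, (σ.comp (face i)) t ∈ W := fun t => hσ _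
  rw [map_smul, pf_s1 (comp_cont hf h1)]
  rfl

theorem pf_comp {f : X → Y} {g : Y → Z} {W : Set X} {W' : Set Y} (hf : ContinuousOn f W)
    (hm : Set.MapsTo f W W') (hg : ContinuousOn g W') {n : ℕ} {z : L R X n}
    (hz : z ∈ S R W n) : pf g n (pf f n z) = pf (g ∘ f) n z := by
  refine S_ext (f := pf g n ∘ₗ pf f n) (g := pf (g ∘ f) n) (fun σ hσ => ?_) hz
  simp only [LinearMap.comp_apply]
  rw [pf_s1 (comp_cont hf hσ)]
  have h1 : ∀ t, (⟨f ∘ σ, comp_cont hf hσ⟩ : C(D n, Y)) t ∈ W' := fun t => hm (hσ t)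
  rw [pf_s1 (comp_cont hg h1)]
  have h2 : Continuous ((g ∘ f) ∘ σ) := comp_cont hg h1
  rw [pf_s1 h2]
  rfl

theorem pf_congr {f g : X → Y} {W : Set X} (h : Set.EqOn f g W) {n : ℕ} {z : L R X n}
    (hz : z ∈ S R W n) : pf f n z = pf g n z := by
  refine S_ext (fun σ hσ => ?_) hz
  have h1 : f ∘ σ = g ∘ σ := by
    funext t
    exact h (hσ t)
  rw [pf, pf, liftL_s1, liftL_s1]
  by_cases hc : Continuous (g ∘ σ)
  · rw [dif_pos hc, dif_pos (h1 ▸ hc)]
    congr 1
    ext1 t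
    exact congrFun h1 t
  · rw [dif_neg hc, dif_neg (h1 ▸ hc)]

theorem pf_id {n : ℕ} (z : L R X n) : pf id n z = z := by
  refine L_ext (f := pf id n) (g := LinearMap.id) ?_ z
  intro σ
  rw [pf_s1 (by simpa using σ.continuous)]
  rfl

/-! ### prism operator -/

theorem sl_aff (s : unitInterval) : IsAff (sl s : C(C, C × unitInterval)) := by
  intro m v t
  rw [comb_prod]
  show (comb v t, s) = (comb v t, _)
  congr 1
  apply Subtype.ext
  show s.1 = ∑ i, t.1 i * s.1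
  rw [← Finset.sum_mul, show ∑ i, t.1 i = 1 from t.2.2, one_mul]

open Classical in
/-- prism operator -/
noncomputable def pz (F : X → unitInterval → Y) (n : ℕ) : L R X n →ₗ[R] L R Y (n + 1) :=
  liftL (fun σ => if h : Continuous (fun p : D n × unitInterval => F (σ p.1) p.2) then
    rl ⟨_, h⟩ (n + 1) (pr (n + 1) (e (io n))) else 0)

theorem pz_s1 {F : X → unitInterval → Y} {n : ℕ} {σ : C(D n, X)}
    (h : Continuous (fun p : D n × unitInterval => F (σ p.1) p.2)) :
    pz F n (s1 σ : L R X n) = rl ⟨_, h⟩ (n + 1) (pr (n + 1) (e (io n))) := by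
  rw [pz, liftL_s1, dif_pos h]

/-- homotopies defined on a subset -/
def HomOn (F : X → unitInterval → Y) (W : Set X) : Prop :=
  ContinuousOn (fun p : X × unitInterval => F p.1 p.2) (W ×ˢ Set.univ)

theorem HomOn.comp {F : X → unitInterval → Y} {W : Set X} (hF : HomOn F W) {K : Type}
    [TopologicalSpace K] {σ : C(K, X)} (hσ : ∀ t, σ t ∈ W) :
    Continuous (fun p : K × unitInterval => F (σ p.1) p.2) := by
  refine ContinuousOn.comp_continuous (f := fun p : K × unitInterval => (σ p.1, p.2)) hF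
    (by fun_prop) ?_
  intro p
  exact ⟨hσ _, trivial⟩

theorem HomOn.slice {F : X → unitInterval → Y} {W : Set X} (hF : HomOn F W) (s : unitInterval) :
    ContinuousOn (fun x => F x s) W := by
  refine ContinuousOn.comp (g := fun p : X × unitInterval => F p.1 p.2)
    (f := fun x => (x, s)) hF (by fun_prop) ?_
  intro x hx
  exact ⟨hx, trivial⟩

theorem pz_mem {F : X → unitInterval → Y} {W : Set X} {W' : Set Y} (hF : HomOn F W)
    (hm : ∀ x ∈ W, ∀ s, F x s ∈ W') {n : ℕ} {z : L R X n} (hz : z ∈ S R W n) :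
    pz F n z ∈ S R W' (n + 1) := by
  refine S_map (fun σ hσ => ?_) hz
  rw [pz_s1 (hF.comp hσ)]
  exact rl_mem (fun p => hm _ (hσ _) _) _

theorem dL_pz_aux {F : X → unitInterval → Y} {W : Set X} (hF : HomOn F W) {n : ℕ}
    {σ : C(D n, X)} (hσ : ∀ t, σ t ∈ W) :
    dL n (pz F n (s1 σ : L R X n)) = pf (fun x => F x 1) n (s1 σ) - pf (fun x => F x 0) n (s1 σ)
      - rl ⟨_, hF.comp hσ⟩ n (pr n (dA n (e (io n)))) := by
  rw [pz_s1 (hF.comp hσ), dL_rl, dA_pr, map_sub, map_sub]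
  have h1 : ∀ s : unitInterval, rl (⟨_, hF.comp hσ⟩ : C(D n × unitInterval, Y)) n
      (pA (sl s) (n + 1) (e (io n) : A R (n + 1) (D n))) = pf (fun x => F x s) n (s1 σ) := by
    intro s
    rw [← rl_comp _ (sl_aff s), rl_io, pf_s1 (comp_cont (hF.slice s) hσ)]
    rfl
  rw [h1, h1]

theorem dL_pz_zero {F : X → unitInterval → Y} {W : Set X} (hF : HomOn F W)
    {z : L R X 0} (hz : z ∈ S R W 0) :
    dL 0 (pz F 0 z) = pf (fun x => F x 1) 0 z - pf (fun x => F x 0) 0 z := by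
  refine S_ext (f := dL 0 ∘ₗ pz F 0) (g := pf (fun x => F x 1) 0 - pf (fun x => F x 0) 0)
    (fun σ hσ => ?_) hz
  simp only [LinearMap.comp_apply, LinearMap.sub_apply]
  rw [dL_pz_aux hF hσ]
  simp [pr]

theorem dL_pz_succ {F : X → unitInterval → Y} {W : Set X} (hF : HomOn F W) {n : ℕ}
    {z : L R X (n + 1)} (hz : z ∈ S R W (n + 1)) :
    dL (n + 1) (pz F (n + 1) z) = pf (fun x => F x 1) (n + 1) z - pf (fun x => F x 0) (n + 1) z
      - pz F n (dL n z) := by
  refine S_ext (f := dL (n + 1) ∘ₗ pz F (n + 1))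
    (g := pf (fun x => F x 1) (n + 1) - pf (fun x => F x 0) (n + 1) - pz F n ∘ₗ dL n)
    (fun σ hσ => ?_) hz
  simp only [LinearMap.comp_apply, LinearMap.sub_apply]
  rw [dL_pz_aux hF hσ]
  congr 1
  rw [dL_s1, dA_e, map_sum, map_sum, map_sum]
  refine Finset.sum_congr rfl fun i _ => ?_
  rw [map_smul, map_smul, map_smul]
  congr 1
  have hσ' : ∀ t, (σ.comp (face i)) t ∈ W := fun t => hσ _
  rw [pz_s1 (hF.comp hσ')]
  have h1 : (e (fun j => io (n + 1) (i.succAbove j)) : A R (n + 1) (D (n + 1)))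
      = pA (face i) (n + 1) (e (io n)) := by
    rw [face, pA_io]
  have hface : IsAff (face i : C(D n, D (n + 1))) := isAff_comb _
  rw [h1, ← pA_pr hface, ← rl_comp _ (isAff_prodMap hface)]
  rfl

end Pool.Agent.Helper72.HZ
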