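import Mathlib
import Pool.Agent.Helper72.HZ2

/-!
Small simplices.
-/

set_option linter.unusedSectionVars false

namespace Pool.Agent.Helper72.HZ

open Finset

variable {R : Type} [CommRing R]
variable {X Y Z : Type} [TopologicalSpace X] [TopologicalSpace Y] [TopologicalSpace Z]

/-! ### mesh -/

theorem dist_comb_le {m n : ℕ} (v : Fin (m + 1) → D n) (t : D m) (y : D n) {r : ℝ}
    (h : ∀ j, dist (v j) y ≤ r) : dist (comb v t) y ≤ r := by
  have hr : 0 ≤ r := dist_nonneg.trans (h 0)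
  rw [Subtype.dist_eq, dist_pi_le_iff hr]
  intro k
  have h1 : (comb v t : D n).1 k - y.1 k = ∑ i, t.1 i * ((v i).1 k - y.1 k) := by
    have h2 : ∑ i, t.1 i * y.1 k = y.1 k := by
      rw [← Finset.sum_mul]
      rw [show ∑ i, t.1 i = 1 from t.2.2, one_mul]
    have h3 : (comb v t : D n).1 k = ∑ i, t.1 i * (v i).1 k := rfl
    rw [h3]
    simp only [mul_sub, Finset.sum_sub_distrib]
    rw [h2]
  rw [Real.dist_eq, h1]
  calc |∑ i, t.1 i * ((v i).1 k - y.1 k)| ≤ ∑ i, |t.1 i * ((v i).1 k - y.1 k)| :=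
        Finset.abs_sum_le_sum_abs _ _
    _ ≤ ∑ i, t.1 i * r := by
        refine Finset.sum_le_sum fun i _ => ?_
        have ht : 0 ≤ t.1 i := t.2.1 i
        rw [abs_mul, abs_of_nonneg ht]
        refine mul_le_mul_of_nonneg_left ?_ ht
        have h4 := h i
        rw [Subtype.dist_eq, dist_pi_le_iff hr] at h4
        have h5 := h4 k
        rwa [Real.dist_eq] at h5
    _ = r := by
        rw [← Finset.sum_mul]
        rw [show ∑ i, t.1 i = 1 from t.2.2, one_mul]

theorem dist_bar_le {m n : ℕ} (v : Fin (m + 1) → D n) (j : Fin (m + 1)) {r : ℝ}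
    (h : ∀ i j, dist (v i) (v j) ≤ r) : dist (bar v) (v j) ≤ (m / (m + 1) : ℝ) * r := by
  have hr : 0 ≤ r := dist_nonneg.trans (h 0 0)
  have hm : (0 : ℝ) < m + 1 := by positivity
  have hr' : 0 ≤ (m / (m + 1) : ℝ) * r := by positivity
  rw [Subtype.dist_eq, dist_pi_le_iff hr']
  intro k
  have hb : ∀ i : Fin (m + 1), (stdSimplex.barycenter : D m).1 i = 1 / ((m : ℝ) + 1) := by
    intro i
    refine (stdSimplex.barycenter_apply (𝕜 := ℝ) i).trans ?_
    simp
  have h1 : (bar v : D n).1 k - (v j).1 k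
      = ∑ i, (1 / ((m : ℝ) + 1)) * ((v i).1 k - (v j).1 k) := by
    have h3 : (bar v : D n).1 k = ∑ i, (stdSimplex.barycenter : D m).1 i * (v i).1 k := rfl
    rw [h3]
    simp only [hb, mul_sub, Finset.sum_sub_distrib]
    congr 1
    rw [Finset.sum_const, Finset.card_univ, Fintype.card_fin, nsmul_eq_mul]
    push_cast
    field_simp
  rw [Real.dist_eq, h1, ← Finset.mul_sum, abs_mul, abs_of_nonneg (by positivity)]
  have h2 : |∑ i, ((v i).1 k - (v j).1 k)| ≤ m * r := by
    calc |∑ i, ((v i).1 k - (v j).1 k)| ≤ ∑ i, |(v i).1 k - (v j).1 k| :=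
          Finset.abs_sum_le_sum_abs _ _
      _ = ∑ i ∈ Finset.univ.erase j, |(v i).1 k - (v j).1 k| := by
          rw [← Finset.add_sum_erase _ _ (Finset.mem_univ j)]
          simp
      _ ≤ ∑ _i ∈ Finset.univ.erase j, r := by
          refine Finset.sum_le_sum fun i _ => ?_
          have h4 := h i j
          rw [Subtype.dist_eq, dist_pi_le_iff hr] at h4
          have h5 := h4 k
          rwa [Real.dist_eq] at h5
      _ = m * r := by
          rw [Finset.sum_const, Finset.card_erase_of_mem (Finset.mem_univ j), Finset.card_univ,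
            Fintype.card_fin, nsmul_eq_mul]
          simp
  calc 1 / ((m : ℝ) + 1) * |∑ i, ((v i).1 k - (v j).1 k)| ≤ 1 / ((m : ℝ) + 1) * (m * r) :=
        mul_le_mul_of_nonneg_left h2 (by positivity)
    _ = (m / (m + 1) : ℝ) * r := by ring

/-- tuples with small mutual distances inside a region -/
def Sm (m n : ℕ) (r : ℝ) : Set (Fin m → D n) := {u | ∀ i j, dist (u i) (u j) ≤ r}

/-- tuples within every ball containing `v` -/
def Hull {m' n : ℕ} (v : Fin m' → D n) (m : ℕ) : Set (Fin m → D n) :=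
  {u | ∀ y r, (∀ j, dist (v j) y ≤ r) → ∀ i, dist (u i) y ≤ r}

theorem mesh_step {n : ℕ} (N : ℕ) : ∀ (m : ℕ), m ≤ N + 1 → ∀ (v : Fin m → D n) (r : ℝ),
    v ∈ Sm m n r → 0 ≤ r →
    sA m (e v : A R m (D n)) ∈ Finsupp.supported R R
      (Sm m n ((N / (N + 1) : ℝ) * r) ∩ Hull v m) := by
  intro m
  induction m with
  | zero =>
    intro _ v r _ _
    show (e v : A R 0 (D n)) ∈ Finsupp.supported R R
      (Sm 0 n ((N / (N + 1) : ℝ) * r) ∩ Hull v 0)
    refine Finsupp.single_mem_supported _ _ ⟨fun i => i.elim0, fun _ _ _ i => i.elim0⟩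
  | succ m ih =>
    intro hm v r hv hr
    rw [sA_succ, dA_e, map_sum, map_sum]
    refine Submodule.sum_mem _ fun i _ => ?_
    rw [map_smul, map_smul]
    refine Submodule.smul_mem _ _ ?_
    have hvi : (fun j => v (i.succAbove j)) ∈ Sm m n r := fun j k => hv _ _
    have h1 := ih (by omega) (fun j => v (i.succAbove j)) r hvi hr
    -- apply `cA`
    have h2 : ∀ c : A R m (D n), c ∈ Finsupp.supported R R
        (Sm m n ((N / (N + 1) : ℝ) * r) ∩ Hull (fun j => v (i.succAbove j)) m) →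
        cA (bar v) m c ∈ Finsupp.supported R R
          (Sm (m + 1) n ((N / (N + 1) : ℝ) * r) ∩ Hull v (m + 1)) := by
      intro c hc
      rw [Finsupp.supported_eq_span_single] at hc
      have : Submodule.span R ((fun i => Finsupp.single i (1 : R)) ''
          (Sm m n ((N / (N + 1) : ℝ) * r) ∩ Hull (fun j => v (i.succAbove j)) m)) ≤
          (Finsupp.supported R R
            (Sm (m + 1) n ((N / (N + 1) : ℝ) * r) ∩ Hull v (m + 1))).comap (cA (bar v) m) := by
        rw [Submodule.span_le]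
        rintro _ ⟨u, ⟨hu1, hu2⟩, rfl⟩
        show cA (bar v) m (e u) ∈ Finsupp.supported R R
          (Sm (m + 1) n ((N / (N + 1) : ℝ) * r) ∩ Hull v (m + 1))
        rw [cA_e]
        have hκ : (m / (m + 1) : ℝ) * r ≤ (N / (N + 1) : ℝ) * r := by
          refine mul_le_mul_of_nonneg_right ?_ hr
          rw [div_le_div_iff₀ (by positivity) (by positivity)]
          have : (m : ℝ) ≤ N := by exact_mod_cast (by omega : m ≤ N)
          nlinarith
        have hbar : ∀ j, dist (v j) (bar v) ≤ (N / (N + 1) : ℝ) * r := by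
          intro j
          rw [dist_comm]
          exact (dist_bar_le v j hv).trans hκ
        have hub : ∀ j, dist (u j) (bar v) ≤ (N / (N + 1) : ℝ) * r :=
          hu2 (bar v) _ (fun j => hbar _)
        refine Finsupp.single_mem_supported _ _ ⟨?_, ?_⟩
        · intro a b
          refine Fin.cases ?_ (fun a => ?_) a <;> refine Fin.cases ?_ (fun b => ?_) b
          · simp only [dist_self]; positivity
          · rw [Fin.cons_zero, Fin.cons_succ, dist_comm]; exact hub b
          · rw [Fin.cons_zero, Fin.cons_succ]; exact hub a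
          · rw [Fin.cons_succ, Fin.cons_succ]; exact hu1 a b
        · intro y s hs a
          refine Fin.cases ?_ (fun a => ?_) a
          · rw [Fin.cons_zero]
            exact dist_comb_le v _ y hs
          · rw [Fin.cons_succ]
            exact hu2 y s (fun j => hs _) a
      exact this hc
    exact h2 _ h1

theorem mesh_map {n m : ℕ} {r : ℝ} (hr : 0 ≤ r) {c : A R (m + 1) (D n)}
    (hc : c ∈ Finsupp.supported R R (Sm (m + 1) n r)) :
    sA (m + 1) c ∈ Finsupp.supported R R
      (Sm (m + 1) n ((m / (m + 1) : ℝ) * r)) := by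
  rw [Finsupp.supported_eq_span_single] at hc
  have : Submodule.span R ((fun i => Finsupp.single i (1 : R)) ''
      (Sm (m + 1) n r)) ≤
      (Finsupp.supported R R
        (Sm (m + 1) n ((m / (m + 1) : ℝ) * r))).comap (sA (m + 1)) := by
    rw [Submodule.span_le]
    rintro _ ⟨u, hu, rfl⟩
    exact Finsupp.supported_mono (Set.inter_subset_left)
      (mesh_step m (m + 1) le_rfl u r hu hr)
  exact this hc

theorem mesh_pow {n m : ℕ} {r : ℝ} (hr : 0 ≤ r) {c : A R (m + 1) (D n)}
    (hc : c ∈ Finsupp.supported R R (Sm (m + 1) n r)) (N : ℕ) :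
    ((sA (m + 1)) ^ N) c ∈ Finsupp.supported R R
      (Sm (m + 1) n ((m / (m + 1) : ℝ) ^ N * r)) := by
  induction N with
  | zero => simpa using hc
  | succ N ih =>
    rw [pow_succ' (sA (m + 1)) N, Module.End.mul_apply, pow_succ' ((m / (m + 1) : ℝ)) N,
      mul_assoc]
    exact mesh_map (by positivity) ih

theorem SL_pow_rl {n m : ℕ} (σ : C(D n, X)) (c : A R (m + 1) (D n)) (N : ℕ) :
    ((SL m) ^ N) (rl σ m c) = rl σ m (((sA (m + 1)) ^ N) c) := by
  induction N with
  | zero => simp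
  | succ N ih =>
    rw [pow_succ', Module.End.mul_apply, ih, SL_rl, pow_succ', Module.End.mul_apply]

theorem io_small (n : ℕ) : io n ∈ Sm (n + 1) n 1 := by
  intro i j
  rw [Subtype.dist_eq, dist_pi_le_iff zero_le_one]
  intro k
  rw [Real.dist_eq, io_apply n i k, io_apply n j k]
  split_ifs <;> norm_num

/-- Fine subdivisions of a simplex are small. -/
theorem simplex_small {I : Type} {U : I → Set X} {n : ℕ} (σ : C(D n, X))
    (hU : ∀ i, IsOpen (σ ⁻¹' (U i))) (hcov : ∀ t, ∃ i, σ t ∈ U i) :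
    ∃ N0 : ℕ, ∀ N, N0 ≤ N → ((SL n) ^ N) (s1 σ : L R X n) ∈ ⨆ i, S R (U i) n := by
  have hcv : (Set.univ : Set (D n)) ⊆ ⋃ i, σ ⁻¹' (U i) := by
    intro t _
    obtain ⟨i, hi⟩ := hcov t
    exact Set.mem_iUnion.2 ⟨i, hi⟩
  obtain ⟨δ, hδ, hleb⟩ := lebesgue_number_lemma_of_metric isCompact_univ hU hcv
  have hlim : Filter.Tendsto (fun N : ℕ => ((n / (n + 1) : ℝ)) ^ N) Filter.atTop (nhds 0) := by
    refine tendsto_pow_atTop_nhds_zero_of_lt_one (by positivity) ?_
    rw [div_lt_one (by positivity)]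
    linarith
  obtain ⟨N0, hN0⟩ := Filter.eventually_atTop.1 (hlim.eventually (gt_mem_nhds hδ))
  refine ⟨N0, fun N hN => ?_⟩
  rw [← rl_io σ, SL_pow_rl]
  have hmem := mesh_pow (n := n) (m := n) zero_le_one
    (c := (e (io n) : A R (n + 1) (D n))) (Finsupp.single_mem_supported _ _ (io_small n)) N
  rw [mul_one] at hmem
  rw [Finsupp.supported_eq_span_single] at hmem
  have : Submodule.span R ((fun i => Finsupp.single i (1 : R)) ''
      (Sm (n + 1) n ((n / (n + 1) : ℝ) ^ N))) ≤ (⨆ i, S R (U i) n).comap (rl σ n) := by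
    rw [Submodule.span_le]
    rintro _ ⟨u, hu, rfl⟩
    show (rl σ n) (e u) ∈ ⨆ i, S R (U i) n
    rw [rl_e]
    obtain ⟨i, hi⟩ := hleb (u 0) (Set.mem_univ _)
    refine Submodule.mem_iSup_of_mem i (s1_mem fun t => ?_)
    have h1 : dist (comb u t) (u 0) ≤ (n / (n + 1) : ℝ) ^ N :=
      dist_comb_le u t (u 0) (fun j => hu j 0)
    exact hi (Metric.mem_ball.2 (lt_of_le_of_lt h1 (hN0 N hN)))
  exact this hmem

/-- `P` is relatively open in `W`. -/
def ROpen (P W : Set X) : Prop := ∃ O, IsOpen O ∧ O ∩ W = P ∩ W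

theorem ROpen.preimage {P W : Set X} (h : ROpen P W) {K : Type} [TopologicalSpace K]
    {σ : C(K, X)} (hσ : ∀ t, σ t ∈ W) : IsOpen (σ ⁻¹' P) := by
  obtain ⟨O, hO, hOP⟩ := h
  have : σ ⁻¹' P = σ ⁻¹' O := by
    ext t
    constructor
    · intro ht
      have : σ t ∈ O ∩ W := hOP ▸ ⟨ht, hσ t⟩
      exact this.1
    · intro ht
      have : σ t ∈ P ∩ W := hOP ▸ ⟨ht, hσ t⟩
      exact this.1
  rw [this]
  exact hO.preimage σ.continuous

theorem SL_pow_mem {W : Set X} {n : ℕ} {z : L R X n} (hz : z ∈ S R W n) (N : ℕ) :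
    ((SL n) ^ N) z ∈ S R W n := by
  induction N with
  | zero => simpa using hz
  | succ N ih =>
    rw [pow_succ', Module.End.mul_apply]
    exact SL_mem ih

/-- Fine subdivisions of chains are small. -/
theorem chain_small {P Q : Set X} (hP : ROpen P (P ∪ Q)) (hQ : ROpen Q (P ∪ Q)) {n : ℕ}
    {z : L R X n} (hz : z ∈ S R (P ∪ Q) n) :
    ∃ N0 : ℕ, ∀ N, N0 ≤ N → ((SL n) ^ N) z ∈ S R P n ⊔ S R Q n := by
  have hsup : ∀ (σ : C(D n, X)), (∀ t, σ t ∈ P ∪ Q) → ∃ N0 : ℕ, ∀ N, N0 ≤ N →
      ((SL n) ^ N) (s1 σ : L R X n) ∈ S R P n ⊔ S R Q n := by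
    intro σ hσ
    obtain ⟨N0, h0⟩ := simplex_small (R := R) (U := fun b : Bool => if b then P else Q) σ
      (by
        intro b
        cases b
        · exact hQ.preimage hσ
        · exact hP.preimage hσ)
      (by
        intro t
        rcases hσ t with h | h
        · exact ⟨true, h⟩
        · exact ⟨false, h⟩)
    refine ⟨N0, fun N hN => ?_⟩
    have h1 := h0 N hN
    have h2 : (⨆ i : Bool, S R (if i then P else Q) n) ≤ S R P n ⊔ S R Q n := by
      refine iSup_le fun b => ?_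
      cases b
      · exact le_sup_right
      · exact le_sup_left
    exact h2 h1
  have hz' : z ∈ Submodule.span R (s1 '' {σ : C(D n, X) | ∀ t, σ t ∈ P ∪ Q}) := by
    rw [← S_span]; exact hz
  refine Submodule.span_induction (p := fun z _ => ∃ N0 : ℕ, ∀ N, N0 ≤ N →
      ((SL n) ^ N) z ∈ S R P n ⊔ S R Q n) ?_ ?_ ?_ ?_ hz'
  · rintro _ ⟨σ, hσ, rfl⟩
    exact hsup σ hσ
  · exact ⟨0, fun N _ => by simp⟩
  · rintro x y _ _ ⟨N1, h1⟩ ⟨N2, h2⟩
    refine ⟨max N1 N2, fun N hN => ?_⟩
    rw [map_add]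
    exact Submodule.add_mem _ (h1 N (le_trans (le_max_left _ _) hN))
      (h2 N (le_trans (le_max_right _ _) hN))
  · rintro a x _ ⟨N1, h1⟩
    refine ⟨N1, fun N hN => ?_⟩
    rw [map_smul]
    exact Submodule.smul_mem _ _ (h1 N hN)

end Pool.Agent.Helper72.HZ
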