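import Mathlib
import Pool.Agent.Helper72.HZ3

/-!
Relative singular homology of pairs of subsets of a space.
-/

set_option linter.unusedSectionVars false

namespace Pool.Agent.Helper72.HZ

open Finset

variable {R : Type} [CommRing R]
variable {X Y Z : Type} [TopologicalSpace X] [TopologicalSpace Y] [TopologicalSpace Z]

/-- boundary in all degrees -/
noncomputable def dd : (n : ℕ) → L R X n →ₗ[R] L R X (n - 1)
  | 0 => 0
  | (n + 1) => dL n

theorem dd_succ {n : ℕ} (z : L R X (n + 1)) : dd (n + 1) z = dL n z := rfl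

theorem dd_dL {n : ℕ} (z : L R X (n + 1)) : dd n (dL n z) = 0 := by
  cases n with
  | zero => rfl
  | succ n => exact dL_dL z

theorem dd_mem {W : Set X} {n : ℕ} {z : L R X n} (hz : z ∈ S R W n) : dd n z ∈ S R W (n - 1) := by
  cases n with
  | zero => exact Submodule.zero_mem _
  | succ n => exact dL_mem hz

/-- relative cycles -/
noncomputable def Zr (R : Type) [CommRing R] {X : Type} [TopologicalSpace X] (W A : Set X) (n : ℕ) :
    Submodule R (L R X n) := S R W n ⊓ (S R A (n - 1)).comap (dd n)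

/-- relative boundaries -/
noncomputable def Br (R : Type) [CommRing R] {X : Type} [TopologicalSpace X] (W A : Set X) (n : ℕ) :
    Submodule R (L R X n) := S R A n ⊔ (S R W (n + 1)).map (dL n)

theorem mem_Zr {W A : Set X} {n : ℕ} {z : L R X n} :
    z ∈ Zr R W A n ↔ z ∈ S R W n ∧ dd n z ∈ S R A (n - 1) := Iff.rfl

theorem mem_Zr_zero {W A : Set X} {z : L R X 0} (hz : z ∈ S R W 0) : z ∈ Zr R W A 0 := by
  refine ⟨hz, ?_⟩
  show (0 : L R X (0 - 1)) ∈ S R A (0 - 1)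
  exact Submodule.zero_mem _

theorem mem_Br {W A : Set X} {n : ℕ} {z : L R X n} :
    z ∈ Br R W A n ↔ ∃ a ∈ S R A n, ∃ w ∈ S R W (n + 1), z = a + dL n w := by
  rw [Br, Submodule.mem_sup]
  constructor
  · rintro ⟨a, ha, b, ⟨w, hw, rfl⟩, rfl⟩
    exact ⟨a, ha, w, hw, rfl⟩
  · rintro ⟨a, ha, w, hw, rfl⟩
    exact ⟨a, ha, _, ⟨w, hw, rfl⟩, rfl⟩

/-- relative singular homology of the pair `(W, A)` of subsets of `X`. -/
def H (R : Type) [CommRing R] {X : Type} [TopologicalSpace X] (W A : Set X) (n : ℕ) : Type :=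
  ↥(Zr R W A n) ⧸ (Br R W A n).submoduleOf (Zr R W A n)

noncomputable instance {W A : Set X} {n : ℕ} : AddCommGroup (H R W A n) :=
  inferInstanceAs (AddCommGroup (↥(Zr R W A n) ⧸ (Br R W A n).submoduleOf (Zr R W A n)))

noncomputable instance {W A : Set X} {n : ℕ} : Module R (H R W A n) :=
  inferInstanceAs (Module R (↥(Zr R W A n) ⧸ (Br R W A n).submoduleOf (Zr R W A n)))

/-- class of a relative cycle -/
noncomputable def mk {W A : Set X} {n : ℕ} (z : L R X n) (hz : z ∈ Zr R W A n) : H R W A n :=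
  (Submodule.mkQ ((Br R W A n).submoduleOf (Zr R W A n))) ⟨z, hz⟩

theorem mk_surj {W A : Set X} {n : ℕ} (x : H R W A n) : ∃ z hz, x = mk z hz := by
  obtain ⟨⟨z, hz⟩, rfl⟩ := Submodule.mkQ_surjective _ x
  exact ⟨z, hz, rfl⟩

theorem mk_eq_zero {W A : Set X} {n : ℕ} {z : L R X n} {hz : z ∈ Zr R W A n} :
    mk z hz = 0 ↔ z ∈ Br R W A n := by
  unfold mk
  rw [Submodule.mkQ_apply]
  exact Submodule.Quotient.mk_eq_zero _

theorem mk_sub {W A : Set X} {n : ℕ} {z z' : L R X n} (hz : z ∈ Zr R W A n)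
    (hz' : z' ∈ Zr R W A n) : mk z hz - mk z' hz' = mk (z - z') (Submodule.sub_mem _ hz hz') :=
  (map_sub (Submodule.mkQ ((Br R W A n).submoduleOf (Zr R W A n))) ⟨z, hz⟩ ⟨z', hz'⟩).symm

theorem mk_add {W A : Set X} {n : ℕ} {z z' : L R X n} (hz : z ∈ Zr R W A n)
    (hz' : z' ∈ Zr R W A n) : mk z hz + mk z' hz' = mk (z + z') (Submodule.add_mem _ hz hz') :=
  (map_add (Submodule.mkQ ((Br R W A n).submoduleOf (Zr R W A n))) ⟨z, hz⟩ ⟨z', hz'⟩).symm

theorem mk_smul {W A : Set X} {n : ℕ} (a : R) {z : L R X n} (hz : z ∈ Zr R W A n) :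
    a • mk z hz = mk (a • z) (Submodule.smul_mem _ a hz) :=
  (map_smul (Submodule.mkQ ((Br R W A n).submoduleOf (Zr R W A n))) a ⟨z, hz⟩).symm

theorem mk_eq_mk {W A : Set X} {n : ℕ} {z z' : L R X n} {hz : z ∈ Zr R W A n}
    {hz' : z' ∈ Zr R W A n} : mk z hz = mk z' hz' ↔ z - z' ∈ Br R W A n := by
  rw [← sub_eq_zero, mk_sub, mk_eq_zero]

theorem mk_congr {W A : Set X} {n : ℕ} {z z' : L R X n} {hz : z ∈ Zr R W A n} (h : z = z') :
    mk z hz = mk z' (h ▸ hz) := by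
  subst h; rfl

/-- maps on homology induced by linear maps on chains. -/
noncomputable def hmap {W A : Set X} {W' A' : Set Y} {n m : ℕ} (f : L R X n →ₗ[R] L R Y m)
    (h1 : ∀ z ∈ Zr R W A n, f z ∈ Zr R W' A' m)
    (h2 : ∀ z ∈ Zr R W A n, z ∈ Br R W A n → f z ∈ Br R W' A' m) :
    H R W A n →ₗ[R] H R W' A' m :=
  Submodule.mapQ _ _ (f.restrict h1) (by
    rintro ⟨z, hz⟩ hz'
    exact h2 z hz hz')

theorem hmap_mk {W A : Set X} {W' A' : Set Y} {n m : ℕ} (f : L R X n →ₗ[R] L R Y m)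
    (h1 : ∀ z ∈ Zr R W A n, f z ∈ Zr R W' A' m)
    (h2 : ∀ z ∈ Zr R W A n, z ∈ Br R W A n → f z ∈ Br R W' A' m) {z : L R X n}
    (hz : z ∈ Zr R W A n) : hmap f h1 h2 (mk z hz) = mk (f z) (h1 z hz) := rfl

/-- maps of pairs -/
structure PM (f : X → Y) (W A : Set X) (W' A' : Set Y) : Prop where
  cont : ContinuousOn f W
  mW : Set.MapsTo f W W'
  mA : Set.MapsTo f A A'
  sub : A ⊆ W

theorem PM.contA {f : X → Y} {W A : Set X} {W' A' : Set Y} (h : PM f W A W' A') :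
    ContinuousOn f A := h.cont.mono h.sub

theorem dd_pf {f : X → Y} {W : Set X} (hf : ContinuousOn f W) {n : ℕ} {z : L R X n}
    (hz : z ∈ S R W n) : dd n (pf f n z) = pf f (n - 1) (dd n z) := by
  cases n with
  | zero =>
    show (0 : L R Y 0) = pf f (0 - 1) (0 : L R X 0)
    rw [map_zero]
  | succ n => exact dL_pf hf hz

/-- induced map on homology -/
noncomputable def mapH {f : X → Y} {W A : Set X} {W' A' : Set Y} (h : PM f W A W' A') (n : ℕ) :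
    H R W A n →ₗ[R] H R W' A' n :=
  hmap (pf f n) (by
    rintro z ⟨h1, h2⟩
    refine ⟨pf_mem h.cont h.mW h1, ?_⟩
    show dd n (pf f n z) ∈ S R A' (n - 1)
    rw [dd_pf h.cont h1]
    exact pf_mem h.contA h.mA h2) (by
    rintro z _ hz
    obtain ⟨a, ha, w, hw, rfl⟩ := mem_Br.1 hz
    refine mem_Br.2 ⟨pf f n a, pf_mem h.contA h.mA ha, pf f (n + 1) w, pf_mem h.cont h.mW hw, ?_⟩
    rw [map_add, dL_pf h.cont hw])

theorem mapH_mk {f : X → Y} {W A : Set X} {W' A' : Set Y} (h : PM f W A W' A') {n : ℕ}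
    {z : L R X n} (hz : z ∈ Zr R W A n) (hz' : pf f n z ∈ Zr R W' A' n) :
    mapH h n (mk z hz) = mk (pf f n z) hz' := rfl

theorem mapH_mem {f : X → Y} {W A : Set X} {W' A' : Set Y} (h : PM f W A W' A') {n : ℕ}
    {z : L R X n} (hz : z ∈ Zr R W A n) : pf f n z ∈ Zr R W' A' n := by
  refine ⟨pf_mem h.cont h.mW hz.1, ?_⟩
  show dd n (pf f n z) ∈ S R A' (n - 1)
  rw [dd_pf h.cont hz.1]
  exact pf_mem h.contA h.mA hz.2

theorem PM.comp {f : X → Y} {g : Y → Z} {W A : Set X} {W' A' : Set Y} {W'' A'' : Set Z}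
    (hg : PM g W' A' W'' A'') (hf : PM f W A W' A') : PM (g ∘ f) W A W'' A'' where
  cont := hg.cont.comp hf.cont hf.mW
  mW := hg.mW.comp hf.mW
  mA := hg.mA.comp hf.mA
  sub := hf.sub

theorem mapH_comp {f : X → Y} {g : Y → Z} {W A : Set X} {W' A' : Set Y} {W'' A'' : Set Z}
    (hg : PM g W' A' W'' A'') (hf : PM f W A W' A') {k : X → Z} (hk : PM k W A W'' A'')
    (hkk : Set.EqOn k (g ∘ f) W) (n : ℕ) (x : H R W A n) :
    mapH hk n x = mapH hg n (mapH hf n x) := by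
  obtain ⟨z, hz, rfl⟩ := mk_surj x
  rw [mapH_mk hk hz (mapH_mem hk hz), mapH_mk hf hz (mapH_mem hf hz),
    mapH_mk hg (mapH_mem hf hz) (mapH_mem hg (mapH_mem hf hz))]
  rw [mk_eq_mk, pf_comp hf.cont hf.mW hg.cont hz.1, pf_congr hkk hz.1, sub_self]
  exact Submodule.zero_mem _

theorem mapH_congr {f g : X → Y} {W A : Set X} {W' A' : Set Y} (hf : PM f W A W' A')
    (hg : PM g W A W' A') (h : Set.EqOn f g W) (n : ℕ) (x : H R W A n) :
    mapH hf n x = mapH hg n x := by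
  obtain ⟨z, hz, rfl⟩ := mk_surj x
  rw [mapH_mk hf hz (mapH_mem hf hz), mapH_mk hg hz (mapH_mem hg hz), mk_eq_mk,
    pf_congr h hz.1, sub_self]
  exact Submodule.zero_mem _

theorem mapH_id {f : X → X} {W A : Set X} (hf : PM f W A W A)
    (h : Set.EqOn f id W) (n : ℕ) (x : H R W A n) : mapH hf n x = x := by
  obtain ⟨z, hz, rfl⟩ := mk_surj x
  rw [mapH_mk hf hz (mapH_mem hf hz), mk_eq_mk, pf_congr h hz.1, pf_id, sub_self]
  exact Submodule.zero_mem _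

theorem mapH_homotopy {F : X → unitInterval → Y} {W A : Set X} {W' A' : Set Y}
    (hF : HomOn F W) (hA : A ⊆ W) (h1 : ∀ x ∈ W, ∀ s, F x s ∈ W') (h2 : ∀ x ∈ A, ∀ s, F x s ∈ A')
    {f g : X → Y} (hf : PM f W A W' A') (hg : PM g W A W' A')
    (hf0 : Set.EqOn f (fun x => F x 0) W) (hg1 : Set.EqOn g (fun x => F x 1) W)
    (n : ℕ) (x : H R W A n) : mapH hf n x = mapH hg n x := by
  obtain ⟨z, hz, rfl⟩ := mk_surj x
  rw [eq_comm, mapH_mk hf hz (mapH_mem hf hz), mapH_mk hg hz (mapH_mem hg hz), mk_eq_mk,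
    pf_congr hf0 hz.1, pf_congr hg1 hz.1, mem_Br]
  have hFA : HomOn F A := hF.mono (Set.prod_mono hA (le_refl _))
  cases n with
  | zero =>
    refine ⟨0, Submodule.zero_mem _, pz F 0 z, pz_mem hF h1 hz.1, ?_⟩
    rw [dL_pz_zero hF hz.1]
    exact (zero_add _).symm
  | succ n =>
    refine ⟨pz F n (dL n z), pz_mem hFA h2 hz.2, pz F (n + 1) z, pz_mem hF h1 hz.1, ?_⟩
    rw [dL_pz_succ hF hz.1]
    abel

/-- inclusions -/
theorem PM.inc {W A W' A' : Set X} (h1 : W ⊆ W') (h2 : A ⊆ A') (h3 : A ⊆ W) :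
    PM (id : X → X) W A W' A' where
  cont := continuousOn_id
  mW := h1
  mA := h2
  sub := h3

/-- connecting map -/
noncomputable def dlt {W B A : Set X} (n : ℕ) : H R W B (n + 1) →ₗ[R] H R B A n :=
  hmap (dL n) (by
    rintro z ⟨_, h2⟩
    refine ⟨h2, ?_⟩
    show dd n (dL n z) ∈ S R A (n - 1)
    rw [dd_dL]
    exact Submodule.zero_mem _) (by
    rintro z _ hz
    obtain ⟨a, ha, w, hw, rfl⟩ := mem_Br.1 hz
    refine mem_Br.2 ⟨0, Submodule.zero_mem _, a, ha, ?_⟩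
    rw [map_add, dL_dL, add_zero, zero_add])

theorem dlt_mem {W B A : Set X} {n : ℕ} {z : L R X (n + 1)} (hz : z ∈ Zr R W B (n + 1)) :
    dL n z ∈ Zr R B A n := by
  refine ⟨hz.2, ?_⟩
  show dd n (dL n z) ∈ S R A (n - 1)
  rw [dd_dL]
  exact Submodule.zero_mem _

theorem dlt_mk {W B A : Set X} {n : ℕ} {z : L R X (n + 1)} (hz : z ∈ Zr R W B (n + 1)) :
    (dlt n (mk z hz) : H R B A n) = mk (dL n z) (dlt_mem hz) := by
  unfold dlt
  exact hmap_mk _ _ _ hz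

theorem dlt_nat {f : X → Y} {W B A : Set X} {W' B' A' : Set Y} (h1 : PM f W B W' B')
    (h2 : PM f B A B' A') (n : ℕ) (x : H R W B (n + 1)) :
    (dlt n (mapH h1 (n + 1) x) : H R B' A' n) = mapH h2 n (dlt n x) := by
  obtain ⟨z, hz, rfl⟩ := mk_surj x
  rw [mapH_mk h1 hz (mapH_mem h1 hz), dlt_mk, dlt_mk, mapH_mk h2 _ (mapH_mem h2 (dlt_mem hz)),
    mk_eq_mk, dL_pf h1.cont hz.1, sub_self]
  exact Submodule.zero_mem _

section LES

variable {W B A : Set X} (hBW : B ⊆ W) (hAB : A ⊆ B)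

theorem inc_mk {W A W' A' : Set X} (h : PM (id : X → X) W A W' A') {n : ℕ} {z : L R X n}
    (hz : z ∈ Zr R W A n) (hz' : z ∈ Zr R W' A' n) : mapH h n (mk z hz) = mk z hz' := by
  rw [mapH_mk h hz (mapH_mem h hz), mk_eq_mk, pf_id, sub_self]
  exact Submodule.zero_mem _

theorem Zr_mono {W A W' A' : Set X} (h1 : W ⊆ W') (h2 : A ⊆ A') {n : ℕ} {z : L R X n}
    (hz : z ∈ Zr R W A n) : z ∈ Zr R W' A' n :=
  ⟨S_mono h1 n hz.1, S_mono h2 (n - 1) hz.2⟩

theorem les1 {hi : PM (id : X → X) B A W A} {hj : PM (id : X → X) W A W B} {n : ℕ}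
    {x : H R W A n} (hx : mapH hj n x = 0) : ∃ y : H R B A n, mapH hi n y = x := by
  obtain ⟨z, hz, rfl⟩ := mk_surj x
  have hBW : B ⊆ W := hi.mW
  have hAB : A ⊆ B := hj.mA
  rw [inc_mk hj hz (Zr_mono (le_refl _) hAB hz), mk_eq_zero, mem_Br] at hx
  obtain ⟨b, hb, w, hw, hzb⟩ := hx
  have hbZ : b ∈ Zr R B A n := by
    refine ⟨hb, ?_⟩
    show dd n b ∈ S R A (n - 1)
    have : b = z - dL n w := by rw [hzb]; abel
    rw [this, map_sub, dd_dL, sub_zero]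
    exact hz.2
  refine ⟨mk b hbZ, ?_⟩
  rw [inc_mk hi hbZ (Zr_mono hBW (le_refl _) hbZ), mk_eq_mk, mem_Br]
  refine ⟨0, Submodule.zero_mem _, -w, Submodule.neg_mem _ hw, ?_⟩
  rw [hzb, map_neg]
  abel

theorem les2 {hi : PM (id : X → X) B A W A} (hAB : A ⊆ B) {n : ℕ}
    {x : H R B A n} (hx : mapH hi n x = 0) : ∃ y : H R W B (n + 1), dlt n y = x := by
  obtain ⟨z, hz, rfl⟩ := mk_surj x
  have hBW : B ⊆ W := hi.mW
  rw [inc_mk hi hz (Zr_mono hBW (le_refl _) hz), mk_eq_zero, mem_Br] at hx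
  obtain ⟨a, ha, w, hw, hza⟩ := hx
  have hwZ : w ∈ Zr R W B (n + 1) := by
    refine ⟨hw, ?_⟩
    show dL n w ∈ S R B n
    have : dL n w = z - a := by rw [hza]; abel
    rw [this]
    exact Submodule.sub_mem _ hz.1 (S_mono hAB n ha)
  refine ⟨mk w hwZ, ?_⟩
  rw [dlt_mk, mk_eq_mk, mem_Br]
  refine ⟨-a, Submodule.neg_mem _ ha, 0, Submodule.zero_mem _, ?_⟩
  rw [hza, map_zero]
  abel

theorem les3 {hj : PM (id : X → X) W A W B} (hBW : B ⊆ W) {n : ℕ}
    {x : H R W B (n + 1)} (hx : (dlt n x : H R B A n) = 0) :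
    ∃ y : H R W A (n + 1), mapH hj (n + 1) y = x := by
  obtain ⟨z, hz, rfl⟩ := mk_surj x
  have hAB : A ⊆ B := hj.mA
  rw [dlt_mk, mk_eq_zero, mem_Br] at hx
  obtain ⟨a, ha, b, hb, hzb⟩ := hx
  have hyZ : z - b ∈ Zr R W A (n + 1) := by
    refine ⟨Submodule.sub_mem _ hz.1 (S_mono hBW _ hb), ?_⟩
    show dL n (z - b) ∈ S R A n
    rw [map_sub, hzb, add_sub_cancel_right]
    exact ha
  refine ⟨mk (z - b) hyZ, ?_⟩
  rw [inc_mk hj hyZ (Zr_mono (le_refl _) hAB hyZ), mk_eq_mk, mem_Br]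
  refine ⟨-b, Submodule.neg_mem _ hb, 0, Submodule.zero_mem _, ?_⟩
  rw [map_zero]
  abel

theorem les0 {hj : PM (id : X → X) W A W B} (x : H R W B 0) : ∃ y : H R W A 0, mapH hj 0 y = x := by
  obtain ⟨z, hz, rfl⟩ := mk_surj x
  have hyZ : z ∈ Zr R W A 0 := mem_Zr_zero hz.1
  exact ⟨mk z hyZ, inc_mk hj hyZ hz⟩

theorem les_ji {hi : PM (id : X → X) B A W A} {hj : PM (id : X → X) W A W B} {n : ℕ}
    (y : H R B A n) : mapH hj n (mapH hi n y) = 0 := by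
  obtain ⟨z, hz, rfl⟩ := mk_surj y
  have hBW : B ⊆ W := hi.mW
  have hAB : A ⊆ B := hj.mA
  have h1 := Zr_mono hBW (le_refl A) hz
  rw [inc_mk hi hz h1, inc_mk hj h1 (Zr_mono (le_refl _) hAB h1), mk_eq_zero, mem_Br]
  exact ⟨z, hz.1, 0, Submodule.zero_mem _, by rw [map_zero, add_zero]⟩

theorem les_dj {hj : PM (id : X → X) W A W B} {n : ℕ}
    (y : H R W A (n + 1)) : (dlt n (mapH hj (n + 1) y) : H R B A n) = 0 := by
  obtain ⟨z, hz, rfl⟩ := mk_surj y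
  have hAB : A ⊆ B := hj.mA
  rw [inc_mk hj hz (Zr_mono (le_refl _) hAB hz), dlt_mk, mk_eq_zero, mem_Br]
  exact ⟨dL n z, hz.2, 0, Submodule.zero_mem _, by rw [map_zero, add_zero]⟩

theorem les_id {hi : PM (id : X → X) B A W A} {n : ℕ}
    (y : H R W B (n + 1)) : mapH hi n (dlt n y) = 0 := by
  obtain ⟨z, hz, rfl⟩ := mk_surj y
  have hBW : B ⊆ W := hi.mW
  rw [dlt_mk, inc_mk hi _ (Zr_mono hBW (le_refl _) (dlt_mem hz)), mk_eq_zero, mem_Br]
  exact ⟨0, Submodule.zero_mem _, z, hz.1, by rw [zero_add]⟩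

end LES

/-! ### excision -/

theorem mk_SL {W A : Set X} (hAW : A ⊆ W) {n : ℕ} {z : L R X n} (hz : z ∈ Zr R W A n) :
    SL n z ∈ Zr R W A n ∧ z - SL n z ∈ Br R W A n := by
  cases n with
  | zero =>
    refine ⟨mem_Zr_zero (SL_mem hz.1), ?_⟩
    rw [mem_Br]
    exact ⟨0, Submodule.zero_mem _, TL 0 z, TL_mem hz.1, by rw [dL_TL_zero]; abel⟩
  | succ n =>
    refine ⟨⟨SL_mem hz.1, ?_⟩, ?_⟩
    · show dL n (SL (n + 1) z) ∈ S R A n
      rw [dL_SL]
      exact SL_mem hz.2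
    · rw [mem_Br]
      refine ⟨TL n (dL n z), TL_mem hz.2, TL (n + 1) z, TL_mem hz.1, ?_⟩
      rw [dL_TL_succ]
      abel

theorem mk_SL_pow {W A : Set X} (hAW : A ⊆ W) {n : ℕ} {z : L R X n} (hz : z ∈ Zr R W A n) (N : ℕ) :
    ((SL n) ^ N) z ∈ Zr R W A n ∧ z - ((SL n) ^ N) z ∈ Br R W A n := by
  induction N with
  | zero =>
    refine ⟨by simpa using hz, ?_⟩
    simp
  | succ N ih =>
    obtain ⟨h1, h2⟩ := ih
    obtain ⟨h3, h4⟩ := mk_SL hAW h1
    rw [pow_succ', Module.End.mul_apply]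
    refine ⟨h3, ?_⟩
    have : z - SL n (((SL n) ^ N) z) = (z - ((SL n) ^ N) z)
        + (((SL n) ^ N) z - SL n (((SL n) ^ N) z)) := by abel
    rw [this]
    exact Submodule.add_mem _ h2 h4

theorem excision {P Q : Set X} (hP : ROpen P (P ∪ Q)) (hQ : ROpen Q (P ∪ Q)) (n : ℕ)
    (he : PM (id : X → X) Q (P ∩ Q) (P ∪ Q) P) :
    Function.Bijective (mapH he n : H R Q (P ∩ Q) n →ₗ[R] H R (P ∪ Q) P n) := by
  have hPW : P ⊆ P ∪ Q := Set.subset_union_left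
  have hQW : Q ⊆ P ∪ Q := Set.subset_union_right
  constructor
  · rw [injective_iff_map_eq_zero]
    intro x hx
    obtain ⟨z, hz, rfl⟩ := mk_surj x
    rw [inc_mk he hz (Zr_mono hQW Set.inter_subset_left hz), mk_eq_zero, mem_Br] at hx
    obtain ⟨p, hp, w, hw, hzw⟩ := hx
    obtain ⟨N, hN⟩ := chain_small hP hQ hw
    have hsm := hN N le_rfl
    obtain ⟨wp, hwp, wq, hwq, hwe⟩ := Submodule.mem_sup.1 hsm
    obtain ⟨h1, h2⟩ := mk_SL_pow Set.inter_subset_right hz N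
    rw [mk_eq_zero]
    have hcomm : ∀ (N : ℕ) (w : L R X (n + 1)), dL n (((SL (n + 1)) ^ N) w)
        = ((SL n) ^ N) (dL n w) := by
      intro N
      induction N with
      | zero => intro w; simp
      | succ N ih =>
        intro w
        rw [pow_succ', Module.End.mul_apply, dL_SL, ih, pow_succ', Module.End.mul_apply]
    have h3 : ((SL n) ^ N) z = ((SL n) ^ N) p + dL n wp + dL n wq := by
      rw [hzw, map_add, ← hcomm, ← hwe, map_add]
      abel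
    have h4 : ((SL n) ^ N) z - dL n wq ∈ S R (P ∩ Q) n := by
      rw [← S_inter]
      refine ⟨?_, ?_⟩
      · rw [h3, add_sub_cancel_right]
        exact Submodule.add_mem _ (SL_pow_mem hp N) (dL_mem hwp)
      · exact Submodule.sub_mem _ (SL_pow_mem hz.1 N) (dL_mem hwq)
    have h5 : ((SL n) ^ N) z ∈ Br R Q (P ∩ Q) n :=
      mem_Br.2 ⟨_, h4, wq, hwq, by abel⟩
    have : z = (z - ((SL n) ^ N) z) + ((SL n) ^ N) z := by abel
    rw [this]
    exact Submodule.add_mem _ h2 h5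
  · intro x
    obtain ⟨z, hz, rfl⟩ := mk_surj x
    obtain ⟨N, hN⟩ := chain_small hP hQ hz.1
    have hsm := hN N le_rfl
    obtain ⟨p, hp, q, hq, hpq⟩ := Submodule.mem_sup.1 hsm
    obtain ⟨h1, h2⟩ := mk_SL_pow hPW hz N
    have hqZ : q ∈ Zr R Q (P ∩ Q) n := by
      refine ⟨hq, ?_⟩
      show dd n q ∈ S R (P ∩ Q) (n - 1)
      rw [← S_inter]
      refine ⟨?_, dd_mem hq⟩
      have : q = ((SL n) ^ N) z - p := by rw [← hpq]; abel
      rw [this, map_sub]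
      exact Submodule.sub_mem _ h1.2 (dd_mem hp)
    refine ⟨mk q hqZ, ?_⟩
    rw [inc_mk he hqZ (Zr_mono hQW Set.inter_subset_left hqZ), mk_eq_mk]
    have : q - z = -p - (z - ((SL n) ^ N) z) := by rw [← hpq]; abel
    rw [this]
    exact Submodule.sub_mem _ (Submodule.neg_mem _ (mem_Br.2 ⟨p, hp, 0, Submodule.zero_mem _,
      by rw [map_zero, add_zero]⟩)) h2

/-! ### straight line homotopies -/

theorem mapH_line [AddCommGroup Y] [Module ℝ Y] [IsTopologicalAddGroup Y] [ContinuousSMul ℝ Y]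
    {f g : X → Y} {W A : Set X} {W' A' : Set Y} (hf : PM f W A W' A') (hg : PM g W A W' A')
    (h1 : ∀ x ∈ W, ∀ s : ℝ, 0 ≤ s → s ≤ 1 → f x + s • (g x - f x) ∈ W')
    (h2 : ∀ x ∈ A, ∀ s : ℝ, 0 ≤ s → s ≤ 1 → f x + s • (g x - f x) ∈ A')
    (n : ℕ) (x : H R W A n) : mapH hf n x = mapH hg n x := by
  refine mapH_homotopy (F := fun x s => f x + (s : ℝ) • (g x - f x)) ?_ hf.sub
    (fun x hx s => h1 x hx _ s.2.1 s.2.2) (fun x hx s => h2 x hx _ s.2.1 s.2.2) hf hg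
    (fun x _ => by simp) (fun x _ => by simp) n x
  have e1 : ContinuousOn (fun p : X × unitInterval => f p.1) (W ×ˢ Set.univ) :=
    hf.cont.comp continuousOn_fst (fun p hp => hp.1)
  have e2 : ContinuousOn (fun p : X × unitInterval => g p.1) (W ×ˢ Set.univ) :=
    hg.cont.comp continuousOn_fst (fun p hp => hp.1)
  have e3 : ContinuousOn (fun p : X × unitInterval => (p.2 : ℝ)) (W ×ˢ Set.univ) := by fun_prop
  exact e1.add (e3.smul (e2.sub e1))

theorem bij_of_inv {f : X → Y} {g : Y → X} {W A : Set X} {W' A' : Set Y} (hf : PM f W A W' A')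
    (hg : PM g W' A' W A) (n : ℕ)
    (h1 : ∀ x : H R W A n, mapH hg n (mapH hf n x) = x)
    (h2 : ∀ x : H R W' A' n, mapH hf n (mapH hg n x) = x) :
    Function.Bijective (mapH hf n : H R W A n →ₗ[R] H R W' A' n) :=
  Function.bijective_iff_has_inverse.2 ⟨mapH hg n, h1, h2⟩

theorem PM.idd {W A : Set X} (h : A ⊆ W) : PM (id : X → X) W A W A :=
  PM.inc (le_refl _) (le_refl _) h

theorem bij_of_line [AddCommGroup X] [Module ℝ X] [IsTopologicalAddGroup X] [ContinuousSMul ℝ X]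
    [AddCommGroup Y] [Module ℝ Y] [IsTopologicalAddGroup Y] [ContinuousSMul ℝ Y]
    {f : X → Y} {g : Y → X} {W A : Set X} {W' A' : Set Y} (hf : PM f W A W' A')
    (hg : PM g W' A' W A)
    (h1 : ∀ x ∈ W, ∀ s : ℝ, 0 ≤ s → s ≤ 1 → x + s • (g (f x) - x) ∈ W)
    (h1' : ∀ x ∈ A, ∀ s : ℝ, 0 ≤ s → s ≤ 1 → x + s • (g (f x) - x) ∈ A)
    (h2 : ∀ y ∈ W', ∀ s : ℝ, 0 ≤ s → s ≤ 1 → y + s • (f (g y) - y) ∈ W')
    (h2' : ∀ y ∈ A', ∀ s : ℝ, 0 ≤ s → s ≤ 1 → y + s • (f (g y) - y) ∈ A') (n : ℕ) :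
    Function.Bijective (mapH hf n : H R W A n →ₗ[R] H R W' A' n) := by
  refine bij_of_inv hf hg n ?_ ?_
  · intro x
    rw [← mapH_comp hg hf (hg.comp hf) (fun _ _ => rfl),
      ← mapH_line (PM.idd hf.sub) (hg.comp hf) h1 h1', mapH_id _ (fun _ _ => rfl)]
  · intro x
    rw [← mapH_comp hf hg (hf.comp hg) (fun _ _ => rfl),
      ← mapH_line (PM.idd hg.sub) (hf.comp hg) h2 h2', mapH_id _ (fun _ _ => rfl)]

theorem H_self_zero {W : Set X} {n : ℕ} (x : H R W W n) : x = 0 := by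
  obtain ⟨z, hz, rfl⟩ := mk_surj x
  rw [mk_eq_zero, mem_Br]
  exact ⟨z, hz.1, 0, Submodule.zero_mem _, by rw [map_zero, add_zero]⟩

end Pool.Agent.Helper72.HZ
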