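import Mathlib
import Pool.Agent.Helper72.HZ4

/-!
Homology of contractible sets, suspension isomorphism.
-/

set_option linter.unusedSectionVars false

namespace Pool.Agent.Helper72.HZ

open Finset

variable {R : Type} [CommRing R]
variable {X Y Z : Type} [TopologicalSpace X] [TopologicalSpace Y] [TopologicalSpace Z]

/-! ### augmentation -/

/-- augmentation on chains -/
noncomputable def ep (R : Type) [CommRing R] (X : Type) [TopologicalSpace X] : L R X 0 →ₗ[R] R :=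
  liftL (fun _ => 1)

theorem ep_s1 (σ : C(D 0, X)) : ep R X (s1 σ) = 1 := liftL_s1 _ _

theorem ep_dL (z : L R X 1) : ep R X (dL 0 z) = 0 := by
  refine L_ext (f := ep R X ∘ₗ dL 0) (g := 0) ?_ z
  intro σ
  rw [LinearMap.comp_apply, dL_s1, map_sum, LinearMap.zero_apply, Fin.sum_univ_two]
  rw [map_smul, map_smul, ep_s1, ep_s1]
  simp

theorem ep_pf {f : X → Y} {W : Set X} (hf : ContinuousOn f W) {z : L R X 0} (hz : z ∈ S R W 0) :
    ep R Y (pf f 0 z) = ep R X z := by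
  refine S_ext (f := ep R Y ∘ₗ pf f 0) (g := ep R X) (fun σ hσ => ?_) hz
  rw [LinearMap.comp_apply, pf_s1 (comp_cont hf hσ), ep_s1, ep_s1]

/-- augmentation on homology -/
noncomputable def eps (R : Type) [CommRing R] {X : Type} [TopologicalSpace X] (W : Set X) :
    H R W ∅ 0 →ₗ[R] R :=
  Submodule.liftQ _ (ep R X ∘ₗ (Zr R W ∅ 0).subtype) (by
    rintro ⟨z, hz⟩ hz'
    obtain ⟨a, ha, w, _, hw⟩ := mem_Br.1 hz'
    have h0 : a = 0 := S_empty ha
    have h1 : z = a + dL 0 w := hw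
    show ep R X z = 0
    rw [h1, h0, map_add, map_zero, zero_add, ep_dL])

theorem eps_mk {W : Set X} {z : L R X 0} (hz : z ∈ Zr R W ∅ 0) : eps R W (mk z hz) = ep R X z := rfl

theorem eps_nat {f : X → Y} {W : Set X} {W' : Set Y} (h : PM f W ∅ W' ∅) (x : H R W ∅ 0) :
    eps R W' (mapH h 0 x) = eps R W x := by
  obtain ⟨z, hz, rfl⟩ := mk_surj x
  rw [mapH_mk h hz (mapH_mem h hz), eps_mk, eps_mk, ep_pf h.cont hz.1]

/-! ### one point -/

/-- constant simplices -/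
def kst (p : X) (n : ℕ) : C(D n, X) := ContinuousMap.const _ p

theorem S_point (p : X) {n : ℕ} {z : L R X n} (hz : z ∈ S R {p} n) : ∃ a : R, z = a • s1 (kst p n) := by
  have h0 := S_map (f := LinearMap.id) (P := Submodule.span R {s1 (kst p n)}) (fun σ hσ => by
    have : σ = kst p n := by
      ext1 t
      exact hσ t
    rw [this]
    exact Submodule.mem_span_singleton_self _) hz
  obtain ⟨a, ha⟩ := Submodule.mem_span_singleton.1 h0
  exact ⟨a, ha.symm⟩

theorem kst_mem (p : X) (n : ℕ) : s1 (kst p n) ∈ S R ({p} : Set X) n :=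
  s1_mem fun _ => rfl

theorem smul_s1_inj {n : ℕ} {σ : C(D n, X)} {a : R} (h : a • (s1 σ : L R X n) = 0) : a = 0 := by
  have h1 : liftL (fun _ => (1 : R)) (a • (s1 σ : L R X n)) = (0 : R) := by rw [h, map_zero]
  rwa [map_smul, liftL_s1, smul_eq_mul, mul_one] at h1

theorem alt_sum : ∀ n : ℕ, ∑ i : Fin (n + 1), (-1 : R) ^ (i : ℕ) = if Even n then 1 else 0 := by
  intro n
  rw [Fin.sum_univ_eq_sum_range (fun i => (-1 : R) ^ i) (n + 1)]
  induction n with
  | zero => simp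
  | succ n ih =>
    rw [Finset.sum_range_succ, ih]
    by_cases h : Even n
    · rw [if_pos h, if_neg (by simpa [Nat.even_add_one] using h), Odd.neg_one_pow h.add_one]
      ring
    · rw [if_neg h]
      have h' : Even (n + 1) := Nat.even_add_one.2 h
      rw [if_pos h', h'.neg_one_pow]
      ring

theorem dL_kst (p : X) (n : ℕ) : dL n (s1 (kst p (n + 1)) : L R X (n + 1))
    = (if Even (n + 1) then (1 : R) else 0) • s1 (kst p n) := by
  rw [dL_s1, ← alt_sum, Finset.sum_smul]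
  refine Finset.sum_congr rfl fun i _ => ?_
  rfl

theorem point_zero (p : X) {n : ℕ} (hn : n ≠ 0) (x : H R ({p} : Set X) ∅ n) : x = 0 := by
  obtain ⟨z, hz, rfl⟩ := mk_surj x
  obtain ⟨m, rfl⟩ := Nat.exists_eq_succ_of_ne_zero hn
  obtain ⟨a, rfl⟩ := S_point p hz.1
  rw [mk_eq_zero, mem_Br]
  by_cases h : Even (m + 1)
  · have h1 : dL m (a • s1 (kst p (m + 1)) : L R X (m + 1)) = 0 := S_empty hz.2
    rw [map_smul, dL_kst, if_pos h, one_smul] at h1
    have h2 := smul_s1_inj h1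
    refine ⟨0, Submodule.zero_mem _, 0, Submodule.zero_mem _, ?_⟩
    rw [h2, zero_smul, map_zero, add_zero]
  · refine ⟨0, Submodule.zero_mem _, a • s1 (kst p (m + 2)),
      Submodule.smul_mem _ _ (kst_mem p _), ?_⟩
    rw [zero_add, map_smul, dL_kst, if_pos (Nat.even_add_one.2 h), one_smul]

theorem point_eps (p : X) : Function.Bijective (eps R ({p} : Set X)) := by
  constructor
  · rw [injective_iff_map_eq_zero]
    intro x hx
    obtain ⟨z, hz, rfl⟩ := mk_surj x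
    obtain ⟨a, rfl⟩ := S_point p hz.1
    rw [eps_mk, map_smul, ep_s1, smul_eq_mul, mul_one] at hx
    rw [mk_eq_zero, hx, zero_smul]
    exact Submodule.zero_mem _
  · intro a
    refine ⟨mk (a • s1 (kst p 0)) (mem_Zr_zero (Submodule.smul_mem _ _ (kst_mem p 0))), ?_⟩
    rw [eps_mk, map_smul, ep_s1, smul_eq_mul, mul_one]

section contractible

variable [AddCommGroup X] [Module ℝ X] [IsTopologicalAddGroup X] [ContinuousSMul ℝ X]

theorem star_bij {W : Set X} {p : X} (hp : p ∈ W)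
    (hs : ∀ x ∈ W, ∀ s : ℝ, 0 ≤ s → s ≤ 1 → x + s • (p - x) ∈ W) (n : ℕ)
    (hf : PM (fun _ : X => p) W ∅ {p} ∅) :
    Function.Bijective (mapH hf n : H R W ∅ n →ₗ[R] H R ({p} : Set X) ∅ n) := by
  have hg : PM (id : X → X) {p} ∅ W ∅ :=
    ⟨continuousOn_id, by rintro x rfl; exact hp, by intro x hx; exact hx, Set.empty_subset _⟩
  refine bij_of_line hf hg hs (by intro x hx; exact absurd hx (Set.notMem_empty x)) ?_
    (by intro x hx; exact absurd hx (Set.notMem_empty x)) n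
  rintro y rfl s _ _
  simp

theorem PM_const (W : Set X) (p : X) : PM (fun _ : X => p) W ∅ {p} ∅ :=
  ⟨continuousOn_const, fun _ _ => rfl, by intro x hx; exact hx, Set.empty_subset _⟩

theorem star_zero {W : Set X} {p : X} (hp : p ∈ W)
    (hs : ∀ x ∈ W, ∀ s : ℝ, 0 ≤ s → s ≤ 1 → x + s • (p - x) ∈ W) {n : ℕ} (hn : n ≠ 0)
    (x : H R W ∅ n) : x = 0 := by
  apply (star_bij (R := R) hp hs n (PM_const W p)).1
  rw [map_zero]
  exact point_zero p hn _

theorem star_eps {W : Set X} {p : X} (hp : p ∈ W)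
    (hs : ∀ x ∈ W, ∀ s : ℝ, 0 ≤ s → s ≤ 1 → x + s • (p - x) ∈ W) :
    Function.Bijective (eps R W) := by
  have h1 := star_bij (R := R) hp hs 0 (PM_const W p)
  have h2 : (eps R W : H R W ∅ 0 → R) = (eps R {p}) ∘ (mapH (PM_const W p) 0) := by
    funext x
    exact (eps_nat (PM_const W p) x).symm
  rw [h2]
  exact (point_eps p).comp h1

end contractible

/-! ### suspension -/

section susp

variable [AddCommGroup X] [Module ℝ X] [IsTopologicalAddGroup X] [ContinuousSMul ℝ X]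
variable [AddCommGroup Y] [Module ℝ Y] [IsTopologicalAddGroup Y] [ContinuousSMul ℝ Y]

/-- `W × ℝ` -/
def cW (W : Set X) : Set (X × ℝ) := {q | q.1 ∈ W}

/-- `W × ℝ* ∪ A × ℝ` -/
def cA1 (W A : Set X) : Set (X × ℝ) := {q | q.1 ∈ W ∧ (q.2 ≠ 0 ∨ q.1 ∈ A)}

/-- `W × ℝ₋ ∪ A × ℝ` -/
def cM (W A : Set X) : Set (X × ℝ) := {q | q.1 ∈ W ∧ (q.2 < 0 ∨ q.1 ∈ A)}

/-- `W × ℝ₊` -/
def cP (W : Set X) : Set (X × ℝ) := {q | q.1 ∈ W ∧ 0 < q.2}

theorem cM_union (W A : Set X) : cM W A ∪ cP W = cA1 W A := by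
  ext q
  simp only [cM, cP, cA1, Set.mem_union, Set.mem_setOf_eq]
  constructor
  · rintro (⟨h1, h2⟩ | ⟨h1, h2⟩)
    · exact ⟨h1, h2.imp (fun h => h.ne) id⟩
    · exact ⟨h1, Or.inl h2.ne'⟩
  · rintro ⟨h1, h2 | h2⟩
    · rcases lt_or_gt_of_ne h2 with h | h
      · exact Or.inl ⟨h1, Or.inl h⟩
      · exact Or.inr ⟨h1, h⟩
    · exact Or.inl ⟨h1, Or.inr h2⟩

theorem cM_sub (W A : Set X) : cM W A ⊆ cA1 W A := by
  rw [← cM_union]; exact Set.subset_union_left

theorem cP_sub (W A : Set X) : cP W ⊆ cA1 W A := by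
  rw [← cM_union W A]; exact Set.subset_union_right

theorem cA1_sub (W A : Set X) : cA1 W A ⊆ cW W := fun _ h => h.1

theorem ROpen_cA1 {W A : Set X} (hA : ROpen A W) : ROpen (cA1 W A) (cW W) := by
  obtain ⟨O, hO, hOA⟩ := hA
  refine ⟨{q | q.2 ≠ 0} ∪ {q | q.1 ∈ O}, ?_, ?_⟩
  · exact (isOpen_ne_fun continuous_snd continuous_const).union (hO.preimage continuous_fst)
  · ext q
    constructor
    · rintro ⟨h1 | h1, h2⟩
      · exact ⟨⟨h2, Or.inl h1⟩, h2⟩
      · have : q.1 ∈ A ∩ W := hOA ▸ ⟨h1, h2⟩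
        exact ⟨⟨h2, Or.inr this.1⟩, h2⟩
    · rintro ⟨⟨h1, h2 | h2⟩, _⟩
      · exact ⟨Or.inl h2, h1⟩
      · have : q.1 ∈ O ∩ W := hOA ▸ ⟨h2, h1⟩
        exact ⟨Or.inr this.1, h1⟩

theorem ROpen_cM {W A : Set X} (hA : ROpen A W) : ROpen (cM W A) (cM W A ∪ cP W) := by
  obtain ⟨O, hO, hOA⟩ := hA
  refine ⟨{q | q.2 < 0} ∪ {q | q.1 ∈ O}, ?_, ?_⟩
  · exact (isOpen_lt continuous_snd continuous_const).union (hO.preimage continuous_fst)
  · rw [cM_union]
    ext q
    constructor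
    · rintro ⟨h1 | h1, h2⟩
      · exact ⟨⟨h2.1, Or.inl h1⟩, h2⟩
      · have : q.1 ∈ A ∩ W := hOA ▸ ⟨h1, h2.1⟩
        exact ⟨⟨h2.1, Or.inr this.1⟩, h2⟩
    · rintro ⟨⟨h1, h2 | h2⟩, h3⟩
      · exact ⟨Or.inl h2, h3⟩
      · have : q.1 ∈ O ∩ W := hOA ▸ ⟨h2, h1⟩
        exact ⟨Or.inr this.1, h3⟩

theorem ROpen_cP (W A : Set X) : ROpen (cP W) (cM W A ∪ cP W) := by
  refine ⟨{q | 0 < q.2}, isOpen_lt continuous_const continuous_snd, ?_⟩
  ext q
  constructor
  · rintro ⟨h1, h2⟩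
    have h3 : q.1 ∈ W := by rcases h2 with h | h <;> exact h.1
    exact ⟨⟨h3, h1⟩, h2⟩
  · rintro ⟨h1, h2⟩
    exact ⟨h1.2, h2⟩

theorem cM_zero (W A : Set X) (n : ℕ) (x : H R (cW W) (cM W A) n) : x = 0 := by
  have hsub : cM W A ⊆ cW W := fun _ h => h.1
  have hg : PM (fun q : X × ℝ => ((q.1, -1) : X × ℝ)) (cW W) (cM W A) (cW W) (cM W A) :=
    ⟨by fun_prop, fun q hq => hq, fun q hq => ⟨hq.1, Or.inl (by norm_num)⟩, hsub⟩
  have hg' : PM (fun q : X × ℝ => ((q.1, -1) : X × ℝ)) (cW W) (cM W A) (cM W A) (cM W A) :=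
    ⟨by fun_prop, fun q hq => ⟨hq, Or.inl (by norm_num)⟩,
      fun q hq => ⟨hq.1, Or.inl (by norm_num)⟩, hsub⟩
  have hi : PM (id : X × ℝ → X × ℝ) (cM W A) (cM W A) (cW W) (cM W A) :=
    PM.inc hsub (le_refl _) (le_refl _)
  have h1 : mapH hg n x = x := by
    rw [← mapH_line (PM.idd hsub) hg ?_ ?_ n x, mapH_id _ (fun _ _ => rfl)]
    · intro q hq s _ _
      have : (id q + s • (((q.1, -1) : X × ℝ) - id q)).1 = q.1 := by simp
      show (id q + s • (((q.1, -1) : X × ℝ) - id q)).1 ∈ W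
      rw [this]
      exact hq
    · intro q hq s hs0 hs1
      have e1 : (id q + s • (((q.1, -1) : X × ℝ) - id q)).1 = q.1 := by simp
      have e2 : (id q + s • (((q.1, -1) : X × ℝ) - id q)).2 = q.2 + s * (-1 - q.2) := by simp
      refine ⟨?_, ?_⟩
      · rw [e1]; exact hq.1
      · rw [e1, e2]
        rcases hq.2 with h | h
        · left
          rcases eq_or_lt_of_le hs0 with h' | h'
          · rw [← h']; simpa using h
          · nlinarith [mul_nonneg (sub_nonneg.2 hs1) (neg_nonneg.2 h.le)]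
        · right; exact h
  rw [← h1, mapH_comp hi hg' hg (fun _ _ => rfl), H_self_zero (mapH hg' n x), map_zero]

theorem cM_dlt (W A : Set X) (n : ℕ) :
    Function.Bijective (dlt n : H R (cW W) (cA1 W A) (n + 1) →ₗ[R] H R (cA1 W A) (cM W A) n) := by
  have hj : PM (id : X × ℝ → X × ℝ) (cW W) (cM W A) (cW W) (cA1 W A) :=
    PM.inc (le_refl _) (cM_sub W A) (fun _ h => h.1)
  have hi : PM (id : X × ℝ → X × ℝ) (cA1 W A) (cM W A) (cW W) (cM W A) :=
    PM.inc (cA1_sub W A) (le_refl _) (cM_sub W A)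
  constructor
  · rw [injective_iff_map_eq_zero]
    intro x hx
    obtain ⟨y, rfl⟩ := les3 (hj := hj) (cA1_sub W A) hx
    rw [cM_zero W A _ y, map_zero]
  · intro x
    exact les2 (hi := hi) (cM_sub W A) (cM_zero W A _ _)

theorem cA1_zero (W A : Set X) (x : H R (cW W) (cA1 W A) 0) : x = 0 := by
  have hj : PM (id : X × ℝ → X × ℝ) (cW W) (cM W A) (cW W) (cA1 W A) :=
    PM.inc (le_refl _) (cM_sub W A) (fun _ h => h.1)
  obtain ⟨y, rfl⟩ := les0 (hj := hj) x
  rw [cM_zero W A _ y, map_zero]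

theorem PM_fst (W A : Set X) (hA : A ⊆ W) :
    PM (Prod.fst : X × ℝ → X) (cP W) (cM W A ∩ cP W) W A :=
  ⟨continuousOn_fst, fun q hq => hq.1, fun q hq => by
    rcases hq.1.2 with h | h
    · exact absurd h (not_lt.2 hq.2.2.le)
    · exact h, Set.inter_subset_right⟩

theorem PM_sec (W A : Set X) (hA : A ⊆ W) :
    PM (fun x : X => ((x, 1) : X × ℝ)) W A (cP W) (cM W A ∩ cP W) :=
  ⟨by fun_prop, fun x hx => ⟨hx, zero_lt_one⟩, fun x hx =>
    ⟨⟨hA hx, Or.inr hx⟩, hA hx, zero_lt_one⟩, hA⟩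

theorem fst_bij (W A : Set X) (hA : A ⊆ W) (n : ℕ) :
    Function.Bijective (mapH (PM_fst W A hA) n :
      H R (cP W) (cM W A ∩ cP W) n →ₗ[R] H R W A n) := by
  refine bij_of_line (PM_fst W A hA) (PM_sec W A hA) ?_ ?_ ?_ ?_ n
  · intro q hq s hs0 hs1
    have e1 : (q + s • (((q.1, 1) : X × ℝ) - q)).1 = q.1 := by simp
    have e2 : (q + s • (((q.1, 1) : X × ℝ) - q)).2 = q.2 + s * (1 - q.2) := by simp
    refine ⟨?_, ?_⟩
    · rw [e1]; exact hq.1
    · rw [e2]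
      have := hq.2
      rcases eq_or_lt_of_le hs0 with h | h
      · rw [← h]; simpa using this
      · nlinarith
  · intro q hq s hs0 hs1
    have e1 : (q + s • (((q.1, 1) : X × ℝ) - q)).1 = q.1 := by simp
    have e2 : (q + s • (((q.1, 1) : X × ℝ) - q)).2 = q.2 + s * (1 - q.2) := by simp
    have hqA : q.1 ∈ A := by
      rcases hq.1.2 with h | h
      · exact absurd h (not_lt.2 hq.2.2.le)
      · exact h
    refine ⟨⟨?_, Or.inr ?_⟩, ?_, ?_⟩
    · rw [e1]; exact hq.1.1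
    · rw [e1]; exact hqA
    · rw [e1]; exact hq.1.1
    · rw [e2]
      have := hq.2.2
      rcases eq_or_lt_of_le hs0 with h | h
      · rw [← h]; simpa using this
      · nlinarith
  · intro y hy s _ _
    simpa using hy
  · intro y hy s _ _
    simpa using hy

theorem PM_exc (W A : Set X) : PM (id : X × ℝ → X × ℝ) (cP W) (cM W A ∩ cP W) (cA1 W A) (cM W A) :=
  PM.inc (cP_sub W A) Set.inter_subset_left Set.inter_subset_right

theorem exc_bij {W A : Set X} (hA : ROpen A W) (n : ℕ) :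
    Function.Bijective (mapH (PM_exc W A) n :
      H R (cP W) (cM W A ∩ cP W) n →ₗ[R] H R (cA1 W A) (cM W A) n) := by
  have h := excision (R := R) (ROpen_cM hA) (ROpen_cP W A) n
  have key : ∀ V : Set (X × ℝ), cM W A ∪ cP W = V → ∀ he : PM (id : X × ℝ → X × ℝ) (cP W)
      (cM W A ∩ cP W) V (cM W A), Function.Bijective (mapH he n :
      H R (cP W) (cM W A ∩ cP W) n →ₗ[R] H R V (cM W A) n) := by
    rintro V rfl he
    exact h he
  exact key _ (cM_union W A) _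

/-- suspension isomorphism -/
noncomputable def susp {W A : Set X} (hA : A ⊆ W) (ho : ROpen A W) (n : ℕ) :
    H R (cW W) (cA1 W A) (n + 1) ≃ₗ[R] H R W A n :=
  ((LinearEquiv.ofBijective _ (cM_dlt (R := R) W A n)).trans
    (LinearEquiv.ofBijective _ (exc_bij (R := R) ho n)).symm).trans
    (LinearEquiv.ofBijective _ (fst_bij (R := R) W A hA n))

theorem susp_spec {W A : Set X} (hA : A ⊆ W) (ho : ROpen A W) (n : ℕ)
    (y : H R (cP W) (cM W A ∩ cP W) n) (x : H R (cW W) (cA1 W A) (n + 1))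
    (hxy : mapH (PM_exc W A) n y = (dlt n x : H R (cA1 W A) (cM W A) n)) :
    susp hA ho n x = mapH (PM_fst W A hA) n y := by
  unfold susp
  rw [LinearEquiv.trans_apply, LinearEquiv.trans_apply, LinearEquiv.ofBijective_apply,
    LinearEquiv.ofBijective_apply, ← hxy]
  congr 1
  have : mapH (PM_exc W A) n y = (LinearEquiv.ofBijective _ (exc_bij (R := R) ho n)) y := rfl
  rw [this, LinearEquiv.symm_apply_apply]

/-- product map with the identity -/
def fxi (f : X → Y) : X × ℝ → Y × ℝ := fun q => (f q.1, q.2)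

theorem PM_fxi {f : X → Y} {W A : Set X} {W' A' : Set Y} (hf : PM f W A W' A') :
    PM (fxi f) (cW W) (cA1 W A) (cW W') (cA1 W' A') where
  cont := (hf.cont.comp continuousOn_fst (fun _ hq => hq)).prodMk continuousOn_snd
  mW := fun _ hq => hf.mW hq
  mA := fun _ hq => ⟨hf.mW hq.1, hq.2.imp id (fun h => hf.mA h)⟩
  sub := cA1_sub W A

theorem susp_nat {f : X → Y} {W A : Set X} {W' A' : Set Y} (hf : PM f W A W' A')
    (hA : A ⊆ W) (ho : ROpen A W) (hA' : A' ⊆ W') (ho' : ROpen A' W') (n : ℕ)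
    (x : H R (cW W) (cA1 W A) (n + 1)) :
    susp hA' ho' n (mapH (PM_fxi hf) (n + 1) x) = mapH hf n (susp hA ho n x) := by
  obtain ⟨y, hy⟩ := (exc_bij (R := R) ho n).2 (dlt n x)
  have h1 : PM (fxi f) (cP W) (cM W A ∩ cP W) (cP W') (cM W' A' ∩ cP W') :=
    ⟨((hf.cont.comp continuousOn_fst (fun _ hq => hq.1)).prodMk continuousOn_snd),
      fun q hq => ⟨hf.mW hq.1, hq.2⟩, fun q hq => ⟨⟨hf.mW hq.1.1, hq.1.2.imp id
        (fun h => hf.mA h)⟩, hf.mW hq.2.1, hq.2.2⟩, Set.inter_subset_right⟩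
  have h2 : PM (fxi f) (cA1 W A) (cM W A) (cA1 W' A') (cM W' A') :=
    ⟨(hf.cont.comp continuousOn_fst (fun _ hq => hq.1)).prodMk continuousOn_snd,
      fun q hq => ⟨hf.mW hq.1, hq.2.imp id (fun h => hf.mA h)⟩,
      fun q hq => ⟨hf.mW hq.1, hq.2.imp id (fun h => hf.mA h)⟩, cM_sub W A⟩
  have h3 : PM (fxi f) (cP W) (cM W A ∩ cP W) (cA1 W' A') (cM W' A') :=
    ⟨h1.cont, fun q hq => cP_sub W' A' (h1.mW hq), fun q hq => (h1.mA hq).1, h1.sub⟩
  rw [susp_spec hA ho n y x hy,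
    susp_spec hA' ho' n (mapH h1 n y) (mapH (PM_fxi hf) (n + 1) x)]
  · have h4 : PM (fun q : X × ℝ => f q.1) (cP W) (cM W A ∩ cP W) W' A' :=
      hf.comp (PM_fst W A hA)
    rw [← mapH_comp (PM_fst W' A' hA') h1 h4 (fun _ _ => rfl),
      ← mapH_comp hf (PM_fst W A hA) h4 (fun _ _ => rfl)]
  · rw [dlt_nat (PM_fxi hf) h2, ← hy, ← mapH_comp (PM_exc W' A') h1 h3 (fun _ _ => rfl),
      ← mapH_comp h2 (PM_exc W A) h3 (fun _ _ => rfl)]

end susp

end Pool.Agent.Helper72.HZ
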