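import Mathlib
import Pool.Agent.Helper72.HZ5

/-!
The Thom isomorphism for trivial bundles of complex rank two.
-/

set_option linter.unusedSectionVars false

namespace Pool.Agent.Helper72.HZ

open Finset

variable {R : Type} [CommRing R]
variable {X Y Z : Type} [TopologicalSpace X] [TopologicalSpace Y] [TopologicalSpace Z]
variable [AddCommGroup X] [Module ℝ X] [IsTopologicalAddGroup X] [ContinuousSMul ℝ X]
variable [AddCommGroup Y] [Module ℝ Y] [IsTopologicalAddGroup Y] [ContinuousSMul ℝ Y]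

/-- the total space over `W` -/
def qW (W : Set X) : Set (X × (ℂ × ℂ)) := {q | q.1 ∈ W}

/-- the complement of the zero section over `W` -/
def qA (W : Set X) : Set (X × (ℂ × ℂ)) := {q | q.1 ∈ W ∧ q.2 ≠ 0}

theorem qA_sub (W : Set X) : qA W ⊆ qW W := fun _ h => h.1

/-- four fold real coordinates -/
def phi4 (q : X × (ℂ × ℂ)) : (((X × ℝ) × ℝ) × ℝ) × ℝ :=
  ((((q.1, q.2.1.re), q.2.1.im), q.2.2.re), q.2.2.im)

/-- inverse of `phi4` -/
def psi4 (q : (((X × ℝ) × ℝ) × ℝ) × ℝ) : X × (ℂ × ℂ) :=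
  (q.1.1.1.1, (⟨q.1.1.1.2, q.1.1.2⟩, ⟨q.1.2, q.2⟩))

theorem psi_phi (q : X × (ℂ × ℂ)) : psi4 (phi4 q) = q := rfl

theorem phi_psi (q : (((X × ℝ) × ℝ) × ℝ) × ℝ) : phi4 (psi4 q) = q := rfl

theorem phi_cont : Continuous (phi4 : X × (ℂ × ℂ) → _) := by
  unfold phi4
  fun_prop

theorem psi_cont : Continuous (psi4 : (((X × ℝ) × ℝ) × ℝ) × ℝ → X × (ℂ × ℂ)) := by
  unfold psi4
  have h : Continuous (fun p : ℝ × ℝ => (⟨p.1, p.2⟩ : ℂ)) :=
    Complex.equivRealProdCLM.symm.continuous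
  refine Continuous.prodMk (by fun_prop) (Continuous.prodMk ?_ ?_)
  · exact h.comp (f := fun q : (((X × ℝ) × ℝ) × ℝ) × ℝ => (q.1.1.1.2, q.1.1.2)) (by fun_prop)
  · exact h.comp (f := fun q : (((X × ℝ) × ℝ) × ℝ) × ℝ => (q.1.2, q.2)) (by fun_prop)

/-- `W × ℝ⁴` -/
abbrev W4 (W : Set X) : Set ((((X × ℝ) × ℝ) × ℝ) × ℝ) := cW (cW (cW (cW W)))

/-- `W × ℝ` minus zero -/
abbrev B1 (W : Set X) : Set (X × ℝ) := cA1 W ∅

/-- `W × ℝ²` minus zero -/
abbrev B2 (W : Set X) : Set ((X × ℝ) × ℝ) := cA1 (cW W) (B1 W)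

/-- `W × ℝ³` minus zero -/
abbrev B3 (W : Set X) : Set (((X × ℝ) × ℝ) × ℝ) := cA1 (cW (cW W)) (B2 W)

/-- `W × ℝ⁴` minus zero -/
abbrev B4 (W : Set X) : Set ((((X × ℝ) × ℝ) × ℝ) × ℝ) := cA1 (cW (cW (cW W))) (B3 W)

theorem mem_B4 (W : Set X) (q : (((X × ℝ) × ℝ) × ℝ) × ℝ) :
    q ∈ B4 W ↔ q.1.1.1.1 ∈ W ∧ (q.2 ≠ 0 ∨ q.1.2 ≠ 0 ∨ q.1.1.2 ≠ 0 ∨ q.1.1.1.2 ≠ 0) := by
  simp only [B4, B3, B2, B1, cA1, cW, Set.mem_setOf_eq, Set.mem_empty_iff_false, or_false]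
  tauto

theorem ROpen_empty (W : Set X) : ROpen (∅ : Set X) W :=
  ⟨∅, isOpen_empty, rfl⟩

theorem o1 (W : Set X) : ROpen (B1 W) (cW W) := ROpen_cA1 (ROpen_empty W)
theorem o2 (W : Set X) : ROpen (B2 W) (cW (cW W)) := ROpen_cA1 (o1 W)
theorem o3 (W : Set X) : ROpen (B3 W) (cW (cW (cW W))) := ROpen_cA1 (o2 W)

theorem b1 (W : Set X) : B1 W ⊆ cW W := cA1_sub _ _
theorem b2 (W : Set X) : B2 W ⊆ cW (cW W) := cA1_sub _ _
theorem b3 (W : Set X) : B3 W ⊆ cW (cW (cW W)) := cA1_sub _ _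

theorem PM_phi (W : Set X) : PM (phi4 : X × (ℂ × ℂ) → _) (qW W) (qA W) (W4 W) (B4 W) where
  cont := phi_cont.continuousOn
  mW := fun _ hq => hq
  mA := by
    rintro ⟨x, c⟩ ⟨h1, h2⟩
    rw [mem_B4]
    refine ⟨h1, ?_⟩
    by_contra h
    push Not at h
    obtain ⟨h3, h4, h5, h6⟩ := h
    exact h2 (Prod.ext (Complex.ext h6 h5) (Complex.ext h4 h3))
  sub := qA_sub W

theorem PM_psi (W : Set X) : PM (psi4 : _ → X × (ℂ × ℂ)) (W4 W) (B4 W) (qW W) (qA W) where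
  cont := psi_cont.continuousOn
  mW := fun _ hq => hq
  mA := by
    intro q hq
    rw [mem_B4] at hq
    refine ⟨hq.1, ?_⟩
    intro h
    have h1 : (psi4 q).2.1 = 0 := by rw [h]; rfl
    have h2 : (psi4 q).2.2 = 0 := by rw [h]; rfl
    have e1 : q.1.1.1.2 = 0 := congrArg Complex.re h1
    have e2 : q.1.1.2 = 0 := congrArg Complex.im h1
    have e3 : q.1.2 = 0 := congrArg Complex.re h2
    have e4 : q.2 = 0 := congrArg Complex.im h2
    rcases hq.2 with h | h | h | h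
    · exact h e4
    · exact h e3
    · exact h e2
    · exact h e1
  sub := cA1_sub _ _

theorem phi_bij (W : Set X) (n : ℕ) :
    Function.Bijective (mapH (PM_phi W) n : H R (qW W) (qA W) n →ₗ[R] H R (W4 W) (B4 W) n) := by
  refine bij_of_inv (PM_phi W) (PM_psi W) n ?_ ?_
  · intro x
    rw [← mapH_comp (PM_psi W) (PM_phi W) ((PM_psi W).comp (PM_phi W)) (fun _ _ => rfl)]
    exact mapH_id _ (fun q _ => psi_phi q) n x
  · intro x
    rw [← mapH_comp (PM_phi W) (PM_psi W) ((PM_phi W).comp (PM_psi W)) (fun _ _ => rfl)]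
    exact mapH_id _ (fun q _ => phi_psi q) n x

/-- The Thom isomorphism. -/
noncomputable def thom (R : Type) [CommRing R] (W : Set X) (n : ℕ) :
    H R (qW W) (qA W) (n + 4) ≃ₗ[R] H R W ∅ n :=
  ((((LinearEquiv.ofBijective _ (phi_bij (R := R) W (n + 4))).trans
    (susp (b3 W) (o3 W) (n + 3))).trans
    (susp (b2 W) (o2 W) (n + 2))).trans
    (susp (b1 W) (o1 W) (n + 1))).trans
    (susp (Set.empty_subset W) (ROpen_empty W) n)

/-- product with the identity of `ℂ²` -/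
def fxc (f : X → Y) : X × (ℂ × ℂ) → Y × (ℂ × ℂ) := fun q => (f q.1, q.2)

theorem PM_fxc {f : X → Y} {W : Set X} {W' : Set Y} (hf : PM f W ∅ W' ∅) :
    PM (fxc f) (qW W) (qA W) (qW W') (qA W') where
  cont := (hf.cont.comp continuousOn_fst (fun _ hq => hq)).prodMk continuousOn_snd
  mW := fun _ hq => hf.mW hq
  mA := fun _ hq => ⟨hf.mW hq.1, hq.2⟩
  sub := qA_sub W

theorem thom_nat {f : X → Y} {W : Set X} {W' : Set Y} (hf : PM f W ∅ W' ∅) (n : ℕ)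
    (x : H R (qW W) (qA W) (n + 4)) :
    thom R W' n (mapH (PM_fxc hf) (n + 4) x) = mapH hf n (thom R W n x) := by
  have h1 := PM_fxi hf
  have h2 := PM_fxi h1
  have h3 := PM_fxi h2
  have h4 := PM_fxi h3
  show susp (Set.empty_subset W') (ROpen_empty W') n (susp (b1 W') (o1 W') (n + 1)
    (susp (b2 W') (o2 W') (n + 2) (susp (b3 W') (o3 W') (n + 3)
      (mapH (PM_phi W') (n + 4) (mapH (PM_fxc hf) (n + 4) x)))))
    = mapH hf n (susp (Set.empty_subset W) (ROpen_empty W) n (susp (b1 W) (o1 W) (n + 1)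
    (susp (b2 W) (o2 W) (n + 2) (susp (b3 W) (o3 W) (n + 3)
      (mapH (PM_phi W) (n + 4) x)))))
  have e0 : mapH (PM_phi W') (n + 4) (mapH (PM_fxc hf) (n + 4) x)
      = mapH h4 (n + 4) (mapH (PM_phi W) (n + 4) x) := by
    rw [← mapH_comp (PM_phi W') (PM_fxc hf) ((PM_phi W').comp (PM_fxc hf)) (fun _ _ => rfl),
      ← mapH_comp h4 (PM_phi W) ((PM_phi W').comp (PM_fxc hf)) (fun _ _ => rfl)]
  rw [e0, susp_nat h3 (b3 W) (o3 W) (b3 W') (o3 W') (n + 3),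
    susp_nat h2 (b2 W) (o2 W) (b2 W') (o2 W') (n + 2),
    susp_nat h1 (b1 W) (o1 W) (b1 W') (o1 W') (n + 1),
    susp_nat hf (Set.empty_subset W) (ROpen_empty W) (Set.empty_subset W') (ROpen_empty W') n]

theorem q_zero (W : Set X) {n : ℕ} (hn : n < 4) (x : H R (qW W) (qA W) n) : x = 0 := by
  apply (phi_bij (R := R) W n).1
  rw [map_zero]
  generalize mapH (PM_phi W) n x = y
  have z0 : ∀ (Y : Type) [TopologicalSpace Y] [AddCommGroup Y] [Module ℝ Y]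
      [IsTopologicalAddGroup Y] [ContinuousSMul ℝ Y] (W A : Set Y) (y : H R (cW W) (cA1 W A) 0),
      y = 0 := fun Y _ _ _ _ _ W A y => cA1_zero W A y
  interval_cases n
  · exact z0 _ _ _ y
  · apply (susp (b3 W) (o3 W) 0).injective
    rw [map_zero]
    exact z0 _ _ _ _
  · apply (susp (b3 W) (o3 W) 1).injective
    rw [map_zero]
    apply (susp (b2 W) (o2 W) 0).injective
    rw [map_zero]
    exact z0 _ _ _ _
  · apply (susp (b3 W) (o3 W) 2).injective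
    rw [map_zero]
    apply (susp (b2 W) (o2 W) 1).injective
    rw [map_zero]
    apply (susp (b1 W) (o1 W) 0).injective
    rw [map_zero]
    exact z0 _ _ _ _

end Pool.Agent.Helper72.HZ
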