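import Mathlib
import Pool.Agent.Helper72.HZ6

/-!
The rows `g Z m` and elementary maps on the space of sequences.
-/

set_option linter.unusedSectionVars false

namespace Pool.Agent.Helper72.HY

open Finset Pool.Agent.Helper72.HZ

/-- entries of a symmetric matrix -/
abbrev V : Type := ℂ × ℂ × ℂ

/-- pairs -/
abbrev C2 : Type := ℂ × ℂ

/-- sequences -/
abbrev E : Type := ℕ → V

/-- row vector times symmetric matrix -/
def mS (c : C2) (z : V) : C2 := (c.1 * z.1 + c.2 * z.2.1, c.1 * z.2.1 + c.2 * z.2.2)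

theorem mS_add (c : C2) (z w : V) : mS c (z + w) = mS c z + mS c w := by
  simp only [mS, Prod.fst_add, Prod.snd_add, Prod.mk_add_mk]
  congr 1 <;> ring

theorem mS_smul (c : C2) (s : ℝ) (z : V) : mS c (s • z) = s • mS c z := by
  simp only [mS, Prod.smul_fst, Prod.smul_snd, Prod.smul_mk, Complex.real_smul]
  congr 1 <;> ring

theorem mS_zero (c : C2) : mS c 0 = 0 := by
  simp [mS]

theorem mS_zero_left (z : V) : mS 0 z = 0 := by
  simp [mS]

theorem mS_sub (c : C2) (z w : V) : mS c (z - w) = mS c z - mS c w := by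
  simp only [mS, Prod.fst_sub, Prod.snd_sub, Prod.mk_sub_mk]
  congr 1 <;> ring

theorem mS_cont : Continuous (fun p : C2 × V => mS p.1 p.2) := by
  unfold mS
  fun_prop

/-- the rows -/
def g (Z : E) : ℕ → C2
  | 0 => 0
  | 1 => (0, 1)
  | (k + 2) => g Z k + mS (g Z (k + 1)) (Z k)

theorem g_zero (Z : E) : g Z 0 = 0 := by rw [g]

theorem g_one (Z : E) : g Z 1 = (0, 1) := by rw [g]

theorem g_succ (Z : E) (k : ℕ) : g Z (k + 2) = g Z k + mS (g Z (k + 1)) (Z k) := by rw [g]

theorem g_congr {Z Z' : E} : ∀ (k : ℕ), (∀ i, i + 2 ≤ k → Z i = Z' i) → g Z k = g Z' k := by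
  intro k
  induction k using Nat.strong_induction_on with
  | _ k ih =>
    intro h
    match k with
    | 0 => rw [g_zero, g_zero]
    | 1 => rw [g_one, g_one]
    | (k + 2) =>
      rw [g_succ, g_succ, ih k (by omega) (fun i hi => h i (by omega)),
        ih (k + 1) (by omega) (fun i hi => h i (by omega)), h k le_rfl]

theorem g_upd {Z : E} {i k : ℕ} (h : k < i + 2) (v : V) : g (Function.update Z i v) k = g Z k := by
  refine g_congr k fun j hj => ?_
  rw [Function.update_of_ne (by omega)]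

theorem g_cont : ∀ (k : ℕ), Continuous (fun Z : E => g Z k) := by
  intro k
  induction k using Nat.strong_induction_on with
  | _ k ih =>
    match k with
    | 0 => simp only [g_zero]; exact continuous_const
    | 1 => simp only [g_one]; exact continuous_const
    | (k + 2) =>
      simp only [g_succ]
      have h1 := ih k (by omega)
      have h2 := ih (k + 1) (by omega)
      have h3 : Continuous (fun Z : E => mS (g Z (k + 1)) (Z k)) :=
        mS_cont.comp (h2.prodMk (continuous_apply k))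
      exact h1.add h3

theorem g_ne {Z : E} : ∀ (k : ℕ), g Z k = 0 → g Z (k + 1) ≠ 0 := by
  intro k
  induction k with
  | zero =>
    intro _ h
    rw [zero_add, g_one] at h
    simp at h
  | succ k ih =>
    intro h h'
    rw [g_succ, h, mS_zero_left, add_zero] at h'
    exact ih h' h

/-- squared norm -/
noncomputable def nn (c : C2) : ℂ := c.1 * (starRingEnd ℂ) c.1 + c.2 * (starRingEnd ℂ) c.2

theorem nn_eq (c : C2) : nn c = ((Complex.normSq c.1 + Complex.normSq c.2 : ℝ) : ℂ) := by
  unfold nn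
  rw [Complex.mul_conj, Complex.mul_conj]
  push_cast
  rfl

theorem nn_ne {c : C2} (h : c ≠ 0) : nn c ≠ 0 := by
  rw [nn_eq]
  intro h1
  have h2 : Complex.normSq c.1 + Complex.normSq c.2 = 0 := by exact_mod_cast h1
  have h3 := Complex.normSq_nonneg c.1
  have h4 := Complex.normSq_nonneg c.2
  apply h
  have h5 : Complex.normSq c.1 = 0 := by linarith
  have h6 : Complex.normSq c.2 = 0 := by linarith
  exact Prod.ext (Complex.normSq_eq_zero.1 h5) (Complex.normSq_eq_zero.1 h6)

/-- A solution of `mS c z = w`, multiplied by `nn c ^ 2`. -/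
noncomputable def T0 (c w : C2) : V :=
  (2 * nn c * (starRingEnd ℂ) c.1 * w.1 -
    (c.1 * w.1 + c.2 * w.2) * ((starRingEnd ℂ) c.1 * (starRingEnd ℂ) c.1),
   nn c * ((starRingEnd ℂ) c.1 * w.2 + (starRingEnd ℂ) c.2 * w.1) -
    (c.1 * w.1 + c.2 * w.2) * ((starRingEnd ℂ) c.1 * (starRingEnd ℂ) c.2),
   2 * nn c * (starRingEnd ℂ) c.2 * w.2 -
    (c.1 * w.1 + c.2 * w.2) * ((starRingEnd ℂ) c.2 * (starRingEnd ℂ) c.2))

theorem mS_T0 (c w : C2) : mS c (T0 c w) = (nn c ^ 2 * w.1, nn c ^ 2 * w.2) := by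
  unfold mS T0 nn
  simp only
  congr 1 <;> ring

/-- A solution of `mS c z = w`. -/
noncomputable def Ts (c w : C2) : V :=
  ((nn c ^ 2)⁻¹ * (T0 c w).1, (nn c ^ 2)⁻¹ * (T0 c w).2.1, (nn c ^ 2)⁻¹ * (T0 c w).2.2)

theorem mS_Ts {c : C2} (h : c ≠ 0) (w : C2) : mS c (Ts c w) = w := by
  have h1 := mS_T0 c w
  have h2 := nn_ne h
  have h3 := congrArg Prod.fst h1
  have h4 := congrArg Prod.snd h1
  unfold mS at h3 h4 ⊢
  simp only at h3 h4
  unfold Ts
  apply Prod.ext
  · simp only
    have : c.1 * ((nn c ^ 2)⁻¹ * (T0 c w).1) + c.2 * ((nn c ^ 2)⁻¹ * (T0 c w).2.1)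
      = (nn c ^ 2)⁻¹ * (c.1 * (T0 c w).1 + c.2 * (T0 c w).2.1) := by ring
    rw [this, h3]
    field_simp
  · simp only
    have : c.1 * ((nn c ^ 2)⁻¹ * (T0 c w).2.1) + c.2 * ((nn c ^ 2)⁻¹ * (T0 c w).2.2)
      = (nn c ^ 2)⁻¹ * (c.1 * (T0 c w).2.1 + c.2 * (T0 c w).2.2) := by ring
    rw [this, h4]
    field_simp

theorem Ts_zero (c : C2) : Ts c 0 = 0 := by
  unfold Ts T0
  simp

theorem nn_cont : Continuous nn := by
  unfold nn
  fun_prop

theorem T0_cont : Continuous (fun p : C2 × C2 => T0 p.1 p.2) := by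
  unfold T0
  have := nn_cont
  fun_prop

theorem Ts_contOn : ContinuousOn (fun p : C2 × C2 => Ts p.1 p.2) {p | p.1 ≠ 0} := by
  have h0 := T0_cont
  have h1 : ContinuousOn (fun p : C2 × C2 => (nn p.1 ^ 2)⁻¹) {p | p.1 ≠ 0} := by
    refine ContinuousOn.inv₀ ((nn_cont.comp continuous_fst).pow 2).continuousOn ?_
    intro p hp
    exact pow_ne_zero _ (nn_ne hp)
  unfold Ts
  refine ContinuousOn.prodMk (h1.mul (continuous_fst.comp h0).continuousOn)
    (ContinuousOn.prodMk (h1.mul ((continuous_fst.comp (continuous_snd.comp h0))).continuousOn)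
      (h1.mul ((continuous_snd.comp (continuous_snd.comp h0))).continuousOn))

attribute [irreducible] Ts T0 nn mS

theorem Ts_comp {X : Type} [TopologicalSpace X] {W : Set X} {f h : X → C2}
    (hf : ContinuousOn f W) (hh : ContinuousOn h W) (h0 : ∀ x ∈ W, f x ≠ 0) :
    ContinuousOn (fun x => Ts (f x) (h x)) W := by
  have h1 : ContinuousOn (fun x => ((f x, h x) : C2 × C2)) W := hf.prodMk hh
  have h2 : Set.MapsTo (fun x => ((f x, h x) : C2 × C2)) W {p : C2 × C2 | p.1 ≠ 0} :=
    fun x hx => h0 x hx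
  exact ContinuousOn.comp (g := fun p : C2 × C2 => Ts p.1 p.2) Ts_contOn h1 h2

theorem upd_cont {X : Type} [TopologicalSpace X] {W : Set X} {f : X → E} {h : X → V} (i : ℕ)
    (hf : ContinuousOn f W) (hh : ContinuousOn h W) :
    ContinuousOn (fun x => Function.update (f x) i (h x)) W := by
  intro x hx
  exact (hf x hx).update i (hh x hx)

/-- the map changing one coordinate so that the next row is `w`. -/
noncomputable def be (m : ℕ) (q : E × C2) : E :=
  Function.update q.1 (m - 1) (Ts (g q.1 m) (q.2 - g q.1 (m - 1)))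

theorem be_cont {m : ℕ} {W : Set (E × C2)} (hW : ∀ q ∈ W, g q.1 m ≠ 0) :
    ContinuousOn (be m) W := by
  unfold be
  refine upd_cont _ continuousOn_fst (Ts_comp ?_ ?_ hW)
  · exact ((g_cont m).comp continuous_fst).continuousOn
  · exact (continuous_snd.sub ((g_cont (m - 1)).comp continuous_fst)).continuousOn

theorem g_be_lt {m k : ℕ} (hk : k < m + 1) (hm : m ≠ 0) (q : E × C2) : g (be m q) k = g q.1 k :=
  g_upd (by omega) _

theorem g_be {m : ℕ} (hm : m ≠ 0) {q : E × C2} (hq : g q.1 m ≠ 0) : g (be m q) (m + 1) = q.2 := by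
  obtain ⟨k, rfl⟩ := Nat.exists_eq_succ_of_ne_zero hm
  show g (be (k + 1) q) (k + 2) = q.2
  rw [g_succ, g_be_lt (by omega) hm, g_be_lt (by omega) hm]
  have : be (k + 1) q k = Ts (g q.1 (k + 1)) (q.2 - g q.1 k) := by
    unfold be
    rw [Nat.add_sub_cancel, Function.update_self]
  rw [this, mS_Ts hq]
  abel

theorem be_ne {m i : ℕ} (h : i ≠ m - 1) (q : E × C2) : be m q i = q.1 i := by
  unfold be
  rw [Function.update_of_ne h]

/-- nonvanishing of a row -/
def U (m : ℕ) : Set E := {Z | g Z m ≠ 0}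

/-- a row in a given set -/
def T (m : ℕ) (D : Set C2) : Set E := {Z | g Z m ∈ D}

theorem isOpen_U (m : ℕ) : IsOpen (U m) := isOpen_ne_fun (g_cont m) continuous_const

theorem isOpen_T (m : ℕ) {D : Set C2} (hD : IsOpen D) : IsOpen (T m D) := hD.preimage (g_cont m)

/-- shift -/
def sh (Z : E) : E := fun i => if i < 2 then 0 else Z (i - 2)

theorem sh_cont : Continuous sh := by
  refine continuous_pi fun i => ?_
  unfold sh
  split_ifs
  · exact continuous_const
  · exact continuous_apply _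

theorem g_sh (Z : E) : ∀ k, g (sh Z) (k + 2) = g Z k := by
  intro k
  induction k using Nat.strong_induction_on with
  | _ k ih =>
    match k with
    | 0 =>
      rw [g_succ, g_zero, g_zero, zero_add]
      have : sh Z 0 = 0 := rfl
      rw [this, mS_zero]
    | 1 =>
      rw [g_succ, g_one, g_one]
      have : sh Z 1 = 0 := rfl
      rw [this, mS_zero, add_zero]
    | (k + 2) =>
      rw [g_succ (sh Z) (k + 2), ih k (by omega), g_succ Z k]
      have h1 := ih (k + 1) (by omega)
      rw [show k + 2 + 1 = k + 1 + 2 from rfl, h1]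
      have : sh Z (k + 2) = Z k := by
        unfold sh
        rw [if_neg (by omega), Nat.add_sub_cancel]
      rw [this]

end Pool.Agent.Helper72.HY
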