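import Mathlib
import Pool.Agent.Helper72.HY1

/-!
Gysin sequences for the sets `U m` and `T m D`.
-/

set_option linter.unusedSectionVars false

namespace Pool.Agent.Helper72.HY

open Finset Pool.Agent.Helper72.HZ

variable {R : Type} [CommRing R]

/-! ### lines -/

theorem line_g1 {Z Z' : E} {k : ℕ} (h : ∀ i, i + 2 ≤ k → Z' i = Z i) (s : ℝ) :
    g (Z + s • (Z' - Z)) k = g Z k := by
  refine g_congr k fun i hi => ?_
  simp [h i hi]

theorem line_g2 {Z Z' : E} {k : ℕ} (h : ∀ i, i < k → Z' i = Z i) (s : ℝ) :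
    g (Z + s • (Z' - Z)) (k + 2) = g Z (k + 2) + s • (g Z' (k + 2) - g Z (k + 2)) := by
  have h1 : g (Z + s • (Z' - Z)) k = g Z k := line_g1 (fun i hi => h i (by omega)) s
  have h2 : g (Z + s • (Z' - Z)) (k + 1) = g Z (k + 1) := line_g1 (fun i hi => h i (by omega)) s
  have h3 : g Z' k = g Z k := g_congr k fun i hi => h i (by omega)
  have h4 : g Z' (k + 1) = g Z (k + 1) := g_congr (k + 1) fun i hi => h i (by omega)
  rw [g_succ, h1, h2, g_succ Z, g_succ Z', h3, h4]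
  have h5 : (Z + s • (Z' - Z)) k = Z k + s • (Z' k - Z k) := rfl
  rw [h5, mS_add, mS_smul, mS_sub]
  module

theorem U_zero : U 0 = ∅ := by
  ext Z
  simp [U, g_zero]

theorem T_zero {D : Set C2} (h : (0 : C2) ∉ D) : T 0 D = ∅ := by
  ext Z
  simp only [T, Set.mem_setOf_eq, g_zero, Set.mem_empty_iff_false, iff_false]
  exact h

theorem U_union (m : ℕ) : U (m + 1) ∪ U m = Set.univ := by
  ext Z
  simp only [Set.mem_union, Set.mem_univ, iff_true]
  by_cases h : g Z m = 0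
  · exact Or.inl (g_ne m h)
  · exact Or.inr h

/-! ### the maps for `U` -/

theorem PM_be1 (m : ℕ) : PM (be m) (qW (U m)) (qA (U m)) (U m) (U (m + 1) ∩ U m) := by
  rcases Nat.eq_zero_or_pos m with rfl | hm
  · refine ⟨?_, ?_, ?_, qA_sub _⟩
    · exact be_cont fun q hq => hq
    · intro q hq
      have : q.1 ∈ U 0 := hq
      rw [U_zero] at this
      exact absurd this (Set.notMem_empty _)
    · intro q hq
      have : q.1 ∈ U 0 := hq.1
      rw [U_zero] at this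
      exact absurd this (Set.notMem_empty _)
  · have hm' : m ≠ 0 := hm.ne'
    have h1 : ∀ q : E × C2, q.1 ∈ U m → be m q ∈ U m := by
      intro q hq
      show g (be m q) m ≠ 0
      rw [g_be_lt (by omega) hm']
      exact hq
    refine ⟨be_cont fun q hq => hq, h1, ?_, qA_sub _⟩
    rintro q ⟨hq, hq2⟩
    refine ⟨?_, h1 q hq⟩
    show g (be m q) (m + 1) ≠ 0
    rw [g_be hm' hq]
    exact hq2

/-- section of `be` -/
def al (m : ℕ) (Z : E) : E × C2 := (Z, g Z (m + 1))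

theorem al_cont (m : ℕ) : Continuous (al m) := continuous_id.prodMk (g_cont (m + 1))

theorem PM_al (m : ℕ) : PM (al m) (U m) (U (m + 1) ∩ U m) (qW (U m)) (qA (U m)) :=
  ⟨(al_cont m).continuousOn, fun _ h => h, fun _ h => ⟨h.2, h.1⟩, Set.inter_subset_right⟩

theorem be_al_ne {m i : ℕ} (h : i ≠ m - 1) (Z : E) : be m (al m Z) i = Z i := be_ne h (al m Z)

theorem be1_bij (m n : ℕ) : Function.Bijective
    (mapH (PM_be1 m) n : H R (qW (U m)) (qA (U m)) n →ₗ[R] H R (U m) (U (m + 1) ∩ U m) n) := by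
  have hz : ∀ Z : E, Z ∈ U m → m ≠ 0 := by
    rintro Z hZ rfl
    rw [U_zero] at hZ
    exact absurd hZ (Set.notMem_empty _)
  refine bij_of_line (PM_be1 m) (PM_al m) ?_ ?_ ?_ ?_ n
  · intro q hq s _ _
    have hm := hz _ hq
    show g (q.1 + s • (be m q - q.1)) m ≠ 0
    rw [line_g1 (fun i hi => be_ne (by omega) q)]
    exact hq
  · intro q hq s _ _
    have hm := hz _ hq.1
    refine ⟨?_, ?_⟩
    · show g (q.1 + s • (be m q - q.1)) m ≠ 0
      rw [line_g1 (fun i hi => be_ne (by omega) q)]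
      exact hq.1
    · show q.2 + s • (g (be m q) (m + 1) - q.2) ≠ 0
      rw [g_be hm hq.1, sub_self, smul_zero, add_zero]
      exact hq.2
  · intro Z hZ s _ _
    have hm := hz _ hZ
    show g (Z + s • (be m (al m Z) - Z)) m ≠ 0
    rw [line_g1 (fun i hi => be_al_ne (by omega) Z)]
    exact hZ
  · intro Z hZ s _ _
    have hm := hz _ hZ.2
    refine ⟨?_, ?_⟩
    · show g (Z + s • (be m (al m Z) - Z)) (m + 1) ≠ 0
      obtain ⟨k, rfl⟩ := Nat.exists_eq_succ_of_ne_zero hm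
      have h1 : g (Z + s • (be (k + 1) (al (k + 1) Z) - Z)) (k + 2) = g Z (k + 2) := by
        rw [line_g2 (fun i hi => be_al_ne (by omega) Z)]
        have h2 := g_be (m := k + 1) hm (q := al (k + 1) Z) hZ.2
        rw [show k + 1 + 1 = k + 2 from rfl] at h2
        rw [h2]
        show g Z (k + 2) + s • (g Z (k + 2) - g Z (k + 2)) = g Z (k + 2)
        rw [sub_self, smul_zero, add_zero]
      exact h1 ▸ hZ.1
    · show g (Z + s • (be m (al m Z) - Z)) m ≠ 0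
      rw [line_g1 (fun i hi => be_al_ne (by omega) Z)]
      exact hZ.2

theorem ROpen_of_open {P W : Set E} (h : IsOpen P) : ROpen P W := ⟨P, h, rfl⟩

theorem PM_incU (m : ℕ) : PM (id : E → E) (U m) (U (m + 1) ∩ U m) Set.univ (U (m + 1)) :=
  PM.inc (Set.subset_univ _) Set.inter_subset_left Set.inter_subset_right

theorem incU_bij (m n : ℕ) : Function.Bijective
    (mapH (PM_incU m) n : H R (U m) (U (m + 1) ∩ U m) n →ₗ[R] H R Set.univ (U (m + 1)) n) := by
  have h := excision (R := R) (P := U (m + 1)) (Q := U m) (ROpen_of_open (isOpen_U _))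
    (ROpen_of_open (isOpen_U _)) n
  have key : ∀ V : Set E, U (m + 1) ∪ U m = V → ∀ he : PM (id : E → E) (U m)
      (U (m + 1) ∩ U m) V (U (m + 1)), Function.Bijective (mapH he n :
      H R (U m) (U (m + 1) ∩ U m) n →ₗ[R] H R V (U (m + 1)) n) := by
    rintro V rfl he
    exact h he
  exact key _ (U_union m) _

theorem PM_beU (m : ℕ) : PM (be m) (qW (U m)) (qA (U m)) Set.univ (U (m + 1)) :=
  ⟨(PM_be1 m).cont, fun _ _ => trivial, fun _ h => ((PM_be1 m).mA h).1, qA_sub _⟩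

theorem beU_bij (m n : ℕ) : Function.Bijective
    (mapH (PM_beU m) n : H R (qW (U m)) (qA (U m)) n →ₗ[R] H R Set.univ (U (m + 1)) n) := by
  have h : (mapH (PM_beU m) n : H R (qW (U m)) (qA (U m)) n → H R Set.univ (U (m + 1)) n)
      = (mapH (PM_incU m) n) ∘ (mapH (PM_be1 m) n) := by
    funext x
    exact mapH_comp (PM_incU m) (PM_be1 m) (PM_beU m) (fun _ _ => rfl) n x
  rw [h]
  exact (incU_bij m n).comp (be1_bij m n)

/-- the boundary map for `U` -/
noncomputable def dU (R : Type) [CommRing R] (m n : ℕ) :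
    H R (qW (U m)) (qA (U m)) (n + 1) →ₗ[R] H R (U (m + 1)) ∅ n :=
  dlt n ∘ₗ mapH (PM_beU m) (n + 1)

/-! ### the maps for `T` -/

/-- the map `be` followed by setting the next coordinate to zero -/
noncomputable def be2 (m : ℕ) (q : E × C2) : E := Function.update (be m q) m 0

theorem be2_lt {m i : ℕ} (h : i + 2 ≤ m) (q : E × C2) : be2 m q i = q.1 i := by
  unfold be2
  rw [Function.update_of_ne (by omega), be_ne (by omega)]

theorem be2_al {m i : ℕ} (h : i + 2 ≤ m) (Z : E) : be2 m (al m Z) i = Z i := be2_lt h (al m Z)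

theorem be2_ne {m i : ℕ} (h : i ≠ m) (q : E × C2) : be2 m q i = be m q i := by
  unfold be2
  rw [Function.update_of_ne h]

theorem be2_self (m : ℕ) (q : E × C2) : be2 m q m = 0 := by
  unfold be2
  rw [Function.update_self]

theorem g_be2_lt {m k : ℕ} (hk : k < m + 2) (q : E × C2) : g (be2 m q) k = g (be m q) k :=
  g_upd hk _

theorem g_be2 (m : ℕ) (q : E × C2) : g (be2 m q) (m + 2) = g (be m q) m := by
  rw [g_succ, be2_self, mS_zero, add_zero, g_be2_lt (by omega)]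

section Tsec

variable {D : Set C2} (hDo : IsOpen D) (hDc : Convex ℝ D) (hD0 : (0 : C2) ∉ D)

/-- the open part of `T (m + 2) D` -/
def TA (m : ℕ) (D : Set C2) : Set E := U (m + 1) ∩ T (m + 2) D

/-- the tubular part of `T (m + 2) D` -/
def TB (m : ℕ) (D : Set C2) : Set E := T m D ∩ T (m + 2) D

theorem TA_union (m : ℕ) (D : Set C2) : TA m D ∪ TB m D = T (m + 2) D := by
  ext Z
  constructor
  · rintro (h | h) <;> exact h.2
  · intro h
    by_cases h1 : g Z (m + 1) = 0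
    · right
      refine ⟨?_, h⟩
      have h2 : g Z (m + 2) ∈ D := h
      rw [g_succ, h1, mS_zero_left, add_zero] at h2
      exact h2
    · exact Or.inl ⟨h1, h⟩

include hD0 in
theorem TB_pos {m : ℕ} {Z : E} (h : g Z m ∈ D) : m ≠ 0 := by
  rintro rfl
  rw [g_zero] at h
  exact hD0 h

include hD0 in
theorem D_ne {c : C2} (h : c ∈ D) : c ≠ 0 := by
  rintro rfl
  exact hD0 h

include hD0 in
theorem PM_be2 (m : ℕ) : PM (be2 m) (qW (T m D)) (qA (T m D)) (TB m D) (TA m D ∩ TB m D) := by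
  have h1 : ∀ q : E × C2, q.1 ∈ T m D → be2 m q ∈ TB m D := by
    intro q hq
    have hm := TB_pos hD0 hq
    refine ⟨?_, ?_⟩
    · show g (be2 m q) m ∈ D
      rw [g_be2_lt (by omega), g_be_lt (by omega) hm]
      exact hq
    · show g (be2 m q) (m + 2) ∈ D
      rw [g_be2, g_be_lt (by omega) hm]
      exact hq
  refine ⟨?_, h1, ?_, qA_sub _⟩
  · unfold be2
    exact upd_cont _ (be_cont fun q hq => D_ne hD0 hq) continuousOn_const
  · rintro q ⟨hq, hq2⟩
    have hm := TB_pos hD0 hq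
    refine ⟨⟨?_, (h1 q hq).2⟩, h1 q hq⟩
    show g (be2 m q) (m + 1) ≠ 0
    rw [g_be2_lt (by omega), g_be hm (D_ne hD0 hq)]
    exact hq2

theorem PM_al2 (m : ℕ) : PM (al m) (TB m D) (TA m D ∩ TB m D) (qW (T m D)) (qA (T m D)) :=
  ⟨(al_cont m).continuousOn, fun _ h => h.1, fun _ h => ⟨h.2.1, h.1.1⟩, Set.inter_subset_right⟩

include hDc hD0 in
theorem be2_bij (m n : ℕ) : Function.Bijective
    (mapH (PM_be2 hD0 m) n :
      H R (qW (T m D)) (qA (T m D)) n →ₗ[R] H R (TB m D) (TA m D ∩ TB m D) n) := by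
  have hline : ∀ Z ∈ TB m D, ∀ s : ℝ, 0 ≤ s → s ≤ 1 →
      g (Z + s • (be2 m (al m Z) - Z)) m = g Z m ∧
      g (Z + s • (be2 m (al m Z) - Z)) (m + 1) = g Z (m + 1) ∧
      g (Z + s • (be2 m (al m Z) - Z)) (m + 2) ∈ D := by
    intro Z hZ s hs0 hs1
    have hm := TB_pos hD0 hZ.1
    have e1 : g (Z + s • (be2 m (al m Z) - Z)) m = g Z m :=
      line_g1 (fun i hi => be2_al hi Z) s
    have e2 : g (Z + s • (be2 m (al m Z) - Z)) (m + 1) = g Z (m + 1) := by
      obtain ⟨k, rfl⟩ := Nat.exists_eq_succ_of_ne_zero hm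
      have h2 : g (be2 (k + 1) (al (k + 1) Z)) (k + 2) = g Z (k + 2) := by
        rw [g_be2_lt (by omega)]
        exact g_be hm (q := al (k + 1) Z) (D_ne hD0 hZ.1)
      show g (Z + s • (be2 (k + 1) (al (k + 1) Z) - Z)) (k + 2) = g Z (k + 2)
      rw [line_g2 (fun i hi => be2_al (by omega) Z), h2, sub_self, smul_zero, add_zero]
    refine ⟨e1, e2, ?_⟩
    rw [g_succ, e1, e2]
    have h3 : (Z + s • (be2 m (al m Z) - Z)) m = (1 - s) • Z m := by
      show Z m + s • (be2 m (al m Z) m - Z m) = (1 - s) • Z m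
      rw [be2_self]
      module
    rw [h3, mS_smul]
    have h4 : g Z m + (1 - s) • mS (g Z (m + 1)) (Z m)
        = s • g Z m + (1 - s) • g Z (m + 2) := by
      rw [g_succ Z]
      module
    rw [h4]
    exact hDc hZ.1 hZ.2 hs0 (by linarith) (by ring)
  refine bij_of_line (PM_be2 hD0 m) (PM_al2 m) ?_ ?_ ?_ ?_ n
  · intro q hq s _ _
    show g (q.1 + s • (be2 m q - q.1)) m ∈ D
    rw [line_g1 (fun i hi => be2_lt hi q)]
    exact hq
  · intro q hq s _ _
    have hm := TB_pos hD0 hq.1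
    refine ⟨?_, ?_⟩
    · show g (q.1 + s • (be2 m q - q.1)) m ∈ D
      rw [line_g1 (fun i hi => be2_lt hi q)]
      exact hq.1
    · show q.2 + s • (g (be2 m q) (m + 1) - q.2) ≠ 0
      rw [g_be2_lt (by omega), g_be hm (D_ne hD0 hq.1), sub_self, smul_zero, add_zero]
      exact hq.2
  · intro Z hZ s hs0 hs1
    obtain ⟨h1, _, h3⟩ := hline Z hZ s hs0 hs1
    refine ⟨?_, h3⟩
    show g (Z + s • (be2 m (al m Z) - Z)) m ∈ D
    rw [h1]
    exact hZ.1
  · intro Z hZ s hs0 hs1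
    obtain ⟨h1, h2, h3⟩ := hline Z hZ.2 s hs0 hs1
    refine ⟨⟨?_, h3⟩, ?_, h3⟩
    · show g (Z + s • (be2 m (al m Z) - Z)) (m + 1) ≠ 0
      rw [h2]
      exact hZ.1.1
    · show g (Z + s • (be2 m (al m Z) - Z)) m ∈ D
      rw [h1]
      exact hZ.2.1

theorem PM_incT (m : ℕ) : PM (id : E → E) (TB m D) (TA m D ∩ TB m D) (T (m + 2) D) (TA m D) :=
  PM.inc Set.inter_subset_right Set.inter_subset_left Set.inter_subset_right

include hDo in
theorem incT_bij (m n : ℕ) : Function.Bijective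
    (mapH (PM_incT m) n : H R (TB m D) (TA m D ∩ TB m D) n →ₗ[R] H R (T (m + 2) D) (TA m D) n) := by
  have h := excision (R := R) (P := TA m D) (Q := TB m D)
    (ROpen_of_open ((isOpen_U _).inter (isOpen_T _ hDo)))
    (ROpen_of_open ((isOpen_T _ hDo).inter (isOpen_T _ hDo))) n
  have key : ∀ V : Set E, TA m D ∪ TB m D = V → ∀ he : PM (id : E → E) (TB m D)
      (TA m D ∩ TB m D) V (TA m D), Function.Bijective (mapH he n :
      H R (TB m D) (TA m D ∩ TB m D) n →ₗ[R] H R V (TA m D) n) := by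
    rintro V rfl he
    exact h he
  exact key _ (TA_union m D) _

include hD0 in
theorem PM_beT (m : ℕ) : PM (be2 m) (qW (T m D)) (qA (T m D)) (T (m + 2) D) (TA m D) :=
  ⟨(PM_be2 hD0 m).cont, fun _ h => ((PM_be2 hD0 m).mW h).2, fun _ h => ((PM_be2 hD0 m).mA h).1,
    qA_sub _⟩

include hDo hDc hD0 in
theorem beT_bij (m n : ℕ) : Function.Bijective
    (mapH (PM_beT hD0 m) n : H R (qW (T m D)) (qA (T m D)) n →ₗ[R] H R (T (m + 2) D) (TA m D) n) := by
  have h : (mapH (PM_beT hD0 m) n :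
      H R (qW (T m D)) (qA (T m D)) n → H R (T (m + 2) D) (TA m D) n)
      = (mapH (PM_incT m) n) ∘ (mapH (PM_be2 hD0 m) n) := by
    funext x
    exact mapH_comp (PM_incT m) (PM_be2 hD0 m) (PM_beT hD0 m) (fun _ _ => rfl) n x
  rw [h]
  exact (incT_bij hDo m n).comp (be2_bij hDc hD0 m n)

theorem PM_iA (m : ℕ) : PM (id : E → E) (TA m D) ∅ (U (m + 1)) ∅ :=
  PM.inc Set.inter_subset_left (le_refl _) (Set.empty_subset _)

/-- replace a coordinate so that the row `m + 2` is `γ` -/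
noncomputable def rA (m : ℕ) (γ : C2) (Z : E) : E := be (m + 1) (Z, γ)

theorem rA_cont (m : ℕ) (γ : C2) : ContinuousOn (rA m γ) (U (m + 1)) := by
  unfold rA
  have h : ContinuousOn (fun Z : E => ((Z, γ) : E × C2)) (U (m + 1)) := by fun_prop
  exact ContinuousOn.comp (g := be (m + 1)) (t := qW (U (m + 1)))
    (be_cont fun q hq => hq) h (fun Z hZ => hZ)

theorem g_rA {m : ℕ} {γ : C2} {Z : E} (hZ : Z ∈ U (m + 1)) : g (rA m γ Z) (m + 2) = γ :=
  g_be (m := m + 1) (by omega) (q := (Z, γ)) hZ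

theorem g_rA_lt {m k : ℕ} (hk : k < m + 2) (γ : C2) (Z : E) : g (rA m γ Z) k = g Z k :=
  g_be_lt hk (by omega) (Z, γ)

theorem rA_ne {m i : ℕ} (h : i ≠ m) (γ : C2) (Z : E) : rA m γ Z i = Z i :=
  be_ne (m := m + 1) (by simpa using h) (Z, γ)

variable {γ : C2} (hγ : γ ∈ D)

include hγ in
theorem PM_rA (m : ℕ) : PM (rA m γ) (U (m + 1)) ∅ (TA m D) ∅ := by
  refine ⟨rA_cont m γ, ?_, ?_, Set.empty_subset _⟩
  · intro Z hZ
    refine ⟨?_, ?_⟩
    · show g (rA m γ Z) (m + 1) ≠ 0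
      rw [g_rA_lt (by omega)]
      exact hZ
    · show g (rA m γ Z) (m + 2) ∈ D
      rw [g_rA hZ]
      exact hγ
  · intro Z hZ
    exact absurd hZ (Set.notMem_empty _)

include hγ in
theorem PM_sT (m : ℕ) : PM (rA m γ) (U (m + 1)) ∅ (T (m + 2) D) ∅ := by
  refine ⟨rA_cont m γ, ?_, ?_, Set.empty_subset _⟩
  · intro Z hZ
    exact ((PM_rA hγ m).mW hZ).2
  · intro Z hZ
    exact absurd hZ (Set.notMem_empty _)

include hDc hγ in
theorem iA_bij (m n : ℕ) : Function.Bijective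
    (mapH (PM_iA m) n : H R (TA m D) ∅ n →ₗ[R] H R (U (m + 1)) ∅ n) := by
  have he : ∀ x ∈ (∅ : Set E), ∀ s : ℝ, 0 ≤ s → s ≤ 1 →
      x + s • (rA m γ (id x) - x) ∈ (∅ : Set E) := by
    intro x hx
    exact absurd hx (Set.notMem_empty _)
  refine bij_of_line (PM_iA m) (PM_rA hγ m) ?_ he ?_ he n
  · intro Z hZ s hs0 hs1
    refine ⟨?_, ?_⟩
    · show g (Z + s • (rA m γ Z - Z)) (m + 1) ≠ 0
      rw [line_g1 (fun i hi => rA_ne (by omega) _ _)]
      exact hZ.1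
    · show g (Z + s • (rA m γ Z - Z)) (m + 2) ∈ D
      rw [line_g2 (fun i hi => rA_ne (by omega) _ _), g_rA hZ.1]
      have : g Z (m + 2) + s • (γ - g Z (m + 2)) = (1 - s) • g Z (m + 2) + s • γ := by module
      rw [this]
      exact hDc hZ.2 hγ (by linarith) hs0 (by ring)
  · intro Z hZ s hs0 hs1
    show g (Z + s • (rA m γ Z - Z)) (m + 1) ≠ 0
    rw [line_g1 (fun i hi => rA_ne (by omega) _ _)]
    exact hZ

theorem PM_iT (m : ℕ) : PM (id : E → E) (TA m D) ∅ (T (m + 2) D) ∅ :=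
  PM.inc Set.inter_subset_right (le_refl _) (Set.empty_subset _)

include hDc hγ in
theorem sT_iA (m n : ℕ) (a : H R (TA m D) ∅ n) :
    mapH (PM_sT hγ m) n (mapH (PM_iA m) n a) = mapH (PM_iT m) n a := by
  have h1 : PM (rA m γ) (TA m D) ∅ (T (m + 2) D) ∅ := (PM_sT hγ m).comp (PM_iA m)
  rw [← mapH_comp (PM_sT hγ m) (PM_iA m) h1 (fun _ _ => rfl), eq_comm]
  refine mapH_line (PM_iT m) h1 ?_ ?_ n a
  · intro Z hZ s hs0 hs1
    show g (Z + s • (rA m γ Z - Z)) (m + 2) ∈ D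
    rw [line_g2 (fun i hi => rA_ne (by omega) _ _), g_rA hZ.1]
    have : g Z (m + 2) + s • (γ - g Z (m + 2)) = (1 - s) • g Z (m + 2) + s • γ := by module
    rw [this]
    exact hDc hZ.2 hγ (by linarith) hs0 (by ring)
  · intro x hx
    exact absurd hx (Set.notMem_empty _)

theorem PM_jT (m : ℕ) : PM (id : E → E) (T (m + 2) D) ∅ (T (m + 2) D) (TA m D) :=
  PM.inc (le_refl _) (Set.empty_subset _) (Set.empty_subset _)

/-- the boundary map for `T` -/
noncomputable def dT (R : Type) [CommRing R] (hD0 : (0 : C2) ∉ D) (m n : ℕ) :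
    H R (qW (T m D)) (qA (T m D)) (n + 1) →ₗ[R] H R (U (m + 1)) ∅ n :=
  mapH (PM_iA m) n ∘ₗ dlt n ∘ₗ mapH (PM_beT hD0 m) (n + 1)

/-- the restriction map for `T` -/
noncomputable def jT (R : Type) [CommRing R] (hDo : IsOpen D) (hDc : Convex ℝ D)
    (hD0 : (0 : C2) ∉ D) (m n : ℕ) :
    H R (T (m + 2) D) ∅ n →ₗ[R] H R (qW (T m D)) (qA (T m D)) n :=
  (LinearEquiv.ofBijective _ (beT_bij (R := R) hDo hDc hD0 m n)).symm.toLinearMap ∘ₗ
    mapH (PM_jT m) n

theorem beT_jT (m n : ℕ) (x : H R (T (m + 2) D) ∅ n) :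
    mapH (PM_beT hD0 m) n (jT R hDo hDc hD0 m n x) = mapH (PM_jT m) n x :=
  (LinearEquiv.ofBijective _ (beT_bij (R := R) hDo hDc hD0 m n)).apply_symm_apply _

theorem TA_sub (m : ℕ) (D : Set C2) : TA m D ⊆ T (m + 2) D := Set.inter_subset_right

include hγ in
theorem x1 {m n : ℕ} {x : H R (T (m + 2) D) ∅ n} (hx : jT R hDo hDc hD0 m n x = 0) :
    ∃ u, mapH (PM_sT hγ m) n u = x := by
  have h1 := beT_jT hDo hDc hD0 m n x
  rw [hx, map_zero] at h1
  obtain ⟨a, ha⟩ := les1 (hi := PM_iT m) (hj := PM_jT m) h1.symm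
  exact ⟨mapH (PM_iA m) n a, by rw [sT_iA hDc hγ, ha]⟩

include hγ in
theorem x1' (m n : ℕ) (u : H R (U (m + 1)) ∅ n) :
    jT R hDo hDc hD0 m n (mapH (PM_sT hγ m) n u) = 0 := by
  obtain ⟨a, rfl⟩ := (iA_bij (R := R) hDc hγ m n).2 u
  apply (beT_bij (R := R) hDo hDc hD0 m n).1
  rw [beT_jT, sT_iA hDc hγ, les_ji, map_zero]

include hDo hDc hγ in
theorem x2 {m n : ℕ} {u : H R (U (m + 1)) ∅ n} (hu : mapH (PM_sT hγ m) n u = 0) :
    ∃ q, dT R hD0 m n q = u := by
  obtain ⟨a, rfl⟩ := (iA_bij (R := R) hDc hγ m n).2 u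
  rw [sT_iA hDc hγ] at hu
  obtain ⟨y, hy⟩ := les2 (Set.empty_subset _) hu
  obtain ⟨q, rfl⟩ := (beT_bij (R := R) hDo hDc hD0 m (n + 1)).2 y
  refine ⟨q, ?_⟩
  show mapH (PM_iA m) n (dlt n (mapH (PM_beT hD0 m) (n + 1) q)) = _
  rw [hy]

include hDc hγ in
theorem x2' (m n : ℕ) (q : H R (qW (T m D)) (qA (T m D)) (n + 1)) :
    mapH (PM_sT hγ m) n (dT R hD0 m n q) = 0 := by
  show mapH (PM_sT hγ m) n (mapH (PM_iA m) n (dlt n (mapH (PM_beT hD0 m) (n + 1) q))) = 0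
  rw [sT_iA hDc hγ]
  exact les_id _

include hγ in
theorem x3 {m n : ℕ} {q : H R (qW (T m D)) (qA (T m D)) (n + 1)} (hq : dT R hD0 m n q = 0) :
    ∃ x, jT R hDo hDc hD0 m (n + 1) x = q := by
  have h1 : dlt n (mapH (PM_beT hD0 m) (n + 1) q) = (0 : H R (TA m D) ∅ n) := by
    apply (iA_bij (R := R) hDc hγ m n).1
    rw [map_zero]
    exact hq
  obtain ⟨x, hx⟩ := les3 (hj := PM_jT m) (TA_sub m D) h1
  refine ⟨x, ?_⟩
  apply (beT_bij (R := R) hDo hDc hD0 m (n + 1)).1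
  rw [beT_jT, hx]

theorem x3' (m n : ℕ) (x : H R (T (m + 2) D) ∅ (n + 1)) :
    dT R hD0 m n (jT R hDo hDc hD0 m (n + 1) x) = 0 := by
  show mapH (PM_iA m) n (dlt n (mapH (PM_beT hD0 m) (n + 1) (jT R hDo hDc hD0 m (n + 1) x))) = 0
  rw [beT_jT, les_dj, map_zero]

include hD0 in
theorem PM_tU (m : ℕ) : PM (id : E → E) (T m D) ∅ (U m) ∅ :=
  PM.inc (fun _ h => D_ne hD0 h) (le_refl _) (Set.empty_subset _)

theorem dT_nat (m n : ℕ) (q : H R (qW (T m D)) (qA (T m D)) (n + 1)) :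
    dT R hD0 m n q = dU R m n (mapH (PM_fxc (PM_tU hD0 m)) (n + 1) q) := by
  have hi : PM (id : E → E) (T (m + 2) D) (TA m D) Set.univ (U (m + 1)) :=
    PM.inc (Set.subset_univ _) Set.inter_subset_left (TA_sub m D)
  show mapH (PM_iA m) n (dlt n (mapH (PM_beT hD0 m) (n + 1) q))
    = dlt n (mapH (PM_beU m) (n + 1) (mapH (PM_fxc (PM_tU hD0 m)) (n + 1) q))
  rw [← dlt_nat hi (PM_iA m)]
  congr 1
  have h1 : PM (be2 m) (qW (T m D)) (qA (T m D)) Set.univ (U (m + 1)) := hi.comp (PM_beT hD0 m)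
  have h2 : PM (be m) (qW (T m D)) (qA (T m D)) Set.univ (U (m + 1)) :=
    (PM_beU m).comp (PM_fxc (PM_tU hD0 m))
  rw [← mapH_comp hi (PM_beT hD0 m) h1 (fun _ _ => rfl),
    ← mapH_comp (PM_beU m) (PM_fxc (PM_tU hD0 m)) h2 (fun _ _ => rfl)]
  refine mapH_line h1 h2 (fun _ _ _ _ _ => trivial) ?_ _ _
  intro x hx s _ _
  have hm := TB_pos hD0 hx.1
  show g (be2 m x + s • (be m x - be2 m x)) (m + 1) ≠ 0
  rw [line_g1 (fun i hi => (be2_ne (by omega) x).symm), g_be2_lt (by omega),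
    g_be hm (D_ne hD0 hx.1)]
  exact hx.2

end Tsec

end Pool.Agent.Helper72.HY
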