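import Mathlib
import Pool.Agent.Helper72.HY2

/-!
Homology of the sets `U m`.
-/

set_option linter.unusedSectionVars false

namespace Pool.Agent.Helper72.HY

open Finset Pool.Agent.Helper72.HZ

variable {R : Type} [CommRing R]

/-- free of rank one -/
def IsR (R : Type) [CommRing R] (M : Type) [AddCommGroup M] [Module R M] : Prop :=
  Nonempty (M ≃ₗ[R] R)

/-- trivial -/
def IsZ (M : Type) [AddCommGroup M] : Prop := ∀ x : M, x = 0

theorem IsR.congr {M N : Type} [AddCommGroup M] [Module R M] [AddCommGroup N] [Module R N]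
    (e : M ≃ₗ[R] N) (h : IsR R N) : IsR R M := h.map fun f => e.trans f

theorem IsZ.congr {M N : Type} [AddCommGroup M] [Module R M] [AddCommGroup N] [Module R N]
    (e : M ≃ₗ[R] N) (h : IsZ N) : IsZ M := fun x => by
  apply e.injective
  rw [map_zero]
  exact h _

theorem IsR.bij {M N : Type} [AddCommGroup M] [Module R M] [AddCommGroup N] [Module R N]
    {f : M →ₗ[R] N} (hf : Function.Bijective f) (h : IsR R N) : IsR R M :=
  IsR.congr (LinearEquiv.ofBijective f hf) h

theorem IsR.bij' {M N : Type} [AddCommGroup M] [Module R M] [AddCommGroup N] [Module R N]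
    {f : M →ₗ[R] N} (hf : Function.Bijective f) (h : IsR R M) : IsR R N :=
  IsR.congr (LinearEquiv.ofBijective f hf).symm h

theorem IsZ.bij {M N : Type} [AddCommGroup M] [Module R M] [AddCommGroup N] [Module R N]
    {f : M →ₗ[R] N} (hf : Function.Bijective f) (h : IsZ N) : IsZ M :=
  IsZ.congr (LinearEquiv.ofBijective f hf) h

theorem IsZ.bij' {M N : Type} [AddCommGroup M] [Module R M] [AddCommGroup N] [Module R N]
    {f : M →ₗ[R] N} (hf : Function.Bijective f) (h : IsZ M) : IsZ N :=
  IsZ.congr (LinearEquiv.ofBijective f hf).symm h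

/-- A surjective map between free modules of rank one is bijective. -/
theorem surj_bij {M N : Type} [AddCommGroup M] [Module R M] [AddCommGroup N] [Module R N]
    (hM : IsR R M) (hN : IsR R N) {f : M →ₗ[R] N} (hf : Function.Surjective f) :
    Function.Bijective f := by
  obtain ⟨a⟩ := hM
  obtain ⟨b⟩ := hN
  have h1 : Function.Surjective (b.toLinearMap ∘ₗ f ∘ₗ a.symm.toLinearMap) :=
    (b.surjective.comp hf).comp a.symm.surjective
  have h2 : Function.Injective (b.toLinearMap ∘ₗ f ∘ₗ a.symm.toLinearMap) := by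
    set φ := b.toLinearMap ∘ₗ f ∘ₗ a.symm.toLinearMap with hφ
    have h3 : ∀ x, φ x = x * φ 1 := by
      intro x
      have : x = x • (1 : R) := by simp
      rw [this, map_smul, smul_eq_mul, smul_eq_mul, mul_one]
    obtain ⟨y, hy⟩ := h1 1
    rw [h3] at hy
    rw [injective_iff_map_eq_zero]
    intro x hx
    rw [h3] at hx
    calc x = x * (y * φ 1) := by rw [hy, mul_one]
      _ = y * (x * φ 1) := by ring
      _ = 0 := by rw [hx, mul_zero]
  refine ⟨?_, hf⟩
  intro x y hxy
  have h4 : a x = a y := by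
    apply h2
    show b (f (a.symm (a x))) = b (f (a.symm (a y)))
    rw [a.symm_apply_apply, a.symm_apply_apply, hxy]
  exact a.injective h4

theorem E_star : ∀ x ∈ (Set.univ : Set E), ∀ s : ℝ, 0 ≤ s → s ≤ 1 →
    x + s • ((0 : E) - x) ∈ (Set.univ : Set E) := fun _ _ _ _ _ => trivial

theorem univ_zero {n : ℕ} (hn : n ≠ 0) (x : H R (Set.univ : Set E) ∅ n) : x = 0 :=
  star_zero (Set.mem_univ (0 : E)) E_star hn x

theorem univ_eps : Function.Bijective (eps R (Set.univ : Set E)) :=
  star_eps (Set.mem_univ (0 : E)) E_star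

theorem PM_uj (m : ℕ) : PM (id : E → E) Set.univ ∅ Set.univ (U (m + 1)) :=
  PM.inc (le_refl _) (Set.empty_subset _) (Set.empty_subset _)

theorem PM_ui (m : ℕ) : PM (id : E → E) (U m) ∅ Set.univ ∅ :=
  PM.inc (Set.subset_univ _) (le_refl _) (Set.empty_subset _)

theorem dU_inj (m n : ℕ) : Function.Injective (dU R m n) := by
  rw [injective_iff_map_eq_zero]
  intro q hq
  obtain ⟨y, hy⟩ := les3 (hj := PM_uj m) (Set.subset_univ _) (x := mapH (PM_beU m) (n + 1) q) hq
  rw [univ_zero (by omega) y, map_zero] at hy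
  apply (beU_bij (R := R) m (n + 1)).1
  rw [map_zero, ← hy]

theorem dU_surj (m : ℕ) {n : ℕ} (hn : n ≠ 0) : Function.Surjective (dU R m n) := by
  intro u
  obtain ⟨y, hy⟩ := les2 (hi := PM_ui (m + 1)) (Set.empty_subset _) (x := u) (univ_zero hn _)
  obtain ⟨q, rfl⟩ := (beU_bij (R := R) m (n + 1)).2 y
  exact ⟨q, hy⟩

theorem dU_bij (m : ℕ) {n : ℕ} (hn : n ≠ 0) : Function.Bijective (dU R m n) :=
  ⟨dU_inj m n, dU_surj m hn⟩

theorem eps_U (m : ℕ) : Function.Bijective (eps R (U (m + 1))) := by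
  constructor
  · rw [injective_iff_map_eq_zero]
    intro u hu
    have h1 : mapH (PM_ui (m + 1)) 0 u = 0 := by
      apply (univ_eps (R := R)).1
      rw [eps_nat, map_zero, hu]
    obtain ⟨y, hy⟩ := les2 (hi := PM_ui (m + 1)) (Set.empty_subset _) h1
    obtain ⟨q, rfl⟩ := (beU_bij (R := R) m (0 + 1)).2 y
    rw [← hy, q_zero (U m) (by omega) q, map_zero, map_zero]
  · intro r
    obtain ⟨y, hy⟩ := (univ_eps (R := R)).2 r
    have h1 : mapH (PM_uj m) 0 y = 0 := by
      obtain ⟨q, hq⟩ := (beU_bij (R := R) m 0).2 (mapH (PM_uj m) 0 y)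
      rw [← hq, q_zero (U m) (by omega) q, map_zero]
    obtain ⟨u, hu⟩ := les1 (hi := PM_ui (m + 1)) (hj := PM_uj m) h1
    refine ⟨u, ?_⟩
    rw [← eps_nat (PM_ui (m + 1)) u, hu, hy]

/-- the degrees in which `U m` has homology -/
def cU (m n : ℕ) : Prop := 3 ∣ n ∧ n + 3 ≤ 3 * m

theorem U_rank : ∀ (m n : ℕ), (cU m n → IsR R (H R (U m) ∅ n)) ∧ (¬ cU m n → IsZ (H R (U m) ∅ n)) := by
  intro m
  induction m with
  | zero =>
    intro n
    refine ⟨fun h => absurd h.2 (by omega), fun _ x => ?_⟩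
    have key : ∀ W : Set E, W = ∅ → ∀ x : H R W ∅ n, x = 0 := by
      rintro W rfl x
      exact H_self_zero x
    exact key _ U_zero x
  | succ m ih =>
    intro n
    match n with
    | 0 =>
      refine ⟨fun _ => ⟨LinearEquiv.ofBijective _ (eps_U (R := R) m)⟩, fun h => absurd ?_ h⟩
      exact ⟨dvd_zero 3, by omega⟩
    | 1 =>
      refine ⟨fun h => ?_, fun _ => ?_⟩
      · have := h.1; omega
      · exact IsZ.bij' (dU_bij m one_ne_zero) (fun q => q_zero (U m) (by omega) q)
    | 2 =>
      refine ⟨fun h => ?_, fun _ => ?_⟩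
      · have := h.1; omega
      · exact IsZ.bij' (dU_bij m two_ne_zero) (fun q => q_zero (U m) (by omega) q)
    | (k + 3) =>
      have h1 := dU_bij (R := R) m (n := k + 3) (by omega)
      have h2 := thom R (U m) k
      have h3 : cU (m + 1) (k + 3) ↔ cU m k := by
        unfold cU
        omega
      refine ⟨fun h => ?_, fun h => ?_⟩
      · exact IsR.bij' h1 (IsR.congr h2 ((ih k).1 (h3.1 h)))
      · exact IsZ.bij' h1 (IsZ.congr h2 ((ih k).2 (fun h' => h (h3.2 h'))))

theorem PM_shU (m : ℕ) : PM sh (U m) ∅ (U (m + 2)) ∅ := by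
  refine ⟨sh_cont.continuousOn, ?_, ?_, Set.empty_subset _⟩
  · intro Z hZ
    show g (sh Z) (m + 2) ≠ 0
    rw [g_sh]
    exact hZ
  · intro Z hZ
    exact absurd hZ (Set.notMem_empty _)

theorem sh_be {m : ℕ} (hm : m ≠ 0) (q : E × C2) : sh (be m q) = be (m + 2) (sh q.1, q.2) := by
  obtain ⟨k, rfl⟩ := Nat.exists_eq_succ_of_ne_zero hm
  funext i
  show sh (be (k + 1) q) i = be (k + 3) (sh q.1, q.2) i
  unfold be
  have e1 : g (sh q.1) (k + 3) = g q.1 (k + 1) := g_sh q.1 (k + 1)
  have e2 : g (sh q.1) (k + 3 - 1) = g q.1 (k + 1 - 1) := g_sh q.1 k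
  simp only [e1, e2]
  by_cases hi : i = k + 2
  · subst hi
    rw [show k + 3 - 1 = k + 2 from rfl, Function.update_self]
    unfold sh
    rw [if_neg (by omega), Nat.add_sub_cancel, Nat.add_sub_cancel, Function.update_self]
  · rw [Function.update_of_ne (by omega)]
    unfold sh
    split_ifs with h2
    · rfl
    · rw [Function.update_of_ne (by omega)]

theorem dU_sh {m : ℕ} (hm : m ≠ 0) (n : ℕ) (q : H R (qW (U m)) (qA (U m)) (n + 1)) :
    mapH (PM_shU (m + 1)) n (dU R m n q)
      = dU R (m + 2) n (mapH (PM_fxc (PM_shU m)) (n + 1) q) := by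
  have hs : PM sh Set.univ (U (m + 1)) Set.univ (U (m + 2 + 1)) :=
    ⟨sh_cont.continuousOn, fun _ _ => trivial, (PM_shU (m + 1)).mW, Set.subset_univ _⟩
  show mapH (PM_shU (m + 1)) n (dlt n (mapH (PM_beU m) (n + 1) q))
    = dlt n (mapH (PM_beU (m + 2)) (n + 1) (mapH (PM_fxc (PM_shU m)) (n + 1) q))
  rw [← dlt_nat hs (PM_shU (m + 1))]
  congr 1
  rw [← mapH_comp hs (PM_beU m) (hs.comp (PM_beU m)) (fun _ _ => rfl),
    ← mapH_comp (PM_beU (m + 2)) (PM_fxc (PM_shU m)) (hs.comp (PM_beU m))]
  intro q _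
  exact sh_be hm q

theorem sh_bij : ∀ (m n : ℕ), cU m n →
    Function.Bijective (mapH (PM_shU m) n : H R (U m) ∅ n →ₗ[R] H R (U (m + 2)) ∅ n) := by
  intro m
  induction m with
  | zero =>
    intro n h
    exact absurd h.2 (by omega)
  | succ m ih =>
    intro n h
    match n with
    | 0 =>
      have h1 := eps_U (R := R) m
      have h2 := eps_U (R := R) (m + 2)
      have h3 : ∀ x, eps R (U (m + 3)) (mapH (PM_shU (m + 1)) 0 x) = eps R (U (m + 1)) x :=
        fun x => eps_nat (PM_shU (m + 1)) x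
      constructor
      · intro x y hxy
        apply h1.1
        rw [← h3, ← h3, hxy]
      · intro y
        obtain ⟨x, hx⟩ := h1.2 (eps R (U (m + 3)) y)
        refine ⟨x, h2.1 ?_⟩
        exact (h3 x).trans hx
    | 1 => have := h.1; omega
    | 2 => have := h.1; omega
    | (k + 3) =>
      have hk : cU m k := by
        unfold cU at h ⊢
        omega
      have hm : m ≠ 0 := by
        rintro rfl
        exact absurd hk.2 (by omega)
      have hb := ih k hk
      have h1 := dU_bij (R := R) m (n := k + 3) (by omega)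
      have h2 := dU_bij (R := R) (m + 2) (n := k + 3) (by omega)
      have h3 : Function.Bijective (mapH (PM_fxc (PM_shU m)) (k + 4) :
          H R (qW (U m)) (qA (U m)) (k + 4) →ₗ[R] H R (qW (U (m + 2))) (qA (U (m + 2))) (k + 4)) := by
        have h4 := thom_nat (R := R) (PM_shU m) k
        constructor
        · intro x y hxy
          apply (thom R (U m) k).injective
          apply hb.1
          rw [← h4, ← h4, hxy]
        · intro y
          obtain ⟨x, hx⟩ := hb.2 (thom R (U (m + 2)) k y)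
          refine ⟨(thom R (U m) k).symm x, ?_⟩
          apply (thom R (U (m + 2)) k).injective
          rw [h4, LinearEquiv.apply_symm_apply, hx]
      have h5 := dU_sh (R := R) hm (k + 3)
      constructor
      · intro x y hxy
        obtain ⟨x, rfl⟩ := h1.2 x
        obtain ⟨y, rfl⟩ := h1.2 y
        rw [h5, h5] at hxy
        rw [h3.1 (h2.1 hxy)]
      · intro y
        obtain ⟨y, rfl⟩ := h2.2 y
        obtain ⟨x, hx⟩ := h3.2 y
        refine ⟨dU R m (k + 3) x, ?_⟩
        rw [h5, hx]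

end Pool.Agent.Helper72.HY
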