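import Mathlib
import Pool.Agent.Helper72.HY3

/-!
Stabilization versus the section maps.
-/

set_option linter.unusedSectionVars false

namespace Pool.Agent.Helper72.HY

open Finset Pool.Agent.Helper72.HZ

variable {R : Type} [CommRing R]

/-- insert two zeros at the places `l` and `l + 1` -/
def ins (l : ℕ) (Z : E) : E := fun i => if i < l then Z i else if i < l + 2 then 0 else Z (i - 2)

theorem ins_cont (l : ℕ) : Continuous (ins l) := by
  refine continuous_pi fun i => ?_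
  unfold ins
  split_ifs
  · exact continuous_apply _
  · exact continuous_const
  · exact continuous_apply _

theorem ins_zero (Z : E) : ins 0 Z = sh Z := by
  funext i
  unfold ins sh
  simp

theorem g_rot {W Z : E} {l : ℕ} (h1 : ∀ i, i < l → W i = Z i) (h2 : W (l + 1) = 0)
    (h3 : W l + W (l + 2) = Z l) (h4 : ∀ i, l + 1 ≤ i → W (i + 2) = Z i) :
    ∀ j, l + 1 ≤ j → g W (j + 2) = g Z j := by
  have e0 : g W l = g Z l := g_congr l fun i hi => h1 i (by omega)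
  have e1 : g W (l + 1) = g Z (l + 1) := g_congr (l + 1) fun i hi => h1 i (by omega)
  have e3 : g W (l + 3) = g Z (l + 1) := by
    rw [g_succ, h2, mS_zero, add_zero, e1]
  have e4 : g W (l + 4) = g Z (l + 2) := by
    rw [g_succ W (l + 2), show l + 2 + 1 = l + 3 from rfl, e3, g_succ W l, e0, e1, g_succ Z l,
      add_assoc, ← mS_add, h3]
  intro j
  induction j using Nat.strong_induction_on with
  | _ j ih =>
    intro hj
    rcases Nat.lt_or_ge j (l + 3) with h | h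
    · rcases (by omega : j = l + 1 ∨ j = l + 2) with rfl | rfl
      · exact e3
      · exact e4
    · obtain ⟨i, rfl⟩ : ∃ i, j = i + 2 := ⟨j - 2, by omega⟩
      rw [g_succ W (i + 2), ih i (by omega) (by omega), show i + 2 + 1 = (i + 1) + 2 from rfl,
        ih (i + 1) (by omega) (by omega), h4 i (by omega), g_succ Z i]

theorem ins_lt {l i : ℕ} (h : i < l) (Z : E) : ins l Z i = Z i := by
  unfold ins
  rw [if_pos h]

theorem ins_mid {l i : ℕ} (h : l ≤ i) (h' : i < l + 2) (Z : E) : ins l Z i = 0 := by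
  unfold ins
  rw [if_neg (by omega), if_pos h']

theorem ins_ge {l i : ℕ} (h : l ≤ i) (Z : E) : ins l Z (i + 2) = Z i := by
  unfold ins
  rw [if_neg (by omega), if_neg (by omega), Nat.add_sub_cancel]

theorem g_ins {l m : ℕ} (h : l ≤ m) (Z : E) : g (ins l Z) (m + 2) = g Z m := by
  rcases Nat.lt_or_ge l m with h' | h'
  · refine g_rot (fun i hi => ins_lt hi Z) (ins_mid (by omega) (by omega) Z) ?_
      (fun i hi => ins_ge (by omega) Z) m h'
    rw [ins_mid (le_refl _) (by omega), ins_ge (le_refl _), zero_add]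
  · have : l = m := le_antisymm h h'
    subst this
    rw [g_succ, ins_mid (le_refl _) (by omega), mS_zero, add_zero]
    exact g_congr l fun i hi => ins_lt (by omega) Z

theorem g_line_ins {l m : ℕ} (h : l + 1 ≤ m) (Z : E) (s : ℝ) :
    g (ins l Z + s • (ins (l + 1) Z - ins l Z)) (m + 2) = g Z m := by
  have hW : ∀ i, (ins l Z + s • (ins (l + 1) Z - ins l Z)) i
      = ins l Z i + s • (ins (l + 1) Z i - ins l Z i) := fun i => rfl
  refine g_rot ?_ ?_ ?_ ?_ m h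
  · intro i hi
    rw [hW, ins_lt hi, ins_lt (by omega), sub_self, smul_zero, add_zero]
  · rw [hW, ins_mid (by omega) (by omega), ins_mid (by omega) (by omega), sub_self, smul_zero,
      add_zero]
  · rw [hW, hW, ins_mid (le_refl _) (by omega), ins_ge (le_refl _), ins_lt (by omega),
      ins_mid (l := l + 1) (i := l + 2) (by omega) (by omega)]
    module
  · intro i hi
    rw [hW, ins_ge (by omega), ins_ge (by omega), sub_self, smul_zero, add_zero]

theorem PM_ins {l m : ℕ} (h : l ≤ m) : PM (ins l) (U m) ∅ (U (m + 2)) ∅ := by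
  refine ⟨(ins_cont l).continuousOn, ?_, ?_, Set.empty_subset _⟩
  · intro Z hZ
    show g (ins l Z) (m + 2) ≠ 0
    rw [g_ins h]
    exact hZ
  · intro Z hZ
    exact absurd hZ (Set.notMem_empty _)

theorem not_empty {P : Prop} {X : Type} (x : X) (h : x ∈ (∅ : Set X)) : P :=
  absurd h (Set.notMem_empty _)

theorem mapH_ins (m n : ℕ) (x : H R (U m) ∅ n) : ∀ (l : ℕ) (h : l ≤ m),
    mapH (PM_ins h) n x = mapH (PM_shU m) n x := by
  intro l
  induction l with
  | zero =>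
    intro h
    exact mapH_congr _ _ (fun Z _ => ins_zero Z) n x
  | succ l ih =>
    intro h
    rw [← ih (by omega)]
    refine (mapH_line (PM_ins (by omega)) (PM_ins h) ?_ (fun x hx => not_empty x hx) n x).symm
    intro Z hZ s _ _
    show g (ins l Z + s • (ins (l + 1) Z - ins l Z)) (m + 2) ≠ 0
    rw [g_line_ins h]
    exact hZ

section Tsec

variable {D : Set C2} (hDo : IsOpen D) (hDc : Convex ℝ D) (hD0 : (0 : C2) ∉ D)
variable {γ : C2} (hγ : γ ∈ D)

/-- first comparison map -/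
noncomputable def f1 (k : ℕ) (γ : C2) (Z : E) : E × C2 := (rA k γ Z, g Z (k + 1))

/-- second comparison map -/
noncomputable def f2 (k : ℕ) (γ : C2) (Z : E) : E × C2 := (rA k γ Z, γ)

include hγ in
theorem PM_f1 (k : ℕ) : PM (f1 k γ) (U (k + 1)) ∅ (qA (T (k + 2) D)) ∅ := by
  refine ⟨?_, ?_, fun x hx => not_empty x hx, Set.empty_subset _⟩
  · exact (rA_cont k γ).prodMk (g_cont (k + 1)).continuousOn
  · intro Z hZ
    exact ⟨(PM_sT hγ k).mW hZ, hZ⟩

include hD0 hγ in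
theorem PM_f2 (k : ℕ) : PM (f2 k γ) (U (k + 1)) ∅ (qA (T (k + 2) D)) ∅ := by
  refine ⟨?_, ?_, fun x hx => not_empty x hx, Set.empty_subset _⟩
  · exact (rA_cont k γ).prodMk continuousOn_const
  · intro Z hZ
    exact ⟨(PM_sT hγ k).mW hZ, D_ne hD0 hγ⟩

include hD0 in
theorem PM_ka (k : ℕ) : PM (be (k + 2)) (qA (T (k + 2) D)) ∅ (U (k + 3)) ∅ := by
  refine ⟨be_cont fun q hq => D_ne hD0 hq.1, ?_, fun x hx => not_empty x hx, Set.empty_subset _⟩
  intro q hq
  show g (be (k + 2) q) (k + 3) ≠ 0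
  rw [g_be (by omega) (D_ne hD0 hq.1)]
  exact hq.2

include hγ in
theorem L0 (k n : ℕ) (x : H R (U (k + 1)) ∅ n) :
    mapH (PM_shU (k + 1)) n x = mapH (PM_ka hD0 k) n (mapH (PM_f1 hγ k) n x) := by
  have h1 := (PM_ka hD0 k).comp (PM_f1 hγ k)
  rw [← mapH_comp (PM_ka hD0 k) (PM_f1 hγ k) h1 (fun _ _ => rfl),
    ← mapH_ins (k + 1) n x (k + 1) (le_refl _)]
  refine mapH_line (PM_ins (le_refl _)) h1 ?_ (fun x hx => not_empty x hx) n x
  intro Z hZ s _ _
  have e1 : ∀ i, i < k → (be (k + 2) ∘ f1 k γ) Z i = Z i := by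
    intro i hi
    show be (k + 2) (f1 k γ Z) i = Z i
    rw [be_ne (by omega)]
    exact rA_ne (by omega) _ _
  have e2 : (be (k + 2) ∘ f1 k γ) Z (k + 1) = 0 := by
    show be (k + 2) (f1 k γ Z) (k + 1) = 0
    unfold be
    rw [show k + 2 - 1 = k + 1 from rfl, Function.update_self]
    have : (f1 k γ Z).2 - g (f1 k γ Z).1 (k + 1) = 0 := by
      show g Z (k + 1) - g (rA k γ Z) (k + 1) = 0
      rw [g_rA_lt (by omega), sub_self]
    rw [this, Ts_zero]
  have e3 : ∀ i, (ins (k + 1) Z + s • ((be (k + 2) ∘ f1 k γ) Z - ins (k + 1) Z)) i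
      = ins (k + 1) Z i + s • ((be (k + 2) ∘ f1 k γ) Z i - ins (k + 1) Z i) := fun i => rfl
  show g (ins (k + 1) Z + s • ((be (k + 2) ∘ f1 k γ) Z - ins (k + 1) Z)) (k + 1 + 2) ≠ 0
  have e4 : (ins (k + 1) Z + s • ((be (k + 2) ∘ f1 k γ) Z - ins (k + 1) Z)) (k + 1) = 0 := by
    rw [e3, e2, ins_mid (by omega) (by omega), sub_self, smul_zero, add_zero]
  have e5 : g (ins (k + 1) Z + s • ((be (k + 2) ∘ f1 k γ) Z - ins (k + 1) Z)) (k + 1)
      = g Z (k + 1) := by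
    refine g_congr (k + 1) fun i hi => ?_
    rw [e3, e1 i (by omega), ins_lt (by omega), sub_self, smul_zero, add_zero]
  rw [g_succ, e4, mS_zero, add_zero, e5]
  exact hZ

include hγ in
theorem L0' (k n : ℕ) (x : H R (U (k + 1)) ∅ n) :
    mapH (PM_tU hD0 (k + 3)) n (mapH (PM_sT hγ (k + 1)) n
      (mapH (PM_tU hD0 (k + 2)) n (mapH (PM_sT hγ k) n x)))
      = mapH (PM_ka hD0 k) n (mapH (PM_f2 hD0 hγ k) n x) := by
  have h1 := (PM_ka hD0 k).comp (PM_f2 hD0 hγ k)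
  have h2 := (PM_tU hD0 (k + 2)).comp (PM_sT hγ k)
  have h3 := (PM_sT hγ (k + 1)).comp h2
  rw [← mapH_comp (PM_ka hD0 k) (PM_f2 hD0 hγ k) h1 (fun _ _ => rfl),
    ← mapH_comp (PM_tU hD0 (k + 2)) (PM_sT hγ k) h2 (fun _ _ => rfl),
    ← mapH_comp (PM_sT hγ (k + 1)) h2 h3 (fun _ _ => rfl),
    ← mapH_comp (PM_tU hD0 (k + 3)) h3 h1 (fun _ _ => rfl)]

include hγ in
theorem L1 (k n : ℕ) (hQ : IsZ (H R (qW (T (k + 2) D)) (qA (T (k + 2) D)) (n + 1)))
    (x : H R (U (k + 1)) ∅ n) :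
    mapH (PM_f1 hγ k) n x = mapH (PM_f2 hD0 hγ k) n x := by
  have hi : PM (id : E × C2 → E × C2) (qA (T (k + 2) D)) ∅ (qW (T (k + 2) D)) ∅ :=
    PM.inc (qA_sub _) (le_refl _) (Set.empty_subset _)
  have h0 : mapH hi n (mapH (PM_f1 hγ k) n x - mapH (PM_f2 hD0 hγ k) n x) = 0 := by
    have h1 := hi.comp (PM_f1 hγ k)
    have h2 := hi.comp (PM_f2 hD0 hγ k)
    rw [map_sub, ← mapH_comp hi (PM_f1 hγ k) h1 (fun _ _ => rfl),
      ← mapH_comp hi (PM_f2 hD0 hγ k) h2 (fun _ _ => rfl), sub_eq_zero]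
    refine mapH_line h1 h2 ?_ (fun x hx => not_empty x hx) n x
    intro Z hZ s _ _
    show rA k γ Z + s • (rA k γ Z - rA k γ Z) ∈ T (k + 2) D
    rw [sub_self, smul_zero, add_zero]
    exact (PM_sT hγ k).mW hZ
  obtain ⟨y, hy⟩ := les2 (Set.empty_subset _) h0
  rw [hQ y, map_zero] at hy
  exact (sub_eq_zero.1 hy.symm)

include hDc in
theorem L2 (k n : ℕ) (x : H R (T (k + 1) D) ∅ n) :
    mapH (PM_f1 hγ k) n (mapH (PM_tU hD0 (k + 1)) n x)
      = mapH (PM_f2 hD0 hγ k) n (mapH (PM_tU hD0 (k + 1)) n x) := by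
  have h1 := (PM_f1 hγ k).comp (PM_tU hD0 (k + 1))
  have h2 := (PM_f2 hD0 hγ k).comp (PM_tU hD0 (k + 1))
  rw [← mapH_comp (PM_f1 hγ k) (PM_tU hD0 (k + 1)) h1 (fun _ _ => rfl),
    ← mapH_comp (PM_f2 hD0 hγ k) (PM_tU hD0 (k + 1)) h2 (fun _ _ => rfl)]
  refine mapH_line h1 h2 ?_ (fun x hx => not_empty x hx) n x
  intro Z hZ s hs0 hs1
  refine ⟨?_, ?_⟩
  · show rA k γ Z + s • (rA k γ Z - rA k γ Z) ∈ T (k + 2) D
    rw [sub_self, smul_zero, add_zero]
    exact (PM_sT hγ k).mW (D_ne hD0 hZ)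
  · show g Z (k + 1) + s • (γ - g Z (k + 1)) ≠ 0
    have : g Z (k + 1) + s • (γ - g Z (k + 1)) = (1 - s) • g Z (k + 1) + s • γ := by module
    rw [this]
    exact D_ne hD0 (hDc hZ hγ (by linarith) hs0 (by ring))

/-- the composite `U (k+1) → T (k+2) → U (k+2) → T (k+3) → U (k+3)` -/
theorem F4 (k n : ℕ) (hQ : IsZ (H R (qW (T (k + 2) D)) (qA (T (k + 2) D)) (n + 1)))
    (x : H R (U (k + 1)) ∅ n) :
    mapH (PM_tU hD0 (k + 3)) n (mapH (PM_sT hγ (k + 1)) n
      (mapH (PM_tU hD0 (k + 2)) n (mapH (PM_sT hγ k) n x))) = mapH (PM_shU (k + 1)) n x := by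
  rw [L0' hD0 hγ, L0 hD0 hγ, L1 hD0 hγ k n hQ]

include hDc in
theorem F5 (k n : ℕ) (x : H R (T (k + 1) D) ∅ n) :
    mapH (PM_tU hD0 (k + 3)) n (mapH (PM_sT hγ (k + 1)) n
      (mapH (PM_tU hD0 (k + 2)) n (mapH (PM_sT hγ k) n (mapH (PM_tU hD0 (k + 1)) n x))))
      = mapH (PM_shU (k + 1)) n (mapH (PM_tU hD0 (k + 1)) n x) := by
  rw [L0' hD0 hγ, L0 hD0 hγ, L2 hDc hD0 hγ]

end Tsec

end Pool.Agent.Helper72.HY
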