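import Mathlib
import Pool.Agent.Helper72.HY4

/-!
Homology of the sets `T m D`.
-/

set_option linter.unusedSectionVars false

namespace Pool.Agent.Helper72.HY

open Finset Pool.Agent.Helper72.HZ

variable {R : Type} [CommRing R]

/-- the degrees in which `T m D` has homology -/
def cT (m n : ℕ) : Prop :=
  (m % 2 = 0 ∧ n % 6 = 0 ∧ n + 6 ≤ 3 * m) ∨
  (m % 2 = 1 ∧ ((n % 6 = 0 ∧ n + 9 ≤ 3 * m) ∨ (n % 2 = 1 ∧ 2 * m ≤ n + 3 ∧ n + 6 ≤ 3 * m)))

section Tsec

variable {D : Set C2} (hDo : IsOpen D) (hDc : Convex ℝ D) (hD0 : (0 : C2) ∉ D)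
variable {γ : C2} (hγ : γ ∈ D)

theorem D1 {m k : ℕ}
    (h : Function.Bijective (mapH (PM_tU hD0 m) k : H R (T m D) ∅ k →ₗ[R] H R (U m) ∅ k)) :
    Function.Bijective (dT R hD0 m (k + 3)) := by
  have h4 := thom_nat (R := R) (PM_tU hD0 m) k
  have h3 : Function.Bijective (mapH (PM_fxc (PM_tU hD0 m)) (k + 4) :
      H R (qW (T m D)) (qA (T m D)) (k + 4) →ₗ[R] H R (qW (U m)) (qA (U m)) (k + 4)) := by
    constructor
    · intro x y hxy
      apply (thom R (T m D) k).injective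
      apply h.1
      rw [← h4, ← h4, hxy]
    · intro y
      obtain ⟨x, hx⟩ := h.2 (thom R (U m) k y)
      refine ⟨(thom R (T m D) k).symm x, ?_⟩
      apply (thom R (U m) k).injective
      rw [h4, LinearEquiv.apply_symm_apply, hx]
  have h5 : (dT R hD0 m (k + 3) : _ → _) =
      (dU R m (k + 3)) ∘ (mapH (PM_fxc (PM_tU hD0 m)) (k + 4)) := by
    funext q
    exact dT_nat hD0 m (k + 3) q
  rw [h5]
  exact (dU_bij m (by omega)).comp h3

theorem D2 {m k : ℕ}
    (h : ∀ x : H R (T m D) ∅ k, mapH (PM_tU hD0 m) k x = 0)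
    (q : H R (qW (T m D)) (qA (T m D)) (k + 4)) : dT R hD0 m (k + 3) q = 0 := by
  have h4 := thom_nat (R := R) (PM_tU hD0 m) k q
  rw [h, LinearEquiv.map_eq_zero_iff] at h4
  rw [dT_nat, h4, map_zero]

theorem lemA {m n : ℕ} (hj : ∀ x : H R (T (m + 2) D) ∅ n, jT R hDo hDc hD0 m n x = 0)
    (hd : Function.Surjective (dT R hD0 m n)) (hγ : γ ∈ D) : IsZ (H R (T (m + 2) D) ∅ n) := by
  intro x
  obtain ⟨u, rfl⟩ := x1 hDo hDc hD0 hγ (hj x)
  obtain ⟨q, rfl⟩ := hd u
  exact x2' hDc hD0 hγ m n q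

theorem lemB {m n : ℕ} (hj : ∀ x : H R (T (m + 2) D) ∅ n, jT R hDo hDc hD0 m n x = 0)
    (hd : ∀ q, dT R hD0 m n q = 0) :
    Function.Bijective (mapH (PM_sT hγ m) n :
      H R (U (m + 1)) ∅ n →ₗ[R] H R (T (m + 2) D) ∅ n) := by
  constructor
  · rw [injective_iff_map_eq_zero]
    intro u hu
    obtain ⟨q, rfl⟩ := x2 hDo hDc hD0 hγ hu
    exact hd q
  · intro x
    exact x1 hDo hDc hD0 hγ (hj x)

theorem lemC {m n : ℕ} (hγ : γ ∈ D) (hd : ∀ q, dT R hD0 m n q = 0)
    (hd' : Function.Surjective (dT R hD0 m (n + 1))) :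
    Function.Bijective (jT R hDo hDc hD0 m (n + 1)) := by
  constructor
  · rw [injective_iff_map_eq_zero]
    intro x hx
    obtain ⟨u, rfl⟩ := x1 hDo hDc hD0 hγ hx
    obtain ⟨q, rfl⟩ := hd' u
    exact x2' hDc hD0 hγ m _ q
  · intro q
    exact x3 hDo hDc hD0 hγ (hd q)

theorem hj_inj {m n : ℕ} (hd : Function.Injective (dT R hD0 m n))
    (x : H R (T (m + 2) D) ∅ (n + 1)) : jT R hDo hDc hD0 m (n + 1) x = 0 := by
  apply hd
  rw [map_zero]
  exact x3' hDo hDc hD0 m n x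

/-- rank statement -/
def Pa (R : Type) [CommRing R] (D : Set C2) (m : ℕ) : Prop :=
  ∀ n, (cT m n → IsR R (H R (T m D) ∅ n)) ∧ (¬ cT m n → IsZ (H R (T m D) ∅ n))

/-- isomorphism statement -/
def Pb (R : Type) [CommRing R] {D : Set C2} (hD0 : (0 : C2) ∉ D) (m : ℕ) : Prop :=
  ∀ n, n % 6 = 0 → cT m n →
    Function.Bijective (mapH (PM_tU hD0 m) n : H R (T m D) ∅ n →ₗ[R] H R (U m) ∅ n)

/-- vanishing statement -/
def Pc (R : Type) [CommRing R] {D : Set C2} (hD0 : (0 : C2) ∉ D) (m : ℕ) : Prop :=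
  ∀ n, n % 6 ≠ 0 → ∀ x : H R (T m D) ∅ n, mapH (PM_tU hD0 m) n x = 0

theorem Q_of_zero {m k : ℕ} (h : IsZ (H R (T m D) ∅ k)) :
    IsZ (H R (qW (T m D)) (qA (T m D)) (k + 4)) :=
  IsZ.congr (thom R (T m D) k) h

theorem Q_zero_of {m n : ℕ} (h : ∀ k, n = k + 4 → IsZ (H R (T m D) ∅ k)) :
    IsZ (H R (qW (T m D)) (qA (T m D)) n) := by
  rcases Nat.lt_or_ge n 4 with h' | h'
  · exact fun x => q_zero _ h' x
  · obtain ⟨k, rfl⟩ : ∃ k, n = k + 4 := ⟨n - 4, by omega⟩
    exact Q_of_zero (h k rfl)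

theorem surj_of_zero {M N : Type} [AddCommGroup M] [Module R M] [AddCommGroup N] [Module R N]
    (f : M →ₗ[R] N) (h : IsZ N) : Function.Surjective f := fun y => ⟨0, by rw [h y, map_zero]⟩

include hDo hDc hγ in
theorem Pa_even {m : ℕ} (hm : m % 2 = 0) (ha : Pa R D m) (hb : Pb R hD0 m) :
    Pa R D (m + 2) := by
  have hj : ∀ n, ∀ x : H R (T (m + 2) D) ∅ n, jT R hDo hDc hD0 m n x = 0 := by
    intro n x
    rcases Nat.lt_or_ge n 4 with h' | h'
    · exact q_zero _ h' _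
    · obtain ⟨k, rfl⟩ : ∃ k, n = k + 4 := ⟨n - 4, by omega⟩
      by_cases hc : cT m k
      · have h6 : k % 6 = 0 := by unfold cT at hc; omega
        exact hj_inj hDo hDc hD0 (D1 hD0 (hb k h6 hc)).1 x
      · exact Q_of_zero ((ha k).2 hc) _
  intro n
  constructor
  · intro hc
    have hd : ∀ q, dT R hD0 m n q = 0 := by
      intro q
      have hQ : IsZ (H R (qW (T m D)) (qA (T m D)) (n + 1)) := by
        refine Q_zero_of fun k hk => (ha k).2 ?_
        unfold cT at hc ⊢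
        omega
      rw [hQ q, map_zero]
    refine IsR.bij' (lemB hDo hDc hD0 hγ (hj n) hd) ((U_rank (m + 1) n).1 ?_)
    unfold cT at hc
    unfold cU
    omega
  · intro hc
    refine lemA hDo hDc hD0 (hj n) ?_ hγ
    by_cases hU : cU (m + 1) n
    · obtain ⟨k, rfl⟩ : ∃ k, n = k + 3 := by
        refine ⟨n - 3, ?_⟩
        unfold cT at hc
        unfold cU at hU
        omega
      have hk : k % 6 = 0 ∧ cT m k := by
        unfold cT at hc ⊢
        unfold cU at hU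
        omega
      exact (D1 hD0 (hb k hk.1 hk.2)).2
    · exact surj_of_zero _ ((U_rank (m + 1) n).2 hU)

include hDo hDc hγ in
theorem Pa_odd {m : ℕ} (hm : m % 2 = 1) (ha : Pa R D m) (hb : Pb R hD0 m) (hc : Pc R hD0 m) :
    Pa R D (m + 2) := by
  intro n
  rcases Nat.mod_two_eq_zero_or_one n with hn | hn
  · have hj : ∀ x : H R (T (m + 2) D) ∅ n, jT R hDo hDc hD0 m n x = 0 := by
      intro x
      rcases Nat.lt_or_ge n 4 with h' | h'
      · exact q_zero _ h' _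
      · obtain ⟨k, rfl⟩ : ∃ k, n = k + 4 := ⟨n - 4, by omega⟩
        by_cases hc : cT m k
        · have h6 : k % 6 = 0 := by unfold cT at hc; omega
          exact hj_inj hDo hDc hD0 (D1 hD0 (hb k h6 hc)).1 x
        · exact Q_of_zero ((ha k).2 hc) _
    have hd : ∀ q, dT R hD0 m n q = 0 := by
      intro q
      rcases Nat.lt_or_ge n 3 with h' | h'
      · rw [q_zero _ (by omega) q, map_zero]
      · obtain ⟨k, rfl⟩ : ∃ k, n = k + 3 := ⟨n - 3, by omega⟩
        exact D2 hD0 (hc k (by omega)) q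
    have hB := lemB hDo hDc hD0 hγ hj hd
    have hiff : cT (m + 2) n ↔ cU (m + 1) n := by
      unfold cT cU
      omega
    rw [hiff]
    exact ⟨fun h => IsR.bij' hB ((U_rank _ n).1 h), fun h => IsZ.bij' hB ((U_rank _ n).2 h)⟩
  · by_cases h3m : n = 3 * m
    · have hj : ∀ x : H R (T (m + 2) D) ∅ n, jT R hDo hDc hD0 m n x = 0 := by
        intro x
        have hQ : IsZ (H R (qW (T m D)) (qA (T m D)) n) := by
          refine Q_zero_of fun k hk => (ha k).2 ?_
          unfold cT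
          omega
        exact hQ _
      have hd : ∀ q, dT R hD0 m n q = 0 := by
        intro q
        have hQ : IsZ (H R (qW (T m D)) (qA (T m D)) (n + 1)) := by
          refine Q_zero_of fun k hk => (ha k).2 ?_
          unfold cT
          omega
        rw [hQ q, map_zero]
      have hB := lemB hDo hDc hD0 hγ hj hd
      have h1 : cT (m + 2) n := by unfold cT; omega
      have h2 : cU (m + 1) n := by unfold cU; omega
      exact ⟨fun _ => IsR.bij' hB ((U_rank _ n).1 h2), fun h => absurd h1 h⟩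
    · obtain ⟨n', rfl⟩ : ∃ n', n = n' + 1 := ⟨n - 1, by omega⟩
      have hd : ∀ q, dT R hD0 m n' q = 0 := by
        intro q
        rcases Nat.lt_or_ge n' 3 with h' | h'
        · rw [q_zero _ (by omega) q, map_zero]
        · obtain ⟨k, rfl⟩ : ∃ k, n' = k + 3 := ⟨n' - 3, by omega⟩
          exact D2 hD0 (hc k (by omega)) q
      have hd' : Function.Surjective (dT R hD0 m (n' + 1)) := by
        by_cases hU : cU (m + 1) (n' + 1)
        · obtain ⟨k, hk⟩ : ∃ k, n' + 1 = k + 3 := by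
            refine ⟨n' + 1 - 3, ?_⟩
            unfold cU at hU
            omega
          have hk' : k % 6 = 0 ∧ cT m k := by
            unfold cT
            unfold cU at hU
            omega
          rw [hk]
          exact (D1 hD0 (hb k hk'.1 hk'.2)).2
        · exact surj_of_zero _ ((U_rank (m + 1) _).2 hU)
      have hC := lemC hDo hDc hD0 hγ hd hd'
      rcases Nat.lt_or_ge (n' + 1) 4 with h' | h'
      · have h1 : ¬ cT (m + 2) (n' + 1) := by unfold cT; omega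
        exact ⟨fun h => absurd h h1, fun _ => IsZ.bij hC fun x => q_zero _ h' x⟩
      · obtain ⟨k, hk⟩ : ∃ k, n' + 1 = k + 4 := ⟨n' + 1 - 4, by omega⟩
        have hiff : cT (m + 2) (n' + 1) ↔ cT m k := by
          unfold cT
          omega
        rw [hiff]
        rw [hk] at hC ⊢
        have h2 := thom R (T m D) k
        exact ⟨fun h => IsR.bij hC (IsR.congr h2 ((ha k).1 h)),
          fun h => IsZ.bij hC (IsZ.congr h2 ((ha k).2 h))⟩

include hγ in
theorem Pb_even {k : ℕ} (hk : k % 2 = 0) (ha : Pa R D (k + 2)) : Pb R hD0 (k + 2) := by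
  intro n hn hc
  have hU1 : cU (k + 1) n := by unfold cT at hc; unfold cU; omega
  have hU2 : cU (k + 2) n := by unfold cU at hU1 ⊢; omega
  have hU3 : cU (k + 3) n := by unfold cU at hU1 ⊢; omega
  have hQ : IsZ (H R (qW (T (k + 2) D)) (qA (T (k + 2) D)) (n + 1)) := by
    refine Q_zero_of fun j hj => (ha j).2 ?_
    unfold cT
    omega
  have hF := F4 (R := R) hD0 hγ k n hQ
  have hs := sh_bij (R := R) (k + 1) n hU1
  have hcs : Function.Surjective ((mapH (PM_tU hD0 (k + 3)) n ∘ₗ mapH (PM_sT hγ (k + 1)) n :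
      H R (U (k + 2)) ∅ n →ₗ[R] H R (U (k + 3)) ∅ n)) := by
    intro y
    obtain ⟨x, hx⟩ := hs.2 y
    exact ⟨_, (hF x).trans hx⟩
  have hcb := surj_bij ((U_rank (R := R) (k + 2) n).1 hU2) ((U_rank (k + 3) n).1 hU3) hcs
  refine surj_bij ((ha n).1 hc) ((U_rank (k + 2) n).1 hU2) ?_
  intro y
  obtain ⟨x, hx⟩ := hs.2 ((mapH (PM_tU hD0 (k + 3)) n ∘ₗ mapH (PM_sT hγ (k + 1)) n :
      H R (U (k + 2)) ∅ n →ₗ[R] H R (U (k + 3)) ∅ n) y)
  refine ⟨mapH (PM_sT hγ k) n x, ?_⟩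
  apply hcb.1
  exact (hF x).trans hx

include hγ in
theorem Pb_odd {k : ℕ} (hk : k % 2 = 0) (ha : Pa R D (k + 2)) (ha' : Pa R D (k + 3)) :
    Pb R hD0 (k + 3) := by
  intro n hn hc
  have hU1 : cU (k + 1) n := by unfold cT at hc; unfold cU; omega
  have hU3 : cU (k + 3) n := by unfold cU at hU1 ⊢; omega
  have hQ : IsZ (H R (qW (T (k + 2) D)) (qA (T (k + 2) D)) (n + 1)) := by
    refine Q_zero_of fun j hj => (ha j).2 ?_
    unfold cT
    omega
  have hF := F4 (R := R) hD0 hγ k n hQ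
  have hs := sh_bij (R := R) (k + 1) n hU1
  refine surj_bij ((ha' n).1 hc) ((U_rank (k + 3) n).1 hU3) ?_
  intro y
  obtain ⟨x, hx⟩ := hs.2 y
  exact ⟨_, (hF x).trans hx⟩

theorem Pc_even {k : ℕ} (hk : k % 2 = 0) (ha : Pa R D k) : Pc R hD0 k := by
  intro n hn x
  have : IsZ (H R (T k D) ∅ n) := (ha n).2 (by unfold cT; omega)
  rw [this x, map_zero]

include hDc hγ in
theorem Pc_odd {k : ℕ} (hk : k % 2 = 0) (ha : Pa R D (k + 2)) : Pc R hD0 (k + 1) := by
  intro n hn x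
  by_cases hU : cU (k + 1) n
  · apply (sh_bij (R := R) (k + 1) n hU).1
    rw [map_zero, ← F5 hDc hD0 hγ]
    have hz : IsZ (H R (T (k + 2) D) ∅ n) := (ha n).2 (by unfold cT; omega)
    rw [hz (mapH (PM_sT hγ k) n _), map_zero, map_zero, map_zero]
  · exact (U_rank (k + 1) n).2 hU _

theorem P_empty {m : ℕ} (h : T m D = ∅) (h0 : ∀ n, ¬ cT m n) : Pa R D m := by
  intro n
  refine ⟨fun h' => absurd h' (h0 n), fun _ x => ?_⟩
  have key : ∀ W : Set E, W = ∅ → ∀ x : H R W ∅ n, x = 0 := by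
    rintro W rfl x
    exact H_self_zero x
  exact key _ h x

include hDo hDc hD0 hγ in
theorem P_even : ∀ k : ℕ, Pa R D (2 * k) ∧ Pb R hD0 (2 * k) := by
  intro k
  induction k with
  | zero =>
    refine ⟨P_empty (T_zero hD0) (fun n => by unfold cT; omega), ?_⟩
    intro n _ hc
    exfalso
    unfold cT at hc
    omega
  | succ k ih =>
    have h1 := Pa_even hDo hDc hD0 hγ (by omega) ih.1 ih.2
    exact ⟨h1, Pb_even hD0 hγ (k := 2 * k) (Nat.mul_mod_right 2 k) h1⟩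

include hDo hDc hD0 hγ in
theorem P_odd (hD1 : ((0, 1) : C2) ∉ D) : ∀ k : ℕ, Pa R D (2 * k + 1) ∧ Pb R hD0 (2 * k + 1) := by
  intro k
  induction k with
  | zero =>
    have h : T 1 D = ∅ := by
      ext Z
      simp only [T, Set.mem_setOf_eq, g_one, Set.mem_empty_iff_false, iff_false]
      exact hD1
    refine ⟨P_empty h (fun n => by unfold cT; omega), ?_⟩
    intro n _ hc
    exfalso
    unfold cT at hc
    omega
  | succ k ih =>
    have he := (P_even (R := R) hDo hDc hD0 hγ (k + 1)).1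
    have h2 := Pc_odd (R := R) hDc hD0 hγ (k := 2 * k) (by omega) he
    have h1 := Pa_odd hDo hDc hD0 hγ (m := 2 * k + 1) (by omega) ih.1 ih.2 h2
    exact ⟨h1, Pb_odd hD0 hγ (k := 2 * k) (by omega) he h1⟩

include hDo hDc hγ in
/-- The homology of `T m D`. -/
theorem T_rank (hD0 : (0 : C2) ∉ D) {m : ℕ} (hD1 : m % 2 = 1 → ((0, 1) : C2) ∉ D) : Pa R D m := by
  rcases Nat.mod_two_eq_zero_or_one m with h | h
  · obtain ⟨k, rfl⟩ : ∃ k, m = 2 * k := ⟨m / 2, by omega⟩
    exact (P_even hDo hDc hD0 hγ k).1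
  · obtain ⟨k, rfl⟩ : ∃ k, m = 2 * k + 1 := ⟨m / 2, by omega⟩
    exact (P_odd hDo hDc hD0 hγ (hD1 h) k).1

end Tsec

end Pool.Agent.Helper72.HY
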