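import Mathlib
import Pool.Agent.Helper72.HY5

/-!
Transport: fibres of the rows are homotopy equivalent to the preimages of small balls.
-/

set_option linter.unusedSectionVars false

namespace Pool.Agent.Helper72.HY

open Finset Pool.Agent.Helper72.HZ

variable {R : Type} [CommRing R]

/-- domain of the transport function -/
def Om (β : C2) (r : ℝ) (m : ℕ) : Set (E × C2) :=
  {q | dist (g q.1 m) β < r ∧ dist (g q.1 m + q.2) β < r}

/-- existence of a transport function -/
def Tr (β : C2) (r : ℝ) (m : ℕ) : Prop :=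
  ∃ ρ : E × C2 → E, ContinuousOn ρ (Om β r m) ∧ ∀ q ∈ Om β r m,
    g (ρ q) m = g q.1 m + q.2 ∧ (q.2 = 0 → ρ q = q.1) ∧ ∀ i, m ≤ i + 1 → ρ q i = q.1 i

section step

variable {β : C2} {r : ℝ} (m : ℕ)

/-- distance data at the top -/
noncomputable def aa (β : C2) (m : ℕ) (q : E × C2) : ℝ :=
  max (dist (g q.1 (m + 2)) β) (dist (g q.1 (m + 2) + q.2) β)

/-- distance data two steps below -/
noncomputable def bb (β : C2) (m : ℕ) (q : E × C2) : ℝ :=
  max (dist (g q.1 m) β) (dist (g q.1 m + q.2) β)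

/-- the threshold -/
noncomputable def hh (β : C2) (r : ℝ) (m : ℕ) (q : E × C2) : ℝ := (aa β m q + r) / 2

/-- cutoff -/
noncomputable def de (β : C2) (r : ℝ) (m : ℕ) (q : E × C2) : ℝ :=
  max 0 (hh β r m q - bb β m q)

/-- real squared norm -/
noncomputable def et (w : C2) : ℝ := (Complex.normSq w.1 + Complex.normSq w.2) ^ 2

/-- proportion -/
noncomputable def la (β : C2) (r : ℝ) (m : ℕ) (q : E × C2) : ℝ :=
  de β r m q / (de β r m q + et (g q.1 (m + 1)))

theorem aa_cont : Continuous (aa β m) := by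
  unfold aa
  have := (g_cont (m + 2)).comp (continuous_fst : Continuous (Prod.fst : E × C2 → E))
  exact (this.dist continuous_const).max ((this.add continuous_snd).dist continuous_const)

theorem bb_cont : Continuous (bb β m) := by
  unfold bb
  have := (g_cont m).comp (continuous_fst : Continuous (Prod.fst : E × C2 → E))
  exact (this.dist continuous_const).max ((this.add continuous_snd).dist continuous_const)

theorem hh_cont : Continuous (hh β r m) :=
  ((aa_cont m).add continuous_const).div_const 2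

theorem de_cont : Continuous (de β r m) :=
  continuous_const.max ((hh_cont m).sub (bb_cont m))

theorem et_cont : Continuous et := by
  unfold et
  have := Complex.continuous_normSq
  fun_prop

theorem et_nonneg (w : C2) : 0 ≤ et w := by
  unfold et
  positivity

theorem et_pos {w : C2} (h : w ≠ 0) : 0 < et w := by
  have h1 : nn w ≠ 0 := nn_ne h
  rw [nn_eq] at h1
  unfold et
  have h2 : Complex.normSq w.1 + Complex.normSq w.2 ≠ 0 := by exact_mod_cast h1
  positivity

theorem den_pos {q : E × C2} (hq : q ∈ Om β r (m + 2)) :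
    0 < de β r m q + et (g q.1 (m + 1)) := by
  have h0 : 0 ≤ de β r m q := le_max_left _ _
  by_cases hw : g q.1 (m + 1) = 0
  · have h1 : g q.1 (m + 2) = g q.1 m := by
      rw [g_succ, hw, mS_zero_left, add_zero]
    have h2 : aa β m q = bb β m q := by
      unfold aa bb
      rw [h1]
    have h3 : aa β m q < r := max_lt hq.1 hq.2
    have h4 : 0 < de β r m q := by
      unfold de hh
      rw [← h2]
      exact lt_max_of_lt_right (by linarith)
    linarith [et_nonneg (g q.1 (m + 1))]
  · linarith [et_pos hw]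

theorem la_cont : ContinuousOn (la β r m) (Om β r (m + 2)) := by
  unfold la
  have h1 : Continuous (fun q : E × C2 => et (g q.1 (m + 1))) :=
    et_cont.comp ((g_cont (m + 1)).comp continuous_fst)
  refine ContinuousOn.div (de_cont m).continuousOn ((de_cont m).add h1).continuousOn ?_
  intro q hq
  exact (den_pos m hq).ne'

theorem la_mem {q : E × C2} (hq : q ∈ Om β r (m + 2)) : 0 ≤ la β r m q ∧ la β r m q ≤ 1 := by
  have h0 : 0 ≤ de β r m q := le_max_left _ _
  have h1 := et_nonneg (g q.1 (m + 1))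
  have h2 := den_pos m hq
  unfold la
  exact ⟨div_nonneg h0 h2.le, (div_le_one h2).2 (by linarith)⟩

/-- rescaled displacement -/
noncomputable def sc (β : C2) (r : ℝ) (m : ℕ) (q : E × C2) : E × C2 := (q.1, la β r m q • q.2)

theorem sc_mem {q : E × C2} (hq : q ∈ Om β r (m + 2)) (hb : bb β m q ≤ hh β r m q) :
    sc β r m q ∈ Om β r m := by
  have h3 : aa β m q < r := max_lt hq.1 hq.2
  have h4 : bb β m q < r := by unfold hh at hb; linarith
  have h5 : dist (g q.1 m) β < r := lt_of_le_of_lt (le_max_left _ _) h4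
  have h6 : dist (g q.1 m + q.2) β < r := lt_of_le_of_lt (le_max_right _ _) h4
  refine ⟨h5, ?_⟩
  have h7 := la_mem m hq
  have h8 : g q.1 m + la β r m q • q.2
      = (1 - la β r m q) • g q.1 m + la β r m q • (g q.1 m + q.2) := by module
  show g q.1 m + la β r m q • q.2 ∈ Metric.ball β r
  rw [h8]
  exact convex_ball β r (Metric.mem_ball.2 h5) (Metric.mem_ball.2 h6) (by linarith) h7.1 (by ring)

theorem sc_cont : ContinuousOn (sc β r m) (Om β r (m + 2)) :=
  continuousOn_fst.prodMk ((la_cont m).smul continuousOn_snd)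

/-- the correction in the coordinate `m - 1` -/
noncomputable def Y2 (ρ : E × C2 → E) (β : C2) (r : ℝ) (m : ℕ) (q : E × C2) : E :=
  Function.update (ρ (sc β r m q)) (m - 1) (ρ (sc β r m q) (m - 1) +
    Ts (g (ρ (sc β r m q)) m) (g q.1 (m + 1) - g (ρ (sc β r m q)) (m + 1)))

open Classical in
/-- first part of the new transport -/
noncomputable def Y3 (ρ : E × C2 → E) (β : C2) (r : ℝ) (m : ℕ) (q : E × C2) : E :=
  if bb β m q ≤ hh β r m q then Y2 ρ β r m q else q.1

/-- the new transport -/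
noncomputable def Y4 (ρ : E × C2 → E) (β : C2) (r : ℝ) (m : ℕ) (q : E × C2) : E :=
  Function.update (Y3 ρ β r m q) m (q.1 m +
    (de β r m q + et (g q.1 (m + 1)))⁻¹ • T0 (g q.1 (m + 1)) q.2)

theorem mS_T0' (w v : C2) : mS w (T0 w v) = et w • v := by
  rw [mS_T0, nn_eq]
  unfold et
  apply Prod.ext
  · show ((Complex.normSq w.1 + Complex.normSq w.2 : ℝ) : ℂ) ^ 2 * v.1 = _
    rw [Prod.smul_fst, Complex.real_smul]
    push_cast
    ring
  · show ((Complex.normSq w.1 + Complex.normSq w.2 : ℝ) : ℂ) ^ 2 * v.2 = _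
    rw [Prod.smul_snd, Complex.real_smul]
    push_cast
    ring

theorem T0_zero (w : C2) : T0 w 0 = 0 := by
  unfold T0
  simp

variable {ρ : E × C2 → E} (hρ : ContinuousOn ρ (Om β r m))
  (hρ' : ∀ q ∈ Om β r m,
    g (ρ q) m = g q.1 m + q.2 ∧ (q.2 = 0 → ρ q = q.1) ∧ ∀ i, m ≤ i + 1 → ρ q i = q.1 i)
  (h0 : r ≤ dist (0 : C2) β)

include h0 in
theorem ball_ne {c : C2} (h : dist c β < r) : c ≠ 0 := by
  rintro rfl
  linarith

include hρ hρ' h0 in
theorem Y2_cont : ContinuousOn (Y2 ρ β r m) (Om β r (m + 2) ∩ {q | bb β m q ≤ hh β r m q}) := by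
  have h1 : ContinuousOn (fun q => ρ (sc β r m q))
      (Om β r (m + 2) ∩ {q | bb β m q ≤ hh β r m q}) :=
    ContinuousOn.comp (g := ρ) (f := sc β r m) hρ ((sc_cont m).mono Set.inter_subset_left)
      (fun q hq => sc_mem m hq.1 hq.2)
  unfold Y2
  refine upd_cont _ h1 (ContinuousOn.add ?_ (Ts_comp ?_ ?_ ?_))
  · exact (continuous_apply (m - 1)).comp_continuousOn h1
  · exact (g_cont m).comp_continuousOn h1
  · exact ((g_cont (m + 1)).comp continuous_fst).continuousOn.sub
      ((g_cont (m + 1)).comp_continuousOn h1)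
  · intro q hq
    have h2 := sc_mem m hq.1 hq.2
    rw [(hρ' _ h2).1]
    exact ball_ne h0 h2.2

include hρ' h0 in
theorem Y2_eq {q : E × C2} (hq : q ∈ Om β r (m + 2)) (hb : bb β m q ≤ hh β r m q)
    (hz : sc β r m q = (q.1, 0)) : Y2 ρ β r m q = q.1 := by
  have h2 := sc_mem m hq hb
  have h3 : ρ (sc β r m q) = q.1 := by
    have := (hρ' _ h2).2.1 (by rw [hz])
    rw [this, hz]
  unfold Y2
  rw [h3, sub_self, Ts_zero, add_zero, Function.update_eq_self]

include hρ hρ' h0 in
theorem Y3_cont : ContinuousOn (Y3 ρ β r m) (Om β r (m + 2)) := by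
  classical
  have hb := bb_cont (β := β) m
  have hh' := hh_cont (β := β) (r := r) m
  have hcl : IsClosed {q | bb β m q ≤ hh β r m q} := isClosed_le hb hh'
  have hcl' : IsClosed {q | hh β r m q ≤ bb β m q} := isClosed_le hh' hb
  unfold Y3
  refine ContinuousOn.if ?_ ?_ ?_
  · rintro q ⟨hq, hf⟩
    have hle : bb β m q ≤ hh β r m q := by
      have := frontier_subset_closure hf
      rwa [hcl.closure_eq] at this
    have hge : hh β r m q ≤ bb β m q := by
      have h1 := frontier_subset_closure (frontier_compl {q | bb β m q ≤ hh β r m q} ▸ hf)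
      have h2 : {q | bb β m q ≤ hh β r m q}ᶜ ⊆ {q | hh β r m q ≤ bb β m q} := by
        intro x hx
        exact (not_le.1 (show ¬ (bb β m x ≤ hh β r m x) from hx)).le
      exact closure_minimal h2 hcl' h1
    have hd : de β r m q = 0 := by
      unfold de
      exact max_eq_left (by linarith)
    refine Y2_eq m hρ' h0 hq hle ?_
    unfold sc la
    rw [hd, zero_div, zero_smul]
  · rw [hcl.closure_eq]
    exact Y2_cont m hρ hρ' h0
  · exact continuousOn_fst

include hρ hρ' h0 in
theorem Y4_cont : ContinuousOn (Y4 ρ β r m) (Om β r (m + 2)) := by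
  have hA : ContinuousOn (fun q : E × C2 => (de β r m q + et (g q.1 (m + 1)))⁻¹)
      (Om β r (m + 2)) := by
    have h1 : Continuous (fun q : E × C2 => et (g q.1 (m + 1))) :=
      et_cont.comp ((g_cont (m + 1)).comp continuous_fst)
    exact ContinuousOn.inv₀ ((de_cont m).add h1).continuousOn (fun q hq => (den_pos m hq).ne')
  have hB : ContinuousOn (fun q : E × C2 => T0 (g q.1 (m + 1)) q.2) (Om β r (m + 2)) := by
    have h2 : Continuous (fun q : E × C2 => ((g q.1 (m + 1), q.2) : C2 × C2)) :=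
      ((g_cont (m + 1)).comp continuous_fst).prodMk continuous_snd
    exact (T0_cont.comp h2).continuousOn
  have hC : ContinuousOn (fun q : E × C2 => q.1 m) (Om β r (m + 2)) :=
    ((continuous_apply m).comp continuous_fst).continuousOn
  unfold Y4
  exact upd_cont _ (Y3_cont m hρ hρ' h0) (hC.add (hA.smul hB))

include hρ' h0 in
theorem Y3_spec {q : E × C2} (hq : q ∈ Om β r (m + 2)) :
    g (Y3 ρ β r m q) m = g q.1 m + la β r m q • q.2 ∧
    g (Y3 ρ β r m q) (m + 1) = g q.1 (m + 1) ∧
    (q.2 = 0 → Y3 ρ β r m q = q.1) ∧ ∀ i, m ≤ i → Y3 ρ β r m q i = q.1 i := by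
  classical
  unfold Y3
  by_cases hb : bb β m q ≤ hh β r m q
  · rw [if_pos hb]
    have h2 := sc_mem m hq hb
    obtain ⟨e1, e2, e3⟩ := hρ' _ h2
    have hm : m ≠ 0 := by
      rintro rfl
      have h3 : dist (g (sc β r 0 q).1 0) β < r := h2.1
      rw [g_zero] at h3
      linarith
    have hne : g (ρ (sc β r m q)) m ≠ 0 := by
      rw [e1]
      exact ball_ne h0 h2.2
    refine ⟨?_, ?_, ?_, ?_⟩
    · unfold Y2
      rw [g_upd (by omega), e1]
      rfl
    · unfold Y2
      obtain ⟨k, rfl⟩ := Nat.exists_eq_succ_of_ne_zero hm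
      set W := ρ (sc β r (k + 1) q) with hW
      show g (Function.update W k (W k + Ts (g W (k + 1)) (g q.1 (k + 2) - g W (k + 2)))) (k + 2)
        = g q.1 (k + 2)
      rw [g_succ, g_upd (by omega), g_upd (by omega), Function.update_self, mS_add, mS_Ts hne,
        g_succ W k]
      abel
    · intro h
      refine Y2_eq m hρ' h0 hq hb ?_
      unfold sc
      rw [h, smul_zero]
    · intro i hi
      unfold Y2
      rw [Function.update_of_ne (by omega), e3 i (by omega)]
      rfl
  · rw [if_neg hb]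
    have hd : de β r m q = 0 := by
      unfold de
      exact max_eq_left (by linarith [not_le.1 hb])
    refine ⟨?_, rfl, fun _ => rfl, fun _ _ => rfl⟩
    unfold la
    rw [hd, zero_div, zero_smul, add_zero]

include hρ' h0 in
theorem Y4_spec {q : E × C2} (hq : q ∈ Om β r (m + 2)) :
    g (Y4 ρ β r m q) (m + 2) = g q.1 (m + 2) + q.2 ∧
    (q.2 = 0 → Y4 ρ β r m q = q.1) ∧ ∀ i, m + 2 ≤ i + 1 → Y4 ρ β r m q i = q.1 i := by
  obtain ⟨e1, e2, e3, e4⟩ := Y3_spec m hρ' h0 hq
  have hd := den_pos m hq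
  refine ⟨?_, ?_, ?_⟩
  · unfold Y4
    rw [g_succ, g_upd (by omega), g_upd (by omega), Function.update_self, e1, e2, mS_add, mS_smul,
      mS_T0', smul_smul, g_succ q.1]
    have h1 : la β r m q + (de β r m q + et (g q.1 (m + 1)))⁻¹ * et (g q.1 (m + 1)) = 1 := by
      unfold la
      field_simp
    have h2 : g q.1 m + la β r m q • q.2 + (mS (g q.1 (m + 1)) (q.1 m) +
        ((de β r m q + et (g q.1 (m + 1)))⁻¹ * et (g q.1 (m + 1))) • q.2)
        = g q.1 m + mS (g q.1 (m + 1)) (q.1 m) + (la β r m q +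
          (de β r m q + et (g q.1 (m + 1)))⁻¹ * et (g q.1 (m + 1))) • q.2 := by module
    rw [h2, h1, one_smul]
  · intro h
    unfold Y4
    rw [e3 h, h, T0_zero, smul_zero, add_zero, Function.update_eq_self]
  · intro i hi
    unfold Y4
    rw [Function.update_of_ne (by omega), e4 i (by omega)]

end step

theorem Tr_step {β : C2} {r : ℝ} (h0 : r ≤ dist (0 : C2) β) {m : ℕ} (h : Tr β r m) :
    Tr β r (m + 2) := by
  obtain ⟨ρ, hρ, hρ'⟩ := h
  exact ⟨Y4 ρ β r m, Y4_cont m hρ hρ' h0, fun q hq => Y4_spec m hρ' h0 hq⟩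

theorem Tr_empty {β : C2} {r : ℝ} {m : ℕ} (h : ∀ Z : E, r ≤ dist (g Z m) β) : Tr β r m := by
  refine ⟨fun q => q.1, continuousOn_fst, fun q hq => ?_⟩
  exact absurd hq.1 (not_lt.2 (h _))

theorem Tr_all {β : C2} {r : ℝ} (h0 : r ≤ dist (0 : C2) β) {m : ℕ}
    (h1 : m % 2 = 1 → r ≤ dist ((0, 1) : C2) β) : Tr β r m := by
  rcases Nat.mod_two_eq_zero_or_one m with h | h
  · obtain ⟨k, rfl⟩ : ∃ k, m = 2 * k := ⟨m / 2, by omega⟩
    clear h1 h
    induction k with
    | zero => exact Tr_empty fun Z => by rw [Nat.mul_zero, g_zero]; exact h0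
    | succ k ih => exact Tr_step h0 ih
  · obtain ⟨k, rfl⟩ : ∃ k, m = 2 * k + 1 := ⟨m / 2, by omega⟩
    replace h1 := h1 h
    clear h
    induction k with
    | zero => exact Tr_empty fun Z => by rw [Nat.mul_zero, zero_add, g_one]; exact h1
    | succ k ih => exact Tr_step h0 ih

theorem PM_fib {β : C2} {r : ℝ} (hr : 0 < r) (m : ℕ) :
    PM (id : E → E) (T m {β}) ∅ (T m (Metric.ball β r)) ∅ :=
  PM.inc (fun Z hZ => by
    have : g Z m = β := hZ
    show g Z m ∈ Metric.ball β r
    rw [this]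
    exact Metric.mem_ball_self hr) (le_refl _) (Set.empty_subset _)

/-- A fibre has the homology of the preimage of a ball. -/
theorem fib_bij {β : C2} {r : ℝ} (hr : 0 < r) (h0 : r ≤ dist (0 : C2) β) {m : ℕ}
    (h1 : m % 2 = 1 → r ≤ dist ((0, 1) : C2) β) (n : ℕ) :
    Function.Bijective (mapH (PM_fib hr m) n :
      H R (T m {β}) ∅ n →ₗ[R] H R (T m (Metric.ball β r)) ∅ n) := by
  obtain ⟨ρ, hρ, hρ'⟩ := Tr_all h0 h1
  have hdist : ∀ (c : C2) (s : ℝ), 0 ≤ s → s ≤ 1 → dist c β < r → dist (c + s • (β - c)) β < r := by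
    intro c s hs0 hs1 hc
    have e1 : c + s • (β - c) = (1 - s) • c + s • β := by module
    rw [e1]
    exact convex_ball β r (Metric.mem_ball.2 hc) (Metric.mem_ball_self hr) (by linarith) hs0
      (by ring)
  have hmem : ∀ Z ∈ T m (Metric.ball β r), ∀ s : ℝ, 0 ≤ s → s ≤ 1 →
      ((Z, s • (β - g Z m)) : E × C2) ∈ Om β r m := by
    intro Z hZ s hs0 hs1
    exact ⟨hZ, hdist _ s hs0 hs1 hZ⟩
  have hr1 : PM (fun Z => ρ (Z, β - g Z m)) (T m (Metric.ball β r)) ∅ (T m {β}) ∅ := by
    refine ⟨?_, ?_, fun x hx => not_empty x hx, Set.empty_subset _⟩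
    · refine ContinuousOn.comp (g := ρ) (f := fun Z : E => ((Z, β - g Z m) : E × C2)) hρ
        (continuous_id.prodMk (continuous_const.sub (g_cont m))).continuousOn ?_
      intro Z hZ
      have := hmem Z hZ 1 zero_le_one le_rfl
      rwa [one_smul] at this
    · intro Z hZ
      have h2 := hmem Z hZ 1 zero_le_one le_rfl
      rw [one_smul] at h2
      show g (ρ (Z, β - g Z m)) m = β
      rw [(hρ' _ h2).1]
      exact add_sub_cancel _ _
  refine bij_of_inv (PM_fib hr m) hr1 n ?_ ?_
  · intro x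
    rw [← mapH_comp hr1 (PM_fib hr m) (hr1.comp (PM_fib hr m)) (fun _ _ => rfl)]
    refine mapH_id _ ?_ n x
    intro Z hZ
    have hZ' : g Z m = β := hZ
    have h2 := hmem Z ((PM_fib hr m).mW hZ) 1 zero_le_one le_rfl
    rw [one_smul] at h2
    show ρ (Z, β - g Z m) = Z
    exact (hρ' _ h2).2.1 (by rw [hZ', sub_self])
  · intro x
    rw [← mapH_comp (PM_fib hr m) hr1 ((PM_fib hr m).comp hr1) (fun _ _ => rfl)]
    have h3 : mapH ((PM_fib hr m).comp hr1) n x = mapH (PM.idd (Set.empty_subset _)) n x := by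
      refine (mapH_homotopy (F := fun Z (s : unitInterval) => ρ (Z, (s : ℝ) • (β - g Z m)))
        ?_ (Set.empty_subset _) ?_ (fun x hx => not_empty x hx) _ _ ?_ ?_ n x).symm
      · refine ContinuousOn.comp (g := ρ)
          (f := fun p : E × unitInterval => ((p.1, (p.2 : ℝ) • (β - g p.1 m)) : E × C2)) hρ ?_ ?_
        · have h4 : Continuous (fun p : E × unitInterval => g p.1 m) :=
            (g_cont m).comp continuous_fst
          exact (continuous_fst.prodMk ((continuous_subtype_val.comp continuous_snd).smul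
            (continuous_const.sub h4))).continuousOn
        · intro p hp
          exact hmem p.1 hp.1 _ p.2.2.1 p.2.2.2
      · intro Z hZ s
        have h2 := hmem Z hZ _ s.2.1 s.2.2
        show g (ρ (Z, (s : ℝ) • (β - g Z m))) m ∈ Metric.ball β r
        rw [(hρ' _ h2).1]
        exact h2.2
      · intro Z hZ
        have h2 := hmem Z hZ 0 le_rfl zero_le_one
        show Z = ρ (Z, ((0 : unitInterval) : ℝ) • (β - g Z m))
        have h5 : (((0 : unitInterval) : ℝ)) • (β - g Z m) = 0 := by simp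
        rw [h5]
        rw [zero_smul] at h2
        exact ((hρ' _ h2).2.1 rfl).symm
      · intro Z hZ
        show ρ (Z, β - g Z m) = ρ (Z, ((1 : unitInterval) : ℝ) • (β - g Z m))
        have h5 : (((1 : unitInterval) : ℝ)) • (β - g Z m) = β - g Z m := by simp
        rw [h5]
    rw [h3]
    exact mapH_id _ (fun _ _ => rfl) n x

/-- the homology of the fibres -/
theorem fib_rank {β : C2} (hβ : β ≠ 0) {m : ℕ} (h1 : m % 2 = 1 → β ≠ ((0, 1) : C2)) (n : ℕ) :
    (cT m n → IsR R (H R (T m {β}) ∅ n)) ∧ (¬ cT m n → IsZ (H R (T m {β}) ∅ n)) := by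
  set r : ℝ := if m % 2 = 1 then min (dist (0 : C2) β) (dist ((0, 1) : C2) β)
    else dist (0 : C2) β with hr
  have hr0 : 0 < r := by
    rw [hr]
    split_ifs with h
    · exact lt_min (dist_pos.2 hβ.symm) (dist_pos.2 (h1 h).symm)
    · exact dist_pos.2 hβ.symm
  have hr1 : r ≤ dist (0 : C2) β := by
    rw [hr]
    split_ifs with h
    · exact min_le_left _ _
    · exact le_rfl
  have hr2 : m % 2 = 1 → r ≤ dist ((0, 1) : C2) β := by
    intro h
    rw [hr, if_pos h]
    exact min_le_right _ _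
  have hb := fib_bij (R := R) hr0 hr1 hr2 n
  have hT := T_rank (R := R) (D := Metric.ball β r) Metric.isOpen_ball (convex_ball β r)
    (Metric.mem_ball_self hr0) (m := m)
    (fun h => not_lt.2 hr1 (Metric.mem_ball.1 h))
    (fun h h' => not_lt.2 (hr2 h) (Metric.mem_ball.1 h')) n
  exact ⟨fun h => IsR.bij hb (hT.1 h), fun h => IsZ.bij hb (hT.2 h)⟩

end Pool.Agent.Helper72.HY
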