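import Mathlib
import Pool.Agent.Helper72.HZ6

/-!
Comparison with the singular homology of Mathlib.
-/

set_option linter.unusedSectionVars false

namespace Pool.Agent.Helper72.HZ

open CategoryTheory AlgebraicTopology Limits Opposite Simplicial

variable (R : Type) [CommRing R]

/-- coefficients -/
noncomputable abbrev RR : ModuleCat.{0} R := ModuleCat.of R R

/-- singular chain complex -/
noncomputable abbrev KX (X : TopCat.{0}) : ChainComplex (ModuleCat.{0} R) ℕ :=
  (TopCat.toSSet.obj X).chainComplex (RR R)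

variable (X : TopCat.{0})

/-- comparison map -/
noncomputable def Ph (n : ℕ) : L R X n →ₗ[R] ((KX R X).X n) :=
  liftL (fun σ =>
    ((TopCat.toSSet.obj X).ιChainComplex (R := RR R)
      ((X.toSSetObjEquiv (op ⦋n⦌)).symm σ)).hom 1)

theorem Ph_s1 {n : ℕ} (σ : C(D n, X)) : Ph R X n (s1 σ) =
    ((TopCat.toSSet.obj X).ιChainComplex (R := RR R)
      ((X.toSSetObjEquiv (op ⦋n⦌)).symm σ)).hom 1 := liftL_s1 _ _

/-- inverse of the comparison map -/
noncomputable def Ps (n : ℕ) : (KX R X).X n ⟶ ModuleCat.of R (L R X n) :=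
  Cofan.IsColimit.desc ((TopCat.toSSet.obj X).isColimitChainComplexXCofan (RR R) n)
    (fun x => ModuleCat.ofHom (LinearMap.toSpanSingleton R (L R X n)
      (s1 (X.toSSetObjEquiv (op ⦋n⦌) x))))

theorem ι_Ps (n : ℕ) (x : (TopCat.toSSet.obj X) _⦋n⦌) :
    (TopCat.toSSet.obj X).ιChainComplex (R := RR R) x ≫ Ps R X n =
      ModuleCat.ofHom (LinearMap.toSpanSingleton R (L R X n)
      (s1 (X.toSSetObjEquiv (op ⦋n⦌) x))) :=
  Cofan.IsColimit.fac ((TopCat.toSSet.obj X).isColimitChainComplexXCofan (RR R) n) _ _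

theorem Ps_Ph (n : ℕ) (z : L R X n) : (Ps R X n).hom (Ph R X n z) = z := by
  refine L_ext (f := (Ps R X n).hom ∘ₗ Ph R X n) (g := LinearMap.id) ?_ z
  intro σ
  simp only [LinearMap.comp_apply, LinearMap.id_apply]
  rw [Ph_s1]
  have := congrArg (fun f => f.hom (1 : R)) (ι_Ps R X n ((X.toSSetObjEquiv (op ⦋n⦌)).symm σ))
  simp only [ModuleCat.hom_comp, LinearMap.comp_apply] at this
  rw [this]
  simp

theorem Ph_Ps (n : ℕ) (x : (KX R X).X n) : Ph R X n ((Ps R X n).hom x) = x := by
  have : Ps R X n ≫ ModuleCat.ofHom (Ph R X n) = 𝟙 _ := by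
    refine SSet.chainComplex_hom_ext (X := TopCat.toSSet.obj X) (R := RR R) (n := n) ?_
    intro y
    rw [← Category.assoc, ι_Ps]
    ext
    simp only [ModuleCat.hom_comp, ModuleCat.hom_ofHom, LinearMap.comp_apply,
      LinearMap.toSpanSingleton_apply, one_smul]
    rw [Ph_s1]
    simp
  have h2 := congrArg (fun f => f.hom x) this
  simpa using h2

theorem face_eq {n : ℕ} (i : Fin (n + 2)) (t : D n) :
    face i t = stdSimplex.map i.succAbove t := by
  apply D_ext
  intro k
  have h1 : (face i t).1 k = ∑ j, t.1 j * (io (n + 1) (i.succAbove j)).1 k := rfl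
  rw [h1]
  have h2 : (stdSimplex.map i.succAbove t : D (n + 1)).1 k
      = ∑ j ∈ Finset.univ.filter (fun j => i.succAbove j = k), t.1 j := by
    have := congrFun (stdSimplex.map_coe (S := ℝ) i.succAbove t) k
    refine this.trans ?_
    rw [FunOnFinite.linearMap_apply_apply]
    rfl
  rw [h2, Finset.sum_filter]
  refine Finset.sum_congr rfl fun j _ => ?_
  rw [io_apply]
  split_ifs <;> simp

theorem Ph_dL (n : ℕ) (z : L R X (n + 1)) :
    ((KX R X).d (n + 1) n).hom (Ph R X (n + 1) z) = Ph R X n (dL n z) := by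
  refine L_ext (f := ((KX R X).d (n + 1) n).hom ∘ₗ Ph R X (n + 1)) (g := Ph R X n ∘ₗ dL n) ?_ z
  intro σ
  simp only [LinearMap.comp_apply]
  rw [Ph_s1, dL_s1, map_sum]
  have h1 := congrArg (fun f => f.hom (1 : R))
    ((TopCat.toSSet.obj X).ιChainComplex_d (R := RR R)
      ((X.toSSetObjEquiv (op ⦋n + 1⦌)).symm σ))
  simp only [ModuleCat.hom_comp, LinearMap.comp_apply] at h1
  refine h1.trans ?_
  rw [ModuleCat.hom_sum, LinearMap.sum_apply]
  refine Finset.sum_congr rfl fun i _ => ?_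
  have h2 : ((-1 : ℤ) ^ (i : ℕ) • (TopCat.toSSet.obj X).ιChainComplex (R := RR R)
      ((TopCat.toSSet.obj X).δ i ((X.toSSetObjEquiv (op ⦋n + 1⦌)).symm σ))).hom (1 : R)
      = (-1 : R) ^ (i : ℕ) • ((TopCat.toSSet.obj X).ιChainComplex (R := RR R)
      ((TopCat.toSSet.obj X).δ i ((X.toSSetObjEquiv (op ⦋n + 1⦌)).symm σ))).hom (1 : R) := by
    rcases Nat.even_or_odd (i : ℕ) with h | h
    · rw [h.neg_one_pow, h.neg_one_pow, one_smul, one_smul]
    · rw [h.neg_one_pow, h.neg_one_pow, neg_smul, one_smul, ModuleCat.hom_neg,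
        LinearMap.neg_apply, neg_smul, one_smul]
  rw [h2, map_smul, Ph_s1]
  have h3 : (TopCat.toSSet.obj X).δ i ((X.toSSetObjEquiv (op ⦋n + 1⦌)).symm σ)
      = (X.toSSetObjEquiv (op ⦋n⦌)).symm (σ.comp (face i)) := by
    apply (X.toSSetObjEquiv (op ⦋n⦌)).injective
    rw [Equiv.apply_symm_apply]
    ext1 t
    refine (TopCat.toSSetObjEquiv_δ_apply _ i t).trans ?_
    rw [Equiv.apply_symm_apply, ContinuousMap.comp_apply, face_eq]
  rw [h3]

/-- singular homology of Mathlib -/
noncomputable abbrev MH (n : ℕ) : ModuleCat.{0} R :=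
  ((singularHomologyFunctor (ModuleCat.{0} R) n).obj (ModuleCat.of R R)).obj X

theorem MH_eq (n : ℕ) : MH R X n = (KX R X).homology n := rfl

theorem Zr_univ {n : ℕ} {z : L R X n} : z ∈ Zr R (Set.univ : Set X) ∅ n ↔ dd n z = 0 := by
  constructor
  · intro h
    exact S_empty h.2
  · intro h
    refine ⟨S_univ n z, ?_⟩
    show dd n z ∈ S R ∅ (n - 1)
    rw [h]
    exact Submodule.zero_mem _

/-- the inclusion of cycles -/
noncomputable def kk (n : ℕ) : ModuleCat.of R (Zr R (Set.univ : Set X) ∅ n) ⟶ (KX R X).X n :=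
  ModuleCat.ofHom (Ph R X n ∘ₗ (Zr R (Set.univ : Set X) ∅ n).subtype)

theorem kk_d (n j : ℕ) : kk R X n ≫ (KX R X).d n j = 0 := by
  by_cases h : (ComplexShape.down ℕ).Rel n j
  · obtain rfl : j + 1 = n := h
    ext z
    obtain ⟨z, hz⟩ := z
    show ((KX R X).d (j + 1) j).hom (Ph R X (j + 1) z) = 0
    have h1 : dL j z = 0 := (Zr_univ R X).1 hz
    rw [Ph_dL, h1, map_zero]
  · rw [(KX R X).shape n j h, comp_zero]

/-- cycles to homology -/
noncomputable def ph (n : ℕ) :
    ModuleCat.of R (Zr R (Set.univ : Set X) ∅ n) ⟶ (KX R X).homology n :=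
  (KX R X).liftCycles (kk R X n) _ rfl (kk_d R X n _) ≫ (KX R X).homologyπ n

theorem lift_i (n : ℕ) (z : Zr R (Set.univ : Set X) ∅ n) :
    ((KX R X).iCycles n).hom (((KX R X).liftCycles (kk R X n) _ rfl (kk_d R X n _)).hom z)
      = Ph R X n z.1 := by
  have h := congrArg (fun f => f.hom z) ((KX R X).liftCycles_i (kk R X n) _ rfl (kk_d R X n _))
  exact h

theorem iCycles_inj (n : ℕ) : Function.Injective ((KX R X).iCycles n).hom :=
  (ModuleCat.mono_iff_injective _).1 inferInstance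

theorem dd_Ps {n : ℕ} {x : (KX R X).X n} (hx : ∀ j, ((KX R X).d n j).hom x = 0) :
    dd n ((Ps R X n).hom x : L R X n) = 0 := by
  cases n with
  | zero => rfl
  | succ k =>
    show dL k ((Ps R X (k + 1)).hom x : L R X (k + 1)) = 0
    rw [← Ps_Ph R X k (dL k _)]
    have := Ph_dL R X k ((Ps R X (k + 1)).hom x)
    rw [← this, Ph_Ps, hx, map_zero]

theorem ph_surj (n : ℕ) : Function.Surjective (ph R X n).hom := by
  have h1 : Function.Surjective ((KX R X).homologyπ n).hom :=
    (ModuleCat.epi_iff_surjective _).1 inferInstance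
  intro y
  obtain ⟨c, rfl⟩ := h1 y
  set x := ((KX R X).iCycles n).hom c with hx
  have hx0 : ∀ j, ((KX R X).d n j).hom x = 0 := by
    intro j
    exact congrArg (fun f => f.hom c) ((KX R X).iCycles_d n j)
  refine ⟨⟨(Ps R X n).hom x, (Zr_univ R X).2 (dd_Ps R X hx0)⟩, ?_⟩
  have h2 : ((KX R X).liftCycles (kk R X n) _ rfl (kk_d R X n _)).hom
      ⟨(Ps R X n).hom x, (Zr_univ R X).2 (dd_Ps R X hx0)⟩ = c := by
    apply iCycles_inj
    rw [lift_i, Ph_Ps]
  show ((KX R X).homologyπ n).hom (((KX R X).liftCycles (kk R X n) _ rfl (kk_d R X n _)).hom _) = _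
  rw [h2]

theorem homologyπ_zero {n : ℕ} {c : (KX R X).cycles n} (h : ((KX R X).homologyπ n).hom c = 0) :
    ∃ w, ((KX R X).toCycles (n + 1) n).hom w = c := by
  have h1 := (KX R X).homologyIsCokernel (n + 1) n (by simp)
  let S : ShortComplex (ModuleCat.{0} R) := ShortComplex.mk ((KX R X).toCycles (n + 1) n)
    ((KX R X).homologyπ n) ((KX R X).toCycles_comp_homologyπ (n + 1) n)
  have h2 : S.Exact := S.exact_of_g_is_cokernel h1
  exact (ShortComplex.moduleCat_exact_iff S).1 h2 c h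

theorem ph_ker {n : ℕ} (z : Zr R (Set.univ : Set X) ∅ n) :
    (ph R X n).hom z = 0 ↔ z.1 ∈ Br R (Set.univ : Set X) ∅ n := by
  constructor
  · intro h
    obtain ⟨w, hw⟩ := homologyπ_zero R X (c := ((KX R X).liftCycles (kk R X n) _ rfl
      (kk_d R X n _)).hom z) h
    have h1 := congrArg (fun f => f.hom w) ((KX R X).toCycles_i (n + 1) n)
    have h1' : ((KX R X).iCycles n).hom (((KX R X).toCycles (n + 1) n).hom w)
      = ((KX R X).d (n + 1) n).hom w := h1
    rw [hw, lift_i] at h1'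
    rw [mem_Br]
    refine ⟨0, Submodule.zero_mem _, (Ps R X (n + 1)).hom w, S_univ _ _, ?_⟩
    rw [zero_add, ← Ps_Ph R X n (dL n _), ← Ph_dL, Ph_Ps, ← h1', Ps_Ph]
  · intro h
    obtain ⟨a, ha, w, _, hw⟩ := mem_Br.1 h
    have ha0 : a = 0 := S_empty ha
    rw [ha0, zero_add] at hw
    have h1 : ((KX R X).liftCycles (kk R X n) _ rfl (kk_d R X n _)).hom z
        = ((KX R X).toCycles (n + 1) n).hom (Ph R X (n + 1) w) := by
      apply iCycles_inj
      rw [lift_i, hw, ← Ph_dL]
      exact (congrArg (fun f => f.hom (Ph R X (n + 1) w)) ((KX R X).toCycles_i (n + 1) n)).symm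
    show ((KX R X).homologyπ n).hom
      (((KX R X).liftCycles (kk R X n) _ rfl (kk_d R X n _)).hom z) = 0
    rw [h1]
    exact congrArg (fun f => f.hom (Ph R X (n + 1) w))
      ((KX R X).toCycles_comp_homologyπ (n + 1) n)

/-- comparison of the homology of a space -/
noncomputable def bridge (n : ℕ) : H R (Set.univ : Set X) ∅ n ≃ₗ[R] MH R X n :=
  (Submodule.quotEquivOfEq _ _ (by
    ext z
    exact (ph_ker R X z).symm)).trans
    ((ph R X n).hom.quotKerEquivOfSurjective (ph_surj R X n))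

section subsets

variable {R}
variable {Y : Type} [TopologicalSpace Y]

theorem PM_val (W : Set Y) : PM (Subtype.val : W → Y) Set.univ ∅ W ∅ :=
  ⟨continuous_subtype_val.continuousOn, fun x _ => x.2, fun _ h => absurd h (Set.notMem_empty _),
    Set.empty_subset _⟩

open Classical in
/-- a retraction onto a subset, continuous on the subset -/
noncomputable def toSub (W : Set Y) (w : W) (y : Y) : W := if h : y ∈ W then ⟨y, h⟩ else w

theorem toSub_val (W : Set Y) (w : W) (y : W) : toSub W w y.1 = y := by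
  unfold toSub
  rw [dif_pos y.2]

theorem val_toSub (W : Set Y) (w : W) {y : Y} (hy : y ∈ W) : (toSub W w y).1 = y := by
  unfold toSub
  rw [dif_pos hy]

theorem PM_toSub (W : Set Y) (w : W) : PM (toSub W w) W ∅ Set.univ ∅ := by
  refine ⟨?_, fun _ _ => trivial, fun _ h => absurd h (Set.notMem_empty _), Set.empty_subset _⟩
  rw [Topology.IsInducing.subtypeVal.continuousOn_iff]
  refine continuousOn_id.congr ?_
  intro y hy
  exact val_toSub W w hy

theorem val_bij (W : Set Y) (n : ℕ) :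
    Function.Bijective (mapH (PM_val W) n : H R (Set.univ : Set W) ∅ n →ₗ[R] H R W ∅ n) := by
  rcases isEmpty_or_nonempty W with h | ⟨⟨w⟩⟩
  · have h1 : ∀ V : Set W, V = ∅ → ∀ x : H R V ∅ n, x = 0 := by
      rintro V rfl x
      exact H_self_zero x
    have h2 : ∀ V : Set Y, V = ∅ → ∀ x : H R V ∅ n, x = 0 := by
      rintro V rfl x
      exact H_self_zero x
    have e1 : (Set.univ : Set W) = ∅ := Set.univ_eq_empty_iff.2 h
    have e2 : W = ∅ := Set.isEmpty_coe_sort.1 h
    constructor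
    · intro x y _
      rw [h1 _ e1 x, h1 _ e1 y]
    · intro y
      exact ⟨0, by rw [h2 _ e2 y, map_zero]⟩
  · refine bij_of_inv (PM_val W) (PM_toSub W w) n ?_ ?_
    · intro x
      rw [← mapH_comp (PM_toSub W w) (PM_val W) ((PM_toSub W w).comp (PM_val W)) (fun _ _ => rfl)]
      exact mapH_id _ (fun y _ => toSub_val W w y) n x
    · intro x
      rw [← mapH_comp (PM_val W) (PM_toSub W w) ((PM_val W).comp (PM_toSub W w)) (fun _ _ => rfl)]
      exact mapH_id _ (fun y hy => val_toSub W w hy) n x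

/-- comparison of the homology of a subset -/
noncomputable def bridgeSub (W : Set Y) (n : ℕ) : H R W ∅ n ≃ₗ[R] MH R (TopCat.of W) n :=
  (LinearEquiv.ofBijective _ (val_bij (R := R) W n)).symm.trans (bridge R (TopCat.of W) n)

end subsets

end Pool.Agent.Helper72.HZ
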