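import Mathlib
import Pool.Agent.Helper72.HY6
import Pool.Agent.Helper72.HZ7
import Pool.Agent.Helper72.HD

/-!
The fibres and the rows.
-/

set_option linter.unusedSectionVars false

namespace Pool.Agent.Helper72.HY

open Finset Pool.Agent.Helper72.HZ Pool.Agent.Helper72.HD

variable {R : Type} [CommRing R]

/-- extension by zero -/
def ext (K : ℕ) (Z : Fin K → Fin 3 → ℂ) : E :=
  fun i => if h : i < K then (Z ⟨i, h⟩ 0, Z ⟨i, h⟩ 1, Z ⟨i, h⟩ 2) else 0

/-- restriction -/
def res (K : ℕ) (Z : E) : Fin K → Fin 3 → ℂ := fun i => ![(Z i).1, (Z i).2.1, (Z i).2.2]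

theorem ext_cont (K : ℕ) : Continuous (ext K) := by
  refine continuous_pi fun i => ?_
  unfold ext
  split_ifs with h
  · fun_prop
  · exact continuous_const

theorem res_cont (K : ℕ) : Continuous (res K) := by
  refine continuous_pi fun i => continuous_pi fun j => ?_
  unfold res
  fin_cases j
  · exact continuous_fst.comp (continuous_apply (i : ℕ))
  · exact (continuous_fst.comp continuous_snd).comp (continuous_apply (i : ℕ))
  · exact (continuous_snd.comp continuous_snd).comp (continuous_apply (i : ℕ))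

theorem res_ext (K : ℕ) (Z : Fin K → Fin 3 → ℂ) : res K (ext K Z) = Z := by
  funext i j
  unfold res ext
  simp only [i.2, dite_true]
  fin_cases j <;> rfl

theorem ext_res_lt {K i : ℕ} (h : i < K) (Z : E) : ext K (res K Z) i = Z i := by
  unfold res ext
  rw [dif_pos h]
  rfl

/-! ### the last row -/

/-- arrangement of two halves -/
def arr (K : ℕ) (c c' : C2) : Fin 4 → ℂ :=
  if Odd K then ![c.1, c.2, c'.1, c'.2] else ![c'.1, c'.2, c.1, c.2]

theorem mS_def (c : C2) (z : V) :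
    mS c z = (c.1 * z.1 + c.2 * z.2.1, c.1 * z.2.1 + c.2 * z.2.2) := by
  unfold mS
  rfl

theorem row_step (K : ℕ) (c c' : C2) (z : Fin 3 → ℂ) :
    Matrix.vecMul (arr K c c') (M (K + 1) z) = arr (K + 1) (c' + mS c (z 0, z 1, z 2)) c := by
  rw [mS_def]
  unfold arr M
  rcases Nat.even_or_odd K with h | h
  · have h1 : ¬ Odd K := Nat.not_odd_iff_even.2 h
    have h2 : Odd (K + 1) := h.add_one
    rw [if_neg h1, if_pos h2, if_pos h2]
    funext i
    fin_cases i <;>
      simp [Matrix.vecMul, dotProduct, Fin.sum_univ_four] <;> ring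
  · have h2 : ¬ Odd (K + 1) := by
      rw [Nat.not_odd_iff_even]
      exact h.add_one
    rw [if_pos h, if_neg h2, if_neg h2]
    funext i
    fin_cases i <;>
      simp [Matrix.vecMul, dotProduct, Fin.sum_univ_four] <;> ring

/-- partial products -/
def PW (W : ℕ → Fin 3 → ℂ) (K : ℕ) : Matrix (Fin 4) (Fin 4) ℂ :=
  (List.ofFn fun j : Fin K => M ((j : ℕ) + 1) (W j)).prod

theorem PW_succ (W : ℕ → Fin 3 → ℂ) (K : ℕ) : PW W (K + 1) = PW W K * M (K + 1) (W K) := by
  unfold PW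
  rw [List.ofFn_succ', List.concat_eq_append, List.prod_append, List.prod_singleton]
  simp

/-- sequences of triples -/
def vv (W : ℕ → Fin 3 → ℂ) : E := fun i => (W i 0, W i 1, W i 2)

theorem PW_row (W : ℕ → Fin 3 → ℂ) : ∀ K : ℕ,
    PW W K 3 = arr K (g (vv W) (K + 1)) (g (vv W) K) := by
  intro K
  induction K with
  | zero =>
    unfold PW arr
    rw [zero_add, g_one, g_zero]
    funext i
    fin_cases i <;> simp
  | succ K ih =>
    rw [PW_succ]
    have h1 : (PW W K * M (K + 1) (W K)) 3 = Matrix.vecMul (PW W K 3) (M (K + 1) (W K)) := rfl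
    rw [h1, ih, row_step, g_succ]
    rfl

theorem Psi_row (K : ℕ) (Z : Fin K → Fin 3 → ℂ) :
    Psi K Z 3 = arr K (g (ext K Z) (K + 1)) (g (ext K Z) K) := by
  let W : ℕ → Fin 3 → ℂ := fun i => if h : i < K then Z ⟨i, h⟩ else 0
  have h1 : Psi K Z = PW W K := by
    unfold Psi PW
    congr 2
    funext j
    simp [W]
  have h2 : ext K Z = vv W := by
    funext i
    unfold ext vv
    by_cases h : i < K
    · simp [W, h]
    · simp [W, h]
      rfl
  rw [h1, h2, PW_row]

/-- first half in the order of the rows -/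
def al1 (K : ℕ) (a : Fin 4 → ℂ) : C2 := if Odd K then (a 0, a 1) else (a 2, a 3)

/-- second half in the order of the rows -/
def be1' (K : ℕ) (a : Fin 4 → ℂ) : C2 := if Odd K then (a 2, a 3) else (a 0, a 1)

theorem arr_eq (K : ℕ) (c c' : C2) (a : Fin 4 → ℂ) :
    arr K c c' = a ↔ c = al1 K a ∧ c' = be1' K a := by
  unfold arr al1 be1'
  by_cases h : Odd K
  · rw [if_pos h, if_pos h, if_pos h]
    constructor
    · rintro rfl
      exact ⟨rfl, rfl⟩
    · rintro ⟨rfl, rfl⟩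
      funext i
      fin_cases i <;> rfl
  · rw [if_neg h, if_neg h, if_neg h]
    constructor
    · rintro rfl
      exact ⟨rfl, rfl⟩
    · rintro ⟨rfl, rfl⟩
      funext i
      fin_cases i <;> rfl

/-- the fibre in the space of sequences -/
def FF (K : ℕ) (α β : C2) : Set E := {Z | g Z (K + 1) = α ∧ g Z K = β}

theorem mem_fibre (K : ℕ) (a : Fin 4 → ℂ) (Z : Fin K → Fin 3 → ℂ) :
    Z ∈ fibre K a ↔ ext K Z ∈ FF K (al1 K a) (be1' K a) := by
  show Psi K Z 3 = a ↔ _
  rw [Psi_row, arr_eq]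
  rfl

theorem PM_ext (K : ℕ) (a : Fin 4 → ℂ) :
    PM (ext K) (fibre K a) ∅ (FF K (al1 K a) (be1' K a)) ∅ :=
  ⟨(ext_cont K).continuousOn, fun Z hZ => (mem_fibre K a Z).1 hZ, fun x hx => not_empty x hx,
    Set.empty_subset _⟩

theorem PM_res (K : ℕ) (a : Fin 4 → ℂ) :
    PM (res K) (FF K (al1 K a) (be1' K a)) ∅ (fibre K a) ∅ := by
  refine ⟨(res_cont K).continuousOn, ?_, fun x hx => not_empty x hx, Set.empty_subset _⟩
  intro Z hZ
  rw [mem_fibre]
  refine ⟨?_, ?_⟩
  · rw [g_congr (K + 1) (fun i hi => ext_res_lt (by omega) Z)]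
    exact hZ.1
  · rw [g_congr K (fun i hi => ext_res_lt (by omega) Z)]
    exact hZ.2

theorem fibre_bij (K : ℕ) (a : Fin 4 → ℂ) (n : ℕ) : Function.Bijective
    (mapH (PM_ext K a) n : H R (fibre K a) ∅ n →ₗ[R] H R (FF K (al1 K a) (be1' K a)) ∅ n) := by
  refine bij_of_line (PM_ext K a) (PM_res K a) ?_ (fun x hx => not_empty x hx) ?_
    (fun x hx => not_empty x hx) n
  · intro Z hZ s _ _
    rw [res_ext, sub_self, smul_zero, add_zero]
    exact hZ
  · intro Z hZ s _ _
    refine ⟨?_, ?_⟩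
    · rw [line_g1 (fun i hi => ext_res_lt (by omega) Z)]
      exact hZ.1
    · rw [line_g1 (fun i hi => ext_res_lt (by omega) Z)]
      exact hZ.2

/-- first reduction -/
theorem FF_bij1 {K : ℕ} (hK : K ≠ 0) (α : C2) {β : C2} (hβ : β ≠ 0) (n : ℕ)
    (hi : PM (id : E → E) (FF K α β) ∅ (T K {β}) ∅) : Function.Bijective
    (mapH hi n : H R (FF K α β) ∅ n →ₗ[R] H R (T K {β}) ∅ n) := by
  have hc : ContinuousOn (fun Z => be K (Z, α)) (T K {β}) := by
    have h : ContinuousOn (fun Z : E => ((Z, α) : E × C2)) (T K {β}) := by fun_prop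
    refine ContinuousOn.comp (g := be K) (t := {q : E × C2 | g q.1 K ≠ 0})
      (be_cont fun q hq => hq) h ?_
    intro Z hZ
    have : g Z K = β := hZ
    show g Z K ≠ 0
    rw [this]
    exact hβ
  have hr : PM (fun Z => be K (Z, α)) (T K {β}) ∅ (FF K α β) ∅ := by
    refine ⟨hc, ?_, fun x hx => not_empty x hx, Set.empty_subset _⟩
    intro Z hZ
    have hZ' : g Z K = β := hZ
    refine ⟨?_, ?_⟩
    · exact g_be hK (q := (Z, α)) (by show g Z K ≠ 0; rw [hZ']; exact hβ)
    · show g (be K (Z, α)) K = β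
      rw [g_be_lt (by omega) hK]
      exact hZ'
  have hl : ∀ Z : E, g Z K = β → ∀ s : ℝ, g (Z + s • (be K (Z, α) - Z)) K = β := by
    intro Z hZ s
    rw [line_g1 (fun i hi => be_ne (by omega) (Z, α))]
    exact hZ
  refine bij_of_line hi hr ?_ (fun x hx => not_empty x hx) ?_ (fun x hx => not_empty x hx) n
  · intro Z hZ s _ _
    refine ⟨?_, hl Z hZ.2 s⟩
    obtain ⟨k, rfl⟩ := Nat.exists_eq_succ_of_ne_zero hK
    show g (Z + s • (be (k + 1) (Z, α) - Z)) (k + 2) = α
    rw [line_g2 (fun i hi => be_ne (by omega) (Z, α))]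
    have h1 : g (be (k + 1) (Z, α)) (k + 2) = α :=
      g_be hK (q := (Z, α)) (by show g Z (k + 1) ≠ 0; rw [show g Z (k + 1) = β from hZ.2]; exact hβ)
    have h2 : g Z (k + 2) = α := hZ.1
    rw [h1, h2, sub_self, smul_zero, add_zero]
  · intro Z hZ s _ _
    exact hl Z hZ s

theorem FF_zero (k : ℕ) (α : C2) : FF (k + 1) α 0 = FF k 0 α := by
  ext Z
  constructor
  · rintro ⟨h1, h2⟩
    refine ⟨h2, ?_⟩
    rw [← h1, g_succ, h2, mS_zero_left, add_zero]
  · rintro ⟨h1, h2⟩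
    refine ⟨?_, h1⟩
    show g Z (k + 2) = α
    rw [g_succ, h1, mS_zero_left, add_zero, h2]

theorem PM_FT (K : ℕ) (α β : C2) : PM (id : E → E) (FF K α β) ∅ (T K {β}) ∅ :=
  PM.inc (fun _ h => h.2) (le_refl _) (Set.empty_subset _)

/-- comparison of the fibre with the row sets -/
theorem FF_equiv {K : ℕ} (hK : K ≠ 0) (α : C2) {β : C2} (hβ : β ≠ 0) (n : ℕ) :
    Nonempty (H R (FF K α β) ∅ n ≃ₗ[R] H R (T K {β}) ∅ n) :=
  ⟨LinearEquiv.ofBijective _ (FF_bij1 hK α hβ n (PM_FT K α β))⟩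

theorem T_one_eq : T 1 {((0, 1) : C2)} = Set.univ := by
  ext Z
  simp only [T, Set.mem_setOf_eq, g_one, Set.mem_univ, iff_true]
  rfl

theorem T_one_rank (n : ℕ) : (n = 0 → IsR R (H R (T 1 {((0, 1) : C2)}) ∅ n)) ∧
    (n ≠ 0 → IsZ (H R (T 1 {((0, 1) : C2)}) ∅ n)) := by
  rw [T_one_eq]
  refine ⟨?_, fun h x => univ_zero h x⟩
  rintro rfl
  exact ⟨LinearEquiv.ofBijective _ univ_eps⟩

end Pool.Agent.Helper72.HY
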