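import Mathlib
import Pool.Agent.Helper72.HY7

/-!
Singular fibres.
-/

set_option linter.unusedSectionVars false

namespace Pool.Agent.Helper72.HY

open Finset Pool.Agent.Helper72.HZ Pool.Agent.Helper72.HD Filter Topology

/-- second order data of the rows -/
noncomputable def qd (t : ℝ) (h : E) : ℕ → C2
  | 0 => 0
  | 1 => 0
  | (k + 2) => qd t h k +
      mS (if k % 2 = 0 then ((0, 1) : C2) + (t ^ 2) • qd t h (k + 1) else qd t h (k + 1)) (h k)

theorem qd_cont : ∀ k : ℕ, Continuous (fun p : ℝ × E => qd p.1 p.2 k) := by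
  intro k
  induction k using Nat.strong_induction_on with
  | _ k ih =>
    match k with
    | 0 => simp only [qd]; exact continuous_const
    | 1 => simp only [qd]; exact continuous_const
    | (k + 2) =>
      have h1 := ih k (by omega)
      have h2 := ih (k + 1) (by omega)
      have h3 : Continuous (fun p : ℝ × E => p.2 k) := (continuous_apply k).comp continuous_snd
      have h4 : Continuous (fun p : ℝ × E => p.1) := continuous_fst
      by_cases hk : k % 2 = 0
      · simp only [qd, if_pos hk]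
        exact h1.add (mS_cont.comp ((continuous_const.add ((h4.pow 2).smul h2)).prodMk h3))
      · simp only [qd, if_neg hk]
        exact h1.add (mS_cont.comp (h2.prodMk h3))

theorem mS_smul_left (c : C2) (s : ℝ) (z : V) : mS (s • c) z = s • mS c z := by
  rw [mS_def, mS_def]
  simp only [Prod.smul_fst, Prod.smul_snd, Prod.smul_mk, Complex.real_smul]
  congr 1 <;> ring

theorem mS_add_left (c d : C2) (z : V) : mS (c + d) z = mS c z + mS d z := by
  rw [mS_def, mS_def, mS_def]
  simp only [Prod.fst_add, Prod.snd_add, Prod.mk_add_mk]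
  congr 1 <;> ring

theorem g_qd (t : ℝ) (h W : E) (m : ℕ) (hW : ∀ i, i + 2 ≤ m → W i = t • h i) : ∀ k, k ≤ m →
    g W k = if k % 2 = 0 then t • qd t h k else ((0, 1) : C2) + (t ^ 2) • qd t h k := by
  intro k
  induction k using Nat.strong_induction_on with
  | _ k ih =>
    intro hk
    match k with
    | 0 => simp [g_zero, qd]
    | 1 => simp [g_one, qd]
    | (k + 2) =>
      rw [g_succ, ih k (by omega) (by omega), ih (k + 1) (by omega) (by omega),
        hW k (by omega)]
      rcases Nat.mod_two_eq_zero_or_one k with h2 | h2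
      · have e1 : (k + 1) % 2 ≠ 0 := by omega
        have e2 : (k + 2) % 2 = 0 := by omega
        rw [if_pos h2, if_neg e1, if_pos e2]
        simp only [qd, if_pos h2]
        rw [mS_smul]
        module
      · have e0 : k % 2 ≠ 0 := by omega
        have e1 : (k + 1) % 2 = 0 := by omega
        have e2 : (k + 2) % 2 ≠ 0 := by omega
        rw [if_neg e0, if_pos e1, if_neg e2]
        simp only [qd, if_neg e0]
        rw [mS_smul, mS_smul_left]
        module

/-- the first direction -/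
noncomputable def d1 : V := (0, 1, 0)

/-- the second direction -/
noncomputable def d2 : V := (1, 0, 0)

theorem mS_e (z : V) : mS ((0, 1) : C2) z = (z.2.1, z.2.2) := by
  rw [mS_def]
  simp

theorem qd_val (h : E) (h0 : h 0 = d1) (h1 : h 1 = d2) (m : ℕ) (h2 : ∀ i, 2 ≤ i → i + 2 ≤ m → h i = 0) :
    ∀ k, 2 ≤ k → k ≤ m → qd 0 h k = (1, 0) := by
  intro k
  induction k using Nat.strong_induction_on with
  | _ k ih =>
    intro hk hm
    obtain ⟨j, rfl⟩ : ∃ j, k = j + 2 := ⟨k - 2, by omega⟩
    match j with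
    | 0 =>
      simp only [qd]
      rw [h0, if_pos trivial]
      simp only [ne_eq, OfNat.ofNat_ne_zero, not_false_eq_true, zero_pow, zero_smul, add_zero,
        zero_add]
      rw [mS_e]
      simp [d1]
    | 1 =>
      have h3 := ih 2 (by omega) (by omega) (by omega)
      show qd 0 h 1 + mS (if 1 % 2 = 0 then _ else qd 0 h 2) (h 1) = _
      rw [if_neg (by omega), h3, h1]
      simp only [qd]
      rw [mS_def]
      simp [d2]
    | (j + 2) =>
      have h3 := ih (j + 2) (by omega) (by omega) (by omega)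
      show qd 0 h (j + 2) + mS _ (h (j + 2)) = _
      rw [h2 (j + 2) (by omega) (by omega), mS_zero, add_zero, h3]

/-- A set which is smooth at a point and contains two lines through the point contains a curve
whose tangent is the sum of the directions of the lines. -/
theorem curve_exists {K : ℕ} {F : Set (Fin K → Fin 3 → ℂ)} (hF : IsSmooth F)
    {x v w : Fin K → Fin 3 → ℂ} (hv : ∀ t : ℝ, x + t • v ∈ F) (hw : ∀ t : ℝ, x + t • w ∈ F) :
    ∃ y : ℕ → (Fin K → Fin 3 → ℂ), Tendsto y atTop (𝓝 (v + w)) ∧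
      ∀ᶠ n : ℕ in atTop, x + (1 / ((n : ℝ) + 1)) • y n ∈ F := by
  have hx : x ∈ F := by simpa using hv 0
  obtain ⟨r, f, f', hf, hs, hev⟩ := hF x hx
  have hfx : f x = 0 := (hev.self_of_nhds).1 hx
  have hker : ∀ v : Fin K → Fin 3 → ℂ, (∀ t : ℝ, x + t • v ∈ F) → f' v = 0 := by
    intro v hv
    have h1 : HasFDerivAt f (f'.restrictScalars ℝ) (x + (0 : ℝ) • v) := by
      rw [zero_smul, add_zero]
      exact hf.hasFDerivAt.restrictScalars ℝ
    have h2 : HasDerivAt (fun t : ℝ => x + t • v) v 0 := by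
      have := ((hasDerivAt_id (0 : ℝ)).smul_const v).const_add x
      simpa using this
    have h3 := h1.comp_hasDerivAt (0 : ℝ) h2
    have h4 : (f ∘ fun t : ℝ => x + t • v) =ᶠ[𝓝 0] fun _ => 0 := by
      have hc : Tendsto (fun t : ℝ => x + t • v) (𝓝 0) (𝓝 x) := by
        have : Continuous (fun t : ℝ => x + t • v) := by fun_prop
        simpa using this.tendsto 0
      filter_upwards [hc.eventually hev] with t ht
      exact ht.1 (hv t)
    have h5 := h3.congr_of_eventuallyEq h4.symm
    exact h5.unique (hasDerivAt_const (0 : ℝ) (0 : Fin r → ℂ))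
  have hsum : f' (v + w) = 0 := by rw [map_add, hker v hv, hker w hw, add_zero]
  have hrange : f'.range = ⊤ := LinearMap.range_eq_top.2 hs
  let ν : f'.ker := ⟨v + w, hsum⟩
  let φ : f'.ker → (Fin K → Fin 3 → ℂ) := hf.implicitFunction f f' hrange (f x)
  have hφ := hf.to_implicitFunction hrange
  have hφ0 : φ 0 = x := hf.implicitFunction_apply_image hrange
  have hφr := hf.map_implicitFunction_eq hrange
  have hφd : HasFDerivAt φ (f'.ker.subtypeL.restrictScalars ℝ) 0 :=
    hφ.hasFDerivAt.restrictScalars ℝ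
  have hcurve : HasDerivAt (fun t : ℝ => φ (t • ν)) (v + w) 0 := by
    have h1 : HasDerivAt (fun t : ℝ => t • ν) ν 0 := by
      simpa using (hasDerivAt_id (0 : ℝ)).smul_const ν
    have h2 : HasFDerivAt φ (f'.ker.subtypeL.restrictScalars ℝ) ((0 : ℝ) • ν) := by
      rw [zero_smul]
      exact hφd
    exact h2.comp_hasDerivAt (0 : ℝ) h1
  have hseq : Tendsto (fun n : ℕ => 1 / ((n : ℝ) + 1)) atTop (𝓝[≠] 0) := by
    rw [tendsto_nhdsWithin_iff]
    refine ⟨tendsto_one_div_add_atTop_nhds_zero_nat, Eventually.of_forall fun n => ?_⟩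
    have : (0 : ℝ) < 1 / ((n : ℝ) + 1) := by positivity
    exact this.ne'
  refine ⟨fun n => (1 / ((n : ℝ) + 1))⁻¹ • (φ ((1 / ((n : ℝ) + 1)) • ν) - x), ?_, ?_⟩
  · have h1 := hcurve.tendsto_slope_zero.comp hseq
    simp only [zero_add, zero_smul, hφ0] at h1
    exact h1
  · have h1 : Tendsto (fun n : ℕ => (((f x, (1 / ((n : ℝ) + 1)) • ν)) : (Fin r → ℂ) × f'.ker))
        atTop (𝓝 (f x, 0)) := by
      refine Tendsto.prodMk_nhds tendsto_const_nhds ?_
      have h2 : Tendsto (fun n : ℕ => 1 / ((n : ℝ) + 1)) atTop (𝓝 0) :=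
        tendsto_one_div_add_atTop_nhds_zero_nat
      simpa using h2.smul_const ν
    have h2 := h1.eventually hφr
    have h3 : Tendsto (fun n : ℕ => φ ((1 / ((n : ℝ) + 1)) • ν)) atTop (𝓝 x) := by
      have h4 : ContinuousAt φ 0 := hφd.continuousAt
      have h5 : Tendsto (fun n : ℕ => (1 / ((n : ℝ) + 1)) • ν) atTop (𝓝 0) := by
        have h2 : Tendsto (fun n : ℕ => 1 / ((n : ℝ) + 1)) atTop (𝓝 0) :=
          tendsto_one_div_add_atTop_nhds_zero_nat
        simpa using h2.smul_const ν
      have h6 := h4.tendsto.comp h5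
      rw [hφ0] at h6
      exact h6
    have h4 := h3.eventually hev
    filter_upwards [h2, h4] with n hn1 hn2
    have e1 : x + (1 / ((n : ℝ) + 1)) • ((1 / ((n : ℝ) + 1))⁻¹ • (φ ((1 / ((n : ℝ) + 1)) • ν) - x))
        = φ ((1 / ((n : ℝ) + 1)) • ν) := by
      rw [smul_smul, mul_inv_cancel₀ (by positivity), one_smul]
      abel
    rw [e1, hn2]
    rw [hfx] at hn1
    have e2 : φ ((1 / ((n : ℝ) + 1)) • ν)
        = hf.implicitFunction f f' hrange 0 ((1 / ((n : ℝ) + 1)) • ν) := by
      show hf.implicitFunction f f' hrange (f x) _ = _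
      rw [hfx]
    rw [e2]
    exact hn1

/-- the base point -/
noncomputable def x0 (m : ℕ) (α : C2) : E := fun i => if i = m - 1 then (0, α.1, α.2) else 0

/-- the first direction -/
noncomputable def v0 (m : ℕ) : E :=
  fun i => if i = 0 then (0, 1, 0) else if i = m - 1 then (0, -1, 0) else 0

/-- the second direction -/
noncomputable def w0 : E := fun i => if i = 1 then (1, 0, 0) else 0

theorem ext_add_smul {K : ℕ} (x v : Fin K → Fin 3 → ℂ) (t : ℝ) :
    ext K (x + t • v) = ext K x + t • ext K v := by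
  funext i
  show ext K (x + t • v) i = ext K x i + t • ext K v i
  unfold ext
  split_ifs with h
  · rfl
  · simp

theorem ext_res {K : ℕ} {Z : E} (h : ∀ i, K ≤ i → Z i = 0) : ext K (res K Z) = Z := by
  funext i
  rcases Nat.lt_or_ge i K with hi | hi
  · exact ext_res_lt hi Z
  · rw [h i hi]
    unfold ext
    rw [dif_neg (by omega)]

theorem line1 {m : ℕ} (hm : m % 2 = 1) (hm3 : 3 ≤ m) (α : C2) (t : ℝ) :
    g (x0 m α + t • v0 m) m = (0, 1) ∧ g (x0 m α + t • v0 m) (m + 1) = α := by
  set W := x0 m α + t • v0 m with hW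
  have hWi : ∀ i, W i = x0 m α i + t • v0 m i := fun i => rfl
  have w00 : W 0 = (0, (t : ℂ), 0) := by
    rw [hWi]
    unfold x0 v0
    rw [if_neg (by omega), if_pos rfl]
    simp
  have wi : ∀ i, 1 ≤ i → i + 2 ≤ m → W i = 0 := by
    intro i h1 h2
    rw [hWi]
    unfold x0 v0
    rw [if_neg (by omega), if_neg (by omega), if_neg (by omega)]
    simp
  have wm : W (m - 1) = (0, α.1 - (t : ℂ), α.2) := by
    rw [hWi]
    unfold x0 v0
    rw [if_pos rfl, if_neg (by omega), if_pos rfl]
    simp only [sub_eq_add_neg]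
    apply Prod.ext
    · simp
    · apply Prod.ext <;> simp
  have key : ∀ k, 2 ≤ k → k ≤ m → g W k = if k % 2 = 0 then ((t : ℂ), 0) else (0, 1) := by
    intro k
    induction k using Nat.strong_induction_on with
    | _ k ih =>
      intro hk hkm
      obtain ⟨j, rfl⟩ : ∃ j, k = j + 2 := ⟨k - 2, by omega⟩
      match j with
      | 0 =>
        rw [if_pos rfl, g_succ, g_zero, w00]
        show (0 : C2) + mS (g W 1) _ = _
        rw [g_one, mS_e]
        simp
      | 1 =>
        rw [if_neg (by omega), g_succ, wi 1 le_rfl (by omega), mS_zero, add_zero, g_one]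
      | (j + 2) =>
        rw [g_succ W (j + 2), wi (j + 2) (by omega) (by omega), mS_zero, add_zero,
          ih (j + 2) (by omega) (by omega) (by omega)]
        have : (j + 2) % 2 = (j + 2 + 2) % 2 := by omega
        rw [this]
  have e1 : g W m = (0, 1) := by
    rw [key m (by omega) le_rfl, if_neg (by omega)]
  refine ⟨e1, ?_⟩
  obtain ⟨k, rfl⟩ : ∃ k, m = k + 1 := ⟨m - 1, by omega⟩
  show g W (k + 2) = α
  have e2 : W k = (0, α.1 - (t : ℂ), α.2) := wm
  rw [g_succ, key k (by omega) (by omega), if_pos (by omega), e1, e2, mS_e]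
  apply Prod.ext
  · simp
  · simp

theorem line2 {m : ℕ} (hm : m % 2 = 1) (hm3 : 3 ≤ m) (α : C2) (t : ℝ) :
    g (x0 m α + t • w0) m = (0, 1) ∧ g (x0 m α + t • w0) (m + 1) = α := by
  set W := x0 m α + t • w0 with hW
  have hWi : ∀ i, W i = x0 m α i + t • w0 i := fun i => rfl
  have wi : ∀ i, i ≠ 1 → i + 2 ≤ m → W i = 0 := by
    intro i h1 h2
    rw [hWi]
    unfold x0 w0
    rw [if_neg (by omega), if_neg h1]
    simp
  have wm : W (m - 1) = (0, α.1, α.2) := by
    rw [hWi]
    unfold x0 w0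
    rw [if_pos rfl, if_neg (by omega)]
    simp
  have key : ∀ k, k ≤ m → g W k = if k % 2 = 0 then 0 else (0, 1) := by
    intro k
    induction k using Nat.strong_induction_on with
    | _ k ih =>
      intro hkm
      match k with
      | 0 => rw [if_pos rfl, g_zero]
      | 1 => rw [if_neg (by omega), g_one]
      | 2 =>
        rw [if_pos rfl, g_succ, g_zero, wi 0 (by omega) (by omega), mS_zero, add_zero]
      | 3 =>
        rw [if_neg (by omega), g_succ]
        have h2 := ih 2 (by omega) (by omega)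
        rw [if_pos rfl] at h2
        rw [show 1 + 1 = 2 from rfl, h2, mS_zero_left, add_zero, g_one]
      | (j + 4) =>
        rw [g_succ W (j + 2), wi (j + 2) (by omega) (by omega), mS_zero, add_zero,
          ih (j + 2) (by omega) (by omega)]
        have : (j + 2) % 2 = (j + 4) % 2 := by omega
        rw [this]
  have e1 : g W m = (0, 1) := by
    rw [key m le_rfl, if_neg (by omega)]
  refine ⟨e1, ?_⟩
  obtain ⟨k, rfl⟩ : ∃ k, m = k + 1 := ⟨m - 1, by omega⟩
  show g W (k + 2) = α
  have e2 : W k = (0, α.1, α.2) := wm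
  rw [g_succ, key k (by omega), if_pos (by omega), e1, e2, mS_e, zero_add]

theorem notSmooth {K m : ℕ} (hm : m % 2 = 1) (hm3 : 3 ≤ m) (hmK : m ≤ K) (α : C2) :
    ¬ IsSmooth {Z : Fin K → Fin 3 → ℂ | g (ext K Z) m = (0, 1) ∧ g (ext K Z) (m + 1) = α} := by
  intro hs
  have ex : ext K (res K (x0 m α)) = x0 m α := ext_res fun i hi => by
    unfold x0
    rw [if_neg (by omega)]
  have ev : ext K (res K (v0 m)) = v0 m := ext_res fun i hi => by
    unfold v0
    rw [if_neg (by omega), if_neg (by omega)]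
  have ew : ext K (res K w0) = w0 := ext_res fun i hi => by
    unfold w0
    rw [if_neg (by omega)]
  obtain ⟨y, hy, hyF⟩ := curve_exists hs (x := res K (x0 m α)) (v := res K (v0 m)) (w := res K w0)
    (fun t => by
      show g (ext K _) m = _ ∧ g (ext K _) (m + 1) = _
      rw [ext_add_smul, ex, ev]
      exact line1 hm hm3 α t)
    (fun t => by
      show g (ext K _) m = _ ∧ g (ext K _) (m + 1) = _
      rw [ext_add_smul, ex, ew]
      exact line2 hm hm3 α t)
  have hlim : Tendsto (fun n : ℕ => qd (1 / ((n : ℝ) + 1)) (ext K (y n)) m) atTop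
      (𝓝 (qd 0 (ext K (res K (v0 m) + res K w0)) m)) := by
    have h1 : Tendsto (fun n : ℕ => ((1 / ((n : ℝ) + 1), ext K (y n)) : ℝ × E)) atTop
        (𝓝 (0, ext K (res K (v0 m) + res K w0))) :=
      tendsto_one_div_add_atTop_nhds_zero_nat.prodMk_nhds
        (((ext_cont K).tendsto _).comp hy)
    exact ((qd_cont m).tendsto _).comp h1
  have hzero : ∀ᶠ n : ℕ in atTop, qd (1 / ((n : ℝ) + 1)) (ext K (y n)) m = 0 := by
    filter_upwards [hyF] with n hn
    have h1 : g (ext K (res K (x0 m α) + (1 / ((n : ℝ) + 1)) • y n)) m = (0, 1) := hn.1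
    rw [ext_add_smul, ex] at h1
    have h2 := g_qd (1 / ((n : ℝ) + 1)) (ext K (y n))
      (x0 m α + (1 / ((n : ℝ) + 1)) • ext K (y n)) m (by
        intro i hi
        show x0 m α i + (1 / ((n : ℝ) + 1)) • ext K (y n) i = _
        unfold x0
        rw [if_neg (by omega), zero_add]) m le_rfl
    rw [h1, if_neg (by omega)] at h2
    have h3 : ((1 / ((n : ℝ) + 1)) ^ 2) • qd (1 / ((n : ℝ) + 1)) (ext K (y n)) m = 0 := by
      have := h2.symm
      rwa [add_eq_left] at this
    have h4 : ((1 / ((n : ℝ) + 1)) ^ 2) ≠ 0 := by positivity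
    exact (smul_eq_zero.1 h3).resolve_left h4
  have hz : qd 0 (ext K (res K (v0 m) + res K w0)) m = 0 := by
    refine tendsto_nhds_unique hlim ?_
    refine tendsto_const_nhds.congr' ?_
    filter_upwards [hzero] with n hn using hn.symm
  have hsum : ext K (res K (v0 m) + res K w0) = v0 m + w0 := by
    have := ext_add_smul (res K (v0 m)) (res K w0) 1
    rw [one_smul, one_smul, ev, ew] at this
    exact this
  rw [hsum, qd_val (v0 m + w0) ?_ ?_ m ?_ m (by omega) le_rfl] at hz
  · have := congrArg Prod.fst hz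
    simp at this
  · show v0 m 0 + w0 0 = d1
    unfold v0 w0 d1
    rw [if_pos rfl, if_neg (by omega), add_zero]
  · show v0 m 1 + w0 1 = d2
    unfold v0 w0 d2
    rw [if_neg (by omega), if_neg (by omega), if_pos rfl, zero_add]
  · intro i h1 h2
    show v0 m i + w0 i = 0
    unfold v0 w0
    rw [if_neg (by omega), if_neg (by omega), if_neg (by omega), add_zero]

/-! ### assembly -/

theorem final_aux {K : ℕ} {a : Fin 4 → ℂ} (hs : IsSmooth (fibre K a)) {m : ℕ} {b : C2}
    (hm : m ≠ 0) (hb : b ≠ 0) (h1 : m = 1 → b = (0, 1))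
    (heq : ∀ n, Nonempty (H ℤ (fibre K a) ∅ n ≃ₗ[ℤ] H ℤ (T m {b}) ∅ n))
    (hsm : m % 2 = 1 → 3 ≤ m → b = (0, 1) → ∃ α, m ≤ K ∧
      fibre K a = {Z | g (ext K Z) m = (0, 1) ∧ g (ext K Z) (m + 1) = α}) (n : ℕ) :
    (n ∈ degrees (m - 1) → Nonempty (Hom (fibre K a) n ≃ₗ[ℤ] ℤ)) ∧
    (n ∉ degrees (m - 1) → Subsingleton (Hom (fibre K a) n)) := by
  have hbr : Nonempty (H ℤ (fibre K a) ∅ n ≃ₗ[ℤ] Hom (fibre K a) n) :=
    ⟨bridgeSub (R := ℤ) (fibre K a) n⟩
  obtain ⟨e1⟩ := hbr
  obtain ⟨e2⟩ := heq n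
  have hdeg : n ∈ degrees (m - 1) ↔ (m = 1 ∧ n = 0) ∨ cT m n := by
    unfold degrees cT
    simp only [Set.mem_setOf_eq, Nat.odd_iff, Nat.even_iff]
    omega
  have hrank : (n ∈ degrees (m - 1) → IsR ℤ (H ℤ (T m {b}) ∅ n)) ∧
      (n ∉ degrees (m - 1) → IsZ (H ℤ (T m {b}) ∅ n)) := by
    rw [hdeg]
    by_cases hm1 : m = 1
    · have hb1 := h1 hm1
      subst hm1
      subst hb1
      have hc : ¬ cT 1 n := by unfold cT; omega
      have h2 := T_one_rank (R := ℤ) n
      constructor
      · rintro (⟨_, h⟩ | h)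
        · exact h2.1 h
        · exact absurd h hc
      · intro h
        exact h2.2 fun hn => h (Or.inl ⟨rfl, hn⟩)
    · have h3 : m % 2 = 1 → b ≠ ((0, 1) : C2) := by
        intro h4 h5
        obtain ⟨α, hK, hF⟩ := hsm h4 (by omega) h5
        rw [hF] at hs
        exact notSmooth h4 (by omega) hK α hs
      have h2 := fib_rank (R := ℤ) hb h3 n
      constructor
      · rintro (⟨h, _⟩ | h)
        · exact absurd h hm1
        · exact h2.1 h
      · intro h
        exact h2.2 fun hn => h (Or.inr hn)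
  constructor
  · intro h
    obtain ⟨e3⟩ := hrank.1 h
    exact ⟨e1.symm.trans (e2.trans e3)⟩
  · intro h
    have h4 := hrank.2 h
    refine ⟨fun x y => ?_⟩
    have h5 : ∀ z : Hom (fibre K a) n, z = 0 := by
      intro z
      apply (e1.symm.trans e2).injective
      rw [map_zero]
      exact h4 _
    rw [h5 x, h5 y]

theorem fibre_eq (K : ℕ) (a : Fin 4 → ℂ) :
    fibre K a = {Z | g (ext K Z) (K + 1) = al1 K a ∧ g (ext K Z) K = be1' K a} := by
  ext Z
  exact mem_fibre K a Z

/-- The homology of all smooth fibres. -/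
theorem main {K : ℕ} (hK : 1 ≤ K) (a : Fin 4 → ℂ) (hne : (fibre K a).Nonempty)
    (hs : IsSmooth (fibre K a)) (n : ℕ) :
    (n ∈ degrees (level K a) → Nonempty (Hom (fibre K a) n ≃ₗ[ℤ] ℤ)) ∧
    (n ∉ degrees (level K a) → Subsingleton (Hom (fibre K a) n)) := by
  obtain ⟨Z, hZ⟩ := hne
  have hZ' := (mem_fibre K a Z).1 hZ
  have hF := fibre_eq K a
  have hbij := fun n => fibre_bij (R := ℤ) K a n
  have hlev : level K a = if be1' K a = 0 then K - 2 else K - 1 := by
    unfold level be1'
    rcases Nat.even_or_odd K with h | h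
    · have h' : ¬ Odd K := Nat.not_odd_iff_even.2 h
      simp [h, h', Prod.ext_iff]
    · have h' : ¬ Even K := Nat.not_even_iff_odd.2 h
      simp [h, h', Prod.ext_iff]
  by_cases hb : be1' K a = 0
  · have ha : al1 K a ≠ 0 := by
      have h1 : g (ext K Z) (K + 1) = al1 K a := hZ'.1
      have h2 : g (ext K Z) K = be1' K a := hZ'.2
      rw [← h1]
      exact g_ne K (h2.trans hb)
    obtain ⟨k, rfl⟩ : ∃ k, K = k + 1 := ⟨K - 1, by omega⟩
    have hg1 : g (ext (k + 1) Z) (k + 1) = 0 := hZ'.2.trans hb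
    have hk : k ≠ 0 := by
      rintro rfl
      rw [g_one] at hg1
      simp at hg1
    have hgk : g (ext (k + 1) Z) k = al1 (k + 1) a := by
      have h1 : g (ext (k + 1) Z) (k + 2) = al1 (k + 1) a := hZ'.1
      rw [g_succ, hg1, mS_zero_left, add_zero] at h1
      exact h1
    rw [hlev, if_pos hb, show k + 1 - 2 = k - 1 by omega]
    refine final_aux hs hk ha ?_ ?_ ?_ n
    · rintro rfl
      rw [← hgk, g_one]
    · intro n
      obtain ⟨e⟩ := FF_equiv (R := ℤ) hk 0 ha n
      have key : ∀ W : Set E, FF (k + 1) (al1 (k + 1) a) (be1' (k + 1) a) = W →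
          Nonempty (H ℤ (fibre (k + 1) a) ∅ n ≃ₗ[ℤ] H ℤ W ∅ n) := by
        rintro W rfl
        exact ⟨LinearEquiv.ofBijective _ (hbij n)⟩
      obtain ⟨e'⟩ := key _ (by rw [hb, FF_zero])
      exact ⟨e'.trans e⟩
    · intro _ _ h2
      refine ⟨0, by omega, ?_⟩
      rw [hF]
      ext Y
      have h3 := Set.ext_iff.1 (FF_zero k (al1 (k + 1) a)) (ext (k + 1) Y)
      rw [hb]
      constructor
      · intro h
        have h4 := h3.1 h
        exact ⟨h4.2.trans h2, h4.1⟩
      · rintro ⟨h5, h6⟩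
        exact h3.2 ⟨h6, h5.trans h2.symm⟩
  · rw [hlev, if_neg hb]
    refine final_aux hs (by omega) hb ?_ ?_ ?_ n
    · rintro rfl
      have h2 : g (ext 1 Z) 1 = be1' 1 a := hZ'.2
      rw [← h2, g_one]
    · intro n
      obtain ⟨e⟩ := FF_equiv (R := ℤ) (by omega : K ≠ 0) (al1 K a) hb n
      exact ⟨(LinearEquiv.ofBijective _ (hbij n)).trans e⟩
    · intro _ _ h2
      refine ⟨al1 K a, le_rfl, ?_⟩
      rw [hF]
      ext Y
      constructor
      · rintro ⟨h3, h4⟩
        exact ⟨h4.trans h2, h3⟩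
      · rintro ⟨h3, h4⟩
        exact ⟨h4, h3.trans h2.symm⟩

end Pool.Agent.Helper72.HY
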