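import Mathlib

set_option autoImplicit false

open scoped Manifold ContDiff
open Set

namespace Pool.Agent.Helper72.RP

/-- ambient Euclidean space of (n+1) x (n+1) matrices -/
abbrev W (n : ℕ) := EuclideanSpace ℝ (Fin (n + 1) × Fin (n + 1))

abbrev V (n : ℕ) := EuclideanSpace ℝ (Fin (n + 1))

/-- outer product -/
noncomputable def outer {n : ℕ} (x y : V n) : W n := WithLp.toLp 2 (fun p => x p.1 * y p.2)

@[simp] lemma outer_apply {n : ℕ} (x y : V n) (p : Fin (n + 1) × Fin (n + 1)) :
    outer x y p = x p.1 * y p.2 := rfl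

lemma inner_V {n : ℕ} (x y : V n) : inner ℝ x y = ∑ i, x i * y i := by
  rw [PiLp.inner_apply]; simp [mul_comm]

lemma inner_W {n : ℕ} (A B : W n) : inner ℝ A B = ∑ p, A p * B p := by
  rw [PiLp.inner_apply]; simp [mul_comm]

lemma inner_outer {n : ℕ} (x y z w : V n) :
    inner ℝ (outer x y) (outer z w) = inner ℝ x z * inner ℝ y w := by
  rw [inner_W, inner_V, inner_V, Fintype.sum_prod_type, Finset.sum_mul_sum]
  refine Finset.sum_congr rfl fun i _ => Finset.sum_congr rfl fun j _ => ?_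
  simp only [outer_apply]; ring

/-- The real projective space as the Veronese variety: rank one projections. -/
def RP (n : ℕ) : Type := {A : W n // ∃ x : V n, ‖x‖ = 1 ∧ A = outer x x}

noncomputable instance (n : ℕ) : TopologicalSpace (RP n) :=
  inferInstanceAs (TopologicalSpace {A : W n // ∃ x : V n, ‖x‖ = 1 ∧ A = outer x x})

noncomputable def ι {n : ℕ} (P : RP n) : W n := P.1

lemma continuous_ι {n : ℕ} : Continuous (ι : RP n → W n) := continuous_subtype_val

lemma isEmbedding_ι {n : ℕ} : Topology.IsEmbedding (ι : RP n → W n) :=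
  Topology.IsEmbedding.subtypeVal

lemma ι_injective {n : ℕ} : Function.Injective (ι : RP n → W n) := Subtype.val_injective

lemma exists_unit {n : ℕ} (P : RP n) : ∃ x : V n, ‖x‖ = 1 ∧ ι P = outer x x := P.2

/-- the point of RP^n spanned by a nonzero vector -/
noncomputable def mk {n : ℕ} (x : V n) (hx : x ≠ 0) : RP n :=
  ⟨(‖x‖ ^ 2)⁻¹ • outer x x, ‖x‖⁻¹ • x, by
    rw [norm_smul, norm_inv, norm_norm, inv_mul_cancel₀ (norm_ne_zero_iff.2 hx)], by
    ext p
    simp only [PiLp.smul_apply, outer_apply, smul_eq_mul]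
    ring⟩

lemma ι_mk {n : ℕ} (x : V n) (hx : x ≠ 0) : ι (mk x hx) = (‖x‖ ^ 2)⁻¹ • outer x x := rfl

lemma exists_coord {n : ℕ} (P : RP n) : ∃ i, ι P (i, i) ≠ 0 := by
  obtain ⟨x, hx, hP⟩ := exists_unit P
  have : x ≠ 0 := by
    intro h; rw [h, norm_zero] at hx; exact zero_ne_one hx
  by_contra h
  push Not at h
  apply this
  ext i
  have := h i
  rw [hP, outer_apply] at this
  simpa using this

/-- affine lift -/
noncomputable def lift {n : ℕ} (i : Fin (n + 1)) (y : EuclideanSpace ℝ (Fin n)) : V n :=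
  WithLp.toLp 2 (i.insertNth (1 : ℝ) (fun j => y j))

@[simp] lemma lift_same {n : ℕ} (i : Fin (n + 1)) (y : EuclideanSpace ℝ (Fin n)) :
    lift i y i = 1 := by simp [lift]

@[simp] lemma lift_succAbove {n : ℕ} (i : Fin (n + 1)) (y : EuclideanSpace ℝ (Fin n)) (j : Fin n) :
    lift i y (i.succAbove j) = y j := by simp [lift]

lemma lift_ne_zero {n : ℕ} (i : Fin (n + 1)) (y : EuclideanSpace ℝ (Fin n)) : lift i y ≠ 0 := by
  intro h
  have := congrArg (fun z : V n => z i) h
  simp at this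

/-- the affine coordinates on the ambient space -/
noncomputable def Φ {n : ℕ} (i : Fin (n + 1)) (A : W n) : EuclideanSpace ℝ (Fin n) :=
  WithLp.toLp 2 (fun j => A (i.succAbove j, i) / A (i, i))

@[simp] lemma Φ_apply {n : ℕ} (i : Fin (n + 1)) (A : W n) (j : Fin n) :
    Φ i A j = A (i.succAbove j, i) / A (i, i) := rfl

/-- inverse parametrisation -/
noncomputable def Ψ {n : ℕ} (i : Fin (n + 1)) (y : EuclideanSpace ℝ (Fin n)) : W n :=
  (‖lift i y‖ ^ 2)⁻¹ • outer (lift i y) (lift i y)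

lemma norm_sq_lift_ne {n : ℕ} (i : Fin (n + 1)) (y : EuclideanSpace ℝ (Fin n)) :
    ‖lift i y‖ ^ 2 ≠ 0 := pow_ne_zero _ (norm_ne_zero_iff.2 (lift_ne_zero i y))

lemma Φ_Ψ {n : ℕ} (i : Fin (n + 1)) (y : EuclideanSpace ℝ (Fin n)) : Φ i (Ψ i y) = y := by
  ext j
  have h := norm_sq_lift_ne i y
  simp only [Φ_apply, Ψ, PiLp.smul_apply, outer_apply, smul_eq_mul, lift_same, lift_succAbove]
  rw [mul_div_mul_left _ _ (inv_ne_zero h)]
  simp

lemma contDiff_lift {n : ℕ} (i : Fin (n + 1)) : ContDiff ℝ ∞ (lift (n := n) i) := by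
  rw [contDiff_euclidean]
  intro k
  rcases Fin.eq_self_or_eq_succAbove i k with rfl | ⟨j, rfl⟩
  · simp only [lift_same]; exact contDiff_const
  · simp only [lift_succAbove]; fun_prop

lemma contDiff_outer {n : ℕ} : ContDiff ℝ ∞ (fun x : V n => outer x x) := by
  rw [contDiff_euclidean]
  intro p
  simp only [outer_apply]
  fun_prop

lemma contDiff_Ψ {n : ℕ} (i : Fin (n + 1)) : ContDiff ℝ ∞ (Ψ (n := n) i) := by
  have h1 : ContDiff ℝ ∞ (fun y : EuclideanSpace ℝ (Fin n) => (‖lift i y‖ ^ 2)⁻¹) :=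
    ((contDiff_lift i).norm_sq ℝ).inv (fun y => norm_sq_lift_ne i y)
  have h2 : ContDiff ℝ ∞ (fun y : EuclideanSpace ℝ (Fin n) => outer (lift i y) (lift i y)) :=
    contDiff_outer.comp (contDiff_lift i)
  exact h1.smul h2

lemma contDiffOn_Φ {n : ℕ} (i : Fin (n + 1)) : ContDiffOn ℝ ∞ (Φ (n := n) i) {A | A (i, i) ≠ 0} := by
  rw [contDiffOn_euclidean]
  intro j
  simp only [Φ_apply]
  refine ContDiffOn.div ?_ ?_ ?_
  · fun_prop
  · fun_prop
  · intro A hA; exact hA

lemma isOpen_dom {n : ℕ} (i : Fin (n + 1)) : IsOpen {A : W n | A (i, i) ≠ 0} := by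
  have : Continuous (fun A : W n => A (i, i)) := by fun_prop
  exact isOpen_ne_fun this continuous_const

/-- the affine chart -/
noncomputable def chart {n : ℕ} (i : Fin (n + 1)) :
    OpenPartialHomeomorph (RP n) (EuclideanSpace ℝ (Fin n)) where
  toFun P := Φ i (ι P)
  invFun y := mk (lift i y) (lift_ne_zero i y)
  source := {P | ι P (i, i) ≠ 0}
  target := univ
  map_source' _ _ := mem_univ _
  map_target' y _ := by
    change ι (mk (lift i y) (lift_ne_zero i y)) (i, i) ≠ 0
    rw [ι_mk]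
    simp only [PiLp.smul_apply, outer_apply, smul_eq_mul, lift_same, mul_one]
    exact inv_ne_zero (norm_sq_lift_ne i y)
  left_inv' P hP := by
    apply ι_injective
    obtain ⟨x, hx, hPx⟩ := exists_unit P
    have hxi : x i ≠ 0 := by
      have : ι P (i, i) ≠ 0 := hP
      rw [hPx, outer_apply] at this
      exact left_ne_zero_of_mul this
    have hlift : lift i (Φ i (ι P)) = (x i)⁻¹ • x := by
      ext k
      rcases Fin.eq_self_or_eq_succAbove i k with rfl | ⟨j, rfl⟩
      · simp [hxi]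
      · simp only [lift_succAbove, Φ_apply, hPx, outer_apply, PiLp.smul_apply, smul_eq_mul]
        field_simp
    rw [ι_mk, hlift, hPx, norm_smul, hx]
    ext p
    simp only [PiLp.smul_apply, outer_apply, smul_eq_mul, norm_inv, mul_one]
    have h2 : (‖x i‖⁻¹ ^ 2)⁻¹ = x i ^ 2 := by
      rw [inv_pow, inv_inv, Real.norm_eq_abs, sq_abs]
    rw [h2]
    field_simp
  right_inv' y _ := Φ_Ψ i y
  open_source := (isOpen_dom i).preimage continuous_ι
  open_target := isOpen_univ
  continuousOn_toFun := by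
    refine (contDiffOn_Φ i).continuousOn.comp continuous_ι.continuousOn ?_
    intro P hP; exact hP
  continuousOn_invFun := by
    rw [continuousOn_univ, isEmbedding_ι.continuous_iff]
    exact (contDiff_Ψ i).continuous

lemma chart_source {n : ℕ} (i : Fin (n + 1)) : (chart (n := n) i).source = {P | ι P (i, i) ≠ 0} := rfl
lemma chart_target {n : ℕ} (i : Fin (n + 1)) : (chart (n := n) i).target = univ := rfl
lemma chart_apply {n : ℕ} (i : Fin (n + 1)) (P : RP n) : chart i P = Φ i (ι P) := rfl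
lemma ι_chart_symm {n : ℕ} (i : Fin (n + 1)) (y : EuclideanSpace ℝ (Fin n)) :
    ι ((chart i).symm y) = Ψ i y := rfl

noncomputable instance (n : ℕ) : ChartedSpace (EuclideanSpace ℝ (Fin n)) (RP n) where
  atlas := range (chart (n := n))
  chartAt P := chart (exists_coord P).choose
  mem_chart_source P := (exists_coord P).choose_spec
  chart_mem_atlas _ := mem_range_self _

lemma mem_atlas_iff {n : ℕ} (e : OpenPartialHomeomorph (RP n) (EuclideanSpace ℝ (Fin n))) :
    e ∈ atlas (EuclideanSpace ℝ (Fin n)) (RP n) ↔ ∃ i, chart i = e := Iff.rfl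

lemma chartAt_eq {n : ℕ} (P : RP n) : ∃ i, chartAt (EuclideanSpace ℝ (Fin n)) P = chart i := ⟨_, rfl⟩

instance (n : ℕ) : IsManifold (𝓡 n) ∞ (RP n) := by
  apply isManifold_of_contDiffOn
  rintro e e' ⟨i, rfl⟩ ⟨k, rfl⟩
  simp only [modelWithCornersSelf_coe, modelWithCornersSelf_coe_symm, Function.comp_id,
    Function.id_comp, preimage_id_eq, id_eq, range_id, inter_univ]
  rw [OpenPartialHomeomorph.coe_trans]
  have : ((chart k : RP n → _) ∘ (chart i).symm) = Φ k ∘ Ψ i := by
    funext y; rfl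
  rw [this]
  refine (contDiffOn_Φ k).comp (contDiff_Ψ i).contDiffOn ?_
  intro y hy
  rw [OpenPartialHomeomorph.trans_source] at hy
  exact hy.2

end Pool.Agent.Helper72.RP
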