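import Pool.Agent.Helper72.RP1

set_option autoImplicit false

open scoped Manifold ContDiff
open Set

namespace Pool.Agent.Helper72.RP

instance (n : ℕ) : T2Space (RP n) := isEmbedding_ι.t2Space

noncomputable def ofSphere {n : ℕ} (x : Metric.sphere (0 : V n) 1) : RP n :=
  ⟨outer x.1 x.1, x.1, by simp, rfl⟩

lemma continuous_ofSphere {n : ℕ} : Continuous (ofSphere (n := n)) := by
  rw [isEmbedding_ι.continuous_iff]
  exact contDiff_outer.continuous.comp continuous_subtype_val

lemma surjective_ofSphere {n : ℕ} : Function.Surjective (ofSphere (n := n)) := by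
  intro P
  obtain ⟨x, hx, hP⟩ := exists_unit P
  refine ⟨⟨x, by simpa using hx⟩, ?_⟩
  apply ι_injective
  rw [hP]; rfl

instance (n : ℕ) : CompactSpace (RP n) := by
  rw [← isCompact_univ_iff, ← surjective_ofSphere.range_eq]
  exact isCompact_range continuous_ofSphere

lemma connected {n : ℕ} (hn : 1 ≤ n) : ConnectedSpace (RP n) := by
  have h1 : 1 < Module.rank ℝ (V n) := by
    rw [← Module.finrank_eq_rank, finrank_euclideanSpace_fin]
    exact_mod_cast Nat.lt_succ_of_le hn
  have h2 : IsConnected (Metric.sphere (0 : V n) 1) := isConnected_sphere h1 0 zero_le_one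
  have : ConnectedSpace (Metric.sphere (0 : V n) 1) := isConnected_iff_connectedSpace.1 h2
  exact surjective_ofSphere.connectedSpace continuous_ofSphere

lemma contMDiff_ι {n : ℕ} : ContMDiff (𝓡 n) 𝓘(ℝ, W n) ∞ (ι : RP n → W n) := by
  intro P
  obtain ⟨i, hi⟩ := exists_coord P
  have h1 : ContMDiffOn (𝓡 n) (𝓡 n) ∞ (chart i) (chart (n := n) i).source :=
    contMDiffOn_of_mem_maximalAtlas (IsManifold.subset_maximalAtlas ⟨i, rfl⟩)
  have h2 : ContMDiff (𝓡 n) 𝓘(ℝ, W n) ∞ (Ψ (n := n) i) := (contDiff_Ψ i).contMDiff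
  have h3 : ContMDiffOn (𝓡 n) 𝓘(ℝ, W n) ∞ (Ψ i ∘ chart i) (chart (n := n) i).source :=
    h2.comp_contMDiffOn h1
  have h4 : (chart (n := n) i).source ∈ nhds P := (chart (n := n) i).open_source.mem_nhds hi
  refine (h3.contMDiffAt h4).congr_of_eventuallyEq ?_
  filter_upwards [h4] with Q hQ
  have : (chart i).symm (chart i Q) = Q := (chart (n := n) i).left_inv hQ
  conv_lhs => rw [← this]
  rw [ι_chart_symm]; rfl

lemma fderiv_Ψ_injective {n : ℕ} (i : Fin (n + 1)) (y : EuclideanSpace ℝ (Fin n)) :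
    Function.Injective (fderiv ℝ (Ψ i) y) := by
  have hmem : Ψ i y ∈ {A : W n | A (i, i) ≠ 0} := by
    change Ψ i y (i, i) ≠ 0
    simp only [Ψ, PiLp.smul_apply, outer_apply, smul_eq_mul, lift_same, mul_one]
    exact inv_ne_zero (norm_sq_lift_ne i y)
  have hΦ : DifferentiableAt ℝ (Φ i) (Ψ i y) :=
    ((contDiffOn_Φ i).contDiffAt ((isOpen_dom i).mem_nhds hmem)).differentiableAt (by simp)
  have hΨ : DifferentiableAt ℝ (Ψ i) y := (contDiff_Ψ i).differentiable (by simp) y
  have hcomp : Φ i ∘ Ψ i = (id : EuclideanSpace ℝ (Fin n) → _) := funext (Φ_Ψ i)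
  have h := fderiv_comp y hΦ hΨ
  rw [hcomp, fderiv_id] at h
  intro u v huv
  have h1 := congrArg (fun L => L u) h
  have h2 := congrArg (fun L => L v) h
  simp only [ContinuousLinearMap.coe_id', id_eq, ContinuousLinearMap.coe_comp,
    Function.comp_apply] at h1 h2
  rw [h1, h2, huv]

set_option backward.isDefEq.respectTransparency false in
lemma mfderiv_ι {n : ℕ} (P : RP n) : ∃ i, ι P (i, i) ≠ 0 ∧
    mfderiv (𝓡 n) 𝓘(ℝ, W n) ι P = fderiv ℝ (Ψ i) (chart i P) := by
  refine ⟨(exists_coord P).choose, (exists_coord P).choose_spec, ?_⟩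
  rw [(contMDiff_ι.mdifferentiable (by simp) P).mfderiv]
  have h : range (𝓡 n) = univ := by simp
  rw [h, fderivWithin_univ]
  rfl

set_option backward.isDefEq.respectTransparency false in
lemma mfderiv_ι_injective {n : ℕ} (P : RP n) :
    Function.Injective (mfderiv (𝓡 n) 𝓘(ℝ, W n) ι P) := by
  obtain ⟨i, -, h⟩ := mfderiv_ι P
  rw [h]
  exact fderiv_Ψ_injective i _

end Pool.Agent.Helper72.RP
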