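import Pool.Agent.Helper72.RP2

set_option autoImplicit false

open scoped Manifold ContDiff
open Set Bundle

namespace Pool.Agent.Helper72.RP

/-- pull back of the (half) Euclidean inner product by a linear map -/
noncomputable def pb {n : ℕ} (L : EuclideanSpace ℝ (Fin n) →L[ℝ] W n) :
    EuclideanSpace ℝ (Fin n) →L[ℝ] EuclideanSpace ℝ (Fin n) →L[ℝ] ℝ :=
  (2 : ℝ)⁻¹ • (innerSL ℝ : W n →L[ℝ] W n →L[ℝ] ℝ).bilinearComp L L

lemma pb_apply {n : ℕ} (L : EuclideanSpace ℝ (Fin n) →L[ℝ] W n) (u v : EuclideanSpace ℝ (Fin n)) :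
    pb L u v = (2 : ℝ)⁻¹ * inner ℝ (L u) (L v) := by
  simp [pb]

lemma contDiff_pb {n : ℕ} : ContDiff ℝ ∞ (pb (n := n)) := by
  rw [contDiff_clm_apply_iff]
  intro u
  rw [contDiff_clm_apply_iff]
  intro v
  simp only [pb_apply]
  have h1 : ContDiff ℝ ∞ (fun L : EuclideanSpace ℝ (Fin n) →L[ℝ] W n => L u) := by fun_prop
  have h2 : ContDiff ℝ ∞ (fun L : EuclideanSpace ℝ (Fin n) →L[ℝ] W n => L v) := by fun_prop
  exact contDiff_const.mul (h1.inner ℝ h2)

/-- derivative of ι as a map from the tangent space to the Euclidean space -/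
noncomputable def dι {n : ℕ} (P : RP n) : EuclideanSpace ℝ (Fin n) →L[ℝ] W n :=
  mfderiv (𝓡 n) 𝓘(ℝ, W n) ι P

lemma dι_injective {n : ℕ} (P : RP n) : Function.Injective (dι P) := mfderiv_ι_injective P

/-- the metric form -/
noncomputable def gform {n : ℕ} (P : RP n) :
    TangentSpace (𝓡 n) P →L[ℝ] TangentSpace (𝓡 n) P →L[ℝ] ℝ := pb (dι P)

set_option backward.isDefEq.respectTransparency false in
lemma gform_apply {n : ℕ} (P : RP n) (u v : TangentSpace (𝓡 n) P) :
    gform P u v = (2 : ℝ)⁻¹ * inner ℝ (dι P u) (dι P v) := pb_apply _ _ _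

set_option backward.isDefEq.respectTransparency false in
lemma contMDiff_gform {n : ℕ} : ContMDiff (𝓡 n)
    ((𝓡 n).prod 𝓘(ℝ, EuclideanSpace ℝ (Fin n) →L[ℝ] EuclideanSpace ℝ (Fin n) →L[ℝ] ℝ)) ∞
    (fun P : RP n => TotalSpace.mk' (EuclideanSpace ℝ (Fin n) →L[ℝ] EuclideanSpace ℝ (Fin n) →L[ℝ] ℝ)
      (E := fun P : RP n => TangentSpace (𝓡 n) P →L[ℝ] TangentSpace (𝓡 n) P →L[ℝ] ℝ)
      P (gform P)) := by
  intro P
  rw [contMDiffAt_section]
  have h := (contMDiff_ι (n := n) P).mfderiv_const (m := ∞) (by simp)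
  have h2 : ContMDiffAt (𝓡 n) 𝓘(ℝ, EuclideanSpace ℝ (Fin n) →L[ℝ] EuclideanSpace ℝ (Fin n) →L[ℝ] ℝ)
    ∞ (pb ∘ (inTangentCoordinates (𝓡 n) 𝓘(ℝ, W n) id ι (mfderiv (𝓡 n) 𝓘(ℝ, W n) ι) P)) P :=
    (contDiff_pb.contMDiff _).comp P h
  refine h2.congr_of_eventuallyEq ?_
  filter_upwards [(chartAt (EuclideanSpace ℝ (Fin n)) P).open_source.mem_nhds
    (mem_chart_source _ P)] with Q hQ
  ext u v
  simp only [hom_trivializationAt_apply, ContinuousLinearMap.inCoordinates, inTangentCoordinates, gform,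
    ContinuousLinearMap.coe_comp, Function.comp_apply, id_eq]
  have hQ' : Q ∈ (trivializationAt (EuclideanSpace ℝ (Fin n) →L[ℝ] ℝ)
    (fun x : RP n => TangentSpace (𝓡 n) x →L[ℝ] ℝ) P).baseSet := by
    simpa using hQ
  rw [Trivialization.continuousLinearMapAt_apply, Trivialization.linearMapAt_apply, if_pos hQ']
  simp [hom_trivializationAt_apply, ContinuousLinearMap.inCoordinates]
  erw [pb_apply]

lemma exists_bound {n : ℕ} (P : RP n) :
    ∃ K : NNReal, ∀ v : EuclideanSpace ℝ (Fin n), ‖v‖ ≤ K * ‖dι P v‖ := by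
  obtain ⟨K, -, hK⟩ := (LinearMap.injective_iff_antilipschitz (dι P).toLinearMap).1 (dι_injective P)
  exact ⟨K, fun v => by simpa using hK.le_mul_norm (map_zero _) v⟩

/-- The Riemannian metric on RP n. -/
noncomputable def metric (n : ℕ) : ContMDiffRiemannianMetric (𝓡 n) ∞ (EuclideanSpace ℝ (Fin n))
    (fun P : RP n => TangentSpace (𝓡 n) P) where
  inner P := gform P
  symm P v w := by
    rw [gform_apply, gform_apply, real_inner_comm]
  pos P v hv := by
    rw [gform_apply]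
    have : dι P v ≠ 0 := by
      intro h
      apply hv
      apply dι_injective P
      rw [h]; exact (map_zero (dι P)).symm
    have := real_inner_self_pos.2 this
    positivity
  isVonNBounded P := by
    obtain ⟨K, hK⟩ := exists_bound P
    have : {v : TangentSpace (𝓡 n) P | gform P v v < 1} ⊆
        (Metric.closedBall (0 : EuclideanSpace ℝ (Fin n)) (K * 2) : Set (EuclideanSpace ℝ (Fin n))) := by
      intro v hv
      have hv' : gform P v v < 1 := hv
      rw [gform_apply, real_inner_self_eq_norm_sq] at hv'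
      have h1 : ‖dι P v‖ ≤ 2 := by nlinarith [norm_nonneg (dι P v)]
      have h2 := hK v
      exact mem_closedBall_zero_iff.2 (h2.trans (by gcongr))
    exact (NormedSpace.isVonNBounded_closedBall ℝ (EuclideanSpace ℝ (Fin n)) (K * 2)).subset this
  contMDiff := contMDiff_gform

end Pool.Agent.Helper72.RP
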