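import Pool.Agent.Helper72.RP3

set_option autoImplicit false

open scoped Manifold ContDiff
open Set Bundle

namespace Pool.Agent.Helper72.RP

/-! ### linear algebra -/

lemma outer_add_left {n : ℕ} (x y z : V n) : outer (x + y) z = outer x z + outer y z := by
  ext p; simp [add_mul]
lemma outer_add_right {n : ℕ} (x y z : V n) : outer x (y + z) = outer x y + outer x z := by
  ext p; simp [mul_add]
lemma outer_smul_left {n : ℕ} (a : ℝ) (x y : V n) : outer (a • x) y = a • outer x y := by
  ext p; simp [mul_assoc]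
lemma outer_smul_right {n : ℕ} (a : ℝ) (x y : V n) : outer x (a • y) = a • outer x y := by
  ext p; simp; ring
lemma outer_neg_neg {n : ℕ} (x : V n) : outer (-x) (-x) = outer x x := by
  ext p; simp

/-- outer product as a continuous bilinear map -/
noncomputable def outerL (n : ℕ) : V n →L[ℝ] V n →L[ℝ] W n :=
  LinearMap.toContinuousLinearMap
    ((LinearMap.toContinuousLinearMap (E := V n) (F' := W n)).toLinearMap ∘ₗ
      (LinearMap.mk₂ ℝ (outer (n := n)) outer_add_left outer_smul_left outer_add_right
        outer_smul_right))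

@[simp] lemma outerL_apply {n : ℕ} (x y : V n) : outerL n x y = outer x y := rfl

/-- matrix times vector -/
noncomputable def mv {n : ℕ} (A : W n) (x : V n) : V n := WithLp.toLp 2 (fun i => ∑ j, A (i, j) * x j)

@[simp] lemma mv_apply {n : ℕ} (A : W n) (x : V n) (i : Fin (n + 1)) :
    mv A x i = ∑ j, A (i, j) * x j := rfl

lemma mv_outer {n : ℕ} (x y z : V n) : mv (outer x y) z = (inner ℝ y z) • x := by
  ext i
  simp only [mv_apply, outer_apply, PiLp.smul_apply, smul_eq_mul, inner_V, Finset.sum_mul]
  exact Finset.sum_congr rfl fun j _ => by ring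

/-- matrix times a fixed vector, as a continuous linear map -/
noncomputable def mvL {n : ℕ} (x : V n) : W n →L[ℝ] V n :=
  LinearMap.toContinuousLinearMap
    { toFun := fun A => mv A x
      map_add' := fun A B => by ext i; simp [add_mul, Finset.sum_add_distrib]
      map_smul' := fun a A => by ext i; simp [mul_assoc, Finset.mul_sum] }

@[simp] lemma mvL_apply {n : ℕ} (x : V n) (A : W n) : mvL x A = mv A x := rfl

lemma norm_sq_tangent {n : ℕ} (x w : V n) (hx : ‖x‖ = 1) (hw : inner ℝ x w = 0) :
    ‖outer x w + outer w x‖ ^ 2 = 2 * ‖w‖ ^ 2 := by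
  rw [← real_inner_self_eq_norm_sq]
  rw [inner_add_left, inner_add_right, inner_add_right, inner_outer, inner_outer, inner_outer,
    inner_outer, real_inner_self_eq_norm_sq, real_inner_self_eq_norm_sq, real_inner_comm x w, hw, hx]
  ring

/-- uniqueness of the unit vector up to sign -/
lemma outer_self_eq_iff {n : ℕ} {x y : V n} (hx : ‖x‖ = 1) (hy : ‖y‖ = 1) :
    outer x x = outer y y ↔ y = x ∨ y = -x := by
  constructor
  · intro h
    have h1 : mv (outer x x) x = mv (outer y y) x := by rw [h]
    rw [mv_outer, mv_outer, real_inner_self_eq_norm_sq, hx] at h1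
    have h2 : inner ℝ (outer x x) (outer x x) = inner ℝ (outer y y) (outer x x) := by rw [h]
    rw [inner_outer, inner_outer, real_inner_self_eq_norm_sq, hx] at h2
    have h3 : (inner ℝ y x - 1 : ℝ) * (inner ℝ y x + 1) = 0 := by nlinarith
    simp only [one_pow, one_smul] at h1
    rcases mul_eq_zero.1 h3 with h3 | h3
    · left
      have : (inner ℝ y x : ℝ) = 1 := by linarith
      rw [this, one_smul] at h1; exact h1.symm
    · right
      have : (inner ℝ y x : ℝ) = -1 := by linarith
      rw [this, neg_one_smul] at h1; rw [h1, neg_neg]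
  · rintro (rfl | rfl)
    · rfl
    · exact (outer_neg_neg x).symm

/-- description of the tangent vectors to curves in the Veronese variety -/
lemma tangent_form {n : ℕ} {γ : ℝ → RP n} {c' : W n} {s : Set ℝ} {t : ℝ}
    (ht : t ∈ s) (hs : UniqueDiffWithinAt ℝ s t)
    (hc : HasDerivWithinAt (fun r => ι (γ r)) c' s t) {x : V n} (hx : ‖x‖ = 1)
    (hP : ι (γ t) = outer x x) :
    ∃ w : V n, inner ℝ x w = 0 ∧ c' = outer x w + outer w x := by
  -- local lift
  set v : ℝ → V n := fun r => mv (ι (γ r)) x with hv
  have hvd : HasDerivWithinAt v (mv c' x) s t := by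
    have := (mvL x).hasFDerivAt.comp_hasDerivWithinAt t hc
    exact this
  have hvt : v t = x := by
    simp only [hv]; rw [hP, mv_outer, real_inner_self_eq_norm_sq, hx]; simp
  set z := mv c' x with hz
  -- formula near t
  have hform : ∀ᶠ r in nhdsWithin t s, ι (γ r) = (‖v r‖ ^ 2)⁻¹ • outer (v r) (v r) := by
    have h0 : ∀ᶠ r in nhdsWithin t s, v r ≠ 0 := by
      have : ContinuousWithinAt v s t := hvd.continuousWithinAt
      refine this.eventually_ne ?_
      rw [hvt]
      intro h; rw [h, norm_zero] at hx; exact zero_ne_one hx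
    filter_upwards [h0] with r hr
    obtain ⟨y, hy, hPy⟩ := exists_unit (γ r)
    have hvr : v r = (inner ℝ y x : ℝ) • y := by
      simp only [hv]; rw [hPy, mv_outer]
    have hyx : (inner ℝ y x : ℝ) ≠ 0 := by
      intro h; apply hr; rw [hvr, h, zero_smul]
    rw [hPy, hvr, outer_smul_left, outer_smul_right, norm_smul, hy, smul_smul, smul_smul,
      Real.norm_eq_abs, mul_one, sq_abs]
    have : ((inner ℝ y x : ℝ) ^ 2)⁻¹ * (inner ℝ y x : ℝ) * (inner ℝ y x : ℝ) = 1 := by
      field_simp
    rw [this, one_smul]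
  have hder : HasDerivWithinAt (fun r => (‖v r‖ ^ 2)⁻¹ • outer (v r) (v r))
      ((-(2 * inner ℝ x z)) • outer x x + (outer x z + outer z x)) s t := by
    have h1 : HasDerivWithinAt (fun r => ‖v r‖ ^ 2) (2 * inner ℝ (v t) z) s t := hvd.norm_sq
    have h2 : HasDerivWithinAt (fun r => (‖v r‖ ^ 2)⁻¹) (-(2 * inner ℝ (v t) z) / (‖v t‖ ^ 2) ^ 2) s t := by
      refine h1.inv ?_
      rw [hvt, hx]; norm_num
    have h3 : HasDerivWithinAt (fun r => outerL n (v r) (v r)) (outerL n z (v t) + outerL n (v t) z) s t := by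
      have h4 : HasDerivWithinAt (fun r => outerL n (v r)) (outerL n z) s t :=
        (outerL n).hasFDerivAt.comp_hasDerivWithinAt t hvd
      exact h4.clm_apply hvd
    have h5 := h2.smul h3
    have h6 : ((-(2 * inner ℝ x z)) • outer x x + (outer x z + outer z x)) =
      ((‖v t‖ ^ 2)⁻¹ • (((outerL n) z) (v t) + ((outerL n) (v t)) z) +
      (-(2 * inner ℝ (v t) z) / (‖v t‖ ^ 2) ^ 2) • ((outerL n) (v t)) (v t)) := by
      rw [hvt, hx]
      simp only [outerL_apply]
      ext p
      simp only [PiLp.add_apply, PiLp.smul_apply, outer_apply, smul_eq_mul]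
      ring
    rw [h6]
    exact h5
  have hder2 : HasDerivWithinAt (fun r => ι (γ r))
      ((-(2 * inner ℝ x z)) • outer x x + (outer x z + outer z x)) s t := by
    refine hder.congr_of_eventuallyEq hform ?_
    exact hform.self_of_nhdsWithin ht
  have heq := hs.eq_deriv s hc hder2
  refine ⟨z - (inner ℝ x z : ℝ) • x, ?_, ?_⟩
  · rw [inner_sub_right, inner_smul_right, real_inner_self_eq_norm_sq, hx]; ring
  · rw [heq]
    ext p
    simp only [PiLp.add_apply, PiLp.smul_apply, outer_apply, PiLp.sub_apply, smul_eq_mul]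
    ring

end Pool.Agent.Helper72.RP
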