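import Pool.Agent.Helper72.RP4

set_option autoImplicit false

open scoped Manifold ContDiff
open Set Bundle

namespace Pool.Agent.Helper72.RP

noncomputable instance instRB (n : ℕ) : RiemannianBundle (fun P : RP n => TangentSpace (𝓡 n) P) :=
  ⟨(metric n).toRiemannianMetric⟩

instance instCRB (n : ℕ) : IsContMDiffRiemannianBundle (𝓡 n) ∞ (EuclideanSpace ℝ (Fin n))
    (fun P : RP n => TangentSpace (𝓡 n) P) := by
  unfold instRB
  infer_instance

lemma inner_tangent {n : ℕ} (P : RP n) (u v : TangentSpace (𝓡 n) P) :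
    inner ℝ u v = gform P u v := rfl

lemma norm_sq_tangent' {n : ℕ} (P : RP n) (u : TangentSpace (𝓡 n) P) :
    ‖u‖ ^ 2 = 2⁻¹ * ‖dι P u‖ ^ 2 := by
  rw [← real_inner_self_eq_norm_sq, inner_tangent, gform_apply, real_inner_self_eq_norm_sq]

lemma norm_dι {n : ℕ} (P : RP n) (u : TangentSpace (𝓡 n) P) :
    ‖dι P u‖ ^ 2 = 2 * ‖u‖ ^ 2 := by
  rw [norm_sq_tangent']; ring

/-- differentiability into RP n is tested in the ambient space -/
lemma contMDiffOn_of_ι {n : ℕ} {k : ℕ∞ω} (hk : k ≤ ∞) {γ : ℝ → RP n} {s : Set ℝ}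
    (h : ContDiffOn ℝ k (fun t => ι (γ t)) s) : ContMDiffOn 𝓘(ℝ, ℝ) (𝓡 n) k γ s := by
  have hM : IsManifold (𝓡 n) k (RP n) := IsManifold.of_le hk
  intro t ht
  obtain ⟨i, hi⟩ := chartAt_eq (γ t)
  have hsrc : γ t ∈ (chartAt (EuclideanSpace ℝ (Fin n)) (γ t)).source := mem_chart_source _ _
  rw [contMDiffWithinAt_iff_target_of_mem_source (y := γ t) hsrc]
  constructor
  · rw [isEmbedding_ι.continuousWithinAt_iff]
    exact (h t ht).continuousWithinAt
  · rw [contMDiffWithinAt_iff_contDiffWithinAt]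
    have h1 : ((extChartAt (𝓡 n) (γ t)) ∘ γ) = fun r => Φ i (ι (γ r)) := by
      funext r
      simp only [Function.comp_apply, extChartAt, OpenPartialHomeomorph.extend_coe, hi]
      rfl
    rw [h1]
    rw [hi] at hsrc
    have h2 : ContDiffAt ℝ k (Φ i) (ι (γ t)) :=
      ((contDiffOn_Φ i).contDiffAt ((isOpen_dom i).mem_nhds hsrc)).of_le hk
    have h3 : ContDiffWithinAt ℝ k ((Φ i) ∘ (fun r => ι (γ r))) s t :=
      ContDiffAt.comp_contDiffWithinAt t h2 (h t ht)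
    exact h3

lemma contDiffOn_ι {n : ℕ} {k : ℕ∞ω} (hk : k ≤ ∞) {γ : ℝ → RP n} {s : Set ℝ}
    (h : ContMDiffOn 𝓘(ℝ, ℝ) (𝓡 n) k γ s) : ContDiffOn ℝ k (fun t => ι (γ t)) s := by
  rw [← contMDiffOn_iff_contDiffOn]
  exact (contMDiff_ι.of_le hk).comp_contMDiffOn h

set_option backward.isDefEq.respectTransparency false in
lemma dι_mfderivWithin {n : ℕ} {γ : ℝ → RP n} {s : Set ℝ} {t : ℝ}
    (h : MDifferentiableWithinAt 𝓘(ℝ, ℝ) (𝓡 n) γ s t) :
    HasDerivWithinAt (fun r => ι (γ r)) (dι (γ t) (mfderivWithin 𝓘(ℝ, ℝ) (𝓡 n) γ s t (1 : ℝ))) s t := by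
  have h1 : HasMFDerivWithinAt 𝓘(ℝ, ℝ) (𝓡 n) γ s t (mfderivWithin 𝓘(ℝ, ℝ) (𝓡 n) γ s t) :=
    h.hasMFDerivWithinAt
  have h2 : HasMFDerivAt (𝓡 n) 𝓘(ℝ, W n) ι (γ t) (mfderiv (𝓡 n) 𝓘(ℝ, W n) ι (γ t)) :=
    (contMDiff_ι.mdifferentiable (by simp) (γ t)).hasMFDerivAt
  have h3 := h2.comp_hasMFDerivWithinAt t h1
  have h4 := h3.hasFDerivWithinAt
  have h5 := h4.hasDerivWithinAt
  exact h5

/-- lower bound for the derivative of the angle function -/
lemma key_ineq {n : ℕ} (x y w : V n) (hx : ‖x‖ = 1) (hy : ‖y‖ = 1) (hw : inner ℝ x w = 0) :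
    (inner ℝ (outer y y) (outer x w + outer w x)) ^ 2 ≤
      4 * ((inner ℝ x y) ^ 2 * (1 - (inner ℝ x y) ^ 2)) * ‖w‖ ^ 2 := by
  rw [inner_add_right, inner_outer, inner_outer]
  have h1 : (inner ℝ y w : ℝ) = inner ℝ (y - (inner ℝ x y : ℝ) • x) w := by
    rw [inner_sub_left, inner_smul_left, hw]; simp
  have h2 : ‖y - (inner ℝ x y : ℝ) • x‖ ^ 2 = 1 - (inner ℝ x y) ^ 2 := by
    rw [← real_inner_self_eq_norm_sq]
    simp only [inner_sub_left, inner_sub_right, inner_smul_left, inner_smul_right,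
      real_inner_self_eq_norm_sq, hx, hy, real_inner_comm x y]
    simp
    ring
  have h3 : (inner ℝ y w : ℝ) ^ 2 ≤ (1 - (inner ℝ x y) ^ 2) * ‖w‖ ^ 2 := by
    rw [← h2, h1, ← mul_pow]
    apply sq_le_sq'
    · exact neg_le_of_abs_le (abs_real_inner_le_norm _ _)
    · exact le_of_abs_le (abs_real_inner_le_norm _ _)
  have h4 : (inner ℝ y x * inner ℝ y w + inner ℝ y w * inner ℝ y x : ℝ) ^ 2 =
    4 * (inner ℝ x y) ^ 2 * (inner ℝ y w) ^ 2 := by rw [real_inner_comm x y]; ring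
  rw [h4]
  have : 0 ≤ 4 * (inner ℝ x y : ℝ) ^ 2 := by positivity
  nlinarith [mul_le_mul_of_nonneg_left h3 this]

/-- the Riemannian distance is at least the angle -/
lemma angle_le_edist {n : ℕ} (P Q : RP n) :
    ENNReal.ofReal (Real.arccos (√(inner ℝ (ι P) (ι Q)))) ≤ Manifold.riemannianEDist (𝓡 n) P Q := by
  refine le_of_forall_gt fun r hr => ?_
  obtain ⟨γ, h0, h1, hγ, hlen⟩ := Manifold.exists_lt_of_riemannianEDist_lt hr
  refine lt_of_le_of_lt ?_ hlen
  have hle1 : (1 : ℕ∞ω) ≤ ∞ := by exact_mod_cast le_top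
  have hc : ContDiffOn ℝ 1 (fun t => ι (γ t)) (Icc 0 1) := contDiffOn_ι hle1 hγ
  set f : ℝ → ℝ := fun t => inner ℝ (ι P) (ι (γ t)) with hf
  have hfC : ContDiffOn ℝ 1 f (Icc 0 1) := contDiffOn_const.inner ℝ hc
  obtain ⟨y, hy, hPy⟩ := exists_unit P
  have hf01 : ∀ t, 0 ≤ f t ∧ f t ≤ 1 := by
    intro t
    obtain ⟨x, hx, hQx⟩ := exists_unit (γ t)
    have : f t = (inner ℝ y x) ^ 2 := by
      simp only [hf]; rw [hPy, hQx, inner_outer]; ring
    rw [this]
    refine ⟨sq_nonneg _, ?_⟩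
    have h1 := abs_real_inner_le_norm y x
    rw [hx, hy, mul_one] at h1
    rw [← sq_abs]
    nlinarith [abs_nonneg (inner ℝ y x : ℝ)]
  -- it suffices to bound the regularised angle
  have key : ∀ ε : ℝ, 0 < ε → ENNReal.ofReal
      (Real.arccos (√((f 1 + ε) / (1 + 2 * ε))) - Real.arccos (√((f 0 + ε) / (1 + 2 * ε)))) ≤
      Manifold.pathELength (𝓡 n) γ 0 1 := by
    intro ε hε
    set h : ℝ → ℝ := fun t => Real.arccos (√((f t + ε) / (1 + 2 * ε))) with hh
    have hu : ∀ t, 0 < (f t + ε) / (1 + 2 * ε) ∧ (f t + ε) / (1 + 2 * ε) < 1 := by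
      intro t
      have := hf01 t
      constructor
      · have : 0 < f t + ε := by linarith
        positivity
      · rw [div_lt_one (by positivity)]; linarith
    have hsq : ∀ t, √((f t + ε) / (1 + 2 * ε)) ≠ 1 ∧ √((f t + ε) / (1 + 2 * ε)) ≠ -1 := by
      intro t
      have h1 : √((f t + ε) / (1 + 2 * ε)) < 1 := by
        rw [Real.sqrt_lt' one_pos]; simpa using (hu t).2
      have h2 := Real.sqrt_nonneg ((f t + ε) / (1 + 2 * ε))
      exact ⟨h1.ne, by linarith⟩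
    have hhC : ContDiffOn ℝ 1 h (Icc 0 1) := by
      intro t ht
      have h1 : ContDiffWithinAt ℝ 1 (fun t => √((f t + ε) / (1 + 2 * ε))) (Icc 0 1) t := by
        refine ContDiffWithinAt.sqrt ?_ (hu t).1.ne'
        exact ((hfC t ht).add contDiffWithinAt_const).div_const _
      exact ContDiffAt.comp_contDiffWithinAt (g := Real.arccos)
        (f := fun t => √((f t + ε) / (1 + 2 * ε))) t (Real.contDiffAt_arccos (hsq t).2 (hsq t).1) h1
    have hstep : ‖h 1 - h 0‖ₑ ≤ ∫⁻ t in Icc (0 : ℝ) 1, ‖derivWithin h (Icc 0 1) t‖ₑ :=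
      enorm_sub_le_lintegral_derivWithin_Icc_of_contDiffOn_Icc hhC zero_le_one
    have h2 : ENNReal.ofReal (h 1 - h 0) ≤ ‖h 1 - h 0‖ₑ := by
      rw [Real.enorm_eq_ofReal_abs]
      exact ENNReal.ofReal_le_ofReal (le_abs_self _)
    refine (h2.trans hstep).trans ?_
    rw [Manifold.pathELength_eq_lintegral_mfderivWithin_Icc]
    refine MeasureTheory.setLIntegral_mono' measurableSet_Icc fun t ht => ?_
    -- pointwise bound
    have hud : UniqueDiffWithinAt ℝ (Icc (0 : ℝ) 1) t := uniqueDiffOn_Icc zero_lt_one t ht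
    have hmd : MDifferentiableWithinAt 𝓘(ℝ, ℝ) (𝓡 n) γ (Icc 0 1) t :=
      (hγ t ht).mdifferentiableWithinAt one_ne_zero
    set u := mfderivWithin 𝓘(ℝ, ℝ) (𝓡 n) γ (Icc 0 1) t (1 : ℝ) with hudef
    have hder := dι_mfderivWithin hmd
    obtain ⟨x, hx, hQx⟩ := exists_unit (γ t)
    obtain ⟨w, hxw, hw⟩ := tangent_form ht hud hder hx hQx
    have hu2 : ‖u‖ ^ 2 = ‖w‖ ^ 2 := by
      rw [norm_sq_tangent']
      change 2⁻¹ * ‖dι (γ t) (mfderivWithin 𝓘(ℝ, ℝ) (𝓡 n) γ (Icc 0 1) t (1 : ℝ))‖ ^ 2 = _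
      rw [hw, norm_sq_tangent x w hx hxw]; ring
    have hu3 : ‖u‖ = ‖w‖ := by
      have := (sq_eq_sq₀ (norm_nonneg u) (norm_nonneg w)).1 hu2
      exact this
    have hfd : HasDerivWithinAt f (inner ℝ (ι P) (outer x w + outer w x)) (Icc 0 1) t := by
      have h3 := (hasDerivWithinAt_const t (Icc (0 : ℝ) 1) (ι P)).inner ℝ hder
      simp only [inner_zero_left, add_zero] at h3
      rw [← hw]
      exact h3
    set f' := inner ℝ (ι P) (outer x w + outer w x) with hf'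
    have hft : f t = (inner ℝ x y) ^ 2 := by
      simp only [hf]; rw [hPy, hQx, inner_outer, real_inner_comm x y]; ring
    have hf'2 : f' ^ 2 ≤ 4 * (f t * (1 - f t)) * ‖w‖ ^ 2 := by
      rw [hf', hPy, hft]
      exact key_ineq x y w hx hy hxw
    have hhd : HasDerivWithinAt h (-(1 / √(1 - √((f t + ε) / (1 + 2 * ε)) ^ 2)) *
        ((f' / (1 + 2 * ε)) / (2 * √((f t + ε) / (1 + 2 * ε))))) (Icc 0 1) t := by
      have h3 : HasDerivWithinAt (fun t => (f t + ε) / (1 + 2 * ε)) (f' / (1 + 2 * ε)) (Icc 0 1) t :=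
        (hfd.add_const ε).div_const _
      have h4 := h3.sqrt (hu t).1.ne'
      exact HasDerivAt.comp_hasDerivWithinAt (h₂ := Real.arccos)
        (h := fun t => √((f t + ε) / (1 + 2 * ε))) t (Real.hasDerivAt_arccos (hsq t).2 (hsq t).1) h4
    rw [hhd.derivWithin hud]
    have hfin : ‖-(1 / √(1 - √((f t + ε) / (1 + 2 * ε)) ^ 2)) *
        ((f' / (1 + 2 * ε)) / (2 * √((f t + ε) / (1 + 2 * ε))))‖ ≤ ‖w‖ := by
      rw [Real.norm_eq_abs]
      apply abs_le_of_sq_le_sq _ (norm_nonneg w)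
      have hu' := hu t
      have h01 := hf01 t
      rw [mul_pow, neg_sq, div_pow, div_pow, one_pow, mul_pow, Real.sq_sqrt hu'.1.le,
        Real.sq_sqrt (by linarith [hu'.2]), div_pow]
      have e1 : 1 - (f t + ε) / (1 + 2 * ε) = (1 - f t + ε) / (1 + 2 * ε) := by
        field_simp; ring
      rw [e1]
      have p1 : 0 < f t + ε := by linarith
      have p2 : 0 < 1 - f t + ε := by linarith
      have p3 : 0 < 1 + 2 * ε := by linarith
      have e2 : 1 / ((1 - f t + ε) / (1 + 2 * ε)) * (f' ^ 2 / (1 + 2 * ε) ^ 2 /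
          (2 ^ 2 * ((f t + ε) / (1 + 2 * ε)))) = f' ^ 2 / (4 * ((f t + ε) * (1 - f t + ε))) := by
        field_simp
        ring
      rw [e2, div_le_iff₀ (by positivity)]
      refine hf'2.trans ?_
      have : f t * (1 - f t) ≤ (f t + ε) * (1 - f t + ε) := by nlinarith
      have hw0 : 0 ≤ ‖w‖ ^ 2 := by positivity
      nlinarith [mul_le_mul_of_nonneg_right this hw0]
    calc _ ≤ ENNReal.ofReal ‖w‖ := by
          rw [← ofReal_norm]; exact ENNReal.ofReal_le_ofReal hfin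
      _ = ENNReal.ofReal ‖u‖ := by rw [hu3]
      _ = _ := ofReal_norm _
  -- let ε tend to zero
  have hlim : Filter.Tendsto (fun ε : ℝ => ENNReal.ofReal
      (Real.arccos (√((f 1 + ε) / (1 + 2 * ε))) - Real.arccos (√((f 0 + ε) / (1 + 2 * ε)))))
      (nhdsWithin 0 (Ioi 0)) (nhds (ENNReal.ofReal (Real.arccos (√(f 1)) - Real.arccos (√(f 0))))) := by
    apply tendsto_nhdsWithin_of_tendsto_nhds
    have hc : ContinuousAt (fun ε : ℝ => ENNReal.ofReal
      (Real.arccos (√((f 1 + ε) / (1 + 2 * ε))) - Real.arccos (√((f 0 + ε) / (1 + 2 * ε))))) 0 := by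
      refine ENNReal.continuous_ofReal.continuousAt.comp ?_
      refine ContinuousAt.sub ?_ ?_
      · refine Real.continuous_arccos.continuousAt.comp (Real.continuous_sqrt.continuousAt.comp ?_)
        refine ContinuousAt.div (by fun_prop) (by fun_prop) (by norm_num)
      · refine Real.continuous_arccos.continuousAt.comp (Real.continuous_sqrt.continuousAt.comp ?_)
        refine ContinuousAt.div (by fun_prop) (by fun_prop) (by norm_num)
    have := hc.tendsto
    simpa using this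
  have hfinal : ENNReal.ofReal (Real.arccos (√(f 1)) - Real.arccos (√(f 0))) ≤
      Manifold.pathELength (𝓡 n) γ 0 1 := by
    refine le_of_tendsto hlim ?_
    filter_upwards [self_mem_nhdsWithin] with ε hε using key ε hε
  have hf0 : f 0 = 1 := by
    simp only [hf]; rw [h0, hPy, inner_outer, real_inner_self_eq_norm_sq, hy]; norm_num
  have hf1 : f 1 = inner ℝ (ι P) (ι Q) := by simp only [hf]; rw [h1]
  rw [hf0, hf1, Real.sqrt_one, Real.arccos_one, sub_zero] at hfinal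
  exact hfinal

end Pool.Agent.Helper72.RP
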