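import Pool.Agent.Helper72.RP5

set_option autoImplicit false

open scoped Manifold ContDiff
open Set Bundle

namespace Pool.Agent.Helper72.RP

/-- the point spanned by a unit vector -/
noncomputable def pt {n : ℕ} (u : V n) (hu : ‖u‖ = 1) : RP n := ⟨outer u u, u, hu, rfl⟩

@[simp] lemma ι_pt {n : ℕ} (u : V n) (hu : ‖u‖ = 1) : ι (pt u hu) = outer u u := rfl

/-- great circle -/
noncomputable def gc {n : ℕ} (x w : V n) (t : ℝ) : V n := Real.cos t • x + Real.sin t • w

lemma inner_gc {n : ℕ} {x w : V n} (hx : ‖x‖ = 1) (hw : ‖w‖ = 1) (hxw : inner ℝ x w = 0)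
    (s t : ℝ) : inner ℝ (gc x w s) (gc x w t) = Real.cos (s - t) := by
  simp only [gc, inner_add_left, inner_add_right, inner_smul_left, inner_smul_right,
    real_inner_self_eq_norm_sq, hx, hw, real_inner_comm x w, hxw, Real.cos_sub]
  simp
  ring

lemma norm_gc {n : ℕ} {x w : V n} (hx : ‖x‖ = 1) (hw : ‖w‖ = 1) (hxw : inner ℝ x w = 0)
    (t : ℝ) : ‖gc x w t‖ = 1 := by
  have := inner_gc hx hw hxw t t
  rw [real_inner_self_eq_norm_sq, sub_self, Real.cos_zero] at this
  nlinarith [norm_nonneg (gc x w t)]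

lemma gc_zero {n : ℕ} (x w : V n) : gc x w 0 = x := by simp [gc]

lemma hasDerivAt_gc {n : ℕ} (x w : V n) (t : ℝ) :
    HasDerivAt (gc x w) (-Real.sin t • x + Real.cos t • w) t := by
  exact ((Real.hasDerivAt_cos t).smul_const x).add ((Real.hasDerivAt_sin t).smul_const w)

lemma contDiff_gc {n : ℕ} (x w : V n) : ContDiff ℝ ∞ (gc x w) := by
  unfold gc
  exact (Real.contDiff_cos.smul contDiff_const).add (Real.contDiff_sin.smul contDiff_const)

lemma hasDerivAt_outer_gc {n : ℕ} (x w : V n) (t : ℝ) :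
    HasDerivAt (fun t => outer (gc x w t) (gc x w t))
      (outer (gc x w t) (-Real.sin t • x + Real.cos t • w) +
        outer (-Real.sin t • x + Real.cos t • w) (gc x w t)) t := by
  have h := hasDerivAt_gc x w t
  have h4 : HasDerivAt (fun r => outerL n (gc x w r)) (outerL n (-Real.sin t • x + Real.cos t • w)) t :=
    (outerL n).hasFDerivAt.comp_hasDerivAt t h
  have h5 := h4.clm_apply h
  have h6 : outer (gc x w t) (-Real.sin t • x + Real.cos t • w) +
        outer (-Real.sin t • x + Real.cos t • w) (gc x w t) =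
        (((outerL n) (-Real.sin t • x + Real.cos t • w)) (gc x w t) +
      ((outerL n) (gc x w t)) (-Real.sin t • x + Real.cos t • w)) := by
    simp only [outerL_apply]
    exact add_comm _ _
  rw [h6]
  exact h5

/-- the projective line -/
noncomputable def pl {n : ℕ} {x w : V n} (hx : ‖x‖ = 1) (hw : ‖w‖ = 1) (hxw : inner ℝ x w = 0)
    (t : ℝ) : RP n := pt (gc x w t) (norm_gc hx hw hxw t)

lemma ι_pl {n : ℕ} {x w : V n} (hx : ‖x‖ = 1) (hw : ‖w‖ = 1) (hxw : inner ℝ x w = 0)
    (t : ℝ) : ι (pl hx hw hxw t) = outer (gc x w t) (gc x w t) := rfl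

lemma contMDiffOn_pl {n : ℕ} {x w : V n} (hx : ‖x‖ = 1) (hw : ‖w‖ = 1) (hxw : inner ℝ x w = 0)
    (s : Set ℝ) : ContMDiffOn 𝓘(ℝ, ℝ) (𝓡 n) ∞ (pl hx hw hxw) s := by
  apply contMDiffOn_of_ι le_rfl
  exact (contDiff_outer.comp (contDiff_gc x w)).contDiffOn

lemma edist_pl_le {n : ℕ} {x w : V n} (hx : ‖x‖ = 1) (hw : ‖w‖ = 1) (hxw : inner ℝ x w = 0)
    {a b : ℝ} (hab : a ≤ b) :
    Manifold.riemannianEDist (𝓡 n) (pl hx hw hxw a) (pl hx hw hxw b) ≤ ENNReal.ofReal (b - a) := by
  have hle1 : (1 : ℕ∞ω) ≤ ∞ := by exact_mod_cast le_top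
  rcases hab.eq_or_lt with rfl | hab
  · rw [Manifold.riemannianEDist_self]; exact zero_le
  have h1 := Manifold.riemannianEDist_le_pathELength (I := 𝓡 n) (a := a) (b := b)
    ((contMDiffOn_pl hx hw hxw (Icc a b)).of_le hle1) rfl rfl hab.le
  refine h1.trans ?_
  rw [Manifold.pathELength_eq_lintegral_mfderivWithin_Icc]
  calc _ ≤ ∫⁻ t in Icc a b, 1 := by
        refine MeasureTheory.setLIntegral_mono' measurableSet_Icc fun t ht => ?_
        have hud : UniqueDiffWithinAt ℝ (Icc a b) t := uniqueDiffOn_Icc hab t ht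
        have hmd : MDifferentiableWithinAt 𝓘(ℝ, ℝ) (𝓡 n) (pl hx hw hxw) (Icc a b) t :=
          (contMDiffOn_pl hx hw hxw (Icc a b) t ht).mdifferentiableWithinAt (by simp)
        have hder := dι_mfderivWithin hmd
        have hder2 := (hasDerivAt_outer_gc x w t).hasDerivWithinAt (s := Icc a b)
        have heq := hud.eq_deriv _ hder hder2
        set u := mfderivWithin 𝓘(ℝ, ℝ) (𝓡 n) (pl hx hw hxw) (Icc a b) t (1 : ℝ) with hudef
        have h3 : ‖u‖ ^ 2 = 1 := by
          rw [norm_sq_tangent']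
          change 2⁻¹ * ‖dι (pl hx hw hxw t) (mfderivWithin 𝓘(ℝ, ℝ) (𝓡 n) (pl hx hw hxw) (Icc a b) t (1 : ℝ))‖ ^ 2 = _
          rw [heq, norm_sq_tangent _ _ (norm_gc hx hw hxw t)]
          · rw [← real_inner_self_eq_norm_sq]
            simp only [inner_add_left, inner_add_right, inner_smul_left, inner_smul_right,
              real_inner_self_eq_norm_sq, hx, hw, real_inner_comm x w, hxw]
            simp
            nlinarith [Real.sin_sq_add_cos_sq t]
          · simp only [gc, inner_add_left, inner_add_right, inner_smul_left, inner_smul_right,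
              real_inner_self_eq_norm_sq, hx, hw, real_inner_comm x w, hxw]
            simp
            ring
        have h4 : ‖u‖ = 1 := by nlinarith [norm_nonneg u]
        calc ‖u‖ₑ = ENNReal.ofReal ‖u‖ := (ofReal_norm _).symm
          _ ≤ 1 := by rw [h4]; simp
    _ = ENNReal.ofReal (b - a) := by simp

/-- the distance formula -/
theorem edist_formula {n : ℕ} (P Q : RP n) :
    Manifold.riemannianEDist (𝓡 n) P Q = ENNReal.ofReal (Real.arccos (√(inner ℝ (ι P) (ι Q)))) := by
  apply le_antisymm _ (angle_le_edist P Q)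
  obtain ⟨x, hx, hPx⟩ := exists_unit P
  obtain ⟨y, hy, hQy, hxy⟩ : ∃ y : V n, ‖y‖ = 1 ∧ ι Q = outer y y ∧ 0 ≤ (inner ℝ x y : ℝ) := by
    obtain ⟨y, hy, hQy⟩ := exists_unit Q
    rcases le_total 0 (inner ℝ x y : ℝ) with h | h
    · exact ⟨y, hy, hQy, h⟩
    · refine ⟨-y, by rwa [norm_neg], by rw [outer_neg_neg]; exact hQy, ?_⟩
      rw [inner_neg_right]; linarith
  have h1 : (inner ℝ (ι P) (ι Q) : ℝ) = (inner ℝ x y) ^ 2 := by
    rw [hPx, hQy, inner_outer]; ring
  rw [h1, Real.sqrt_sq hxy]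
  have hle : (inner ℝ x y : ℝ) ≤ 1 := by
    have := real_inner_le_norm x y
    rwa [hx, hy, mul_one] at this
  set θ := Real.arccos (inner ℝ x y) with hθ
  have hcos : Real.cos θ = inner ℝ x y := Real.cos_arccos (by linarith) hle
  rcases hle.eq_or_lt with h | h
  · have : x = y := (inner_eq_one_iff_of_norm_eq_one hx hy).1 h
    have hPQ : P = Q := by apply ι_injective; rw [hPx, hQy, this]
    rw [hPQ, Manifold.riemannianEDist_self]; exact zero_le
  · have hsin : 0 < Real.sin θ := by
      rw [hθ, Real.sin_arccos]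
      apply Real.sqrt_pos.2
      nlinarith
    set w : V n := (Real.sin θ)⁻¹ • (y - Real.cos θ • x) with hw
    have hxw : inner ℝ x w = 0 := by
      rw [hw, inner_smul_right, inner_sub_right, inner_smul_right, real_inner_self_eq_norm_sq, hx,
        hcos]
      simp
    have hwn : ‖w‖ = 1 := by
      have h2 : ‖y - Real.cos θ • x‖ ^ 2 = Real.sin θ ^ 2 := by
        rw [← real_inner_self_eq_norm_sq]
        simp only [inner_sub_left, inner_sub_right, inner_smul_left, inner_smul_right,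
          real_inner_self_eq_norm_sq, hx, hy, real_inner_comm x y, ← hcos]
        simp
        nlinarith [Real.sin_sq_add_cos_sq θ]
      have h3 : ‖y - Real.cos θ • x‖ = Real.sin θ := (sq_eq_sq₀ (norm_nonneg _) hsin.le).1 h2
      rw [hw, norm_smul, h3, norm_inv, Real.norm_eq_abs, abs_of_pos hsin, inv_mul_cancel₀ hsin.ne']
    have hy' : gc x w θ = y := by
      rw [gc, hw, smul_smul, mul_inv_cancel₀ hsin.ne', one_smul]; abel
    have hP : P = pl hx hwn hxw 0 := by
      apply ι_injective; rw [ι_pl, gc_zero, hPx]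
    have hQ : Q = pl hx hwn hxw θ := by
      apply ι_injective; rw [ι_pl, hy', hQy]
    have := edist_pl_le hx hwn hxw (Real.arccos_nonneg (inner ℝ x y))
    rw [← hθ, sub_zero, ← hP, ← hQ] at this
    exact this

end Pool.Agent.Helper72.RP
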