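import Pool.Agent.Helper72.RP6

set_option autoImplicit false

open scoped Manifold ContDiff
open Set Bundle

namespace Pool.Agent.Helper72.RP

/-- `gc` from another base time -/
lemma gc_add {n : ℕ} (x w : V n) (a d : ℝ) :
    gc x w (a + d) = Real.cos d • gc x w a + Real.sin d • (-Real.sin a • x + Real.cos a • w) := by
  simp only [gc, Real.cos_add, Real.sin_add]
  module

lemma local_form {n : ℕ} {x w : V n} (hx : ‖x‖ = 1) (hw : ‖w‖ = 1) (hxw : inner ℝ x w = 0)
    {a b s : ℝ} (hab : a < b) (hab' : b - a < Real.pi / 2) (hsa : |s - a| < Real.pi / 2)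
    (hsb : |s - b| < Real.pi / 2) (P : RP n)
    (h1 : inner ℝ (ι P) (outer (gc x w a) (gc x w a)) = Real.cos (s - a) ^ 2)
    (h2 : inner ℝ (ι P) (outer (gc x w b) (gc x w b)) = Real.cos (s - b) ^ 2) :
    ι P = outer (gc x w s) (gc x w s) := by
  have hcsa : 0 < Real.cos (s - a) := Real.cos_pos_of_mem_Ioo ⟨(abs_lt.1 hsa).1, (abs_lt.1 hsa).2⟩
  have hcsb : 0 < Real.cos (s - b) := Real.cos_pos_of_mem_Ioo ⟨(abs_lt.1 hsb).1, (abs_lt.1 hsb).2⟩
  have hcab : 0 < Real.cos (b - a) := Real.cos_pos_of_mem_Ioo ⟨by linarith [Real.pi_pos], hab'⟩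
  have hsab : 0 < Real.sin (b - a) := Real.sin_pos_of_pos_of_lt_pi (by linarith) (by linarith [Real.pi_pos])
  obtain ⟨y, hy, hPy, hya⟩ : ∃ y : V n, ‖y‖ = 1 ∧ ι P = outer y y ∧
      (inner ℝ y (gc x w a) : ℝ) = Real.cos (s - a) := by
    obtain ⟨y, hy, hPy⟩ := exists_unit P
    rw [hPy, inner_outer, ← sq] at h1
    rcases sq_eq_sq_iff_eq_or_eq_neg.1 h1 with h | h
    · exact ⟨y, hy, hPy, h⟩
    · refine ⟨-y, by rwa [norm_neg], by rw [outer_neg_neg]; exact hPy, ?_⟩
      rw [inner_neg_left, h, neg_neg]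
  set g := gc x w a with hg
  set g' : V n := -Real.sin a • x + Real.cos a • w with hg'
  have hgn : ‖g‖ = 1 := norm_gc hx hw hxw a
  have hgg' : (inner ℝ g g' : ℝ) = 0 := by
    simp only [hg, hg', gc, inner_add_left, inner_add_right, inner_smul_left, inner_smul_right,
      real_inner_self_eq_norm_sq, hx, hw, real_inner_comm x w, hxw]
    simp; ring
  have hg'n : ‖g'‖ ^ 2 = 1 := by
    rw [← real_inner_self_eq_norm_sq]
    simp only [hg', inner_add_left, inner_add_right, inner_smul_left, inner_smul_right,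
      real_inner_self_eq_norm_sq, hx, hw, real_inner_comm x w, hxw]
    simp; nlinarith [Real.sin_sq_add_cos_sq a]
  set β : ℝ := inner ℝ y g' with hβ
  have hb : gc x w b = Real.cos (b - a) • g + Real.sin (b - a) • g' := by
    have := gc_add x w a (b - a)
    rwa [add_sub_cancel] at this
  have hs : gc x w s = Real.cos (s - a) • g + Real.sin (s - a) • g' := by
    have := gc_add x w a (s - a)
    rwa [add_sub_cancel] at this
  have h2' : (Real.cos (b - a) * Real.cos (s - a) + Real.sin (b - a) * β) ^ 2 =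
      Real.cos (s - b) ^ 2 := by
    rw [← h2, hPy, inner_outer, hb, inner_add_right, inner_smul_right, inner_smul_right, hya, ← hβ]
    ring
  -- Bessel
  have hbes : ‖y - (Real.cos (s - a) • g + β • g')‖ ^ 2 = 1 - Real.cos (s - a) ^ 2 - β ^ 2 := by
    rw [← real_inner_self_eq_norm_sq]
    simp only [inner_sub_left, inner_sub_right, inner_add_left, inner_add_right, inner_smul_left,
      inner_smul_right, real_inner_self_eq_norm_sq, hgn, hg'n, hy, real_inner_comm g g', hgg',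
      real_inner_comm y g, real_inner_comm y g', hya, ← hβ]
    simp; ring
  have hbes2 : β ^ 2 ≤ Real.sin (s - a) ^ 2 := by
    have h3 : 0 ≤ ‖y - (Real.cos (s - a) • g + β • g')‖ ^ 2 := by positivity
    have h4 := Real.sin_sq_add_cos_sq (s - a)
    linarith [hbes ▸ h3]
  have hcos : Real.cos (s - b) = Real.cos (b - a) * Real.cos (s - a) +
      Real.sin (b - a) * Real.sin (s - a) := by
    have : s - b = (s - a) - (b - a) := by ring
    rw [this, Real.cos_sub]; ring
  have hβs : β = Real.sin (s - a) := by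
    rcases sq_eq_sq_iff_eq_or_eq_neg.1 h2' with h | h
    · rw [hcos] at h
      have : Real.sin (b - a) * β = Real.sin (b - a) * Real.sin (s - a) := by linarith
      exact mul_left_cancel₀ hsab.ne' this
    · exfalso
      obtain ⟨C, hC⟩ : ∃ C, C = Real.cos (b - a) * Real.cos (s - a) := ⟨_, rfl⟩
      obtain ⟨S, hS⟩ : ∃ S, S = Real.sin (b - a) * Real.sin (s - a) := ⟨_, rfl⟩
      have hCpos : 0 < C := by rw [hC]; exact mul_pos hcab hcsa
      have hCS : 0 < C + S := by rw [hC, hS, ← hcos]; exact hcsb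
      have e1 : Real.sin (b - a) * β = -(2 * C + S) := by
        rw [hcos, ← hC, ← hS] at h; linarith
      have e2 : (Real.sin (b - a) * β) ^ 2 ≤ S ^ 2 := by
        rw [mul_pow, hS, mul_pow]
        exact mul_le_mul_of_nonneg_left hbes2 (sq_nonneg _)
      rw [e1] at e2
      have e3 : (-(2 * C + S)) ^ 2 - S ^ 2 = 4 * (C * (C + S)) := by ring
      have e4 := mul_pos hCpos hCS
      linarith
  have hfin : y = gc x w s := by
    have h3 : ‖y - (Real.cos (s - a) • g + β • g')‖ ^ 2 = 0 := by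
      rw [hbes, hβs]; nlinarith [Real.sin_sq_add_cos_sq (s - a)]
    have h4 : ‖y - (Real.cos (s - a) • g + β • g')‖ = 0 := by
      exact pow_eq_zero_iff (two_ne_zero) |>.1 h3
    have h5 := sub_eq_zero.1 (norm_eq_zero.1 h4)
    rw [h5, hs, hβs]
  rw [hPy, hfin]

lemma inner_of_arccos {n : ℕ} (P Q : RP n) {d : ℝ}
    (h : Real.arccos (√(inner ℝ (ι P) (ι Q))) = |d|) : inner ℝ (ι P) (ι Q) = Real.cos d ^ 2 := by
  obtain ⟨x, hx, hPx⟩ := exists_unit P
  obtain ⟨y, hy, hQy⟩ := exists_unit Q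
  have h1 : (inner ℝ (ι P) (ι Q) : ℝ) = (inner ℝ x y) ^ 2 := by
    rw [hPx, hQy, inner_outer]; ring
  have h2 : √((inner ℝ x y : ℝ) ^ 2) ≤ 1 := by
    rw [Real.sqrt_sq_eq_abs]
    have := abs_real_inner_le_norm x y
    rwa [hx, hy, mul_one] at this
  rw [h1] at h ⊢
  have h3 : Real.cos |d| = √((inner ℝ x y : ℝ) ^ 2) := by
    rw [← h, Real.cos_arccos (by linarith [Real.sqrt_nonneg ((inner ℝ x y : ℝ) ^ 2)]) h2]
  rw [Real.cos_abs] at h3
  rw [h3, Real.sq_sqrt (sq_nonneg _)]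

/-- A curve in RP n that locally realises the angle distance is a projective line. -/
theorem exists_line {n : ℕ} {γ : ℝ → RP n} {L : ℝ} (hL : 0 < L)
    (hcont : ContinuousOn (fun s => ι (γ s)) (Icc 0 L))
    (hloc : ∀ t ∈ Icc 0 L, ∃ ε > 0, ∀ s ∈ Icc 0 L, ∀ s' ∈ Icc 0 L, |s - t| < ε → |s' - t| < ε →
      Real.arccos (√(inner ℝ (ι (γ s)) (ι (γ s')))) = |s - s'|) :
    ∃ x w : V n, ‖x‖ = 1 ∧ ‖w‖ = 1 ∧ inner ℝ x w = 0 ∧
      ∀ s ∈ Icc 0 L, ι (γ s) = outer (gc x w s) (gc x w s) := by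
  -- improved local statement
  have hloc' : ∀ t ∈ Icc 0 L, ∃ ε > 0, ε ≤ Real.pi / 4 ∧ ∀ s ∈ Icc 0 L, ∀ s' ∈ Icc 0 L,
      |s - t| < ε → |s' - t| < ε → |s - s'| < Real.pi / 2 ∧
      inner ℝ (ι (γ s)) (ι (γ s')) = Real.cos (s - s') ^ 2 := by
    intro t ht
    obtain ⟨ε, hε, h⟩ := hloc t ht
    refine ⟨min ε (Real.pi / 4), lt_min hε (by positivity), min_le_right _ _, ?_⟩
    intro s hs s' hs' h1 h2
    have h3 : |s - s'| < Real.pi / 2 := by
      have e1 := (lt_min_iff.1 h1).2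
      have e2 := (lt_min_iff.1 h2).2
      rw [abs_lt] at *
      constructor <;> linarith
    exact ⟨h3, inner_of_arccos _ _ (h s hs s' hs' (lt_min_iff.1 h1).1 (lt_min_iff.1 h2).1)⟩
  have h0L : (0 : ℝ) ∈ Icc 0 L := ⟨le_rfl, hL.le⟩
  obtain ⟨ε, hε, hε4, h⟩ := hloc' 0 h0L
  -- the second point
  set b := min (ε / 2) L with hb
  have hb0 : 0 < b := lt_min (by positivity) hL
  have hbε : b < ε := (min_le_left _ _).trans_lt (by linarith)
  have hbL : b ∈ Icc 0 L := ⟨hb0.le, min_le_right _ _⟩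
  obtain ⟨hb2, hGb⟩ := h 0 h0L b hbL (by simpa using hε) (by rwa [sub_zero, abs_of_pos hb0])
  obtain ⟨x, hx, hγ0⟩ := exists_unit (γ 0)
  have hb3 : b < Real.pi / 2 := by
    rw [zero_sub, abs_neg, abs_of_pos hb0] at hb2; exact hb2
  have hcosb : 0 < Real.cos b := Real.cos_pos_of_mem_Ioo ⟨by linarith [Real.pi_pos], hb3⟩
  have hsinb : 0 < Real.sin b := Real.sin_pos_of_pos_of_lt_pi hb0 (by linarith [Real.pi_pos])
  obtain ⟨y, hy, hγb, hxy⟩ : ∃ y : V n, ‖y‖ = 1 ∧ ι (γ b) = outer y y ∧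
      (inner ℝ x y : ℝ) = Real.cos b := by
    obtain ⟨y, hy, hγb⟩ := exists_unit (γ b)
    rw [hγ0, hγb, inner_outer, ← sq, zero_sub, Real.cos_neg] at hGb
    rcases sq_eq_sq_iff_eq_or_eq_neg.1 hGb with h | h
    · exact ⟨y, hy, hγb, h⟩
    · refine ⟨-y, by rwa [norm_neg], by rw [outer_neg_neg]; exact hγb, ?_⟩
      rw [inner_neg_right, h, neg_neg]
  set w : V n := (Real.sin b)⁻¹ • (y - Real.cos b • x) with hw
  have hxw : inner ℝ x w = 0 := by
    rw [hw, inner_smul_right, inner_sub_right, inner_smul_right, real_inner_self_eq_norm_sq, hx, hxy]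
    simp
  have hwn : ‖w‖ = 1 := by
    have h2 : ‖y - Real.cos b • x‖ ^ 2 = Real.sin b ^ 2 := by
      rw [← real_inner_self_eq_norm_sq]
      simp only [inner_sub_left, inner_sub_right, inner_smul_left, inner_smul_right,
        real_inner_self_eq_norm_sq, hx, hy, real_inner_comm x y, hxy]
      simp
      nlinarith [Real.sin_sq_add_cos_sq b]
    have h3 : ‖y - Real.cos b • x‖ = Real.sin b := (sq_eq_sq₀ (norm_nonneg _) hsinb.le).1 h2
    rw [hw, norm_smul, h3, norm_inv, Real.norm_eq_abs, abs_of_pos hsinb, inv_mul_cancel₀ hsinb.ne']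
  have hgb : gc x w b = y := by
    rw [gc, hw, smul_smul, mul_inv_cancel₀ hsinb.ne', one_smul]; abel
  refine ⟨x, w, hx, hwn, hxw, ?_⟩
  -- continuous induction
  set A : Set ℝ := {s | ι (γ s) = outer (gc x w s) (gc x w s)} with hA
  have hclosed : IsClosed (A ∩ Icc 0 L) := by
    have h1 : ContinuousOn (fun s => (ι (γ s) - outer (gc x w s) (gc x w s) : W n)) (Icc 0 L) :=
      hcont.sub (contDiff_outer.comp (contDiff_gc x w)).continuous.continuousOn
    have h2 := h1.preimage_isClosed_of_isClosed isClosed_Icc (isClosed_singleton (x := (0 : W n)))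
    convert h2 using 1
    ext s
    simp only [hA, mem_inter_iff, mem_ofPred_eq, mem_preimage, mem_singleton_iff, sub_eq_zero]
    tauto
  -- extension step
  have step : ∀ t ∈ Icc 0 L, ∀ a b, a ∈ A → b ∈ A → a < b → a ∈ Icc 0 L → b ∈ Icc 0 L →
      ∀ ε > 0, (∀ s ∈ Icc 0 L, ∀ s' ∈ Icc 0 L,
      |s - t| < ε → |s' - t| < ε → |s - s'| < Real.pi / 2 ∧
      inner ℝ (ι (γ s)) (ι (γ s')) = Real.cos (s - s') ^ 2) → |a - t| < ε → |b - t| < ε →
      ∀ s ∈ Icc 0 L, |s - t| < ε → s ∈ A := by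
    intro t ht a b ha hb hab haL hbL ε hε hh hat hbt s hs hst
    have e1 := hh s hs a haL hst hat
    have e2 := hh s hs b hbL hst hbt
    have e3 := hh b hbL a haL hbt hat
    rw [show ι (γ a) = _ from ha] at e1
    rw [show ι (γ b) = _ from hb] at e2
    refine local_form hx hwn hxw hab ?_ e1.1 e2.1 (γ s) e1.2 e2.2
    exact (le_abs_self _).trans_lt e3.1
  have hA0 : (0 : ℝ) ∈ A := by
    change ι (γ 0) = outer (gc x w 0) (gc x w 0)
    rw [gc_zero, hγ0]
  have hAb : b ∈ A := by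
    change ι (γ b) = outer (gc x w b) (gc x w b)
    rw [hgb, hγb]
  have hsub : Icc 0 L ⊆ A := by
    apply hclosed.Icc_subset_of_forall_mem_nhdsGT_of_Icc_subset hA0
    intro t ht hsub
    have htL : t ∈ Icc 0 L := ⟨ht.1, ht.2.le⟩
    have hnear : ∃ ε > 0, ∀ s ∈ Icc 0 L, |s - t| < ε → s ∈ A := by
      rcases ht.1.eq_or_lt with h0 | h0
      · refine ⟨ε, hε, ?_⟩
        rw [← h0]
        exact step 0 h0L 0 b hA0 hAb hb0 h0L hbL ε hε h (by simpa using hε)
          (by rwa [sub_zero, abs_of_pos hb0])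
      · obtain ⟨δ, hδ, hδ4, h'⟩ := hloc' t htL
        refine ⟨δ, hδ, ?_⟩
        set a := max (t - δ / 2) 0 with ha
        have hat : a < t := max_lt (by linarith) h0
        have ha0 : 0 ≤ a := le_max_right _ _
        have haδ : t - δ / 2 ≤ a := le_max_left _ _
        refine step t htL a t (hsub ⟨ha0, hat.le⟩) (hsub ⟨h0.le, le_rfl⟩) hat
          ⟨ha0, hat.le.trans htL.2⟩ htL δ hδ h' ?_ (by simpa using hδ)
        rw [abs_lt]; constructor <;> linarith
    obtain ⟨δ, hδ, hnear⟩ := hnear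
    have : Ioo t (min (t + δ) L) ⊆ A := by
      intro s hs
      have hs1 := hs.1
      have hs2 := lt_min_iff.1 hs.2
      apply hnear s ⟨by linarith [ht.1], hs2.2.le⟩
      rw [abs_lt]; constructor <;> linarith
    exact Filter.mem_of_superset (Ioo_mem_nhdsGT (lt_min (by linarith) ht.2)) this
  exact fun s hs => hsub hs

end Pool.Agent.Helper72.RP
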