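import Mathlib

/-!
Signed simplicial chains on finsets of a partially ordered vertex type.
-/

set_option linter.unusedSectionVars false

namespace Pool.Agent.Helper72.TA

open Finset

variable {R : Type} [CommRing R]
variable {V W : Type} [PartialOrder V] [PartialOrder W]

open Classical in
/-- sign of a vertex in a finset: parity of the number of larger elements. -/
noncomputable def sg (R : Type) [CommRing R] (v : V) (s : Finset V) : R :=
  (-1) ^ (s.filter (fun w => v < w)).card

open Classical in
/-- boundary of a basis element. -/
noncomputable def bd0 (R : Type) [CommRing R] (s : Finset V) : Finset V →₀ R :=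
  ∑ v ∈ s, Finsupp.single (s.erase v) (sg R v s)

/-- boundary map. -/
noncomputable def bd (R : Type) [CommRing R] (V : Type) [PartialOrder V] :
    (Finset V →₀ R) →ₗ[R] (Finset V →₀ R) :=
  Finsupp.linearCombination R (bd0 R)

open Classical in
/-- cone on a basis element. -/
noncomputable def cone0 (R : Type) [CommRing R] (t : V) (s : Finset V) : Finset V →₀ R :=
  if t ∈ s then 0 else Finsupp.single (insert t s) 1

/-- cone map. -/
noncomputable def cone (R : Type) [CommRing R] (t : V) :
    (Finset V →₀ R) →ₗ[R] (Finset V →₀ R) :=
  Finsupp.linearCombination R (cone0 R t)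

/-- the basis element. -/
noncomputable def b (R : Type) [CommRing R] (s : Finset V) : Finset V →₀ R :=
  Finsupp.single s 1

/-- chains supported in a family. -/
abbrev Sup (R : Type) [CommRing R] (A : Set (Finset V)) : Submodule R (Finset V →₀ R) :=
  Finsupp.supported R R A

theorem b_mem {A : Set (Finset V)} {s : Finset V} (h : s ∈ A) : b R s ∈ Sup R A :=
  Finsupp.single_mem_supported R 1 h

theorem ext_on {A : Set (Finset V)} {M : Type} [AddCommMonoid M] [Module R M]
    {f g : (Finset V →₀ R) →ₗ[R] M} (h : ∀ s ∈ A, f (b R s) = g (b R s))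
    {c : Finset V →₀ R} (hc : c ∈ Sup R A) : f c = g c := by
  rw [Sup, Finsupp.supported_eq_span_single] at hc
  refine LinearMap.eqOn_span ?_ hc
  rintro _ ⟨s, hs, rfl⟩
  exact h s hs

theorem map_sup {A : Set (Finset V)} {B : Set (Finset W)}
    {f : (Finset V →₀ R) →ₗ[R] (Finset W →₀ R)} (h : ∀ s ∈ A, f (b R s) ∈ Sup R B)
    {c : Finset V →₀ R} (hc : c ∈ Sup R A) : f c ∈ Sup R B := by
  rw [Sup, Finsupp.supported_eq_span_single] at hc
  have : Submodule.span R ((fun i => Finsupp.single i (1 : R)) '' A) ≤
      (Sup R B).comap f := by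
    rw [Submodule.span_le]
    rintro _ ⟨s, hs, rfl⟩
    exact h s hs
  exact this hc

theorem sup_mono {A B : Set (Finset V)} (h : A ⊆ B) {c : Finset V →₀ R} (hc : c ∈ Sup R A) :
    c ∈ Sup R B := Finsupp.supported_mono h hc

theorem bd_b (s : Finset V) : bd R V (b R s) = bd0 R s := by
  simp [bd, b, Finsupp.linearCombination_single]

theorem cone_b (t : V) (s : Finset V) : cone R t (b R s) = cone0 R t s := by
  simp [cone, b, Finsupp.linearCombination_single]

theorem single_eq (s : Finset V) (a : R) : Finsupp.single s a = a • b R s := by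
  simp [b]

theorem bd0_eq [inst : DecidableEq V] (s : Finset V) :
    bd0 R s = ∑ v ∈ s, sg R v s • b R (s.erase v) := by
  have hi : inst = (fun a b => Classical.propDecidable (a = b)) := Subsingleton.elim _ _
  subst hi
  simp only [bd0, b, Finsupp.smul_single, smul_eq_mul, mul_one]

theorem cone0_of_mem {t : V} {s : Finset V} (h : t ∈ s) : cone0 R t s = 0 := by
  simp [cone0, h]

theorem cone0_of_notMem [inst : DecidableEq V] {t : V} {s : Finset V} (h : t ∉ s) :
    cone0 R t s = b R (insert t s) := by
  have hi : inst = (fun a b => Classical.propDecidable (a = b)) := Subsingleton.elim _ _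
  subst hi
  simp only [cone0, h, b, if_false]

theorem sg_top {t : V} {s : Finset V} (h : ∀ w ∈ s, w ≤ t) : sg R t s = 1 := by
  classical
  have : (s.filter (fun w => t < w)) = ∅ := by
    apply Finset.filter_eq_empty_iff.2
    intro w hw hlt
    exact absurd (h w hw) (not_le_of_gt hlt)
  simp [sg, this]

theorem sg_insert [DecidableEq V] {t v : V} {s : Finset V} (ht : t ∉ s) (hv : v < t) :
    sg R v (insert t s) = - sg R v s := by
  classical
  simp only [sg]
  rw [Finset.filter_insert, if_pos hv, Finset.card_insert_of_notMem (by simp [ht]), pow_succ]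
  ring

/-- Cone formula. -/
theorem bd_cone_b {t : V} {s : Finset V} (h : ∀ w ∈ s, w ≤ t) :
    bd R V (cone R t (b R s)) + cone R t (bd R V (b R s)) = b R s := by
  classical
  rw [cone_b, bd_b]
  by_cases ht : t ∈ s
  · rw [cone0_of_mem ht, map_zero, zero_add, bd0_eq, map_sum]
    rw [Finset.sum_eq_single t]
    · rw [map_smul, cone_b, cone0_of_notMem (Finset.notMem_erase t s), Finset.insert_erase ht,
        sg_top h, one_smul]
    · intro v hv hvt
      rw [map_smul, cone_b, cone0_of_mem, smul_zero]
      exact Finset.mem_erase.2 ⟨fun h' => hvt h'.symm, ht⟩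
    · intro h'; exact absurd ht h'
  · rw [cone0_of_notMem ht, bd_b, bd0_eq, Finset.sum_insert ht, Finset.erase_insert ht,
      sg_top (by
        intro w hw
        rcases Finset.mem_insert.1 hw with rfl | hw
        · exact le_rfl
        · exact h w hw), one_smul, bd0_eq, map_sum, add_assoc, ← Finset.sum_add_distrib]
    have : ∀ v ∈ s, sg R v (insert t s) • b R ((insert t s).erase v)
        + (cone R t) (sg R v s • b R (s.erase v)) = 0 := by
      intro v hv
      have hvt : v ≠ t := fun h' => ht (h' ▸ hv)
      rw [map_smul, cone_b, cone0_of_notMem (fun h' => ht (Finset.mem_of_mem_erase h')),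
        sg_insert ht (lt_of_le_of_ne (h v hv) hvt), Finset.erase_insert_of_ne hvt.symm]
      simp
    rw [Finset.sum_eq_zero this, add_zero]

theorem bd_cone {t : V} {c : Finset V →₀ R} (h : c ∈ Sup R {s | ∀ w ∈ s, w ≤ t}) :
    bd R V (cone R t c) = c - cone R t (bd R V c) := by
  have := ext_on (f := bd R V ∘ₗ cone R t + cone R t ∘ₗ bd R V) (g := LinearMap.id)
    (A := {s | ∀ w ∈ s, w ≤ t}) (by
      intro s hs
      simpa using bd_cone_b (R := R) hs) h
  simp only [LinearMap.add_apply, LinearMap.comp_apply, LinearMap.id_apply] at this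
  rw [eq_sub_iff_add_eq, this]

/-- Induction principle on finite chains, adding elements at the top. -/
theorem chain_induction {p : Finset V → Prop} (h0 : p ∅)
    (h1 : ∀ (t : V) (s : Finset V), t ∉ s → (∀ w ∈ s, w ≤ t) → IsChain (· ≤ ·) (s : Set V) →
      p s → p (@insert _ _ (@Finset.instInsert V (Classical.decEq V)) t s)) :
    ∀ s : Finset V, IsChain (· ≤ ·) (s : Set V) → p s := by
  classical
  intro s
  induction hn : s.card using Nat.strong_induction_on generalizing s with
  | _ n ih =>
    intro hs
    rcases s.eq_empty_or_nonempty with rfl | hne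
    · exact h0
    · obtain ⟨t, ht, htmax⟩ := s.exists_maximal hne
      have key : ∀ w ∈ s, w ≤ t := by
        intro w hw
        rcases eq_or_ne w t with rfl | hwt
        · exact le_rfl
        · rcases hs hw ht hwt with h | h
          · exact h
          · exact htmax hw h
      have hs' : IsChain (· ≤ ·) ((s.erase t : Finset V) : Set V) :=
        hs.mono (by exact_mod_cast Finset.erase_subset t s)
      have := h1 t (s.erase t) (Finset.notMem_erase t s)
        (fun w hw => key w (Finset.mem_of_mem_erase hw)) hs'
        (ih (s.erase t).card (by rw [← hn]; exact Finset.card_erase_lt_of_mem ht) _ rfl hs')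
      convert this using 1
      ext w
      by_cases hwt : w = t
      · subst hwt; simp [ht]
      · simp [hwt]

theorem bd_b_empty : bd R V (b R ∅) = 0 := by
  classical
  rw [bd_b, bd0_eq]; simp

theorem bd_sup_of_le {t : V} {c : Finset V →₀ R} (h : c ∈ Sup R {s | ∀ w ∈ s, w ≤ t}) :
    bd R V c ∈ Sup R {s | ∀ w ∈ s, w ≤ t} := by
  classical
  refine map_sup ?_ h
  intro s hs
  rw [bd_b, bd0_eq]
  refine Submodule.sum_mem _ fun v hv => Submodule.smul_mem _ _ (b_mem ?_)
  intro w hw
  exact hs w (Finset.mem_of_mem_erase hw)

/-- boundary of boundary vanishes on chains. -/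
theorem bd_bd_b : ∀ s : Finset V, IsChain (· ≤ ·) (s : Set V) →
    bd R V (bd R V (b R s)) = 0 := by
  classical
  apply chain_induction
  · rw [bd_b_empty, map_zero]
  · intro t s ht hle hs ih
    have h1 : b R (insert t s) = cone R t (b R s) := by
      rw [cone_b, cone0_of_notMem ht]
    have hle' : b R s ∈ Sup R {s | ∀ w ∈ s, w ≤ t} := b_mem hle
    have h2 := bd_cone hle'
    have h3 := bd_cone (bd_sup_of_le hle')
    have h4 : @insert _ _ (@Finset.instInsert V (Classical.decEq V)) t s = insert t s := by
      congr 1
    rw [h4, h1, h2, map_sub, h3, ih, map_zero, sub_zero, sub_self]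

/-- families of chains. -/
def Ch (V : Type) [PartialOrder V] : Set (Finset V) := {s | IsChain (· ≤ ·) (s : Set V)}

theorem bd_bd {c : Finset V →₀ R} (hc : c ∈ Sup R (Ch V)) : bd R V (bd R V c) = 0 := by
  have := ext_on (f := bd R V ∘ₗ bd R V) (g := 0) (A := Ch V) (by
    intro s hs
    simpa using bd_bd_b s hs) hc
  simpa using this

open Classical in
/-- push forward of a basis element. -/
noncomputable def push0 (R : Type) [CommRing R] (f : V → W) (s : Finset V) : Finset W →₀ R :=
  if Set.InjOn f (s : Set V) then b R (s.image f) else 0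

/-- push forward of chains -/
noncomputable def push (R : Type) [CommRing R] (f : V → W) :
    (Finset V →₀ R) →ₗ[R] (Finset W →₀ R) :=
  Finsupp.linearCombination R (push0 R f)

theorem push_b (f : V → W) (s : Finset V) : push R f (b R s) = push0 R f s := by
  simp [push, b, Finsupp.linearCombination_single]

theorem push0_of_inj [inst : DecidableEq W] {f : V → W} {s : Finset V}
    (h : Set.InjOn f (s : Set V)) : push0 R f s = b R (s.image f) := by
  have hi : inst = (fun a b => Classical.propDecidable (a = b)) := Subsingleton.elim _ _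
  subst hi
  simp only [push0, h, if_true]

theorem push0_of_not_inj {f : V → W} {s : Finset V}
    (h : ¬ Set.InjOn f (s : Set V)) : push0 R f s = 0 := by
  simp only [push0, h, if_false]

/-- push forward commutes with cones -/
theorem push_cone_b (f : V → W) (t : V) (s : Finset V) :
    push R f (cone R t (b R s)) = cone R (f t) (push R f (b R s)) := by
  classical
  rw [cone_b, push_b]
  by_cases ht : t ∈ s
  · rw [cone0_of_mem ht, map_zero]
    by_cases hi : Set.InjOn f (s : Set V)
    · rw [push0_of_inj hi, cone_b, cone0_of_mem]
      exact Finset.mem_image_of_mem f ht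
    · rw [push0_of_not_inj hi, map_zero]
  · rw [cone0_of_notMem ht, push_b]
    by_cases hi : Set.InjOn f (s : Set V)
    · rw [push0_of_inj hi, cone_b]
      by_cases hft : f t ∈ s.image f
      · rw [cone0_of_mem hft, push0_of_not_inj]
        intro hinj
        obtain ⟨u, hu, huf⟩ := Finset.mem_image.1 hft
        have : u = t := hinj (by simp [hu]) (by simp) huf
        exact ht (this ▸ hu)
      · rw [cone0_of_notMem hft, push0_of_inj]
        · rw [Finset.image_insert]
        · intro x hx y hy hxy
          simp only [Finset.coe_insert, Set.mem_insert_iff, Finset.mem_coe] at hx hy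
          rcases hx with rfl | hx <;> rcases hy with rfl | hy
          · rfl
          · exact absurd (Finset.mem_image.2 ⟨y, hy, hxy.symm⟩) hft
          · exact absurd (Finset.mem_image.2 ⟨x, hx, hxy⟩) hft
          · exact hi hx hy hxy
    · rw [push0_of_not_inj hi, map_zero, push0_of_not_inj]
      intro hinj
      exact hi (hinj.mono (by simp))

theorem push_cone (f : V → W) (t : V) (c : Finset V →₀ R) :
    push R f (cone R t c) = cone R (f t) (push R f c) := by
  have := ext_on (f := push R f ∘ₗ cone R t) (g := cone R (f t) ∘ₗ push R f)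
    (A := Set.univ) (c := c) (by
      intro s _
      simpa using push_cone_b f t s) (by simp [Sup])
  simpa using this

/-- push forward of basis elements commutes with boundary for monotone maps on chains. -/
theorem bd_push_b (f : V → W) : ∀ s : Finset V, IsChain (· ≤ ·) (s : Set V) →
    (MonotoneOn f (s : Set V)) →
    bd R W (push R f (b R s)) = push R f (bd R V (b R s)) := by
  classical
  apply chain_induction
  · intro _
    rw [bd_b_empty, map_zero, push_b, push0_of_inj (by simp)]
    simp [bd_b_empty]
  · intro t s ht hle hs ih hmono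
    have h4 : @insert _ _ (@Finset.instInsert V (Classical.decEq V)) t s = insert t s := by
      congr 1
    rw [h4] at hmono ⊢
    have h1 : b R (insert t s) = cone R t (b R s) := by
      rw [cone_b, cone0_of_notMem ht]
    have hle' : b R s ∈ Sup R {s | ∀ w ∈ s, w ≤ t} := b_mem hle
    have h2 := bd_cone hle'
    have h5 : push R f (b R s) ∈ Sup R {s | ∀ w ∈ s, w ≤ f t} := by
      rw [push_b]
      by_cases hi : Set.InjOn f (s : Set V)
      · rw [push0_of_inj hi]
        refine b_mem ?_
        intro w hw
        obtain ⟨u, hu, rfl⟩ := Finset.mem_image.1 hw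
        exact hmono (by simp [hu]) (by simp) (hle u hu)
      · rw [push0_of_not_inj hi]
        exact Submodule.zero_mem _
    rw [h1, push_cone, bd_cone h5, h2, map_sub, push_cone, ih (hmono.mono (by simp))]

theorem bd_push {f : V → W} {c : Finset V →₀ R}
    (hc : c ∈ Sup R {s : Finset V | IsChain (· ≤ ·) (s : Set V) ∧ MonotoneOn f (s : Set V)}) :
    bd R W (push R f c) = push R f (bd R V c) := by
  have := ext_on (f := bd R W ∘ₗ push R f) (g := push R f ∘ₗ bd R V) (by
    intro s hs
    simpa using bd_push_b f s hs.1 hs.2) hc
  simpa using this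

end Pool.Agent.Helper72.TA
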