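import Mathlib
import Pool.Agent.Helper72.TA1

/-!
Barycentric subdivision and simplicial homology.
-/

set_option linter.unusedSectionVars false

namespace Pool.Agent.Helper72.TA

open Finset

variable {R : Type} [CommRing R]
variable {V : Type} [PartialOrder V]

/-- subdivision operator on chains with `n` vertices. -/
noncomputable def sdc (R : Type) [CommRing R] (V : Type) [PartialOrder V] :
    ℕ → (Finset V →₀ R) →ₗ[R] (Finset (Finset V) →₀ R)
  | 0 => Finsupp.linearCombination R (fun _ => b R ∅)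
  | (n + 1) => Finsupp.linearCombination R (fun s => cone R s (sdc R V n (bd R V (b R s))))

theorem sdc_zero_b (s : Finset V) : sdc R V 0 (b R s) = b R ∅ := by
  simp [sdc, b, Finsupp.linearCombination_single]

theorem sdc_succ_b (n : ℕ) (s : Finset V) :
    sdc R V (n + 1) (b R s) = cone R s (sdc R V n (bd R V (b R s))) := by
  simp [sdc, b, Finsupp.linearCombination_single]

/-- flags of nonempty subsets of `s` with `n` members -/
def G (s : Finset V) (n : ℕ) : Set (Finset (Finset V)) :=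
  {D | IsChain (· ≤ ·) (D : Set (Finset V)) ∧ (∀ u ∈ D, u ≤ s ∧ u.Nonempty) ∧ D.card = n}

theorem G_mono {s t : Finset V} (h : s ≤ t) (n : ℕ) : G s n ⊆ G t n := by
  rintro D ⟨h1, h2, h3⟩
  exact ⟨h1, fun u hu => ⟨(h2 u hu).1.trans h, (h2 u hu).2⟩, h3⟩

theorem isChain_insert_top {W : Type} [PartialOrder W] [DecidableEq W] {s : Finset W} {t : W}
    (hs : IsChain (· ≤ ·) (s : Set W)) (ht : ∀ w ∈ s, w ≤ t) :
    IsChain (· ≤ ·) ((insert t s : Finset W) : Set W) := by
  rw [Finset.coe_insert]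
  refine hs.insert ?_
  intro w hw _
  exact Or.inr (ht w hw)

theorem cone_G {s : Finset V} (hs : s.Nonempty) {n : ℕ} {c : Finset (Finset V) →₀ R}
    (hc : c ∈ Sup R (G s n)) : cone R s c ∈ Sup R (G s (n + 1)) := by
  classical
  refine map_sup ?_ hc
  rintro D ⟨h1, h2, h3⟩
  rw [cone_b]
  by_cases hsD : s ∈ D
  · rw [cone0_of_mem hsD]; exact Submodule.zero_mem _
  · rw [cone0_of_notMem hsD]
    refine b_mem ⟨isChain_insert_top h1 (fun w hw => (h2 w hw).1), ?_, ?_⟩
    · intro u hu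
      rcases Finset.mem_insert.1 hu with rfl | hu
      · exact ⟨le_rfl, hs⟩
      · exact h2 u hu
    · rw [Finset.card_insert_of_notMem hsD, h3]

theorem bd_G {s : Finset V} {n : ℕ} {c : Finset (Finset V) →₀ R}
    (hc : c ∈ Sup R (G s (n + 1))) : bd R (Finset V) c ∈ Sup R (G s n) := by
  classical
  refine map_sup ?_ hc
  rintro D ⟨h1, h2, h3⟩
  rw [bd_b, bd0_eq]
  refine Submodule.sum_mem _ fun v hv => Submodule.smul_mem _ _ (b_mem ⟨?_, ?_, ?_⟩)
  · exact h1.mono (by exact_mod_cast Finset.erase_subset v D)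
  · intro u hu
    exact h2 u (Finset.mem_of_mem_erase hu)
  · rw [Finset.card_erase_of_mem hv, h3]; rfl

/-- chains of card `n` -/
def Cn (V : Type) [PartialOrder V] (n : ℕ) : Set (Finset V) :=
  {s | IsChain (· ≤ ·) (s : Set V) ∧ s.card = n}

theorem bd_Cn {n : ℕ} {c : Finset V →₀ R} (hc : c ∈ Sup R (Cn V (n + 1))) :
    bd R V c ∈ Sup R (Cn V n) := by
  classical
  refine map_sup ?_ hc
  rintro D ⟨h1, h3⟩
  rw [bd_b, bd0_eq]
  refine Submodule.sum_mem _ fun v hv => Submodule.smul_mem _ _ (b_mem ⟨?_, ?_⟩)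
  · exact h1.mono (by exact_mod_cast Finset.erase_subset v D)
  · rw [Finset.card_erase_of_mem hv, h3]; rfl

theorem sdc_G : ∀ (n : ℕ) (s : Finset V), s.card = n → sdc R V n (b R s) ∈ Sup R (G s n) := by
  classical
  intro n
  induction n with
  | zero =>
    intro s hs
    rw [sdc_zero_b]
    refine b_mem ⟨by simp, by simp, by simp⟩
  | succ n ih =>
    intro s hs
    rw [sdc_succ_b, bd_b, bd0_eq]
    have hne : s.Nonempty := Finset.card_pos.1 (by omega)
    refine cone_G hne ?_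
    rw [map_sum]
    refine Submodule.sum_mem _ fun v hv => ?_
    rw [map_smul]
    refine Submodule.smul_mem _ _ ?_
    refine sup_mono (G_mono (Finset.erase_subset v s) n) (ih _ ?_)
    rw [Finset.card_erase_of_mem hv, hs]; rfl

theorem G_le (s : Finset V) (n : ℕ) : G s n ⊆ {D : Finset (Finset V) | ∀ w ∈ D, w ≤ s} := by
  rintro D ⟨_, h2, _⟩ w hw
  exact (h2 w hw).1

theorem sdc_bd_G (n : ℕ) (s : Finset V) (hs : s.card = n + 1) :
    sdc R V n (bd R V (b R s)) ∈ Sup R (G s n) := by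
  classical
  rw [bd_b, bd0_eq, map_sum]
  refine Submodule.sum_mem _ fun v hv => ?_
  rw [map_smul]
  refine Submodule.smul_mem _ _ ?_
  refine sup_mono (G_mono (Finset.erase_subset v s) n) (sdc_G _ _ ?_)
  rw [Finset.card_erase_of_mem hv, hs]; rfl

/-- subdivision is a chain map. -/
theorem bd_sdc : ∀ (n : ℕ) (c : Finset V →₀ R), c ∈ Sup R (Cn V (n + 1)) →
    bd R (Finset V) (sdc R V (n + 1) c) = sdc R V n (bd R V c) := by
  classical
  intro n
  induction n with
  | zero =>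
    intro c hc
    refine ext_on (f := bd R (Finset V) ∘ₗ sdc R V 1) (g := sdc R V 0 ∘ₗ bd R V) ?_ hc
    rintro s ⟨hs1, hs2⟩
    simp only [LinearMap.comp_apply]
    rw [sdc_succ_b, bd_cone (sup_mono (G_le s 0) (sdc_bd_G 0 s hs2))]
    have : bd R (Finset V) (sdc R V 0 (bd R V (b R s))) = 0 := by
      rw [bd_b, bd0_eq, map_sum, map_sum]
      refine Finset.sum_eq_zero fun v hv => ?_
      rw [map_smul, map_smul, sdc_zero_b, bd_b_empty, smul_zero]
    rw [this, map_zero, sub_zero]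
  | succ n ih =>
    intro c hc
    refine ext_on (f := bd R (Finset V) ∘ₗ sdc R V (n + 1 + 1))
      (g := sdc R V (n + 1) ∘ₗ bd R V) ?_ hc
    rintro s ⟨hs1, hs2⟩
    simp only [LinearMap.comp_apply]
    rw [sdc_succ_b, bd_cone (sup_mono (G_le s (n + 1)) (sdc_bd_G (n + 1) s hs2))]
    rw [ih _ (bd_Cn (b_mem ⟨hs1, hs2⟩)), bd_bd (b_mem hs1), map_zero, map_zero, sub_zero]

open Classical in
/-- the largest element of a nonempty finite chain. -/
noncomputable def top [Nonempty V] (s : Finset V) : V :=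
  Classical.epsilon (fun t => t ∈ s ∧ ∀ w ∈ s, w ≤ t)

theorem top_spec [Nonempty V] {s : Finset V} (hs : IsChain (· ≤ ·) (s : Set V))
    (hne : s.Nonempty) : top s ∈ s ∧ ∀ w ∈ s, w ≤ top s := by
  have hex : ∃ t, t ∈ s ∧ ∀ w ∈ s, w ≤ t := by
    obtain ⟨t, ht, htmax⟩ := s.exists_maximal hne
    refine ⟨t, ht, ?_⟩
    intro w hw
    rcases eq_or_ne w t with rfl | hwt
    · exact le_rfl
    · rcases hs hw ht hwt with h | h
      · exact h
      · exact htmax hw h
  exact Classical.epsilon_spec (p := fun t => t ∈ s ∧ ∀ w ∈ s, w ≤ t) hex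

/-- flags of nonempty chains. -/
def FC (V : Type) [PartialOrder V] : Set (Finset (Finset V)) :=
  {D | IsChain (· ≤ ·) (D : Set (Finset V)) ∧
    ∀ u ∈ D, u.Nonempty ∧ IsChain (· ≤ ·) (u : Set V)}

theorem top_monotoneOn [Nonempty V] {D : Finset (Finset V)} (hD : D ∈ FC V) :
    MonotoneOn (top : Finset V → V) (D : Set (Finset V)) := by
  intro u hu u' hu' huu'
  have h1 := top_spec (hD.2 u hu).2 (hD.2 u hu).1
  have h2 := top_spec (hD.2 u' hu').2 (hD.2 u' hu').1
  exact h2.2 _ (huu' h1.1)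

theorem bd_r [Nonempty V] {c : Finset (Finset V) →₀ R} (hc : c ∈ Sup R (FC V)) :
    bd R V (push R top c) = push R top (bd R (Finset V) c) := by
  refine bd_push (sup_mono ?_ hc)
  intro D hD
  exact ⟨hD.1, top_monotoneOn hD⟩

theorem push_b_empty {W : Type} [PartialOrder W] (f : V → W) :
    push R f (b R ∅) = b R ∅ := by
  classical
  rw [push_b, push0_of_inj (by simp)]; simp

theorem r_sdc [Nonempty V] : ∀ (n : ℕ) (c : Finset V →₀ R), c ∈ Sup R (Cn V n) →
    push R top (sdc R V n c) = c := by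
  classical
  intro n
  induction n with
  | zero =>
    intro c hc
    refine ext_on (f := push R top ∘ₗ sdc R V 0) (g := LinearMap.id) ?_ hc
    rintro s ⟨hs1, hs2⟩
    simp only [LinearMap.comp_apply, LinearMap.id_apply]
    rw [sdc_zero_b, push_b_empty, Finset.card_eq_zero.1 hs2]
  | succ n ih =>
    intro c hc
    refine ext_on (f := push R top ∘ₗ sdc R V (n + 1)) (g := LinearMap.id) ?_ hc
    rintro s ⟨hs1, hs2⟩
    simp only [LinearMap.comp_apply, LinearMap.id_apply]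
    have hne : s.Nonempty := Finset.card_pos.1 (by omega)
    have ht := top_spec hs1 hne
    rw [sdc_succ_b, push_cone, ih _ (bd_Cn (b_mem ⟨hs1, hs2⟩))]
    have h1 := bd_cone (R := R) (t := top s) (c := b R s) (b_mem ht.2)
    rw [cone_b, cone0_of_mem ht.1, map_zero] at h1
    exact (sub_eq_zero.1 h1.symm).symm

/-- the chain homotopy -/
noncomputable def hty (R : Type) [CommRing R] (V : Type) [PartialOrder V] [Nonempty V] :
    ℕ → (Finset (Finset V) →₀ R) →ₗ[R] (Finset (Finset V) →₀ R)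
  | 0 => 0
  | (n + 1) => Finsupp.linearCombination R (fun C => cone R (top C)
      (b R C - sdc R V (n + 1) (push R top (b R C)) - hty R V n (bd R (Finset V) (b R C))))

theorem hty_succ_b [Nonempty V] (n : ℕ) (C : Finset (Finset V)) :
    hty R V (n + 1) (b R C) = cone R (top C)
      (b R C - sdc R V (n + 1) (push R top (b R C)) - hty R V n (bd R (Finset V) (b R C))) := by
  simp [hty, b, Finsupp.linearCombination_single]

/-- flags of nonempty chains with `n` members. -/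
def FCn (V : Type) [PartialOrder V] (n : ℕ) : Set (Finset (Finset V)) :=
  {D | D ∈ FC V ∧ D.card = n}

theorem bd_FCn {n : ℕ} {c : Finset (Finset V) →₀ R} (hc : c ∈ Sup R (FCn V (n + 1))) :
    bd R (Finset V) c ∈ Sup R (FCn V n) := by
  classical
  refine map_sup ?_ hc
  rintro D ⟨⟨h1, h2⟩, h3⟩
  rw [bd_b, bd0_eq]
  refine Submodule.sum_mem _ fun v hv => Submodule.smul_mem _ _ (b_mem ⟨⟨?_, ?_⟩, ?_⟩)
  · exact h1.mono (by exact_mod_cast Finset.erase_subset v D)
  · intro u hu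
    exact h2 u (Finset.mem_of_mem_erase hu)
  · rw [Finset.card_erase_of_mem hv, h3]; rfl

theorem r_FCn_b [Nonempty V] {n : ℕ} {D : Finset (Finset V)} (hD : D ∈ FCn V n)
    {s : Finset V} (hs : ∀ u ∈ D, u ≤ s) :
    push R top (b R D) ∈ Sup R {t : Finset V | t ∈ Cn V n ∧ t ≤ s} := by
  classical
  rw [push_b]
  by_cases hinj : Set.InjOn (top : Finset V → V) (D : Set (Finset V))
  · rw [push0_of_inj hinj]
    refine b_mem ⟨⟨?_, ?_⟩, ?_⟩
    · intro x hx y hy hxy
      simp only [Finset.coe_image, Set.mem_image, Finset.mem_coe] at hx hy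
      obtain ⟨u, hu, rfl⟩ := hx
      obtain ⟨u', hu', rfl⟩ := hy
      have huu : u ≠ u' := fun h => hxy (by rw [h])
      rcases hD.1.1 hu hu' huu with h | h
      · exact Or.inl (top_monotoneOn hD.1 hu hu' h)
      · exact Or.inr (top_monotoneOn hD.1 hu' hu h)
    · rw [Finset.card_image_of_injOn hinj, hD.2]
    · intro x hx
      obtain ⟨u, hu, rfl⟩ := Finset.mem_image.1 hx
      exact hs u hu (top_spec (hD.1.2 u hu).2 (hD.1.2 u hu).1).1
  · rw [push0_of_not_inj hinj]
    exact Submodule.zero_mem _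

theorem r_FCn [Nonempty V] {n : ℕ} {c : Finset (Finset V) →₀ R} (hc : c ∈ Sup R (FCn V n)) :
    push R top c ∈ Sup R (Cn V n) := by
  classical
  refine map_sup ?_ hc
  intro D hD
  refine sup_mono (fun t ht => ht.1) (r_FCn_b (s := D.sup id) hD ?_)
  intro u hu
  exact Finset.le_sup (f := id) hu

theorem sdc_sup {n : ℕ} {s : Finset V} {c : Finset V →₀ R}
    (hc : c ∈ Sup R {t : Finset V | t ∈ Cn V n ∧ t ≤ s}) : sdc R V n c ∈ Sup R (G s n) := by
  refine map_sup ?_ hc
  rintro t ⟨ht1, ht2⟩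
  exact sup_mono (G_mono ht2 n) (sdc_G n t ht1.2)

theorem hty_G [Nonempty V] : ∀ (n : ℕ) (D : Finset (Finset V)), D ∈ FCn V (n + 1) →
    b R D - sdc R V (n + 1) (push R top (b R D)) - hty R V n (bd R (Finset V) (b R D))
      ∈ Sup R (G (top D) (n + 1)) ∧ hty R V (n + 1) (b R D) ∈ Sup R (G (top D) (n + 2)) := by
  classical
  intro n
  induction n with
  | zero =>
    intro D hD
    have hne : D.Nonempty := Finset.card_pos.1 (by rw [hD.2]; omega)
    have ht := top_spec hD.1.1 hne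
    have h1 : b R D ∈ Sup R (G (top D) 1) :=
      b_mem ⟨hD.1.1, fun u hu => ⟨ht.2 u hu, (hD.1.2 u hu).1⟩, hD.2⟩
    have h2 : sdc R V 1 (push R top (b R D)) ∈ Sup R (G (top D) 1) :=
      sdc_sup (r_FCn_b hD ht.2)
    have h3 : b R D - sdc R V (0 + 1) (push R top (b R D)) - hty R V 0 (bd R (Finset V) (b R D))
      ∈ Sup R (G (top D) (0 + 1)) := by
      simp only [hty, LinearMap.zero_apply, sub_zero]
      exact Submodule.sub_mem _ h1 h2
    refine ⟨h3, ?_⟩
    rw [hty_succ_b]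
    exact cone_G (hD.1.2 _ ht.1).1 h3
  | succ n ih =>
    intro D hD
    have hne : D.Nonempty := Finset.card_pos.1 (by rw [hD.2]; omega)
    have ht := top_spec hD.1.1 hne
    have h1 : b R D ∈ Sup R (G (top D) (n + 1 + 1)) :=
      b_mem ⟨hD.1.1, fun u hu => ⟨ht.2 u hu, (hD.1.2 u hu).1⟩, hD.2⟩
    have h2 : sdc R V (n + 1 + 1) (push R top (b R D)) ∈ Sup R (G (top D) (n + 1 + 1)) :=
      sdc_sup (r_FCn_b hD ht.2)
    have h4 : hty R V (n + 1) (bd R (Finset V) (b R D)) ∈ Sup R (G (top D) (n + 1 + 1)) := by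
      rw [bd_b, bd0_eq, map_sum]
      refine Submodule.sum_mem _ fun v hv => ?_
      rw [map_smul]
      refine Submodule.smul_mem _ _ ?_
      have hE : D.erase v ∈ FCn V (n + 1) := by
        refine ⟨⟨hD.1.1.mono (by exact_mod_cast Finset.erase_subset v D), ?_⟩, ?_⟩
        · intro u hu
          exact hD.1.2 u (Finset.mem_of_mem_erase hu)
        · rw [Finset.card_erase_of_mem hv, hD.2]; rfl
      have hneE : (D.erase v).Nonempty := Finset.card_pos.1 (by rw [hE.2]; omega)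
      have htE := top_spec hE.1.1 hneE
      exact sup_mono (G_mono (ht.2 _ (Finset.mem_of_mem_erase htE.1)) _) (ih _ hE).2
    have h3 : b R D - sdc R V (n + 1 + 1) (push R top (b R D))
        - hty R V (n + 1) (bd R (Finset V) (b R D)) ∈ Sup R (G (top D) (n + 1 + 1)) :=
      Submodule.sub_mem _ (Submodule.sub_mem _ h1 h2) h4
    refine ⟨h3, ?_⟩
    rw [hty_succ_b]
    exact cone_G (hD.1.2 _ ht.1).1 h3

theorem bd_hty [Nonempty V] : ∀ (n : ℕ) (c : Finset (Finset V) →₀ R),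
    c ∈ Sup R (FCn V (n + 1)) → bd R (Finset V) (hty R V (n + 1) c)
      = c - sdc R V (n + 1) (push R top c) - hty R V n (bd R (Finset V) c) := by
  classical
  intro n
  induction n with
  | zero =>
    intro c hc
    refine ext_on (f := bd R (Finset V) ∘ₗ hty R V (0 + 1))
      (g := LinearMap.id - sdc R V (0 + 1) ∘ₗ push R top - hty R V 0 ∘ₗ bd R (Finset V)) ?_ hc
    intro D hD
    simp only [LinearMap.comp_apply, LinearMap.sub_apply, LinearMap.id_apply]
    obtain ⟨h1, h2⟩ := hty_G (R := R) 0 D hD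
    rw [hty_succ_b, bd_cone (sup_mono (G_le _ _) h1)]
    have hu : bd R (Finset V) (b R D - sdc R V (0 + 1) (push R top (b R D))
        - hty R V 0 (bd R (Finset V) (b R D))) = 0 := by
      rw [map_sub, map_sub, bd_sdc 0 _ (r_FCn (b_mem hD)), bd_r (b_mem hD.1)]
      simp only [hty, LinearMap.zero_apply, map_zero, sub_zero]
      obtain ⟨u, hu⟩ := Finset.card_eq_one.1 hD.2
      subst hu
      have : bd R (Finset V) (b R {u}) = b R ∅ := by
        rw [bd_b, bd0_eq, Finset.sum_singleton, sg_top (by simp)]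
        simp
      rw [this, push_b_empty, sdc_zero_b, sub_self]
    rw [hu, map_zero, sub_zero]
  | succ n ih =>
    intro c hc
    refine ext_on (f := bd R (Finset V) ∘ₗ hty R V (n + 1 + 1))
      (g := LinearMap.id - sdc R V (n + 1 + 1) ∘ₗ push R top
        - hty R V (n + 1) ∘ₗ bd R (Finset V)) ?_ hc
    intro D hD
    simp only [LinearMap.comp_apply, LinearMap.sub_apply, LinearMap.id_apply]
    obtain ⟨h1, h2⟩ := hty_G (R := R) (n + 1) D hD
    rw [hty_succ_b, bd_cone (sup_mono (G_le _ _) h1)]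
    have hu : bd R (Finset V) (b R D - sdc R V (n + 1 + 1) (push R top (b R D))
        - hty R V (n + 1) (bd R (Finset V) (b R D))) = 0 := by
      have hDc : b R D ∈ Sup R (FCn V (n + 1 + 1)) := b_mem hD
      rw [map_sub, map_sub, bd_sdc (n + 1) _ (r_FCn hDc), bd_r (b_mem hD.1),
        ih _ (bd_FCn hDc), bd_bd (b_mem hD.1.1), map_zero, sub_zero]
      abel
    rw [hu, map_zero, sub_zero]

/-- the faces of a family with `n` vertices -/
def Fn (F : Set (Finset V)) (n : ℕ) : Set (Finset V) := {s | s ∈ F ∧ s.card = n}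

/-- barycentric subdivision of a family of faces -/
def sdF (F : Set (Finset V)) : Set (Finset (Finset V)) :=
  {C | C.Nonempty ∧ (∀ s ∈ C, s ∈ F) ∧ IsChain (· ≤ ·) (C : Set (Finset V))}

/-- a family of nonempty chains closed under nonempty subsets. -/
structure IsOC (F : Set (Finset V)) : Prop where
  ne : ∀ s ∈ F, s.Nonempty
  ch : ∀ s ∈ F, IsChain (· ≤ ·) (s : Set V)
  dn : ∀ s ∈ F, ∀ t ⊆ s, t.Nonempty → t ∈ F

theorem IsOC.sdF {F : Set (Finset V)} (hF : IsOC F) : IsOC (sdF F) where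
  ne := fun _ h => h.1
  ch := fun _ h => h.2.2
  dn := fun _ h _ ht hne => ⟨hne, fun u hu => h.2.1 u (ht hu), h.2.2.mono (by exact_mod_cast ht)⟩

/-- every cycle with `n` vertices bounds. -/
def Acyc (R : Type) [CommRing R] (F : Set (Finset V)) (n : ℕ) : Prop :=
  ∀ c : Finset V →₀ R, c ∈ Sup R (Fn F n) → bd R V c = 0 →
    ∃ w : Finset V →₀ R, w ∈ Sup R (Fn F (n + 1)) ∧ bd R V w = c

theorem Fn_Cn {F : Set (Finset V)} (hF : IsOC F) (n : ℕ) : Fn F n ⊆ Cn V n :=
  fun s hs => ⟨hF.ch s hs.1, hs.2⟩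

theorem Fn_FCn {F : Set (Finset V)} (hF : IsOC F) (n : ℕ) : Fn (sdF F) n ⊆ FCn V n :=
  fun _ hs => ⟨⟨hs.1.2.2, fun u hu => ⟨hF.ne u (hs.1.2.1 u hu), hF.ch u (hs.1.2.1 u hu)⟩⟩, hs.2⟩

theorem G_sdF {F : Set (Finset V)} (hF : IsOC F) {s : Finset V} (hs : s ∈ F) (n : ℕ) :
    G s (n + 1) ⊆ Fn (sdF F) (n + 1) := by
  rintro D ⟨h1, h2, h3⟩
  exact ⟨⟨Finset.card_pos.1 (by omega), fun u hu => hF.dn s hs u (h2 u hu).1 (h2 u hu).2, h1⟩, h3⟩

theorem sdc_Fn {F : Set (Finset V)} (hF : IsOC F) {n : ℕ} {c : Finset V →₀ R}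
    (hc : c ∈ Sup R (Fn F (n + 1))) : sdc R V (n + 1) c ∈ Sup R (Fn (sdF F) (n + 1)) := by
  refine map_sup ?_ hc
  intro s hs
  exact sup_mono (G_sdF hF hs.1 n) (sdc_G (n + 1) s hs.2)

theorem r_Fn [Nonempty V] {F : Set (Finset V)} (hF : IsOC F) {n : ℕ}
    {c : Finset (Finset V) →₀ R}
    (hc : c ∈ Sup R (Fn (sdF F) (n + 1))) : push R top c ∈ Sup R (Fn F (n + 1)) := by
  refine map_sup ?_ hc
  intro D hD
  have hD' := Fn_FCn hF _ hD
  have ht := top_spec hD'.1.1 hD.1.1
  refine sup_mono ?_ (r_FCn_b hD' ht.2)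
  rintro t ⟨ht1, ht2⟩
  exact ⟨hF.dn _ (hD.1.2.1 _ ht.1) t ht2 (Finset.card_pos.1 (by rw [ht1.2]; omega)), ht1.2⟩

theorem hty_Fn [Nonempty V] {F : Set (Finset V)} (hF : IsOC F) {n : ℕ}
    {c : Finset (Finset V) →₀ R} (hc : c ∈ Sup R (Fn (sdF F) (n + 1))) :
    hty R V (n + 1) c ∈ Sup R (Fn (sdF F) (n + 1 + 1)) := by
  refine map_sup ?_ hc
  intro D hD
  have hD' := Fn_FCn hF _ hD
  have ht := top_spec hD'.1.1 hD.1.1
  exact sup_mono (G_sdF hF (hD.1.2.1 _ ht.1) _) (hty_G n D hD').2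

/-- Subdivision preserves vanishing of homology. -/
theorem Acyc.sdF [Nonempty V] {F : Set (Finset V)} (hF : IsOC F) {n : ℕ}
    (h : Acyc R F (n + 1)) : Acyc R (sdF F) (n + 1) := by
  intro z hz hbz
  have hr := r_Fn hF hz
  have hbr : bd R V (push R top z) = 0 := by
    rw [bd_r (sup_mono (fun D hD => (Fn_FCn hF _ hD).1) hz), hbz, map_zero]
  obtain ⟨w, hw, hbw⟩ := h _ hr hbr
  refine ⟨sdc R V (n + 1 + 1) w + hty R V (n + 1) z,
    Submodule.add_mem _ (sdc_Fn hF hw) (hty_Fn hF hz), ?_⟩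
  rw [map_add, bd_sdc (n + 1) w (sup_mono (Fn_Cn hF _) hw), hbw,
    bd_hty n z (sup_mono (Fn_FCn hF _) hz), hbz, map_zero, sub_zero]
  abel

/-- Subdivision reflects vanishing of homology. -/
theorem Acyc.of_sdF [Nonempty V] {F : Set (Finset V)} (hF : IsOC F) {n : ℕ}
    (h : Acyc R (TA.sdF F) (n + 1)) : Acyc R F (n + 1) := by
  intro z hz hbz
  have hzc : z ∈ Sup R (Cn V (n + 1)) := sup_mono (Fn_Cn hF _) hz
  have hb : bd R (Finset V) (sdc R V (n + 1) z) = 0 := by
    rw [bd_sdc n z hzc, hbz, map_zero]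
  obtain ⟨w, hw, hbw⟩ := h _ (sdc_Fn hF hz) hb
  refine ⟨push R top w, r_Fn hF hw, ?_⟩
  rw [bd_r (sup_mono (fun D hD => (Fn_FCn hF _ hD).1) hw), hbw, r_sdc _ z hzc]

end Pool.Agent.Helper72.TA
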