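import Mathlib
import Pool.Agent.Helper72.TA2

/-!
Discrete Morse functions: absence of critical faces implies vanishing homology.
-/

set_option linter.unusedSectionVars false

namespace Pool.Agent.Helper72.TA

open Finset

variable {R : Type} [CommRing R]
variable {V : Type} [PartialOrder V]

/-- faces above `s` of dimension one more with not larger value -/
def upSet (F : Set (Finset V)) (f : Finset V → ℝ) (s : Finset V) : Set (Finset V) :=
  {t | t ∈ F ∧ s ⊆ t ∧ t.card = s.card + 1 ∧ f t ≤ f s}

/-- faces below `s` of dimension one less with not smaller value -/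
def downSet (F : Set (Finset V)) (f : Finset V → ℝ) (s : Finset V) : Set (Finset V) :=
  {u | u ∈ F ∧ u ⊆ s ∧ s.card = u.card + 1 ∧ f s ≤ f u}

/-- Forman's condition. -/
def IsDM (F : Set (Finset V)) (f : Finset V → ℝ) : Prop :=
  ∀ s ∈ F, (upSet F f s).Subsingleton ∧ (downSet F f s).Subsingleton

theorem sg_cases (v : V) (s : Finset V) : sg R v s = 1 ∨ sg R v s = -1 := by
  simp only [sg]
  exact neg_one_pow_eq_or R _

theorem inc_eq {s u : Finset V} (h : u ⊆ s) (hc : s.card = u.card + 1) :
    ((bd R V (b R s)) u = 1 ∨ (bd R V (b R s)) u = -1) := by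
  classical
  have h1 : (s \ u).card = 1 := by
    rw [Finset.card_sdiff_of_subset h]; omega
  obtain ⟨v, hv⟩ := Finset.card_eq_one.1 h1
  have hvs : v ∈ s ∧ v ∉ u := by
    have : v ∈ s \ u := by rw [hv]; simp
    simpa using this
  have hu : s.erase v = u := by
    ext w
    constructor
    · intro hw
      by_contra hwu
      have : w ∈ s \ u := by simp [Finset.mem_of_mem_erase hw, hwu]
      rw [hv] at this
      exact Finset.ne_of_mem_erase hw (Finset.mem_singleton.1 this)
    · intro hw
      refine Finset.mem_erase.2 ⟨?_, h hw⟩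
      rintro rfl
      exact hvs.2 hw
  have key : (bd R V (b R s)) u = sg R v s := by
    rw [bd_b, bd0_eq, Finsupp.finsetSum_apply, Finset.sum_eq_single v]
    · simp [b, hu]
    · intro w hw hwv
      have : s.erase w ≠ u := by
        intro h'
        have : v ∈ s.erase w := Finset.mem_erase.2 ⟨hwv.symm, hvs.1⟩
        rw [h'] at this
        exact hvs.2 this
      simp [b, this]
    · intro h'; exact absurd hvs.1 h'
  rw [key]
  exact sg_cases v s

theorem inc_zero {s u : Finset V} (h : ¬ (u ⊆ s ∧ s.card = u.card + 1)) :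
    (bd R V (b R s)) u = 0 := by
  classical
  rw [bd_b, bd0_eq, Finsupp.finsetSum_apply]
  refine Finset.sum_eq_zero fun v hv => ?_
  have : s.erase v ≠ u := by
    rintro rfl
    exact h ⟨Finset.erase_subset v s, by
      rw [Finset.card_erase_of_mem hv]
      have := Finset.card_pos.2 ⟨v, hv⟩
      omega⟩
  simp [b, this]

theorem bd_apply (c : Finset V →₀ R) (u : Finset V) :
    (bd R V c) u = c.sum (fun s a => a * (bd R V (b R s)) u) := by
  classical
  rw [bd, Finsupp.linearCombination_apply, Finsupp.sum_apply]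
  refine Finsupp.sum_congr fun s _ => ?_
  rw [Finsupp.smul_apply, smul_eq_mul]
  simp [b, Finsupp.linearCombination_single]

theorem bd_Fn {F : Set (Finset V)} (hF : IsOC F) {n : ℕ} {c : Finset V →₀ R}
    (hc : c ∈ Sup R (Fn F (n + 1 + 1))) : bd R V c ∈ Sup R (Fn F (n + 1)) := by
  classical
  refine map_sup ?_ hc
  rintro D ⟨h1, h3⟩
  rw [bd_b, bd0_eq]
  refine Submodule.sum_mem _ fun v hv => Submodule.smul_mem _ _ (b_mem ?_)
  have hcard : (D.erase v).card = n + 1 := by
    rw [Finset.card_erase_of_mem hv, h3]; rfl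
  exact ⟨hF.dn D h1 _ (Finset.erase_subset v D) (Finset.card_pos.1 (by omega)), hcard⟩

/-- A cycle supported on faces matched downwards vanishes. -/
theorem cycle_down_eq_zero [Finite V] {F : Set (Finset V)} {f : Finset V → ℝ}
    (hdm : IsDM F f) {n : ℕ} {z : Finset V →₀ R} (hz : z ∈ Sup R (Fn F n))
    (hbz : bd R V z = 0) (hD : ∀ s ∈ z.support, (downSet F f s).Nonempty) : z = 0 := by
  classical
  by_contra hne
  have hsupp : z.support.Nonempty := Finsupp.support_nonempty_iff.2 hne
  obtain ⟨s, hs, hmax⟩ := z.support.exists_max_image f hsupp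
  obtain ⟨u, huF, hus, hcard, hfu⟩ := hD s hs
  have hsF : s ∈ Fn F n := (Finsupp.mem_supported R z).1 hz hs
  have h0 : (bd R V z) u = 0 := by rw [hbz]; rfl
  rw [bd_apply, Finsupp.sum, Finset.sum_eq_single s] at h0
  · have hzs : z s ≠ 0 := Finsupp.mem_support_iff.1 hs
    rcases inc_eq (R := R) hus hcard with h1 | h1
    · rw [h1, mul_one] at h0; exact hzs h0
    · rw [h1, mul_neg, mul_one, neg_eq_zero] at h0; exact hzs h0
  · intro t ht hts
    by_cases hut : u ⊆ t ∧ t.card = u.card + 1
    · exfalso
      have htF : t ∈ Fn F n := (Finsupp.mem_supported R z).1 hz ht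
      have h1 := hmax t ht
      have h2 : t ∈ upSet F f u := ⟨htF.1, hut.1, hut.2, h1.trans hfu⟩
      have h3 : s ∈ upSet F f u := ⟨hsF.1, hus, hcard, hfu⟩
      exact hts ((hdm u huF).1 h2 h3)
    · rw [inc_zero hut, mul_zero]
  · intro h'; exact absurd hs h'

/-- If no face with `n + 1` vertices is critical, all cycles with `n + 1` vertices bound. -/
theorem acyc_of_no_critical [Finite V] {F : Set (Finset V)} (hF : IsOC F) {f : Finset V → ℝ}
    (hdm : IsDM F f) {n : ℕ}
    (hcrit : ∀ s ∈ Fn F (n + 1), (upSet F f s).Nonempty ∨ (downSet F f s).Nonempty) :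
    Acyc R F (n + 1) := by
  classical
  have := Fintype.ofFinite V
  -- elimination of the faces matched upwards
  have elim : ∀ (k : ℕ) (A : Finset (Finset V)), A.card = k →
      (∀ s ∈ A, s ∈ Fn F (n + 1) ∧ (upSet F f s).Nonempty) →
      (∀ s ∈ A, ∀ t ∈ Fn F (n + 1), (upSet F f t).Nonempty → f t < f s → t ∈ A) →
      ∀ z : Finset V →₀ R, z ∈ Sup R (Fn F (n + 1)) →
      (∀ s ∈ z.support, (upSet F f s).Nonempty → s ∈ A) →
      ∃ w : Finset V →₀ R, w ∈ Sup R (Fn F (n + 2)) ∧
        z - bd R V w ∈ Sup R (Fn F (n + 1)) ∧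
        ∀ s ∈ (z - bd R V w).support, ¬ (upSet F f s).Nonempty := by
    intro k
    induction k with
    | zero =>
      intro A hA _ _ z hz hzA
      have hA0 : A = ∅ := Finset.card_eq_zero.1 hA
      subst hA0
      refine ⟨0, Submodule.zero_mem _, by simpa using hz, ?_⟩
      intro s hs hup
      rw [map_zero, sub_zero] at hs
      exact absurd (hzA s hs hup) (Finset.notMem_empty s)
    | succ k ih =>
      intro A hA hAup hAlow z hz hzA
      have hAne : A.Nonempty := Finset.card_pos.1 (by omega)
      obtain ⟨s, hs, hmax⟩ := A.exists_max_image f hAne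
      obtain ⟨hsF, hsup⟩ := hAup s hs
      obtain ⟨t, htF, hst, htc, hft⟩ := hsup
      have htF' : t ∈ Fn F (n + 1 + 1) := ⟨htF, by rw [htc, hsF.2]⟩
      obtain ⟨e, he, he1⟩ : ∃ e : R, (bd R V (b R t)) s = e ∧ e * e = 1 := by
        rcases inc_eq (R := R) hst htc with h | h
        · exact ⟨1, h, by ring⟩
        · exact ⟨-1, h, by ring⟩
      set w0 : Finset V →₀ R := (z s * e) • b R t with hw0
      have hw0F : w0 ∈ Sup R (Fn F (n + 1 + 1)) := Submodule.smul_mem _ _ (b_mem htF')
      have hz1 : z - bd R V w0 ∈ Sup R (Fn F (n + 1)) :=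
        Submodule.sub_mem _ hz (bd_Fn hF hw0F)
      have hz1s : (z - bd R V w0) s = 0 := by
        rw [Finsupp.sub_apply, hw0, map_smul, Finsupp.smul_apply, he, smul_eq_mul, mul_assoc, he1,
          mul_one, sub_self]
      have hcond : ∀ s' ∈ (z - bd R V w0).support, (upSet F f s').Nonempty → s' ∈ A.erase s := by
        intro s' hs' hup'
        have hne : s' ≠ s := by
          rintro rfl
          exact Finsupp.mem_support_iff.1 hs' hz1s
        refine Finset.mem_erase.2 ⟨hne, ?_⟩
        by_cases hzs' : z s' = 0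
        · have hb : (bd R V (b R t)) s' ≠ 0 := by
            intro h0
            apply Finsupp.mem_support_iff.1 hs'
            rw [Finsupp.sub_apply, hw0, map_smul, Finsupp.smul_apply, h0, smul_zero, hzs', sub_zero]
          have hs't : s' ⊆ t ∧ t.card = s'.card + 1 := by
            by_contra hcon
            exact hb (inc_zero hcon)
          have hs'F : s' ∈ Fn F (n + 1) := (Finsupp.mem_supported R _).1 hz1 hs'
          refine hAlow s hs s' hs'F hup' ?_
          by_contra hlt
          push Not at hlt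
          have h1 : s' ∈ downSet F f t := ⟨hs'F.1, hs't.1, hs't.2, hft.trans hlt⟩
          have h2 : s ∈ downSet F f t := ⟨hsF.1, hst, htc, hft⟩
          exact hne ((hdm t htF).2 h1 h2)
        · exact hzA s' (Finsupp.mem_support_iff.2 hzs') hup'
      obtain ⟨w, hw, hw1, hw2⟩ := ih (A.erase s) (by rw [Finset.card_erase_of_mem hs, hA]; rfl)
        (fun s' hs' => hAup s' (Finset.mem_of_mem_erase hs'))
        (by
          intro s' hs' t' ht' hup' hlt
          refine Finset.mem_erase.2 ⟨?_, hAlow s' (Finset.mem_of_mem_erase hs') t' ht' hup' hlt⟩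
          rintro rfl
          exact absurd (hmax s' (Finset.mem_of_mem_erase hs')) (not_le_of_gt hlt))
        _ hz1 hcond
      refine ⟨w0 + w, Submodule.add_mem _ hw0F hw, ?_, ?_⟩
      · rw [map_add, ← sub_sub]; exact hw1
      · rw [map_add, ← sub_sub]; exact hw2
  intro z hz hbz
  obtain ⟨w, hw, hw1, hw2⟩ := elim _
    (Finset.univ.filter (fun s => s ∈ Fn F (n + 1) ∧ (upSet F f s).Nonempty)) rfl
    (by intro s hs; simpa using hs)
    (by
      intro s _ t ht hup _
      simp [ht, hup])
    z hz (by
      intro s hs hup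
      simp only [Finset.mem_filter, Finset.mem_univ, true_and]
      exact ⟨(Finsupp.mem_supported R z).1 hz hs, hup⟩)
  have hzero : z - bd R V w = 0 := by
    refine cycle_down_eq_zero hdm hw1 ?_ ?_
    · rw [map_sub, hbz, bd_bd (sup_mono (fun s hs => (Fn_Cn hF _ hs).1) hw), sub_zero]
    · intro s hs
      rcases hcrit s ((Finsupp.mem_supported R _).1 hw1 hs) with h | h
      · exact absurd h (hw2 s hs)
      · exact h
  exact ⟨w, hw, (sub_eq_zero.1 hzero).symm⟩

end Pool.Agent.Helper72.TA
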