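import Mathlib
import Pool.Agent.Helper72.TA3

/-!
The triangulated real moment-angle complex, chains of subsets of `X` with differences in `K`.
-/

set_option linter.unusedSectionVars false

namespace Pool.Agent.Helper72.TA

open Finset

variable {R : Type} [CommRing R]

section cobot

variable {V W : Type} [PartialOrder V] [PartialOrder W]

open Classical in
/-- cone from below on a basis element. -/
noncomputable def cobot0 (R : Type) [CommRing R] (t : V) (s : Finset V) : Finset V →₀ R :=
  if t ∈ s then 0 else (-1 : R) ^ s.card • b R (insert t s)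

/-- cone from below. -/
noncomputable def cobot (R : Type) [CommRing R] (t : V) :
    (Finset V →₀ R) →ₗ[R] (Finset V →₀ R) :=
  Finsupp.linearCombination R (cobot0 R t)

open Classical in
/-- deletion of the lowest vertex on a basis element. -/
noncomputable def del0 (R : Type) [CommRing R] (t : V) (s : Finset V) : Finset V →₀ R :=
  if t ∈ s then (-1 : R) ^ (s.card - 1) • b R (s.erase t) else 0

/-- deletion of the lowest vertex. -/
noncomputable def del (R : Type) [CommRing R] (t : V) :
    (Finset V →₀ R) →ₗ[R] (Finset V →₀ R) :=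
  Finsupp.linearCombination R (del0 R t)

theorem cobot_b (t : V) (s : Finset V) : cobot R t (b R s) = cobot0 R t s := by
  simp [cobot, b, Finsupp.linearCombination_single]

theorem del_b (t : V) (s : Finset V) : del R t (b R s) = del0 R t s := by
  simp [del, b, Finsupp.linearCombination_single]

theorem cobot0_of_notMem [inst : DecidableEq V] {t : V} {s : Finset V} (h : t ∉ s) :
    cobot0 R t s = (-1 : R) ^ s.card • b R (insert t s) := by
  have hi : inst = (fun a b => Classical.propDecidable (a = b)) := Subsingleton.elim _ _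
  subst hi
  simp only [cobot0, h, if_false]

theorem cobot0_of_mem {t : V} {s : Finset V} (h : t ∈ s) : cobot0 R t s = 0 := by
  simp only [cobot0, h, if_true]

theorem del0_of_mem [inst : DecidableEq V] {t : V} {s : Finset V} (h : t ∈ s) :
    del0 R t s = (-1 : R) ^ (s.card - 1) • b R (s.erase t) := by
  have hi : inst = (fun a b => Classical.propDecidable (a = b)) := Subsingleton.elim _ _
  subst hi
  simp only [del0, h, if_true]

theorem del0_of_notMem {t : V} {s : Finset V} (h : t ∉ s) : del0 R t s = 0 := by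
  simp only [del0, h, if_false]

theorem bd_cobot_b {t : V} {s : Finset V} (h : ∀ w ∈ s, t < w) :
    bd R V (cobot R t (b R s)) = b R s - cobot R t (bd R V (b R s)) := by
  classical
  have ht : t ∉ s := fun h' => lt_irrefl _ (h t h')
  rw [cobot_b, cobot0_of_notMem ht, map_smul, bd_b, bd0_eq, Finset.sum_insert ht,
    Finset.erase_insert ht]
  have h1 : sg R t (insert t s) = (-1) ^ s.card := by
    simp only [sg]
    congr 2
    rw [Finset.filter_insert, if_neg (lt_irrefl t), Finset.filter_true_of_mem h]
  have h2 : ∀ v ∈ s, sg R v (insert t s) = sg R v s := by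
    intro v hv
    simp only [sg]
    rw [Finset.filter_insert, if_neg (fun h' => lt_asymm h' (h v hv))]
  rw [h1, bd_b, bd0_eq, map_sum, smul_add, smul_smul, ← mul_pow, neg_one_mul, neg_neg, one_pow,
    one_smul, sub_eq_add_neg, ← Finset.sum_neg_distrib, Finset.smul_sum]
  congr 1
  refine Finset.sum_congr rfl fun v hv => ?_
  have hvt : v ≠ t := fun h' => ht (h' ▸ hv)
  rw [h2 v hv, Finset.erase_insert_of_ne hvt.symm, map_smul, cobot_b,
    cobot0_of_notMem (fun h' => ht (Finset.mem_of_mem_erase h')), smul_smul, smul_smul, ← neg_smul]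
  congr 1
  rw [Finset.card_erase_of_mem hv]
  have hpos : s.card = s.card - 1 + 1 := by
    have := Finset.card_pos.2 ⟨v, hv⟩
    omega
  conv_lhs => rw [hpos, pow_succ]
  ring

theorem bd_cobot {t : V} {c : Finset V →₀ R} (h : c ∈ Sup R {s | ∀ w ∈ s, t < w}) :
    bd R V (cobot R t c) = c - cobot R t (bd R V c) := by
  have := ext_on (f := bd R V ∘ₗ cobot R t) (g := LinearMap.id - cobot R t ∘ₗ bd R V)
    (A := {s | ∀ w ∈ s, t < w}) (by
      intro s hs
      simpa using bd_cobot_b (R := R) hs) h
  simpa using this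

theorem del_cobot_b {t : V} {s : Finset V} (h : t ∉ s) :
    del R t (cobot R t (b R s)) = b R s := by
  classical
  rw [cobot_b, cobot0_of_notMem h, map_smul, del_b, del0_of_mem (Finset.mem_insert_self t s),
    Finset.erase_insert h, Finset.card_insert_of_notMem h, Nat.add_sub_cancel, smul_smul,
    ← mul_pow, neg_one_mul, neg_neg, one_pow, one_smul]

theorem cobot_del_b {t : V} {s : Finset V} (h : t ∈ s) :
    cobot R t (del R t (b R s)) = b R s := by
  classical
  rw [del_b, del0_of_mem h, map_smul, cobot_b, cobot0_of_notMem (Finset.notMem_erase t s),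
    Finset.insert_erase h, Finset.card_erase_of_mem h, smul_smul,
    ← mul_pow, neg_one_mul, neg_neg, one_pow, one_smul]

theorem del_bd_b {t : V} {s : Finset V} (h : t ∈ s → ∀ w ∈ s, t ≤ w) :
    del R t (bd R V (b R s)) = - bd R V (del R t (b R s)) := by
  classical
  by_cases ht : t ∈ s
  · have hlt : ∀ w ∈ s.erase t, t < w := by
      intro w hw
      exact lt_of_le_of_ne (h ht w (Finset.mem_of_mem_erase hw)) (Finset.ne_of_mem_erase hw).symm
    have hdel : del R t (b R s) = (-1 : R) ^ (s.card - 1) • b R (s.erase t) := by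
      rw [del_b, del0_of_mem ht]
    have h1 : bd R V (b R s) = (-1 : R) ^ (s.card - 1) •
        (b R (s.erase t) - cobot R t (bd R V (b R (s.erase t)))) := by
      conv_lhs => rw [← cobot_del_b (R := R) ht, hdel, map_smul, map_smul, bd_cobot_b hlt]
    have h2 : ∀ c : Finset V →₀ R, c ∈ Sup R {s | t ∉ s} → del R t (cobot R t c) = c := by
      intro c hc
      exact ext_on (f := del R t ∘ₗ cobot R t) (g := LinearMap.id)
        (fun s hs => by simpa using del_cobot_b (R := R) hs) hc
    rw [h1, map_smul, map_sub, h2, del_b, del0_of_notMem (Finset.notMem_erase t s), zero_sub,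
      hdel, map_smul, smul_neg]
    rw [bd_b, bd0_eq]
    refine Submodule.sum_mem _ fun v hv => Submodule.smul_mem _ _ (b_mem ?_)
    intro h'
    exact Finset.notMem_erase t s (Finset.mem_of_mem_erase h')
  · rw [del_b, del0_of_notMem ht, map_zero, neg_zero, bd_b, bd0_eq, map_sum]
    refine Finset.sum_eq_zero fun v hv => ?_
    rw [map_smul, del_b, del0_of_notMem (fun h' => ht (Finset.mem_of_mem_erase h')), smul_zero]

theorem del_bd {t : V} {c : Finset V →₀ R} (hc : c ∈ Sup R {s | t ∈ s → ∀ w ∈ s, t ≤ w}) :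
    del R t (bd R V c) = - bd R V (del R t c) := by
  have := ext_on (f := del R t ∘ₗ bd R V) (g := - (bd R V ∘ₗ del R t))
    (A := {s | t ∈ s → ∀ w ∈ s, t ≤ w}) (by
      intro s hs
      simpa using del_bd_b (R := R) hs) hc
  simpa using this

/-- push forward along a map which is the identity on members. -/
theorem push_id_b {f : V → V} {s : Finset V} (h : ∀ v ∈ s, f v = v) :
    push R f (b R s) = b R s := by
  classical
  rw [push_b, push0_of_inj]
  · congr 1
    rw [Finset.image_congr (g := id) (fun v hv => h v hv), Finset.image_id]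
  · intro x hx y hy hxy
    rw [h x hx, h y hy] at hxy
    exact hxy

theorem push_push_b {U : Type} [PartialOrder U] {f : V → W} {g : W → U} {s : Finset V} :
    (Set.InjOn f (s : Set V)) → push R g (push R f (b R s)) = push R (g ∘ f) (b R s) := by
  classical
  intro h
  rw [push_b, push0_of_inj h, push_b, push_b]
  by_cases h2 : Set.InjOn (g ∘ f) (s : Set V)
  · rw [push0_of_inj h2, push0_of_inj, Finset.image_image]
    intro x hx y hy hxy
    simp only [Finset.coe_image, Set.mem_image, Finset.mem_coe] at hx hy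
    obtain ⟨u, hu, rfl⟩ := hx
    obtain ⟨v, hv, rfl⟩ := hy
    rw [h2 hu hv hxy]
  · rw [push0_of_not_inj h2, push0_of_not_inj]
    intro h3
    apply h2
    intro x hx y hy hxy
    exact h hx hy (h3 (by simpa using ⟨x, hx, rfl⟩) (by simpa using ⟨y, hy, rfl⟩) hxy)

theorem push_congr_b {f g : V → W} {s : Finset V} (h : ∀ v ∈ s, f v = g v) :
    push R f (b R s) = push R g (b R s) := by
  classical
  have hfg : Set.EqOn f g (s : Set V) := fun v hv => h v hv
  rw [push_b, push_b]
  by_cases h2 : Set.InjOn f (s : Set V)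
  · rw [push0_of_inj h2, push0_of_inj (h2.congr hfg), Finset.image_congr hfg]
  · rw [push0_of_not_inj h2, push0_of_not_inj (fun h3 => h2 (h3.congr hfg.symm))]

end cobot

variable {X : Type} [LinearOrder X] [Fintype X]

/-- The family of chains of subsets with successive differences in `K`. -/
def MK (K : Set (Finset X)) : Set (Finset (Finset X)) :=
  {C | C.Nonempty ∧ IsChain (· ≤ ·) (C : Set (Finset X)) ∧ ∀ S ∈ C, ∀ T ∈ C, S \ T ∈ K}

theorem MK_isOC (K : Set (Finset X)) : IsOC (MK K) where
  ne := fun _ h => h.1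
  ch := fun _ h => h.2.1
  dn := fun _ h _ ht hne => ⟨hne, h.2.1.mono (by exact_mod_cast ht),
    fun S hS T hT => h.2.2 S (ht hS) T (ht hT)⟩

/-- faces of `K` disjoint from `S` -/
def KS (K : Set (Finset X)) (S : Finset X) : Set (Finset X) :=
  {s | s ∈ K ∧ s.Nonempty ∧ Disjoint s S}

theorem KS_isOC {K : Set (Finset X)} (hK : ∀ s ∈ K, ∀ t ⊆ s, t ∈ K) (S : Finset X) :
    IsOC (KS K S) where
  ne := fun _ h => h.2.1
  ch := fun s _ => by
    intro x _ y _ _
    exact le_total x y
  dn := fun s h t ht hne => ⟨hK s h.1 t ht, hne, h.2.2.mono_left ht⟩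

/-- upper link of `S` -/
def lk (K : Set (Finset X)) (S : Finset X) : Set (Finset (Finset X)) :=
  {C | C.Nonempty ∧ IsChain (· ≤ ·) (C : Set (Finset X)) ∧ ∀ T ∈ C, S < T ∧ T \ S ∈ K}

theorem lk_acyc [Nonempty X] {K : Set (Finset X)} (hK : ∀ s ∈ K, ∀ t ⊆ s, t ∈ K)
    {S : Finset X} {n : ℕ}
    (h : Acyc R (KS K S) (n + 1)) {y : Finset (Finset X) →₀ R}
    (hy : y ∈ Sup R (Fn (lk K S) (n + 1))) (hby : bd R (Finset X) y = 0) :
    ∃ w, w ∈ Sup R (Fn (lk K S) (n + 1 + 1)) ∧ bd R (Finset X) w = y := by
  have h' := h.sdF (KS_isOC hK S)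
  -- the maps
  have hmono1 : ∀ C : Finset (Finset X), MonotoneOn (fun T : Finset X => T \ S) (C : Set _) := by
    intro C T _ T' _ hTT'
    exact Finset.sdiff_subset_sdiff hTT' le_rfl
  have hmono2 : ∀ C : Finset (Finset X), MonotoneOn (fun T : Finset X => T ∪ S) (C : Set _) := by
    intro C T _ T' _ hTT'
    exact Finset.union_subset_union hTT' le_rfl
  have hinj1 : ∀ C ∈ lk K S, Set.InjOn (fun T : Finset X => T \ S) (C : Set (Finset X)) := by
    intro C hC T hT T' hT' hTT'
    have h1 := (hC.2.2 T hT).1.le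
    have h2 := (hC.2.2 T' hT').1.le
    simp only at hTT'
    rw [← Finset.sdiff_union_of_subset h1, hTT', Finset.sdiff_union_of_subset h2]
  have him1 : ∀ m, ∀ C ∈ Fn (lk K S) m,
      push R (fun T : Finset X => T \ S) (b R C) ∈ Sup R (Fn (sdF (KS K S)) m) := by
    intro m C hC
    rw [push_b, push0_of_inj (hinj1 C hC.1)]
    refine b_mem ⟨⟨hC.1.1.image _, ?_, ?_⟩, ?_⟩
    · intro s hs
      obtain ⟨T, hT, rfl⟩ := Finset.mem_image.1 hs
      refine ⟨(hC.1.2.2 T hT).2, ?_, Finset.sdiff_disjoint⟩
      exact Finset.sdiff_nonempty.2 (not_le_of_gt (hC.1.2.2 T hT).1)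
    · intro x hx y hy hxy
      simp only [Finset.coe_image, Set.mem_image, Finset.mem_coe] at hx hy
      obtain ⟨u, hu, rfl⟩ := hx
      obtain ⟨v, hv, rfl⟩ := hy
      have huv : u ≠ v := fun h => hxy (by rw [h])
      rcases hC.1.2.1 hu hv huv with h | h
      · exact Or.inl (hmono1 C hu hv h)
      · exact Or.inr (hmono1 C hv hu h)
    · rw [Finset.card_image_of_injOn (hinj1 C hC.1), hC.2]
  have him2 : ∀ m, ∀ C ∈ Fn (sdF (KS K S)) m,
      push R (fun T : Finset X => T ∪ S) (b R C) ∈ Sup R (Fn (lk K S) m) := by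
    intro m C hC
    have hinj2 : Set.InjOn (fun T : Finset X => T ∪ S) (C : Set (Finset X)) := by
      intro T hT T' hT' hTT'
      have h1 := (hC.1.2.1 T hT).2.2
      have h2 := (hC.1.2.1 T' hT').2.2
      simp only at hTT'
      have h3 : (T ∪ S) \ S = (T' ∪ S) \ S := by rw [hTT']
      rwa [Finset.union_sdiff_cancel_right h1, Finset.union_sdiff_cancel_right h2] at h3
    rw [push_b, push0_of_inj hinj2]
    refine b_mem ⟨⟨hC.1.1.image _, ?_, ?_⟩, ?_⟩
    · intro x hx y hy hxy
      simp only [Finset.coe_image, Set.mem_image, Finset.mem_coe] at hx hy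
      obtain ⟨u, hu, rfl⟩ := hx
      obtain ⟨v, hv, rfl⟩ := hy
      have huv : u ≠ v := fun h => hxy (by rw [h])
      rcases hC.1.2.2 hu hv huv with h | h
      · exact Or.inl (hmono2 C hu hv h)
      · exact Or.inr (hmono2 C hv hu h)
    · intro s hs
      obtain ⟨T, hT, rfl⟩ := Finset.mem_image.1 hs
      have h1 := hC.1.2.1 T hT
      refine ⟨?_, ?_⟩
      · refine lt_of_le_of_ne Finset.subset_union_right ?_
        intro h'
        have : T ⊆ S := by rw [h']; exact Finset.subset_union_left
        obtain ⟨x, hx⟩ := h1.2.1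
        exact Finset.disjoint_left.1 h1.2.2 hx (this hx)
      · rw [Finset.union_sdiff_cancel_right h1.2.2]
        exact h1.1
    · rw [Finset.card_image_of_injOn hinj2, hC.2]
  have hmem1 : push R (fun T : Finset X => T \ S) y ∈ Sup R (Fn (sdF (KS K S)) (n + 1)) :=
    map_sup (him1 (n + 1)) hy
  have hbd1 : bd R (Finset X) (push R (fun T : Finset X => T \ S) y) = 0 := by
    rw [bd_push, hby, map_zero]
    refine sup_mono ?_ hy
    intro C hC
    exact ⟨hC.1.2.1, hmono1 C⟩
  obtain ⟨w, hw, hbw⟩ := h' _ hmem1 hbd1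
  refine ⟨push R (fun T : Finset X => T ∪ S) w, map_sup (him2 (n + 1 + 1)) hw, ?_⟩
  rw [bd_push, hbw]
  · refine ext_on (f := push R (fun T : Finset X => T ∪ S) ∘ₗ push R (fun T : Finset X => T \ S))
      (g := LinearMap.id) ?_ hy
    intro C hC
    rw [LinearMap.comp_apply, push_push_b (hinj1 C hC.1), LinearMap.id_apply]
    refine push_id_b ?_
    intro T hT
    exact Finset.sdiff_union_of_subset (hC.1.2.2 T hT).1.le
  · refine sup_mono ?_ hw
    intro C hC
    exact ⟨hC.1.2.2, hmono2 C⟩

theorem MK_acyc [Nonempty X] {K : Set (Finset X)} (hK : ∀ s ∈ K, ∀ t ⊆ s, t ∈ K)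
    (hK0 : ∅ ∈ K) {n : ℕ}
    (h : ∀ S : Finset X, Acyc R (KS K S) (n + 1)) : Acyc R (MK K) (n + 1 + 1) := by
  classical
  have key : ∀ (m : ℕ) (U : Finset (Finset X)), U.card = m →
      (∀ S ∈ U, ∀ T, S ≤ T → T ∈ U) →
      ∀ z : Finset (Finset X) →₀ R, z ∈ Sup R {C | C ∈ Fn (MK K) (n + 1 + 1) ∧ C ⊆ U} →
      bd R (Finset X) z = 0 →
      ∃ w, w ∈ Sup R (Fn (MK K) (n + 1 + 1 + 1)) ∧ bd R (Finset X) w = z := by
    intro m
    induction m with
    | zero =>
      intro U hU _ z hz _
      have hU0 : U = ∅ := Finset.card_eq_zero.1 hU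
      subst hU0
      have hz0 : z = 0 := by
        rw [← Finsupp.support_eq_empty]
        by_contra hne
        obtain ⟨C, hC⟩ := Finset.nonempty_iff_ne_empty.2 hne
        have h1 := (Finsupp.mem_supported R z).1 hz hC
        have h2 : C = ∅ := Finset.subset_empty.1 h1.2
        have h3 := h1.1.1.1
        rw [h2] at h3
        exact Finset.not_nonempty_empty h3
      exact ⟨0, Submodule.zero_mem _, by rw [map_zero, hz0]⟩
    | succ m ih =>
      intro U hU hup z hz hbz
      obtain ⟨S, hS, hmin⟩ := U.exists_minimal (Finset.card_pos.1 (by omega))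
      have hle : ∀ C ∈ ({C | C ∈ Fn (MK K) (n + 1 + 1) ∧ C ⊆ U} : Set (Finset (Finset X))),
          S ∈ C → ∀ T ∈ C, S ≤ T := by
        rintro C ⟨hC, hCU⟩ hSC T hT
        rcases eq_or_ne S T with rfl | hne
        · exact le_rfl
        · rcases hC.1.2.1 hSC hT hne with h1 | h1
          · exact h1
          · exact hmin (hCU hT) h1
      have hy : del R S z ∈ Sup R (Fn (lk K S) (n + 1)) := by
        refine map_sup ?_ hz
        intro C hC
        rw [del_b]
        by_cases hSC : S ∈ C
        · rw [del0_of_mem hSC]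
          refine Submodule.smul_mem _ _ (b_mem ?_)
          have hcard : (C.erase S).card = n + 1 := by
            rw [Finset.card_erase_of_mem hSC, hC.1.2]; rfl
          refine ⟨⟨Finset.card_pos.1 (by omega),
            hC.1.1.2.1.mono (by exact_mod_cast Finset.erase_subset S C), ?_⟩, hcard⟩
          intro T hT
          have hT' := Finset.mem_of_mem_erase hT
          refine ⟨lt_of_le_of_ne (hle C hC hSC T hT') (Finset.ne_of_mem_erase hT).symm,
            hC.1.1.2.2 T hT' S hSC⟩
        · rw [del0_of_notMem hSC]; exact Submodule.zero_mem _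
      have hby : bd R (Finset X) (del R S z) = 0 := by
        have := del_bd (R := R) (t := S) (c := z) (sup_mono (fun C hC => hle C hC) hz)
        rw [hbz, map_zero] at this
        exact (neg_eq_zero.1 this.symm)
      obtain ⟨w', hw', hbw'⟩ := lk_acyc hK (h S) hy hby
      have hlk : ∀ C ∈ lk K S, S ∉ C := fun C hC hSC => lt_irrefl _ (hC.2.2 S hSC).1
      have hw1 : cobot R S w' ∈ Sup R (Fn (MK K) (n + 1 + 1 + 1)) := by
        refine map_sup ?_ hw'
        intro C hC
        have hSC := hlk C hC.1
        rw [cobot_b, cobot0_of_notMem hSC]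
        refine Submodule.smul_mem _ _ (b_mem ⟨⟨Finset.insert_nonempty _ _, ?_, ?_⟩, ?_⟩)
        · rw [Finset.coe_insert]
          refine hC.1.2.1.insert ?_
          intro T hT _
          exact Or.inl (hC.1.2.2 T hT).1.le
        · intro T hT T' hT'
          rcases Finset.mem_insert.1 hT with h1 | h1
          · rcases Finset.mem_insert.1 hT' with h2 | h2
            · rw [h1, h2, Finset.sdiff_self]; exact hK0
            · rw [h1, Finset.sdiff_eq_empty_iff_subset.2 (hC.1.2.2 T' h2).1.le]; exact hK0
          · rcases Finset.mem_insert.1 hT' with h2 | h2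
            · rw [h2]; exact (hC.1.2.2 T h1).2
            · exact hK _ (hC.1.2.2 T h1).2 _
                (Finset.sdiff_subset_sdiff le_rfl (hC.1.2.2 T' h2).1.le)
        · rw [Finset.card_insert_of_notMem hSC, hC.2]
      have hbw1 : bd R (Finset X) (cobot R S w') = w' - cobot R S (del R S z) := by
        rw [bd_cobot (sup_mono (fun C hC w hw => (hC.1.2.2 w hw).1) hw'), hbw']
      have hz1 : z + bd R (Finset X) (cobot R S w') ∈
          Sup R {C | C ∈ Fn (MK K) (n + 1 + 1) ∧ C ⊆ U.erase S} := by
        have h1 : z - cobot R S (del R S z) ∈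
            Sup R {C | C ∈ Fn (MK K) (n + 1 + 1) ∧ C ⊆ U.erase S} := by
          refine map_sup (f := LinearMap.id - cobot R S ∘ₗ del R S) ?_ hz
          intro C hC
          simp only [LinearMap.sub_apply, LinearMap.id_apply, LinearMap.comp_apply]
          by_cases hSC : S ∈ C
          · rw [cobot_del_b hSC, sub_self]; exact Submodule.zero_mem _
          · rw [del_b, del0_of_notMem hSC, map_zero, sub_zero]
            refine b_mem ⟨hC.1, ?_⟩
            intro T hT
            refine Finset.mem_erase.2 ⟨?_, hC.2 hT⟩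
            rintro rfl
            exact hSC hT
        have h2 : w' ∈ Sup R {C | C ∈ Fn (MK K) (n + 1 + 1) ∧ C ⊆ U.erase S} := by
          refine sup_mono ?_ hw'
          intro C hC
          refine ⟨⟨⟨hC.1.1, hC.1.2.1, ?_⟩, hC.2⟩, ?_⟩
          · intro T hT T' hT'
            exact hK _ (hC.1.2.2 T hT).2 _
                (Finset.sdiff_subset_sdiff le_rfl (hC.1.2.2 T' hT').1.le)
          · intro T hT
            have := (hC.1.2.2 T hT).1
            exact Finset.mem_erase.2 ⟨this.ne', hup S hS T this.le⟩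
        have h3 : z + bd R (Finset X) (cobot R S w') = (z - cobot R S (del R S z)) + w' := by
          rw [hbw1]; abel
        rw [h3]
        exact Submodule.add_mem _ h1 h2
      obtain ⟨w2, hw2, hbw2⟩ := ih (U.erase S) (by rw [Finset.card_erase_of_mem hS, hU]; rfl)
        (by
          intro T hT T' hTT'
          refine Finset.mem_erase.2 ⟨?_, hup T (Finset.mem_of_mem_erase hT) T' hTT'⟩
          rintro rfl
          have h1 := hmin (Finset.mem_of_mem_erase hT) hTT'
          exact Finset.ne_of_mem_erase hT (le_antisymm hTT' h1)) _ hz1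
        (by
          rw [map_add, hbz, bd_bd (sup_mono (fun C hC => hC.1.2.1) hw1), add_zero])
      refine ⟨w2 - cobot R S w', Submodule.sub_mem _ hw2 hw1, ?_⟩
      rw [map_sub, hbw2]
      abel
  intro z hz hbz
  refine key _ Finset.univ rfl (by simp) z (sup_mono ?_ hz) hbz
  intro C hC
  exact ⟨hC, Finset.subset_univ _⟩

end Pool.Agent.Helper72.TA
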