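import Mathlib
import Pool.Agent.Helper72.TA4

/-!
A nonbounding cycle in the triangulated real moment-angle complex.
-/

set_option linter.unusedSectionVars false

namespace Pool.Agent.Helper72.TA

open Finset

variable {R : Type} [CommRing R]
variable {X : Type} [LinearOrder X] [Fintype X]

/-- faces of `K` inside `R0` -/
def KY (K : Set (Finset X)) (R0 : Finset X) : Set (Finset X) :=
  {s | s ∈ K ∧ s.Nonempty ∧ s ⊆ R0}

theorem KY_isOC {K : Set (Finset X)} (hK : ∀ s ∈ K, ∀ t ⊆ s, t ∈ K) (R0 : Finset X) :
    IsOC (KY K R0) where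
  ne := fun _ h => h.2.1
  ch := fun s _ => by
    intro x _ y _ _
    exact le_total x y
  dn := fun s h t ht hne => ⟨hK s h.1 t ht, hne, ht.trans h.2.2⟩

theorem exists_far {C : Finset (Finset X)} (hC : IsChain (· ≤ ·) (C : Set (Finset X))) {n : ℕ}
    (hcard : C.card = n + 1) : ∃ S ∈ C, ∃ T ∈ C, T ≤ S ∧ T.card + n ≤ S.card := by
  classical
  have hne : C.Nonempty := Finset.card_pos.1 (by omega)
  obtain ⟨S, hS, hmax⟩ := C.exists_max_image Finset.card hne
  obtain ⟨T, hT, hmin⟩ := C.exists_min_image Finset.card hne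
  have hinj : Set.InjOn Finset.card (C : Set (Finset X)) := by
    intro A hA B hB hAB
    by_contra hne
    rcases hC hA hB hne with h | h
    · exact hne (Finset.eq_of_subset_of_card_le h hAB.ge)
    · exact hne (Finset.eq_of_subset_of_card_le h hAB.le).symm
  have h1 : C.image Finset.card ⊆ Finset.Icc T.card S.card := by
    intro k hk
    obtain ⟨A, hA, rfl⟩ := Finset.mem_image.1 hk
    exact Finset.mem_Icc.2 ⟨hmin A hA, hmax A hA⟩
  have h2 := Finset.card_le_card h1
  rw [Finset.card_image_of_injOn hinj, hcard, Nat.card_Icc] at h2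
  refine ⟨S, hS, T, hT, ?_, by omega⟩
  rcases eq_or_ne T S with rfl | hTS
  · exact le_rfl
  · rcases hC hT hS hTS with h | h
    · exact h
    · have := Finset.card_le_card h
      have h3 := hmax T hT
      have h4 : S = T := Finset.eq_of_subset_of_card_le h (by omega)
      exact absurd h4.symm hTS

/-- alternating sum of the maps adding subsets of `A` -/
noncomputable def EE (R : Type) [CommRing R] (A : Finset X) :
    (Finset (Finset X) →₀ R) →ₗ[R] (Finset (Finset X) →₀ R) :=
  ∑ T ∈ A.powerset, (-1 : R) ^ T.card • push R (fun S : Finset X => S ∪ T)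

theorem EE_kill {A : Finset X} {C : Finset (Finset X)} {i : X} (hi : i ∈ A)
    (hC : ∀ S ∈ C, i ∈ S) : EE R A (b R C) = 0 := by
  classical
  have hA : A = insert i (A.erase i) := (Finset.insert_erase hi).symm
  rw [EE, hA, Finset.sum_powerset_insert (Finset.notMem_erase i A), ← Finset.sum_add_distrib,
    LinearMap.sum_apply]
  refine Finset.sum_eq_zero fun T hT => ?_
  have hiT : i ∉ T := fun h => Finset.notMem_erase i A (Finset.mem_powerset.1 hT h)
  rw [LinearMap.add_apply, LinearMap.smul_apply, LinearMap.smul_apply,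
    Finset.card_insert_of_notMem hiT]
  have : push R (fun S : Finset X => S ∪ insert i T) (b R C)
      = push R (fun S : Finset X => S ∪ T) (b R C) := by
    refine push_congr_b ?_
    intro S hS
    ext x
    simp only [Finset.mem_union, Finset.mem_insert]
    constructor
    · rintro (h | rfl | h)
      · exact Or.inl h
      · exact Or.inl (hC S hS)
      · exact Or.inr h
    · rintro (h | h)
      · exact Or.inl h
      · exact Or.inr (Or.inr h)
  rw [this, pow_succ, ← add_smul]
  simp

theorem MK_not_acyc [Nonempty X] {K : Set (Finset X)} (hK : ∀ s ∈ K, ∀ t ⊆ s, t ∈ K)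
    (hK0 : ∅ ∈ K)
    {R0 : Finset X} {n : ℕ} (hdim : ∀ s ∈ K, s ⊆ R0 → s.card ≤ n + 1)
    {y0 : Finset X →₀ R} (hy0 : y0 ∈ Sup R (Fn (KY K R0) (n + 1))) (hby0 : bd R X y0 = 0)
    (hne : y0 ≠ 0) : ¬ Acyc R (MK K) (n + 1 + 1) := by
  classical
  intro hacyc
  have hOC := KY_isOC hK R0
  set y := sdc R X (n + 1) y0 with hy
  have hyF : y ∈ Sup R (Fn (sdF (KY K R0)) (n + 1)) := sdc_Fn hOC hy0
  have hy0c : y0 ∈ Sup R (Cn X (n + 1)) := sup_mono (Fn_Cn hOC _) hy0
  have hby : bd R (Finset X) y = 0 := by
    rw [hy, bd_sdc n y0 hy0c, hby0, map_zero]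
  have hyne : y ≠ 0 := by
    intro h
    apply hne
    rw [← r_sdc (n + 1) y0 hy0c, ← hy, h, map_zero]
  -- flags of nonempty subsets of `R0`
  have hflag : ∀ C ∈ Fn (sdF (KY K R0)) (n + 1), ∀ w ∈ C, (∅ : Finset X) < w := by
    intro C hC w hw
    exact Finset.empty_ssubset.2 (hC.1.2.1 w hw).2.1
  have hflag' : ∀ C ∈ Fn (sdF (KY K R0)) (n + 1), (∅ : Finset X) ∉ C := by
    intro C hC hw
    exact lt_irrefl _ (hflag C hC _ hw)
  set c0 := cobot R (∅ : Finset X) y with hc0
  have hbc0 : bd R (Finset X) c0 = y := by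
    rw [hc0, bd_cobot (sup_mono hflag hyF), hby, map_zero, sub_zero]
  -- support of c0
  have hc0F : c0 ∈ Sup R {C | C ∈ Fn (MK K) (n + 1 + 1) ∧ ∀ S ∈ C, S ⊆ R0} := by
    refine map_sup ?_ hyF
    intro C hC
    rw [cobot_b, cobot0_of_notMem (hflag' C hC)]
    refine Submodule.smul_mem _ _ (b_mem ⟨⟨⟨Finset.insert_nonempty _ _, ?_, ?_⟩, ?_⟩, ?_⟩)
    · rw [Finset.coe_insert]
      refine hC.1.2.2.insert ?_
      intro T hT _
      exact Or.inl (Finset.empty_subset T)
    · intro S hS T _
      rcases Finset.mem_insert.1 hS with h | h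
      · rw [h, Finset.empty_sdiff]; exact hK0
      · exact hK S (hC.1.2.1 S h).1 _ Finset.sdiff_subset
    · rw [Finset.card_insert_of_notMem (hflag' C hC), hC.2]
    · intro S hS
      rcases Finset.mem_insert.1 hS with h | h
      · rw [h]; exact Finset.empty_subset _
      · exact (hC.1.2.1 S h).2.2
  have hmono : ∀ (T : Finset X) (C : Finset (Finset X)),
      MonotoneOn (fun S : Finset X => S ∪ T) (C : Set (Finset X)) := by
    intro T C S _ S' _ hSS'
    exact Finset.union_subset_union hSS' le_rfl
  set z := EE R R0 c0 with hz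
  have hbz : bd R (Finset X) z = 0 := by
    have h1 : bd R (Finset X) z = EE R R0 (bd R (Finset X) c0) := by
      rw [hz, EE, LinearMap.sum_apply, LinearMap.sum_apply, map_sum]
      refine Finset.sum_congr rfl fun T _ => ?_
      rw [LinearMap.smul_apply, LinearMap.smul_apply, map_smul, bd_push]
      refine sup_mono ?_ hc0F
      intro C hC
      exact ⟨hC.1.1.2.1, hmono T C⟩
    rw [h1, hbc0]
    refine ext_on (f := EE R R0) (g := 0) ?_ hyF
    intro C hC
    obtain ⟨B, hB, hmin⟩ := C.exists_minimal hC.1.1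
    obtain ⟨i, hi⟩ := (hC.1.2.1 B hB).2.1
    rw [LinearMap.zero_apply]
    refine EE_kill ((hC.1.2.1 B hB).2.2 hi) ?_
    intro S hS
    rcases eq_or_ne B S with rfl | hBS
    · exact hi
    · rcases hC.1.2.2 hB hS hBS with h | h
      · exact h hi
      · exact (hmin hS h) hi
  have hzF : z ∈ Sup R (Fn (MK K) (n + 1 + 1)) := by
    rw [hz, EE, LinearMap.sum_apply]
    refine Submodule.sum_mem _ fun T _ => ?_
    rw [LinearMap.smul_apply]
    refine Submodule.smul_mem _ _ ?_
    refine map_sup ?_ hc0F
    intro C hC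
    rw [push_b]
    by_cases hi : Set.InjOn (fun S : Finset X => S ∪ T) (C : Set (Finset X))
    · rw [push0_of_inj hi]
      refine b_mem ⟨⟨hC.1.1.1.image _, ?_, ?_⟩, ?_⟩
      · intro x hx y hy hxy
        simp only [Finset.coe_image, Set.mem_image, Finset.mem_coe] at hx hy
        obtain ⟨u, hu, rfl⟩ := hx
        obtain ⟨v, hv, rfl⟩ := hy
        have huv : u ≠ v := fun h => hxy (by rw [h])
        rcases hC.1.1.2.1 hu hv huv with h | h
        · exact Or.inl (hmono T C hu hv h)
        · exact Or.inr (hmono T C hv hu h)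
      · intro S hS S' hS'
        obtain ⟨u, hu, rfl⟩ := Finset.mem_image.1 hS
        obtain ⟨v, hv, rfl⟩ := Finset.mem_image.1 hS'
        refine hK _ (hC.1.1.2.2 u hu v hv) _ ?_
        intro x hx
        simp only [Finset.mem_sdiff, Finset.mem_union, not_or] at hx ⊢
        rcases hx with ⟨h1 | h1, h2, h3⟩
        · exact ⟨h1, h2⟩
        · exact absurd h1 h3
      · rw [Finset.card_image_of_injOn hi, hC.1.2]
    · rw [push0_of_not_inj hi]; exact Submodule.zero_mem _
  have hzR0 : z ∈ Sup R {C : Finset (Finset X) | ∀ S ∈ C, S ⊆ R0} := by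
    rw [hz, EE, LinearMap.sum_apply]
    refine Submodule.sum_mem _ fun T hT => ?_
    rw [LinearMap.smul_apply]
    refine Submodule.smul_mem _ _ ?_
    refine map_sup ?_ hc0F
    intro C hC
    rw [push_b]
    by_cases hi : Set.InjOn (fun S : Finset X => S ∪ T) (C : Set (Finset X))
    · rw [push0_of_inj hi]
      refine b_mem ?_
      intro S hS
      obtain ⟨u, hu, rfl⟩ := Finset.mem_image.1 hS
      exact Finset.union_subset (hC.2 u hu) (Finset.mem_powerset.1 hT)
    · rw [push0_of_not_inj hi]; exact Submodule.zero_mem _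
  have hzne : z ≠ 0 := by
    intro h0
    apply hyne
    have h1 : del R (∅ : Finset X) z = y := by
      rw [hz, EE, LinearMap.sum_apply, map_sum, Finset.sum_eq_single ∅]
      · rw [Finset.card_empty, pow_zero, one_smul]
        have h2 : push R (fun S : Finset X => S ∪ ∅) c0 = c0 := by
          refine ext_on (f := push R (fun S : Finset X => S ∪ ∅)) (g := LinearMap.id) ?_ hc0F
          intro C _
          exact push_id_b (fun S _ => Finset.union_empty S)
        rw [h2, hc0]
        refine ext_on (f := del R (∅ : Finset X) ∘ₗ cobot R (∅ : Finset X)) (g := LinearMap.id)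
          ?_ hyF
        intro C hC
        exact del_cobot_b (hflag' C hC)
      · intro T hT hTne
        rw [LinearMap.smul_apply, map_smul]
        have h2 : del R (∅ : Finset X) (push R (fun S : Finset X => S ∪ T) c0) = 0 := by
          refine ext_on (f := del R (∅ : Finset X) ∘ₗ push R (fun S : Finset X => S ∪ T))
            (g := 0) ?_ hc0F
          intro C _
          rw [LinearMap.comp_apply, push_b, LinearMap.zero_apply]
          by_cases hi : Set.InjOn (fun S : Finset X => S ∪ T) (C : Set (Finset X))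
          · rw [push0_of_inj hi, del_b, del0_of_notMem]
            intro h3
            obtain ⟨u, hu, hu2⟩ := Finset.mem_image.1 h3
            have h4 : T ⊆ ∅ := by
              rw [← hu2]; exact Finset.subset_union_right
            exact hTne (Finset.subset_empty.1 h4)
          · rw [push0_of_not_inj hi, map_zero]
        rw [h2, smul_zero]
      · intro h2
        exact absurd (Finset.empty_mem_powerset R0) h2
    rw [← h1, h0, map_zero]
  -- the retraction
  obtain ⟨w, hw, hbw⟩ := hacyc z hzF hbz
  have hmono3 : ∀ (C : Finset (Finset X)),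
      MonotoneOn (fun S : Finset X => S ∩ R0) (C : Set (Finset X)) := by
    intro C S _ S' _ hSS'
    exact Finset.inter_subset_inter hSS' le_rfl
  have hpz : push R (fun S : Finset X => S ∩ R0) z = z := by
    refine ext_on (f := push R (fun S : Finset X => S ∩ R0)) (g := LinearMap.id) ?_ hzR0
    intro C hC
    exact push_id_b (fun S hS => Finset.inter_eq_left.2 (hC S hS))
  have hpw : push R (fun S : Finset X => S ∩ R0) w = 0 := by
    refine ext_on (f := push R (fun S : Finset X => S ∩ R0)) (g := 0) ?_ hw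
    intro C hC
    rw [push_b, LinearMap.zero_apply, push0_of_not_inj]
    intro hi
    have hchain : IsChain (· ≤ ·)
        ((C.image (fun S : Finset X => S ∩ R0) : Finset (Finset X)) : Set (Finset X)) := by
      intro x hx y hy hxy
      simp only [Finset.coe_image, Set.mem_image, Finset.mem_coe] at hx hy
      obtain ⟨u, hu, rfl⟩ := hx
      obtain ⟨v, hv, rfl⟩ := hy
      have huv : u ≠ v := fun h => hxy (by rw [h])
      rcases hC.1.2.1 hu hv huv with h | h
      · exact Or.inl (hmono3 C hu hv h)
      · exact Or.inr (hmono3 C hv hu h)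
    obtain ⟨S, hS, T, hT, hTS, hcard⟩ := exists_far hchain
      (n := n + 2) (by rw [Finset.card_image_of_injOn hi, hC.2])
    obtain ⟨u, hu, rfl⟩ := Finset.mem_image.1 hS
    obtain ⟨v, hv, rfl⟩ := Finset.mem_image.1 hT
    have h1 : (u ∩ R0) \ (v ∩ R0) ∈ K := by
      refine hK _ (hC.1.2.2 u hu v hv) _ ?_
      intro x hx
      simp only [Finset.mem_sdiff, Finset.mem_inter, not_and] at hx ⊢
      exact ⟨hx.1.1, fun h => hx.2 h hx.1.2⟩
    have h2 := hdim _ h1 (Finset.sdiff_subset.trans Finset.inter_subset_right)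
    rw [Finset.card_sdiff_of_subset hTS] at h2
    omega
  apply hzne
  rw [← hpz, ← hbw, ← bd_push, hpw, map_zero]
  refine sup_mono ?_ hw
  intro C hC
  exact ⟨hC.1.2.1, hmono3 C⟩

end Pool.Agent.Helper72.TA
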