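import Mathlib
import Pool.Agent.Helper72.TA5

/-!
The complex `Y` with eight vertices whose homology has three-torsion.
-/

set_option linter.unusedSectionVars false

namespace Pool.Agent.Helper72.TA

open Finset

/-- the seventeen triangles -/
def tri : Fin 17 → Finset (Fin 8) :=
  ![{0, 1, 4}, {0, 1, 6}, {0, 1, 7}, {0, 2, 3}, {0, 2, 4}, {0, 2, 6}, {0, 3, 5}, {0, 5, 7},
    {1, 2, 3}, {1, 2, 5}, {1, 2, 7}, {1, 3, 6}, {1, 4, 5}, {2, 4, 7}, {2, 5, 6}, {3, 5, 6},
    {4, 5, 7}]

/-- faces of `Y`, the empty set included -/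
def YY : Set (Finset (Fin 8)) := {s | ∃ j, s ⊆ tri j}

theorem tri_card (j : Fin 17) : (tri j).card = 3 := by
  revert j; decide

theorem tri_inj : Function.Injective tri := by
  decide

theorem YY_card {s : Finset (Fin 8)} (h : s ∈ YY) : s.card ≤ 3 := by
  obtain ⟨j, hj⟩ := h
  rw [← tri_card j]
  exact Finset.card_le_card hj

theorem YY_dn : ∀ s ∈ YY, ∀ t ⊆ s, t ∈ YY := by
  rintro s ⟨j, hj⟩ t ht
  exact ⟨j, ht.trans hj⟩

theorem YY_empty : ∅ ∈ YY := ⟨0, Finset.empty_subset _⟩

theorem YY_three {s : Finset (Fin 8)} (h : s ∈ YY) (hc : s.card = 3) : ∃ j, s = tri j := by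
  obtain ⟨j, hj⟩ := h
  exact ⟨j, Finset.eq_of_subset_of_card_le hj (by rw [hc, tri_card])⟩

theorem neg_two (x : ZMod 2) : -x = x := by revert x; decide

theorem inc_two {V : Type} [PartialOrder V] [DecidableEq V] (s u : Finset V) :
    (bd (ZMod 2) V (b (ZMod 2) s)) u = if u ⊆ s ∧ s.card = u.card + 1 then 1 else 0 := by
  split_ifs with h
  · rcases inc_eq (R := ZMod 2) h.1 h.2 with h1 | h1
    · exact h1
    · rw [h1]; decide
  · exact inc_zero h

theorem YY_two_eq {c : Finset (Fin 8) →₀ ZMod 2}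
    (hc : c ∈ Sup (ZMod 2) (Fn {s | s ∈ YY ∧ s.Nonempty} 3)) (hb : bd (ZMod 2) (Fin 8) c = 0)
    (u : Finset (Fin 8)) (hu : u.card = 2) :
    ∑ j : Fin 17, (if u ⊆ tri j then c (tri j) else 0) = 0 := by
  classical
  have h0 : (bd (ZMod 2) (Fin 8) c) u = 0 := by rw [hb]; rfl
  rw [bd_apply, Finsupp.sum] at h0
  refine Eq.trans ?_ h0
  have hsub : c.support ⊆ Finset.univ.image tri := by
    intro s hs
    have := (Finsupp.mem_supported _ c).1 hc hs
    obtain ⟨j, hj⟩ := YY_three this.1.1 this.2
    exact Finset.mem_image.2 ⟨j, Finset.mem_univ _, hj.symm⟩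
  rw [Finset.sum_subset hsub (by
    intro s _ hs
    rw [Finsupp.notMem_support_iff.1 hs, zero_mul])]
  rw [Finset.sum_image (fun a _ b _ h => tri_inj h)]
  refine Finset.sum_congr rfl fun j _ => ?_
  rw [inc_two]
  by_cases h : u ⊆ tri j
  · rw [if_pos h, if_pos ⟨h, by rw [tri_card, hu]⟩, mul_one]
  · rw [if_neg h, if_neg (fun h' => h h'.1), mul_zero]

theorem two_add {x y : ZMod 2} (h : x + y = 0) : x = y := by
  revert x y; decide

theorem YY_two {c : Finset (Fin 8) →₀ ZMod 2}
    (hc : c ∈ Sup (ZMod 2) (Fn {s | s ∈ YY ∧ s.Nonempty} 3)) (hb : bd (ZMod 2) (Fin 8) c = 0) :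
    c = 0 := by
  have pair : ∀ (i j : Fin 17) (u : Finset (Fin 8)), u.card = 2 → i ≠ j →
      (∀ l, (u ⊆ tri l ↔ (l = i ∨ l = j))) → c (tri i) = c (tri j) := by
    intro i j u hu hij hl
    have h := YY_two_eq hc hb u hu
    rw [← Finset.sum_filter] at h
    have h2 : Finset.univ.filter (fun l => u ⊆ tri l) = {i, j} := by
      ext l; simp [hl l]
    rw [h2, Finset.sum_pair hij] at h
    exact two_add h
  have e04 := pair 0 4 {0, 4} (by decide) (by decide) (by decide)
  have e05 := pair 6 7 {0, 5} (by decide) (by decide) (by decide)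
  have e06 := pair 1 5 {0, 6} (by decide) (by decide) (by decide)
  have e07 := pair 2 7 {0, 7} (by decide) (by decide) (by decide)
  have e03 := pair 3 6 {0, 3} (by decide) (by decide) (by decide)
  have e13 := pair 8 11 {1, 3} (by decide) (by decide) (by decide)
  have e14 := pair 0 12 {1, 4} (by decide) (by decide) (by decide)
  have e15 := pair 9 12 {1, 5} (by decide) (by decide) (by decide)
  have e16 := pair 1 11 {1, 6} (by decide) (by decide) (by decide)
  have e17 := pair 2 10 {1, 7} (by decide) (by decide) (by decide)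
  have e23 := pair 3 8 {2, 3} (by decide) (by decide) (by decide)
  have e24 := pair 4 13 {2, 4} (by decide) (by decide) (by decide)
  have e25 := pair 9 14 {2, 5} (by decide) (by decide) (by decide)
  have e26 := pair 5 14 {2, 6} (by decide) (by decide) (by decide)
  have e27 := pair 10 13 {2, 7} (by decide) (by decide) (by decide)
  have e35 := pair 6 15 {3, 5} (by decide) (by decide) (by decide)
  have e36 := pair 11 15 {3, 6} (by decide) (by decide) (by decide)
  have e45 := pair 12 16 {4, 5} (by decide) (by decide) (by decide)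
  have h01 := YY_two_eq hc hb {0, 1} (by decide)
  have hf : Finset.univ.filter (fun l => ({0, 1} : Finset (Fin 8)) ⊆ tri l) = {0, 1, 2} := by
    decide
  rw [← Finset.sum_filter, hf, Finset.sum_insert (by decide), Finset.sum_insert (by decide),
    Finset.sum_singleton] at h01
  -- everything equals `c (tri 0)`
  have a4 : c (tri 4) = c (tri 0) := e04.symm
  have a12 : c (tri 12) = c (tri 0) := e14.symm
  have a9 : c (tri 9) = c (tri 0) := e15.trans a12
  have a16 : c (tri 16) = c (tri 0) := e45.symm.trans a12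
  have a13 : c (tri 13) = c (tri 0) := e24.symm.trans a4
  have a10 : c (tri 10) = c (tri 0) := e27.trans a13
  have a2 : c (tri 2) = c (tri 0) := e17.trans a10
  have a7 : c (tri 7) = c (tri 0) := e07.symm.trans a2
  have a6 : c (tri 6) = c (tri 0) := e05.trans a7
  have a3 : c (tri 3) = c (tri 0) := e03.trans a6
  have a15 : c (tri 15) = c (tri 0) := e35.symm.trans a6
  have a11 : c (tri 11) = c (tri 0) := e36.trans a15
  have a8 : c (tri 8) = c (tri 0) := e13.trans a11
  have a1 : c (tri 1) = c (tri 0) := e16.trans a11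
  have a5 : c (tri 5) = c (tri 0) := e06.symm.trans a1
  have a14 : c (tri 14) = c (tri 0) := e25.symm.trans a9
  have a0 : c (tri 0) = 0 := by
    rw [a1, a2] at h01
    revert h01
    generalize c (tri 0) = x
    revert x
    decide
  have hall : ∀ j, c (tri j) = 0 := by
    intro j
    fin_cases j
    · exact a0
    · exact a1.trans a0
    · exact a2.trans a0
    · exact a3.trans a0
    · exact a4.trans a0
    · exact a5.trans a0
    · exact a6.trans a0
    · exact a7.trans a0
    · exact a8.trans a0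
    · exact a9.trans a0
    · exact a10.trans a0
    · exact a11.trans a0
    · exact a12.trans a0
    · exact a13.trans a0
    · exact a14.trans a0
    · exact a15.trans a0
    · exact a16.trans a0
  rw [← Finsupp.support_eq_empty]
  by_contra hne
  obtain ⟨s, hs⟩ := Finset.nonempty_iff_ne_empty.2 hne
  have := (Finsupp.mem_supported _ c).1 hc hs
  obtain ⟨j, hj⟩ := YY_three this.1.1 this.2
  exact (Finsupp.mem_support_iff.1 hs) (by rw [hj]; exact hall j)

theorem bd_tri {R : Type} [CommRing R] {V : Type} [LinearOrder V] {x y z : V}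
    (hxy : x < y) (hyz : y < z) :
    bd R V (b R {x, y, z}) = b R {x, y} - b R {x, z} + b R {y, z} := by
  have hx : bd R V (b R ({x} : Finset V)) = b R ∅ := by
    rw [bd_b, bd0_eq, Finset.sum_singleton, sg_top (by simp)]
    simp
  have hy : bd R V (b R ({y} : Finset V)) = b R ∅ := by
    rw [bd_b, bd0_eq, Finset.sum_singleton, sg_top (by simp)]
    simp
  have c1 : b R ({x, y} : Finset V) = cone R y (b R {x}) := by
    rw [cone_b, cone0_of_notMem (by simp [hxy.ne'])]
    congr 1
    ext w; simp [or_comm]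
  have c2 : b R ({x, y, z} : Finset V) = cone R z (b R {x, y}) := by
    rw [cone_b, cone0_of_notMem (by simp [hyz.ne', (hxy.trans hyz).ne'])]
    congr 1
    ext w
    simp only [Finset.mem_insert, Finset.mem_singleton]
    tauto
  have h2 : bd R V (b R ({x, y} : Finset V)) = b R {x} - b R {y} := by
    rw [c1, bd_cone (b_mem (by intro w hw; rw [Finset.mem_singleton.1 hw]; exact hxy.le)), hx,
      cone_b, cone0_of_notMem (by simp)]
    simp
  rw [c2, bd_cone (b_mem (by
    intro w hw
    rcases Finset.mem_insert.1 hw with rfl | hw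
    · exact (hxy.trans hyz).le
    · rw [Finset.mem_singleton.1 hw]; exact hyz.le)), h2, map_sub, cone_b, cone_b,
    cone0_of_notMem (by simp [(hxy.trans hyz).ne']), cone0_of_notMem (by simp [hyz.ne'])]
  have e1 : insert z ({x} : Finset V) = {x, z} := by ext w; simp [or_comm]
  have e2 : insert z ({y} : Finset V) = {y, z} := by ext w; simp [or_comm]
  rw [e1, e2]
  abel

/-- the mod three cycle. -/
noncomputable def y3 : Finset (Fin 8) →₀ ZMod 3 :=
  b (ZMod 3) {0, 1, 4} + b (ZMod 3) {0, 1, 6} + b (ZMod 3) {0, 1, 7} - b (ZMod 3) {0, 2, 3}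
    - b (ZMod 3) {0, 2, 4} - b (ZMod 3) {0, 2, 6} - b (ZMod 3) {0, 3, 5} - b (ZMod 3) {0, 5, 7}
    + b (ZMod 3) {1, 2, 3} + b (ZMod 3) {1, 2, 5} + b (ZMod 3) {1, 2, 7} + b (ZMod 3) {1, 3, 6}
    - b (ZMod 3) {1, 4, 5} + b (ZMod 3) {2, 4, 7} - b (ZMod 3) {2, 5, 6} + b (ZMod 3) {3, 5, 6}
    + b (ZMod 3) {4, 5, 7}

theorem three_smul_zero {M : Type} [AddCommGroup M] [Module (ZMod 3) M] (x : M) :
    x + x + x = 0 := by
  have : x + x + x = (3 : ZMod 3) • x := by module
  rw [this]
  have h3 : (3 : ZMod 3) = 0 := by decide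
  rw [h3, zero_smul]

theorem bd_y3 : bd (ZMod 3) (Fin 8) y3 = 0 := by
  unfold y3
  simp only [map_add, map_sub]
  rw [bd_tri (x := (0 : Fin 8)) (y := 1) (z := 4) (by decide) (by decide),
    bd_tri (x := (0 : Fin 8)) (y := 1) (z := 6) (by decide) (by decide),
    bd_tri (x := (0 : Fin 8)) (y := 1) (z := 7) (by decide) (by decide),
    bd_tri (x := (0 : Fin 8)) (y := 2) (z := 3) (by decide) (by decide),
    bd_tri (x := (0 : Fin 8)) (y := 2) (z := 4) (by decide) (by decide),
    bd_tri (x := (0 : Fin 8)) (y := 2) (z := 6) (by decide) (by decide),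
    bd_tri (x := (0 : Fin 8)) (y := 3) (z := 5) (by decide) (by decide),
    bd_tri (x := (0 : Fin 8)) (y := 5) (z := 7) (by decide) (by decide),
    bd_tri (x := (1 : Fin 8)) (y := 2) (z := 3) (by decide) (by decide),
    bd_tri (x := (1 : Fin 8)) (y := 2) (z := 5) (by decide) (by decide),
    bd_tri (x := (1 : Fin 8)) (y := 2) (z := 7) (by decide) (by decide),
    bd_tri (x := (1 : Fin 8)) (y := 3) (z := 6) (by decide) (by decide),
    bd_tri (x := (1 : Fin 8)) (y := 4) (z := 5) (by decide) (by decide),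
    bd_tri (x := (2 : Fin 8)) (y := 4) (z := 7) (by decide) (by decide),
    bd_tri (x := (2 : Fin 8)) (y := 5) (z := 6) (by decide) (by decide),
    bd_tri (x := (3 : Fin 8)) (y := 5) (z := 6) (by decide) (by decide),
    bd_tri (x := (4 : Fin 8)) (y := 5) (z := 7) (by decide) (by decide)]
  have h1 := three_smul_zero (b (ZMod 3) ({0, 1} : Finset (Fin 8)))
  have h2 := three_smul_zero (b (ZMod 3) ({0, 2} : Finset (Fin 8)))
  have h3 := three_smul_zero (b (ZMod 3) ({1, 2} : Finset (Fin 8)))
  linear_combination (norm := module) h1 - h2 + h3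

theorem y3_mem : y3 ∈ Sup (ZMod 3) (Fn {s | s ∈ YY ∧ s.Nonempty} 3) := by
  have key : ∀ j, b (ZMod 3) (tri j) ∈ Sup (ZMod 3) (Fn {s | s ∈ YY ∧ s.Nonempty} 3) := by
    intro j
    refine b_mem ⟨⟨⟨j, le_rfl⟩, Finset.card_pos.1 (by rw [tri_card]; omega)⟩, tri_card j⟩
  unfold y3
  refine Submodule.add_mem _ (Submodule.add_mem _ (Submodule.sub_mem _ (Submodule.add_mem _
    (Submodule.sub_mem _ (Submodule.add_mem _ (Submodule.add_mem _ (Submodule.add_mem _
    (Submodule.add_mem _ (Submodule.sub_mem _ (Submodule.sub_mem _ (Submodule.sub_mem _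
    (Submodule.sub_mem _ (Submodule.sub_mem _ (Submodule.add_mem _ (Submodule.add_mem _
    (key 0) (key 1)) (key 2)) (key 3)) (key 4)) (key 5)) (key 6)) (key 7)) (key 8)) (key 9))
    (key 10)) (key 11)) (key 12)) (key 13)) (key 14)) (key 15)) (key 16)

theorem y3_ne : y3 ≠ 0 := by
  intro h
  have h1 : y3 {0, 1, 4} = 1 := by
    unfold y3
    simp only [b, Finsupp.add_apply, Finsupp.sub_apply]
    rw [Finsupp.single_eq_same]
    repeat rw [Finsupp.single_eq_of_ne (by decide)]
    simp
  rw [h] at h1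
  exact absurd h1 (by simp)

end Pool.Agent.Helper72.TA
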