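import Mathlib
import Pool.Agent.Helper72.TA6

/-!
The complex `K` on `8 × 5` vertices and the homology of the triangulated manifold.
-/

set_option linter.unusedSectionVars false

namespace Pool.Agent.Helper72.TA

open Finset

theorem sg_two {V : Type} [PartialOrder V] (v : V) (s : Finset V) : sg (ZMod 2) v s = 1 := by
  rcases sg_cases (R := ZMod 2) v s with h | h
  · exact h
  · rw [h]; decide

theorem bd_cone_two {V : Type} [PartialOrder V] (t : V) (c : Finset V →₀ ZMod 2) :
    bd (ZMod 2) V (cone (ZMod 2) t c) = c - cone (ZMod 2) t (bd (ZMod 2) V c) := by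
  classical
  refine ext_on (f := bd (ZMod 2) V ∘ₗ cone (ZMod 2) t)
    (g := LinearMap.id - cone (ZMod 2) t ∘ₗ bd (ZMod 2) V) (A := Set.univ) ?_
    (by simp [Sup])
  intro s _
  simp only [LinearMap.comp_apply, LinearMap.sub_apply, LinearMap.id_apply]
  rw [cone_b]
  by_cases ht : t ∈ s
  · rw [cone0_of_mem ht, map_zero, bd_b, bd0_eq, map_sum]
    rw [Finset.sum_eq_single t]
    · rw [map_smul, cone_b, cone0_of_notMem (Finset.notMem_erase t s), Finset.insert_erase ht,
        sg_two, one_smul, sub_self]
    · intro v hv hvt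
      rw [map_smul, cone_b, cone0_of_mem, smul_zero]
      exact Finset.mem_erase.2 ⟨fun h' => hvt h'.symm, ht⟩
    · intro h'; exact absurd ht h'
  · rw [cone0_of_notMem ht, bd_b, bd0_eq, Finset.sum_insert ht, Finset.erase_insert ht,
      sg_two, one_smul, bd_b, bd0_eq, map_sum, sub_eq_add_neg, ← Finset.sum_neg_distrib]
    congr 1
    refine Finset.sum_congr rfl fun v hv => ?_
    have hvt : v ≠ t := fun h' => ht (h' ▸ hv)
    rw [map_smul, cone_b, cone0_of_notMem (fun h' => ht (Finset.mem_of_mem_erase h')),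
      sg_two, sg_two, one_smul, one_smul, Finset.erase_insert_of_ne hvt.symm]
    have : ∀ x : Finset V →₀ ZMod 2, x = -x := by
      intro x
      ext i
      rw [Finsupp.neg_apply, neg_two]
    exact this _

/-- vertices of `K` -/
abbrev X8 : Type := Fin 8 ×ₗ Fin 5

/-- the complex `K`, empty face included -/
def K8 : Set (Finset X8) :=
  {s | (∀ i : Fin 8, ∃ a : Fin 5, toLex (i, a) ∉ s) ∧
    (univ.filter (fun i : Fin 8 => toLex (i, (0 : Fin 5)) ∈ s)) ∈ YY ∧
    (univ.filter (fun i : Fin 8 => ∃ a : Fin 5, a ≠ 0 ∧ toLex (i, a) ∉ s)) ∉ YY}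

theorem K8_dn : ∀ s ∈ K8, ∀ t ⊆ s, t ∈ K8 := by
  rintro s ⟨h1, h2, h3⟩ t ht
  refine ⟨?_, ?_, ?_⟩
  · intro i
    obtain ⟨a, ha⟩ := h1 i
    exact ⟨a, fun h => ha (ht h)⟩
  · refine YY_dn _ h2 _ ?_
    intro i hi
    simp only [Finset.mem_filter, Finset.mem_univ, true_and] at hi ⊢
    exact ht hi
  · intro h
    apply h3
    refine YY_dn _ h _ ?_
    intro i hi
    simp only [Finset.mem_filter, Finset.mem_univ, true_and] at hi ⊢
    obtain ⟨a, ha, ha'⟩ := hi
    exact ⟨a, ha, fun h => ha' (ht h)⟩

/-- faces with at most four elements -/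
theorem K8_small {s : Finset X8} (hs : s.card ≤ 4) :
    s ∈ K8 ↔ (univ.filter (fun i : Fin 8 => toLex (i, (0 : Fin 5)) ∈ s)) ∈ YY := by
  constructor
  · exact fun h => h.2.1
  · intro h
    refine ⟨?_, h, ?_⟩
    · intro i
      by_contra hcon
      push Not at hcon
      have h1 : (univ : Finset (Fin 5)).image (fun a => (toLex (i, a) : X8)) ⊆ s := by
        intro x hx
        obtain ⟨a, _, rfl⟩ := Finset.mem_image.1 hx
        exact hcon a
      have h2 := Finset.card_le_card h1
      rw [Finset.card_image_of_injective _ (by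
        intro a a' haa'
        have := congrArg (fun x : X8 => (ofLex x).2) haa'
        simpa using this)] at h2
      simp at h2
      omega
    · intro h3
      have hc := YY_card h3
      set A := univ.filter (fun i : Fin 8 => ∃ a : Fin 5, a ≠ 0 ∧ toLex (i, a) ∉ s) with hA
      have hAc : 5 ≤ Aᶜ.card := by
        rw [Finset.card_compl, Fintype.card_fin]; omega
      have h1 : (Aᶜ ×ˢ ({1, 2} : Finset (Fin 5))).image (fun p => (toLex p : X8)) ⊆ s := by
        intro x hx
        obtain ⟨⟨i, a⟩, hp, rfl⟩ := Finset.mem_image.1 hx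
        rw [Finset.mem_product] at hp
        have hi := hp.1
        simp only [hA, Finset.mem_compl, Finset.mem_filter, Finset.mem_univ, true_and, not_exists,
          not_and, not_not] at hi
        refine hi a ?_
        have ha := hp.2
        simp only [Finset.mem_insert, Finset.mem_singleton] at ha
        rcases ha with rfl | rfl <;> decide
      have h2 := Finset.card_le_card h1
      rw [Finset.card_image_of_injective _ toLex.injective, Finset.card_product] at h2
      have h4 : ({1, 2} : Finset (Fin 5)).card = 2 := by decide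
      rw [h4] at h2
      omega

theorem K8_empty : ∅ ∈ K8 := by
  rw [K8_small (by simp)]
  simpa using YY_empty

/-- the special vertices -/
def R8 : Finset X8 := univ.filter (fun x => (ofLex x).2 = 0)

theorem mem_R8 {x : X8} : x ∈ R8 ↔ (ofLex x).2 = 0 := by simp [R8]

theorem rows_eq_image {s : Finset X8} (hs : s ⊆ R8) :
    univ.filter (fun i : Fin 8 => (toLex (i, (0 : Fin 5)) : X8) ∈ s)
      = s.image (fun x => (ofLex x).1) := by
  ext i
  simp only [Finset.mem_filter, Finset.mem_univ, true_and, Finset.mem_image]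
  constructor
  · intro h
    exact ⟨_, h, rfl⟩
  · rintro ⟨x, hx, rfl⟩
    have := mem_R8.1 (hs hx)
    rw [← this]
    exact hx

theorem fst_injOn {s : Finset X8} (hs : s ⊆ R8) :
    Set.InjOn (fun x : X8 => (ofLex x).1) (s : Set X8) := by
  intro x hx y hy hxy
  have h1 := mem_R8.1 (hs hx)
  have h2 := mem_R8.1 (hs hy)
  apply ofLex.injective
  exact Prod.ext hxy (h1.trans h2.symm)

theorem K8_dim : ∀ s ∈ K8, s ⊆ R8 → s.card ≤ 3 := by
  intro s hs hsR
  have h1 := YY_card hs.2.1
  rw [rows_eq_image hsR, Finset.card_image_of_injOn (fst_injOn hsR)] at h1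
  exact h1

theorem fst_mono : Monotone (fun x : X8 => (ofLex x).1) := by
  intro x y hxy
  rcases (Prod.Lex.le_iff).1 hxy with h | h
  · exact h.le
  · exact h.1.le

theorem emb_mono : Monotone (fun i : Fin 8 => (toLex (i, (0 : Fin 5)) : X8)) := by
  intro i j hij
  rw [Prod.Lex.le_iff]
  rcases hij.lt_or_eq with h | h
  · exact Or.inl h
  · subst h
    exact Or.inr ⟨rfl, le_rfl⟩

theorem emb_inj : Function.Injective (fun i : Fin 8 => (toLex (i, (0 : Fin 5)) : X8)) := by
  intro i j hij
  have := congrArg (fun x : X8 => (ofLex x).1) hij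
  simpa using this

theorem lin_chain {V : Type} [LinearOrder V] (s : Finset V) :
    IsChain (· ≤ ·) (s : Set V) := by
  intro x _ y _ _
  exact le_total x y

/-- the cycle in `K` -/
theorem exists_y0 : ∃ y0 : Finset X8 →₀ ZMod 3, y0 ∈ Sup (ZMod 3) (Fn (KY K8 R8) 3) ∧
    bd (ZMod 3) X8 y0 = 0 ∧ y0 ≠ 0 := by
  refine ⟨push (ZMod 3) (fun i : Fin 8 => (toLex (i, (0 : Fin 5)) : X8)) y3, ?_, ?_, ?_⟩
  · refine map_sup ?_ y3_mem
    intro s hs
    have hinj : Set.InjOn (fun i : Fin 8 => (toLex (i, (0 : Fin 5)) : X8)) (s : Set (Fin 8)) :=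
      emb_inj.injOn
    rw [push_b, push0_of_inj hinj]
    have hcard : (s.image (fun i : Fin 8 => (toLex (i, (0 : Fin 5)) : X8))).card = 3 := by
      rw [Finset.card_image_of_injOn hinj, hs.2]
    refine b_mem ⟨⟨?_, Finset.card_pos.1 (by omega), ?_⟩, hcard⟩
    · rw [K8_small (by omega)]
      convert hs.1.1 using 1
      ext i
      simp only [Finset.mem_filter, Finset.mem_univ, true_and, Finset.mem_image]
      constructor
      · rintro ⟨j, hj, hji⟩
        rw [← emb_inj hji]; exact hj
      · intro h; exact ⟨i, h, rfl⟩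
    · intro x hx
      obtain ⟨i, _, rfl⟩ := Finset.mem_image.1 hx
      exact mem_R8.2 rfl
  · rw [bd_push, bd_y3, map_zero]
    refine sup_mono ?_ y3_mem
    intro s _
    exact ⟨lin_chain s, emb_mono.monotoneOn _⟩
  · intro h
    apply y3_ne
    have : push (ZMod 3) (fun x : X8 => (ofLex x).1)
        (push (ZMod 3) (fun i : Fin 8 => (toLex (i, (0 : Fin 5)) : X8)) y3) = y3 := by
      refine ext_on (f := push (ZMod 3) (fun x : X8 => (ofLex x).1) ∘ₗ
        push (ZMod 3) (fun i : Fin 8 => (toLex (i, (0 : Fin 5)) : X8)))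
        (g := LinearMap.id) ?_ y3_mem
      intro s _
      rw [LinearMap.comp_apply, push_push_b emb_inj.injOn]
      exact push_id_b (fun v _ => rfl)
    rw [← this, h, map_zero]

theorem KS_acyc (S : Finset X8) : Acyc (ZMod 2) (KS K8 S) 3 := by
  classical
  intro z hz hbz
  by_cases hS : ∃ t, t ∉ S ∧ t ∉ R8
  · obtain ⟨t, htS, htR⟩ := hS
    refine ⟨cone (ZMod 2) t z, ?_, ?_⟩
    · refine map_sup ?_ hz
      intro s hs
      rw [cone_b]
      by_cases hts : t ∈ s
      · rw [cone0_of_mem hts]; exact Submodule.zero_mem _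
      · rw [cone0_of_notMem hts]
        have hcard : (insert t s).card = 4 := by
          rw [Finset.card_insert_of_notMem hts, hs.2]
        refine b_mem ⟨⟨?_, Finset.insert_nonempty _ _, ?_⟩, hcard⟩
        · rw [K8_small (by omega)]
          have h1 := (K8_small (by rw [hs.2]; omega)).1 hs.1.1
          convert h1 using 1
          ext i
          simp only [Finset.mem_filter, Finset.mem_univ, true_and, Finset.mem_insert]
          constructor
          · rintro (h | h)
            · exfalso
              apply htR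
              rw [← h]
              exact mem_R8.2 rfl
            · exact h
          · exact Or.inr
        · rw [Finset.disjoint_insert_left]
          exact ⟨htS, hs.1.2.2⟩
    · rw [bd_cone_two, hbz, map_zero, sub_zero]
  · push Not at hS
    have hsub : ∀ s ∈ Fn (KS K8 S) 3, s ⊆ R8 := by
      intro s hs x hx
      exact hS x (Finset.disjoint_left.1 hs.1.2.2 hx)
    have hz0 : push (ZMod 2) (fun x : X8 => (ofLex x).1) z = 0 := by
      refine YY_two ?_ ?_
      · refine map_sup ?_ hz
        intro s hs
        have hinj := fst_injOn (hsub s hs)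
        rw [push_b, push0_of_inj hinj]
        have hcard : (s.image (fun x : X8 => (ofLex x).1)).card = 3 := by
          rw [Finset.card_image_of_injOn hinj, hs.2]
        refine b_mem ⟨⟨?_, Finset.card_pos.1 (by omega)⟩, hcard⟩
        have := hs.1.1.2.1
        rwa [rows_eq_image (hsub s hs)] at this
      · rw [bd_push, hbz, map_zero]
        refine sup_mono ?_ hz
        intro s _
        exact ⟨lin_chain s, fst_mono.monotoneOn _⟩
    have hzz : z = 0 := by
      have : push (ZMod 2) (fun i : Fin 8 => (toLex (i, (0 : Fin 5)) : X8))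
          (push (ZMod 2) (fun x : X8 => (ofLex x).1) z) = z := by
        refine ext_on (f := push (ZMod 2) (fun i : Fin 8 => (toLex (i, (0 : Fin 5)) : X8)) ∘ₗ
          push (ZMod 2) (fun x : X8 => (ofLex x).1)) (g := LinearMap.id) ?_ hz
        intro s hs
        rw [LinearMap.comp_apply, push_push_b (fst_injOn (hsub s hs)), LinearMap.id_apply]
        refine push_id_b ?_
        intro x hx
        have := mem_R8.1 (hsub s hs hx)
        apply ofLex.injective
        exact Prod.ext rfl this.symm
      rw [← this, hz0, map_zero]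
    exact ⟨0, Submodule.zero_mem _, by rw [map_zero, hzz]⟩

theorem M8_acyc_two : Acyc (ZMod 2) (MK K8) 4 :=
  MK_acyc K8_dn K8_empty KS_acyc

theorem M8_not_acyc_three : ¬ Acyc (ZMod 3) (MK K8) 4 := by
  obtain ⟨y0, h1, h2, h3⟩ := exists_y0
  exact MK_not_acyc K8_dn K8_empty (n := 2) K8_dim h1 h2 h3

end Pool.Agent.Helper72.TA
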