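import Mathlib

/-!
Affine simplices in standard simplices, mod two chains, subdivision.
-/

set_option linter.unusedSectionVars false

namespace Pool.Agent.Helper72.TS

open Finset

/-- standard simplex -/
abbrev D (n : ℕ) : Type := stdSimplex ℝ (Fin (n + 1))

/-- affine map with prescribed vertices. -/
noncomputable def combFun {m n : ℕ} (v : Fin (m + 1) → D n) (t : D m) : D n :=
  ⟨fun k => ∑ i, t i * (v i) k, by
    refine ⟨fun k => Finset.sum_nonneg fun i _ => mul_nonneg (t.2.1 i) ((v i).2.1 k), ?_⟩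
    rw [Finset.sum_comm]
    have : ∀ i, ∑ k, t i * (v i) k = t i := by
      intro i
      rw [← Finset.mul_sum]
      have := (v i).2.2
      simp only [stdSimplex] at this
      rw [show ∑ k, (v i) k = 1 from this, mul_one]
    rw [Finset.sum_congr rfl (fun i _ => this i)]
    exact t.2.2⟩

theorem combFun_apply {m n : ℕ} (v : Fin (m + 1) → D n) (t : D m) (k : Fin (n + 1)) :
    (combFun v t) k = ∑ i, t i * (v i) k := rfl

/-- affine map with prescribed vertices, continuous version. -/
noncomputable def comb {m n : ℕ} (v : Fin (m + 1) → D n) : C(D m, D n) :=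
  ⟨combFun v, by
    refine Continuous.subtype_mk ?_ _
    refine continuous_pi fun k => continuous_finsetSum _ fun i _ => ?_
    exact (((continuous_apply i).comp continuous_subtype_val)).mul continuous_const⟩

theorem comb_apply {m n : ℕ} (v : Fin (m + 1) → D n) (t : D m) (k : Fin (n + 1)) :
    (comb v t) k = ∑ i, t i * (v i) k := rfl

theorem D_ext {n : ℕ} {x y : D n} (h : ∀ k, x k = y k) : x = y := by
  apply Subtype.ext
  funext k
  exact h k

theorem comb_comp {l m n : ℕ} (w : Fin (m + 1) → D n) (v : Fin (l + 1) → D m) (t : D l) :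
    comb w (comb v t) = comb (fun i => comb w (v i)) t := by
  apply D_ext
  intro k
  simp only [comb_apply, Finset.sum_mul, Finset.mul_sum]
  rw [Finset.sum_comm]
  refine Finset.sum_congr rfl fun i _ => Finset.sum_congr rfl fun j _ => ?_
  ring

/-- vertices of the simplex -/
noncomputable def io (n : ℕ) : Fin (n + 1) → D n := fun i => stdSimplex.vertex i

theorem io_apply (n : ℕ) (i k : Fin (n + 1)) : (io n i) k = if i = k then 1 else 0 := by
  have := stdSimplex.vertex_coe (S := ℝ) i
  show ((stdSimplex.vertex i : stdSimplex ℝ (Fin (n + 1))) : Fin (n + 1) → ℝ) k = _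
  rw [this, Pi.single_apply]
  simp [eq_comm]

theorem comb_io {n : ℕ} (t : D n) : comb (io n) t = t := by
  apply D_ext
  intro k
  simp [comb_apply, io_apply]

theorem comb_vertex {m n : ℕ} (v : Fin (m + 1) → D n) (i : Fin (m + 1)) :
    comb v (io m i) = v i := by
  apply D_ext
  intro k
  simp [comb_apply, io_apply]

/-- barycenter of a tuple -/
noncomputable def bar {m n : ℕ} (v : Fin (m + 1) → D n) : D n := comb v (stdSimplex.barycenter)

theorem comb_bar {l m n : ℕ} (w : Fin (m + 1) → D n) (v : Fin (l + 1) → D m) :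
    comb w (bar v) = bar (fun i => comb w (v i)) := comb_comp w v _

/-- tuples chains -/
abbrev A (m n : ℕ) : Type := (Fin m → D n) →₀ ZMod 2

/-- basis element -/
noncomputable def e {m n : ℕ} (v : Fin m → D n) : A m n := Finsupp.single v 1

theorem A_ext {m n : ℕ} {M : Type} [AddCommMonoid M] [Module (ZMod 2) M]
    {f g : A m n →ₗ[ZMod 2] M} (h : ∀ v, f (e v) = g (e v)) (c : A m n) : f c = g c := by
  have : f = g := Finsupp.lhom_ext' fun v => LinearMap.ext_ring (h v)
  rw [this]

/-- boundary of tuples -/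
noncomputable def dA (m n : ℕ) : A (m + 1) n →ₗ[ZMod 2] A m n :=
  Finsupp.linearCombination _ (fun v => ∑ i : Fin (m + 1), e (fun j => v (i.succAbove j)))

theorem dA_e {m n : ℕ} (v : Fin (m + 1) → D n) :
    dA m n (e v) = ∑ i : Fin (m + 1), e (fun j => v (i.succAbove j)) := by
  simp [dA, e, Finsupp.linearCombination_single]

/-- prepend a point -/
noncomputable def cA {n : ℕ} (p : D n) (m : ℕ) : A m n →ₗ[ZMod 2] A (m + 1) n :=
  Finsupp.linearCombination _ (fun v => e (Fin.cons p v : Fin (m + 1) → D n))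

theorem cA_e {m n : ℕ} (p : D n) (v : Fin m → D n) :
    cA p m (e v) = e (Fin.cons p v : Fin (m + 1) → D n) := by
  simp [cA, e, Finsupp.linearCombination_single]

theorem cons_zero_face {m n : ℕ} (p : D n) (v : Fin m → D n) :
    (fun j => (Fin.cons p v : Fin (m + 1) → D n) ((0 : Fin (m + 1)).succAbove j)) = v := by
  funext j
  simp

theorem cons_succ_face {m n : ℕ} (p : D n) (v : Fin (m + 1) → D n) (i : Fin (m + 1)) :
    (fun j => (Fin.cons p v : Fin (m + 2) → D n) (i.succ.succAbove j))
      = Fin.cons p (fun j => v (i.succAbove j)) := by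
  funext j
  refine Fin.cases ?_ (fun j => ?_) j
  · simp
  · simp

theorem dA_cA_zero {n : ℕ} (p : D n) (c : A 0 n) : dA 0 n (cA p 0 c) = c := by
  refine A_ext (f := dA 0 n ∘ₗ cA p 0) (g := LinearMap.id) ?_ c
  intro v
  simp only [LinearMap.comp_apply, LinearMap.id_apply]
  rw [cA_e, dA_e, Fin.sum_univ_succ, cons_zero_face]
  simp

theorem dA_cA {m n : ℕ} (p : D n) (c : A (m + 1) n) :
    dA (m + 1) n (cA p (m + 1) c) = c + cA p m (dA m n c) := by
  refine A_ext (f := dA (m + 1) n ∘ₗ cA p (m + 1)) (g := LinearMap.id + cA p m ∘ₗ dA m n) ?_ c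
  intro v
  simp only [LinearMap.comp_apply, LinearMap.id_apply, LinearMap.add_apply]
  rw [cA_e, dA_e, Fin.sum_univ_succ, cons_zero_face, dA_e, map_sum]
  congr 1
  refine Finset.sum_congr rfl fun i _ => ?_
  rw [cons_succ_face, cA_e]

theorem add_self_zero {M : Type} [AddCommGroup M] [Module (ZMod 2) M] (x : M) : x + x = 0 := by
  have : x + x = (2 : ZMod 2) • x := by module
  rw [this]
  have h3 : (2 : ZMod 2) = 0 := by decide
  rw [h3, zero_smul]

theorem dA_dA : ∀ (m : ℕ) {n : ℕ} (c : A (m + 2) n), dA m n (dA (m + 1) n c) = 0 := by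
  intro m
  induction m with
  | zero =>
    intro n c
    refine A_ext (f := dA 0 n ∘ₗ dA 1 n) (g := 0) ?_ c
    intro v
    have hv : e v = cA (v 0) 1 (e (Fin.tail v)) := by
      rw [cA_e, Fin.cons_self_tail]
    simp only [LinearMap.comp_apply, LinearMap.zero_apply]
    rw [hv, dA_cA, map_add, dA_cA_zero, add_self_zero]
  | succ m ih =>
    intro n c
    refine A_ext (f := dA (m + 1) n ∘ₗ dA (m + 2) n) (g := 0) ?_ c
    intro v
    have hv : e v = cA (v 0) (m + 2) (e (Fin.tail v)) := by
      rw [cA_e, Fin.cons_self_tail]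
    simp only [LinearMap.comp_apply, LinearMap.zero_apply]
    rw [hv, dA_cA, map_add, dA_cA, ih, map_zero, add_zero, add_self_zero]

/-- subdivision operator -/
noncomputable def sA (n : ℕ) : (m : ℕ) → A m n →ₗ[ZMod 2] A m n
  | 0 => LinearMap.id
  | (m + 1) => Finsupp.linearCombination _ (fun v => cA (bar v) m (sA n m (dA m n (e v))))

theorem sA_succ {m n : ℕ} (v : Fin (m + 1) → D n) :
    sA n (m + 1) (e v) = cA (bar v) m (sA n m (dA m n (e v))) := by
  simp [sA, e, Finsupp.linearCombination_single]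

/-- homotopy operator -/
noncomputable def tA (n : ℕ) : (m : ℕ) → A m n →ₗ[ZMod 2] A (m + 1) n
  | 0 => 0
  | (m + 1) => Finsupp.linearCombination _
      (fun v => cA (bar v) (m + 1) (e v + tA n m (dA m n (e v))))

theorem tA_succ {m n : ℕ} (v : Fin (m + 1) → D n) :
    tA n (m + 1) (e v) = cA (bar v) (m + 1) (e v + tA n m (dA m n (e v))) := by
  simp [tA, e, Finsupp.linearCombination_single]

theorem dA_sA : ∀ (m : ℕ) {n : ℕ} (c : A (m + 1) n),
    dA m n (sA n (m + 1) c) = sA n m (dA m n c) := by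
  intro m
  induction m with
  | zero =>
    intro n c
    refine A_ext (f := dA 0 n ∘ₗ sA n 1) (g := sA n 0 ∘ₗ dA 0 n) ?_ c
    intro v
    simp only [LinearMap.comp_apply]
    rw [sA_succ, dA_cA_zero]
  | succ m ih =>
    intro n c
    refine A_ext (f := dA (m + 1) n ∘ₗ sA n (m + 2)) (g := sA n (m + 1) ∘ₗ dA (m + 1) n) ?_ c
    intro v
    simp only [LinearMap.comp_apply]
    rw [sA_succ, dA_cA, ih, dA_dA, map_zero, map_zero, add_zero]

theorem dA_tA : ∀ (m : ℕ) {n : ℕ} (c : A (m + 1) n),
    dA (m + 1) n (tA n (m + 1) c) = c + sA n (m + 1) c + tA n m (dA m n c) := by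
  intro m
  induction m with
  | zero =>
    intro n c
    refine A_ext (f := dA 1 n ∘ₗ tA n 1)
      (g := LinearMap.id + sA n 1 + tA n 0 ∘ₗ dA 0 n) ?_ c
    intro v
    simp only [LinearMap.comp_apply, LinearMap.add_apply, LinearMap.id_apply]
    rw [tA_succ, dA_cA, map_add, sA_succ]
    simp only [tA, LinearMap.zero_apply, map_zero, add_zero, sA, LinearMap.id_apply]
  | succ m ih =>
    intro n c
    refine A_ext (f := dA (m + 2) n ∘ₗ tA n (m + 2))
      (g := LinearMap.id + sA n (m + 2) + tA n (m + 1) ∘ₗ dA (m + 1) n) ?_ c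
    intro v
    simp only [LinearMap.comp_apply, LinearMap.add_apply, LinearMap.id_apply]
    rw [tA_succ, dA_cA, map_add, ih, dA_dA, map_zero, add_zero, ← add_assoc, add_self_zero,
      zero_add, ← sA_succ]
    abel

/-- push forward along affine maps -/
noncomputable def pA {l n : ℕ} (w : Fin (l + 1) → D n) (m : ℕ) : A m l →ₗ[ZMod 2] A m n :=
  Finsupp.linearCombination _ (fun v => e (fun i => comb w (v i)))

theorem pA_e {l n m : ℕ} (w : Fin (l + 1) → D n) (v : Fin m → D l) :
    pA w m (e v) = e (fun i => comb w (v i)) := by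
  simp [pA, e, Finsupp.linearCombination_single]

theorem pA_dA {l n m : ℕ} (w : Fin (l + 1) → D n) (c : A (m + 1) l) :
    pA w m (dA m l c) = dA m n (pA w (m + 1) c) := by
  refine A_ext (f := pA w m ∘ₗ dA m l) (g := dA m n ∘ₗ pA w (m + 1)) ?_ c
  intro v
  simp only [LinearMap.comp_apply]
  rw [dA_e, map_sum, pA_e, dA_e]
  refine Finset.sum_congr rfl fun i _ => ?_
  rw [pA_e]

theorem pA_cA {l n m : ℕ} (w : Fin (l + 1) → D n) (p : D l) (c : A m l) :
    pA w (m + 1) (cA p m c) = cA (comb w p) m (pA w m c) := by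
  refine A_ext (f := pA w (m + 1) ∘ₗ cA p m) (g := cA (comb w p) m ∘ₗ pA w m) ?_ c
  intro v
  simp only [LinearMap.comp_apply]
  rw [cA_e, pA_e, pA_e, cA_e]
  congr 1
  funext j
  refine Fin.cases ?_ (fun j => ?_) j
  · simp
  · simp

theorem pA_sA {l n : ℕ} (w : Fin (l + 1) → D n) : ∀ (m : ℕ) (c : A m l),
    pA w m (sA l m c) = sA n m (pA w m c) := by
  intro m
  induction m with
  | zero => intro c; rfl
  | succ m ih =>
    intro c
    refine A_ext (f := pA w (m + 1) ∘ₗ sA l (m + 1)) (g := sA n (m + 1) ∘ₗ pA w (m + 1)) ?_ c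
    intro v
    simp only [LinearMap.comp_apply]
    rw [sA_succ, pA_cA, ih, pA_dA, comb_bar, pA_e, sA_succ]

theorem pA_tA {l n : ℕ} (w : Fin (l + 1) → D n) : ∀ (m : ℕ) (c : A m l),
    pA w (m + 1) (tA l m c) = tA n m (pA w m c) := by
  intro m
  induction m with
  | zero => intro c; simp [tA]
  | succ m ih =>
    intro c
    refine A_ext (f := pA w (m + 2) ∘ₗ tA l (m + 1)) (g := tA n (m + 1) ∘ₗ pA w (m + 1)) ?_ c
    intro v
    simp only [LinearMap.comp_apply]
    rw [tA_succ, pA_cA, map_add, ih, pA_dA, comb_bar, pA_e, tA_succ]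

end Pool.Agent.Helper72.TS
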