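import Mathlib
import Pool.Agent.Helper72.TS1

/-!
Singular chains modulo two, subdivision and small simplices.
-/

set_option linter.unusedSectionVars false

namespace Pool.Agent.Helper72.TS

open Finset

variable {X Y Z : Type} [TopologicalSpace X] [TopologicalSpace Y] [TopologicalSpace Z]

/-- singular chains -/
abbrev L (X : Type) [TopologicalSpace X] (n : ℕ) : Type := C(D n, X) →₀ ZMod 2

/-- basis element -/
noncomputable def s1 {n : ℕ} (σ : C(D n, X)) : L X n := Finsupp.single σ 1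

theorem L_ext {n : ℕ} {M : Type} [AddCommMonoid M] [Module (ZMod 2) M]
    {f g : L X n →ₗ[ZMod 2] M} (h : ∀ σ, f (s1 σ) = g (s1 σ)) (c : L X n) : f c = g c := by
  have : f = g := Finsupp.lhom_ext' fun v => LinearMap.ext_ring (h v)
  rw [this]

/-- face inclusion of simplices -/
noncomputable def face {n : ℕ} (i : Fin (n + 2)) : C(D n, D (n + 1)) :=
  comb (fun j => io (n + 1) (i.succAbove j))

/-- boundary -/
noncomputable def dL (X : Type) [TopologicalSpace X] (n : ℕ) : L X (n + 1) →ₗ[ZMod 2] L X n :=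
  Finsupp.linearCombination _ (fun σ => ∑ i : Fin (n + 2), s1 (σ.comp (face i)))

theorem dL_s1 {n : ℕ} (σ : C(D (n + 1), X)) :
    dL X n (s1 σ) = ∑ i : Fin (n + 2), s1 (σ.comp (face i)) := by
  simp [dL, s1, Finsupp.linearCombination_single]

/-- realization of tuple chains -/
noncomputable def rl {n : ℕ} (σ : C(D n, X)) (m : ℕ) : A (m + 1) n →ₗ[ZMod 2] L X m :=
  Finsupp.linearCombination _ (fun v => s1 (σ.comp (comb v)))

theorem rl_e {n m : ℕ} (σ : C(D n, X)) (v : Fin (m + 1) → D n) :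
    rl σ m (e v) = s1 (σ.comp (comb v)) := by
  simp [rl, e, Finsupp.linearCombination_single]

theorem comb_comp' {l m n : ℕ} (w : Fin (m + 1) → D n) (v : Fin (l + 1) → D m) :
    (comb w).comp (comb v) = comb (fun i => comb w (v i)) := by
  ext1 t
  exact comb_comp w v t

theorem rl_face {n m : ℕ} (v : Fin (m + 2) → D n) (i : Fin (m + 2)) :
    (comb v).comp (face i) = comb (fun j => v (i.succAbove j)) := by
  rw [face, comb_comp']
  congr 1
  funext j
  exact comb_vertex v _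

theorem dL_rl {n m : ℕ} (σ : C(D n, X)) (c : A (m + 2) n) :
    dL X m (rl σ (m + 1) c) = rl σ m (dA (m + 1) n c) := by
  refine A_ext (f := dL X m ∘ₗ rl σ (m + 1)) (g := rl σ m ∘ₗ dA (m + 1) n) ?_ c
  intro v
  simp only [LinearMap.comp_apply]
  rw [rl_e, dL_s1, dA_e, map_sum]
  refine Finset.sum_congr rfl fun i _ => ?_
  rw [rl_e, ContinuousMap.comp_assoc, rl_face]

theorem rl_comp {n l m : ℕ} (σ : C(D n, X)) (w : Fin (l + 1) → D n) (c : A (m + 1) l) :
    rl (σ.comp (comb w)) m c = rl σ m (pA w (m + 1) c) := by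
  refine A_ext (f := rl (σ.comp (comb w)) m) (g := rl σ m ∘ₗ pA w (m + 1)) ?_ c
  intro v
  simp only [LinearMap.comp_apply]
  rw [rl_e, pA_e, rl_e, ContinuousMap.comp_assoc, comb_comp']

/-- subdivision of singular chains -/
noncomputable def SL (X : Type) [TopologicalSpace X] (n : ℕ) : L X n →ₗ[ZMod 2] L X n :=
  Finsupp.linearCombination _ (fun σ => rl σ n (sA n (n + 1) (e (io n))))

theorem SL_s1 {n : ℕ} (σ : C(D n, X)) : SL X n (s1 σ) = rl σ n (sA n (n + 1) (e (io n))) := by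
  simp [SL, s1, Finsupp.linearCombination_single]

/-- homotopy -/
noncomputable def TL (X : Type) [TopologicalSpace X] (n : ℕ) : L X n →ₗ[ZMod 2] L X (n + 1) :=
  Finsupp.linearCombination _ (fun σ => rl σ (n + 1) (tA n (n + 1) (e (io n))))

theorem TL_s1 {n : ℕ} (σ : C(D n, X)) :
    TL X n (s1 σ) = rl σ (n + 1) (tA n (n + 1) (e (io n))) := by
  simp [TL, s1, Finsupp.linearCombination_single]

theorem pA_io {l n : ℕ} (w : Fin (l + 1) → D n) : pA w (l + 1) (e (io l)) = e w := by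
  rw [pA_e]
  congr 1
  funext i
  exact comb_vertex w i

theorem SL_rl {n m : ℕ} (σ : C(D n, X)) (c : A (m + 1) n) :
    SL X m (rl σ m c) = rl σ m (sA n (m + 1) c) := by
  refine A_ext (f := SL X m ∘ₗ rl σ m) (g := rl σ m ∘ₗ sA n (m + 1)) ?_ c
  intro v
  simp only [LinearMap.comp_apply]
  rw [rl_e, SL_s1, rl_comp, pA_sA, pA_io]

theorem TL_rl {n m : ℕ} (σ : C(D n, X)) (c : A (m + 1) n) :
    TL X m (rl σ m c) = rl σ (m + 1) (tA n (m + 1) c) := by
  refine A_ext (f := TL X m ∘ₗ rl σ m) (g := rl σ (m + 1) ∘ₗ tA n (m + 1)) ?_ c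
  intro v
  simp only [LinearMap.comp_apply]
  rw [rl_e, TL_s1, rl_comp, pA_tA, pA_io]

theorem rl_io {n : ℕ} (σ : C(D n, X)) : rl σ n (e (io n)) = s1 σ := by
  rw [rl_e]
  congr 1
  ext1 t
  exact congrArg σ (comb_io t)

theorem dL_SL {n : ℕ} (z : L X (n + 1)) : dL X n (SL X (n + 1) z) = SL X n (dL X n z) := by
  refine L_ext (f := dL X n ∘ₗ SL X (n + 1)) (g := SL X n ∘ₗ dL X n) ?_ z
  intro σ
  simp only [LinearMap.comp_apply]
  rw [SL_s1, dL_rl, dA_sA, ← SL_rl, ← dL_rl, rl_io]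

theorem dL_TL_zero (z : L X 0) : dL X 0 (TL X 0 z) = z + SL X 0 z := by
  refine L_ext (f := dL X 0 ∘ₗ TL X 0) (g := LinearMap.id + SL X 0) ?_ z
  intro σ
  simp only [LinearMap.comp_apply, LinearMap.add_apply, LinearMap.id_apply]
  rw [TL_s1, dL_rl, dA_tA, map_add, map_add, rl_io, SL_s1]
  simp [tA]

theorem dL_TL_succ {n : ℕ} (z : L X (n + 1)) :
    dL X (n + 1) (TL X (n + 1) z) = z + SL X (n + 1) z + TL X n (dL X n z) := by
  refine L_ext (f := dL X (n + 1) ∘ₗ TL X (n + 1))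
    (g := LinearMap.id + SL X (n + 1) + TL X n ∘ₗ dL X n) ?_ z
  intro σ
  simp only [LinearMap.comp_apply, LinearMap.add_apply, LinearMap.id_apply]
  rw [TL_s1, dL_rl, dA_tA, map_add, map_add, rl_io, SL_s1, ← TL_rl, ← dL_rl, rl_io]

/-- cycles -/
def IsCyc : (n : ℕ) → L X n → Prop
  | 0, _ => True
  | (n + 1), z => dL X n z = 0

theorem IsCyc.SL : ∀ {n : ℕ} {z : L X n}, IsCyc n z → IsCyc n (TS.SL X n z)
  | 0, _, _ => trivial
  | (n + 1), z, h => by
    show dL X n (TS.SL X (n + 1) z) = 0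
    have h' : dL X n z = 0 := h
    rw [dL_SL, h', map_zero]

theorem homologous_SL : ∀ {n : ℕ} {z : L X n}, IsCyc n z → ∃ w, dL X n w = z + SL X n z
  | 0, z, _ => ⟨_, dL_TL_zero z⟩
  | (n + 1), z, h => ⟨TL X (n + 1) z, by
      have h' : dL X n z = 0 := h
      rw [dL_TL_succ, h', map_zero, add_zero]⟩

theorem IsCyc.pow {n : ℕ} {z : L X n} (h : IsCyc n z) (N : ℕ) :
    IsCyc n (((TS.SL X n) ^ N) z) := by
  induction N with
  | zero => simpa using h
  | succ N ih =>
    rw [pow_succ', Module.End.mul_apply]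
    exact ih.SL

theorem homologous_pow {n : ℕ} {z : L X n} (h : IsCyc n z) (N : ℕ) :
    ∃ w, dL X n w = z + ((SL X n) ^ N) z := by
  induction N with
  | zero => exact ⟨0, by simp [add_self_zero]⟩
  | succ N ih =>
    obtain ⟨w, hw⟩ := ih
    obtain ⟨w', hw'⟩ := homologous_SL (h.pow N)
    refine ⟨w + w', ?_⟩
    rw [map_add, hw, hw', pow_succ', Module.End.mul_apply]
    have := add_self_zero (((SL X n) ^ N) z)
    calc z + (SL X n ^ N) z + ((SL X n ^ N) z + (SL X n) ((SL X n ^ N) z))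
        = z + ((SL X n ^ N) z + (SL X n ^ N) z) + (SL X n) ((SL X n ^ N) z) := by abel
      _ = z + (SL X n) ((SL X n ^ N) z) := by rw [this, add_zero]

/-! ### mesh -/

theorem dist_comb_le {m n : ℕ} (v : Fin (m + 1) → D n) (t : D m) (y : D n) {r : ℝ}
    (h : ∀ j, dist (v j) y ≤ r) : dist (comb v t) y ≤ r := by
  have hr : 0 ≤ r := dist_nonneg.trans (h 0)
  rw [Subtype.dist_eq, dist_pi_le_iff hr]
  intro k
  have h1 : (comb v t : D n).1 k - y.1 k = ∑ i, t i * ((v i).1 k - y.1 k) := by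
    have h2 : ∑ i, t i * y.1 k = y.1 k := by
      rw [← Finset.sum_mul]
      have := t.2.2
      rw [show ∑ i, t i = 1 from this, one_mul]
    have h3 : (comb v t : D n).1 k = ∑ i, t i * (v i).1 k := rfl
    rw [h3]
    simp only [mul_sub, Finset.sum_sub_distrib]
    rw [h2]
  rw [Real.dist_eq, h1]
  calc |∑ i, t i * ((v i).1 k - y.1 k)| ≤ ∑ i, |t i * ((v i).1 k - y.1 k)| :=
        Finset.abs_sum_le_sum_abs _ _
    _ ≤ ∑ i, t i * r := by
        refine Finset.sum_le_sum fun i _ => ?_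
        have ht : 0 ≤ t i := t.2.1 i
        rw [abs_mul, abs_of_nonneg ht]
        refine mul_le_mul_of_nonneg_left ?_ ht
        have h4 := h i
        rw [Subtype.dist_eq, dist_pi_le_iff hr] at h4
        have h5 := h4 k
        rwa [Real.dist_eq] at h5
    _ = r := by
        rw [← Finset.sum_mul]
        have := t.2.2
        rw [show ∑ i, t i = 1 from this, one_mul]

theorem dist_bar_le {m n : ℕ} (v : Fin (m + 1) → D n) (j : Fin (m + 1)) {r : ℝ}
    (h : ∀ i j, dist (v i) (v j) ≤ r) : dist (bar v) (v j) ≤ (m / (m + 1) : ℝ) * r := by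
  have hr : 0 ≤ r := dist_nonneg.trans (h 0 0)
  have hm : (0 : ℝ) < m + 1 := by positivity
  have hr' : 0 ≤ (m / (m + 1) : ℝ) * r := by positivity
  rw [Subtype.dist_eq, dist_pi_le_iff hr']
  intro k
  have hb : ∀ i : Fin (m + 1), (stdSimplex.barycenter : D m) i = 1 / ((m : ℝ) + 1) := by
    intro i
    refine (stdSimplex.barycenter_apply (𝕜 := ℝ) i).trans ?_
    simp
  have h1 : (bar v : D n).1 k - (v j).1 k
      = ∑ i, (1 / ((m : ℝ) + 1)) * ((v i).1 k - (v j).1 k) := by
    have h3 : (bar v : D n).1 k = ∑ i, (stdSimplex.barycenter : D m) i * (v i).1 k := rfl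
    rw [h3]
    simp only [hb, mul_sub, Finset.sum_sub_distrib]
    congr 1
    rw [Finset.sum_const, Finset.card_univ, Fintype.card_fin, nsmul_eq_mul]
    push_cast
    field_simp
  rw [Real.dist_eq, h1, ← Finset.mul_sum, abs_mul, abs_of_nonneg (by positivity)]
  have h2 : |∑ i, ((v i).1 k - (v j).1 k)| ≤ m * r := by
    calc |∑ i, ((v i).1 k - (v j).1 k)| ≤ ∑ i, |(v i).1 k - (v j).1 k| :=
          Finset.abs_sum_le_sum_abs _ _
      _ = ∑ i ∈ Finset.univ.erase j, |(v i).1 k - (v j).1 k| := by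
          rw [← Finset.add_sum_erase _ _ (Finset.mem_univ j)]
          simp
      _ ≤ ∑ _i ∈ Finset.univ.erase j, r := by
          refine Finset.sum_le_sum fun i _ => ?_
          have h4 := h i j
          rw [Subtype.dist_eq, dist_pi_le_iff hr] at h4
          have h5 := h4 k
          rwa [Real.dist_eq] at h5
      _ = m * r := by
          rw [Finset.sum_const, Finset.card_erase_of_mem (Finset.mem_univ j), Finset.card_univ,
            Fintype.card_fin, nsmul_eq_mul]
          simp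
  calc 1 / ((m : ℝ) + 1) * |∑ i, ((v i).1 k - (v j).1 k)| ≤ 1 / ((m : ℝ) + 1) * (m * r) :=
        mul_le_mul_of_nonneg_left h2 (by positivity)
    _ = (m / (m + 1) : ℝ) * r := by ring

/-- tuples with small mutual distances inside a region -/
def Sm (m n : ℕ) (r : ℝ) : Set (Fin m → D n) := {u | ∀ i j, dist (u i) (u j) ≤ r}

/-- tuples within every ball containing `v` -/
def Hull {m' n : ℕ} (v : Fin m' → D n) (m : ℕ) : Set (Fin m → D n) :=
  {u | ∀ y r, (∀ j, dist (v j) y ≤ r) → ∀ i, dist (u i) y ≤ r}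

theorem mesh_step {n : ℕ} (N : ℕ) : ∀ (m : ℕ), m ≤ N + 1 → ∀ (v : Fin m → D n) (r : ℝ),
    v ∈ Sm m n r → 0 ≤ r →
    sA n m (e v) ∈ Finsupp.supported (ZMod 2) (ZMod 2)
      (Sm m n ((N / (N + 1) : ℝ) * r) ∩ Hull v m) := by
  intro m
  induction m with
  | zero =>
    intro _ v r _ _
    show e v ∈ Finsupp.supported (ZMod 2) (ZMod 2)
      (Sm 0 n ((N / (N + 1) : ℝ) * r) ∩ Hull v 0)
    refine Finsupp.single_mem_supported _ _ ⟨fun i => i.elim0, fun _ _ _ i => i.elim0⟩
  | succ m ih =>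
    intro hm v r hv hr
    rw [sA_succ, dA_e, map_sum, map_sum]
    refine Submodule.sum_mem _ fun i _ => ?_
    have hvi : (fun j => v (i.succAbove j)) ∈ Sm m n r := fun j k => hv _ _
    have h1 := ih (by omega) (fun j => v (i.succAbove j)) r hvi hr
    -- apply `cA`
    have h2 : ∀ c : A m n, c ∈ Finsupp.supported (ZMod 2) (ZMod 2)
        (Sm m n ((N / (N + 1) : ℝ) * r) ∩ Hull (fun j => v (i.succAbove j)) m) →
        cA (bar v) m c ∈ Finsupp.supported (ZMod 2) (ZMod 2)
          (Sm (m + 1) n ((N / (N + 1) : ℝ) * r) ∩ Hull v (m + 1)) := by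
      intro c hc
      rw [Finsupp.supported_eq_span_single] at hc
      have : Submodule.span (ZMod 2) ((fun i => Finsupp.single i (1 : ZMod 2)) ''
          (Sm m n ((N / (N + 1) : ℝ) * r) ∩ Hull (fun j => v (i.succAbove j)) m)) ≤
          (Finsupp.supported (ZMod 2) (ZMod 2)
            (Sm (m + 1) n ((N / (N + 1) : ℝ) * r) ∩ Hull v (m + 1))).comap (cA (bar v) m) := by
        rw [Submodule.span_le]
        rintro _ ⟨u, ⟨hu1, hu2⟩, rfl⟩
        show cA (bar v) m (e u) ∈ Finsupp.supported (ZMod 2) (ZMod 2)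
          (Sm (m + 1) n ((N / (N + 1) : ℝ) * r) ∩ Hull v (m + 1))
        rw [cA_e]
        have hκ : (m / (m + 1) : ℝ) * r ≤ (N / (N + 1) : ℝ) * r := by
          refine mul_le_mul_of_nonneg_right ?_ hr
          rw [div_le_div_iff₀ (by positivity) (by positivity)]
          have : (m : ℝ) ≤ N := by exact_mod_cast (by omega : m ≤ N)
          nlinarith
        have hbar : ∀ j, dist (v j) (bar v) ≤ (N / (N + 1) : ℝ) * r := by
          intro j
          rw [dist_comm]
          exact (dist_bar_le v j hv).trans hκ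
        have hub : ∀ j, dist (u j) (bar v) ≤ (N / (N + 1) : ℝ) * r :=
          hu2 (bar v) _ (fun j => hbar _)
        refine Finsupp.single_mem_supported _ _ ⟨?_, ?_⟩
        · intro a b
          refine Fin.cases ?_ (fun a => ?_) a <;> refine Fin.cases ?_ (fun b => ?_) b
          · simp only [dist_self]; positivity
          · rw [Fin.cons_zero, Fin.cons_succ, dist_comm]; exact hub b
          · rw [Fin.cons_zero, Fin.cons_succ]; exact hub a
          · rw [Fin.cons_succ, Fin.cons_succ]; exact hu1 a b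
        · intro y s hs a
          refine Fin.cases ?_ (fun a => ?_) a
          · rw [Fin.cons_zero]
            exact dist_comb_le v _ y hs
          · rw [Fin.cons_succ]
            exact hu2 y s (fun j => hs _) a
      exact this hc
    exact h2 _ h1

theorem mesh_map {n m : ℕ} {r : ℝ} (hr : 0 ≤ r) {c : A (m + 1) n}
    (hc : c ∈ Finsupp.supported (ZMod 2) (ZMod 2) (Sm (m + 1) n r)) :
    sA n (m + 1) c ∈ Finsupp.supported (ZMod 2) (ZMod 2)
      (Sm (m + 1) n ((m / (m + 1) : ℝ) * r)) := by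
  rw [Finsupp.supported_eq_span_single] at hc
  have : Submodule.span (ZMod 2) ((fun i => Finsupp.single i (1 : ZMod 2)) ''
      (Sm (m + 1) n r)) ≤
      (Finsupp.supported (ZMod 2) (ZMod 2)
        (Sm (m + 1) n ((m / (m + 1) : ℝ) * r))).comap (sA n (m + 1)) := by
    rw [Submodule.span_le]
    rintro _ ⟨u, hu, rfl⟩
    exact Finsupp.supported_mono (Set.inter_subset_left)
      (mesh_step m (m + 1) le_rfl u r hu hr)
  exact this hc

theorem mesh_pow {n m : ℕ} {r : ℝ} (hr : 0 ≤ r) {c : A (m + 1) n}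
    (hc : c ∈ Finsupp.supported (ZMod 2) (ZMod 2) (Sm (m + 1) n r)) (N : ℕ) :
    ((sA n (m + 1)) ^ N) c ∈ Finsupp.supported (ZMod 2) (ZMod 2)
      (Sm (m + 1) n ((m / (m + 1) : ℝ) ^ N * r)) := by
  induction N with
  | zero => simpa using hc
  | succ N ih =>
    rw [pow_succ' (sA n (m + 1)) N, Module.End.mul_apply, pow_succ' ((m / (m + 1) : ℝ)) N,
      mul_assoc]
    exact mesh_map (by positivity) ih

theorem SL_pow_rl {n m : ℕ} (σ : C(D n, X)) (c : A (m + 1) n) (N : ℕ) :
    ((SL X m) ^ N) (rl σ m c) = rl σ m (((sA n (m + 1)) ^ N) c) := by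
  induction N with
  | zero => simp
  | succ N ih =>
    rw [pow_succ', Module.End.mul_apply, ih, SL_rl, pow_succ', Module.End.mul_apply]

theorem io_small (n : ℕ) : io n ∈ Sm (n + 1) n 1 := by
  intro i j
  rw [Subtype.dist_eq, dist_pi_le_iff zero_le_one]
  intro k
  rw [Real.dist_eq]
  have h1 := io_apply n i k
  have h2 := io_apply n j k
  have h3 : (io n i).1 k = if i = k then 1 else 0 := h1
  have h4 : (io n j).1 k = if j = k then 1 else 0 := h2
  rw [h3, h4]
  split_ifs <;> norm_num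

/-- A linear map killing small simplices kills sufficiently fine subdivisions. -/
theorem kill_small {I : Type} {U : I → Set X} (hU : ∀ i, IsOpen (U i))
    (hcov : ∀ x, ∃ i, x ∈ U i) {n : ℕ} {M : Type} [AddCommMonoid M] [Module (ZMod 2) M]
    (τ : L X n →ₗ[ZMod 2] M)
    (hτ : ∀ σ : C(D n, X), (∃ i, ∀ t, σ t ∈ U i) → τ (s1 σ) = 0) (z : L X n) :
    ∃ N0 : ℕ, ∀ N, N0 ≤ N → τ (((SL X n) ^ N) z) = 0 := by
  -- one simplex
  have key : ∀ σ : C(D n, X), ∃ N0 : ℕ, ∀ N, N0 ≤ N → τ (((SL X n) ^ N) (s1 σ)) = 0 := by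
    intro σ
    have hop : ∀ i, IsOpen (σ ⁻¹' (U i)) := fun i => (hU i).preimage σ.continuous
    have hcv : (Set.univ : Set (D n)) ⊆ ⋃ i, σ ⁻¹' (U i) := by
      intro t _
      obtain ⟨i, hi⟩ := hcov (σ t)
      exact Set.mem_iUnion.2 ⟨i, hi⟩
    obtain ⟨δ, hδ, hleb⟩ := lebesgue_number_lemma_of_metric isCompact_univ hop hcv
    have hlim : Filter.Tendsto (fun N : ℕ => ((n / (n + 1) : ℝ)) ^ N) Filter.atTop (nhds 0) := by
      refine tendsto_pow_atTop_nhds_zero_of_lt_one (by positivity) ?_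
      rw [div_lt_one (by positivity)]
      linarith
    obtain ⟨N0, hN0⟩ := Filter.eventually_atTop.1 (hlim.eventually (gt_mem_nhds hδ))
    refine ⟨N0, fun N hN => ?_⟩
    rw [← rl_io σ, SL_pow_rl]
    have hmem := mesh_pow (n := n) (m := n) zero_le_one
      (c := e (io n)) (Finsupp.single_mem_supported _ _ (io_small n)) N
    rw [mul_one] at hmem
    rw [Finsupp.supported_eq_span_single] at hmem
    have : Submodule.span (ZMod 2) ((fun i => Finsupp.single i (1 : ZMod 2)) ''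
        (Sm (n + 1) n ((n / (n + 1) : ℝ) ^ N))) ≤ LinearMap.ker (τ ∘ₗ rl σ n) := by
      rw [Submodule.span_le]
      rintro _ ⟨u, hu, rfl⟩
      show (τ ∘ₗ rl σ n) (e u) = 0
      rw [LinearMap.comp_apply, rl_e]
      apply hτ
      obtain ⟨i, hi⟩ := hleb (u 0) (Set.mem_univ _)
      refine ⟨i, fun t => ?_⟩
      have h1 : dist (comb u t) (u 0) ≤ (n / (n + 1) : ℝ) ^ N :=
        dist_comb_le u t (u 0) (fun j => hu j 0)
      exact hi (Metric.mem_ball.2 (lt_of_le_of_lt h1 (hN0 N hN)))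
    exact this hmem
  induction z using Finsupp.induction_linear with
  | zero => exact ⟨0, fun N _ => by simp⟩
  | add z z' h h' =>
    obtain ⟨N1, h1⟩ := h
    obtain ⟨N2, h2⟩ := h'
    refine ⟨max N1 N2, fun N hN => ?_⟩
    rw [map_add, map_add, h1 N (le_trans (le_max_left _ _) hN),
      h2 N (le_trans (le_max_right _ _) hN), add_zero]
  | single σ a =>
    obtain ⟨N0, h0⟩ := key σ
    refine ⟨N0, fun N hN => ?_⟩
    have : (Finsupp.single σ a : L X n) = a • s1 σ := by simp [s1]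
    rw [this, map_smul, map_smul, h0 N hN, smul_zero]

/-- Chain maps killing small simplices are zero in homology. -/
theorem bounds_of_kill {I : Type} {U : I → Set X} (hU : ∀ i, IsOpen (U i))
    (hcov : ∀ x, ∃ i, x ∈ U i) {n : ℕ}
    (τ : ∀ n, L X n →ₗ[ZMod 2] L Y n)
    (hd : ∀ n (z : L X (n + 1)), dL Y n (τ (n + 1) z) = τ n (dL X n z))
    (hτ : ∀ σ : C(D n, X), (∃ i, ∀ t, σ t ∈ U i) → τ n (s1 σ) = 0) {z : L X n}
    (hz : IsCyc n z) : ∃ w, dL Y n w = τ n z := by
  obtain ⟨N0, h0⟩ := kill_small hU hcov (τ n) hτ z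
  obtain ⟨w, hw⟩ := homologous_pow hz N0
  refine ⟨τ (n + 1) w, ?_⟩
  rw [hd, hw, map_add, h0 N0 le_rfl, add_zero]

end Pool.Agent.Helper72.TS
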