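import Mathlib
import Pool.Agent.Helper72.TS2

/-!
Comparison with the singular homology of Mathlib.
-/

set_option linter.unusedSectionVars false

namespace Pool.Agent.Helper72.TS

open CategoryTheory AlgebraicTopology Limits Opposite Simplicial

/-- coefficients -/
noncomputable abbrev F2 : ModuleCat.{0} (ZMod 2) := ModuleCat.of (ZMod 2) (ZMod 2)

/-- singular chain complex -/
noncomputable abbrev KX (X : TopCat.{0}) : ChainComplex (ModuleCat.{0} (ZMod 2)) ℕ :=
  (TopCat.toSSet.obj X).chainComplex F2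

/-- singular chain complex, maps -/
noncomputable abbrev KM {X Y : TopCat.{0}} (g : X ⟶ Y) : KX X ⟶ KX Y :=
  SSet.chainComplexMap (TopCat.toSSet.map g) F2

theorem homologyMap_zero {K L : ChainComplex (ModuleCat.{0} (ZMod 2)) ℕ} (φ : K ⟶ L) (n : ℕ)
    (h : ∀ x : K.X n, (∀ j, (K.d n j).hom x = 0) → ∃ w : L.X (n + 1),
      (L.d (n + 1) n).hom w = (φ.f n).hom x) :
    HomologicalComplex.homologyMap φ n = 0 := by
  rw [← cancel_epi (K.homologyπ n), comp_zero, HomologicalComplex.homologyπ_naturality]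
  ext z
  set x := (K.iCycles n).hom z with hx
  have hx0 : ∀ j, (K.d n j).hom x = 0 := by
    intro j
    have h2 := congrArg (fun f => f.hom z) (K.iCycles_d n j)
    simp only [ModuleCat.hom_comp, LinearMap.comp_apply] at h2
    exact h2
  obtain ⟨w, hw⟩ := h x hx0
  have hcyc : (HomologicalComplex.cyclesMap φ n).hom z = (L.toCycles (n + 1) n).hom w := by
    have hmono : Function.Injective (L.iCycles n).hom :=
      (ModuleCat.mono_iff_injective _).1 inferInstance
    apply hmono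
    have h1 := congrArg (fun f => f.hom z) (HomologicalComplex.cyclesMap_i φ n)
    have h2 := congrArg (fun f => f.hom w) (L.toCycles_i (n + 1) n)
    simp only [ModuleCat.hom_comp, LinearMap.comp_apply] at h1 h2
    rw [h1, h2, hw]
  have h3 := congrArg (fun f => f.hom w)
    (L.toCycles_comp_homologyπ (n + 1) n)
  simp only [ModuleCat.hom_comp, LinearMap.comp_apply] at h3 ⊢
  rw [hcyc, h3]
  rfl

variable (X : TopCat.{0})

/-- comparison map -/
noncomputable def Ph (n : ℕ) : L X n →ₗ[ZMod 2] ((KX X).X n) :=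
  Finsupp.linearCombination _ (fun σ =>
    ((TopCat.toSSet.obj X).ιChainComplex (R := F2) ((X.toSSetObjEquiv (op ⦋n⦌)).symm σ)).hom 1)

theorem Ph_s1 {n : ℕ} (σ : C(D n, X)) : Ph X n (s1 σ) =
    ((TopCat.toSSet.obj X).ιChainComplex (R := F2)
      ((X.toSSetObjEquiv (op ⦋n⦌)).symm σ)).hom 1 := by
  unfold Ph s1
  rw [Finsupp.linearCombination_single, one_smul]

/-- inverse of the comparison map -/
noncomputable def Ps (n : ℕ) : (KX X).X n ⟶ ModuleCat.of (ZMod 2) (L X n) :=
  Cofan.IsColimit.desc ((TopCat.toSSet.obj X).isColimitChainComplexXCofan F2 n)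
    (fun x => ModuleCat.ofHom (LinearMap.toSpanSingleton (ZMod 2) (L X n)
      (s1 (X.toSSetObjEquiv (op ⦋n⦌) x))))

theorem ι_Ps (n : ℕ) (x : (TopCat.toSSet.obj X) _⦋n⦌) :
    (TopCat.toSSet.obj X).ιChainComplex (R := F2) x ≫ Ps X n =
      ModuleCat.ofHom (LinearMap.toSpanSingleton (ZMod 2) (L X n)
      (s1 (X.toSSetObjEquiv (op ⦋n⦌) x))) :=
  Cofan.IsColimit.fac ((TopCat.toSSet.obj X).isColimitChainComplexXCofan F2 n) _ _

theorem Ps_Ph (n : ℕ) (z : L X n) : (Ps X n).hom (Ph X n z) = z := by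
  refine L_ext (f := (Ps X n).hom ∘ₗ Ph X n) (g := LinearMap.id) ?_ z
  intro σ
  simp only [LinearMap.comp_apply, LinearMap.id_apply]
  rw [Ph_s1]
  have := congrArg (fun f => f.hom (1 : ZMod 2)) (ι_Ps X n ((X.toSSetObjEquiv (op ⦋n⦌)).symm σ))
  simp only [ModuleCat.hom_comp, LinearMap.comp_apply] at this
  rw [this]
  simp

theorem Ph_Ps (n : ℕ) (x : (KX X).X n) : Ph X n ((Ps X n).hom x) = x := by
  have : Ps X n ≫ ModuleCat.ofHom (Ph X n) = 𝟙 _ := by
    refine SSet.chainComplex_hom_ext (X := TopCat.toSSet.obj X) (R := F2) (n := n) ?_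
    intro y
    rw [← Category.assoc, ι_Ps]
    ext
    simp only [ModuleCat.hom_comp, ModuleCat.hom_ofHom, LinearMap.comp_apply,
      LinearMap.toSpanSingleton_apply, one_smul]
    rw [Ph_s1]
    simp
  have h2 := congrArg (fun f => f.hom x) this
  simpa using h2

theorem face_eq {n : ℕ} (i : Fin (n + 2)) (t : D n) :
    face i t = stdSimplex.map i.succAbove t := by
  apply D_ext
  intro k
  rw [face, comb_apply]
  have h2 : (stdSimplex.map i.succAbove t : D (n + 1)) k
      = ∑ j ∈ Finset.univ.filter (fun j => i.succAbove j = k), t j := by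
    have := congrFun (stdSimplex.map_coe (S := ℝ) i.succAbove t) k
    refine this.trans ?_
    rw [FunOnFinite.linearMap_apply_apply]
  rw [h2, Finset.sum_filter]
  refine Finset.sum_congr rfl fun j _ => ?_
  rw [io_apply]
  split_ifs <;> simp

theorem Ph_dL (n : ℕ) (z : L X (n + 1)) :
    ((KX X).d (n + 1) n).hom (Ph X (n + 1) z) = Ph X n (dL X n z) := by
  refine L_ext (f := ((KX X).d (n + 1) n).hom ∘ₗ Ph X (n + 1)) (g := Ph X n ∘ₗ dL X n) ?_ z
  intro σ
  simp only [LinearMap.comp_apply]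
  rw [Ph_s1, dL_s1, map_sum]
  have h1 := congrArg (fun f => f.hom (1 : ZMod 2))
    ((TopCat.toSSet.obj X).ιChainComplex_d (R := F2) ((X.toSSetObjEquiv (op ⦋n + 1⦌)).symm σ))
  simp only [ModuleCat.hom_comp, LinearMap.comp_apply] at h1
  refine h1.trans ?_
  rw [ModuleCat.hom_sum, LinearMap.sum_apply]
  refine Finset.sum_congr rfl fun i _ => ?_
  have h2 : ((-1 : ℤ) ^ (i : ℕ) • (TopCat.toSSet.obj X).ιChainComplex (R := F2)
      ((TopCat.toSSet.obj X).δ i ((X.toSSetObjEquiv (op ⦋n + 1⦌)).symm σ))).hom (1 : ZMod 2)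
      = ((TopCat.toSSet.obj X).ιChainComplex (R := F2)
      ((TopCat.toSSet.obj X).δ i ((X.toSSetObjEquiv (op ⦋n + 1⦌)).symm σ))).hom (1 : ZMod 2) := by
    rcases neg_one_pow_eq_or ℤ (i : ℕ) with h | h
    · rw [h, one_smul]
    · rw [h, neg_smul, one_smul, ModuleCat.hom_neg, LinearMap.neg_apply]
      rw [neg_eq_iff_add_eq_zero]
      exact add_self_zero _
  rw [h2, Ph_s1]
  have h3 : (TopCat.toSSet.obj X).δ i ((X.toSSetObjEquiv (op ⦋n + 1⦌)).symm σ)
      = (X.toSSetObjEquiv (op ⦋n⦌)).symm (σ.comp (face i)) := by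
    apply (X.toSSetObjEquiv (op ⦋n⦌)).injective
    rw [Equiv.apply_symm_apply]
    ext1 t
    refine (TopCat.toSSetObjEquiv_δ_apply _ i t).trans ?_
    rw [Equiv.apply_symm_apply, ContinuousMap.comp_apply, face_eq]
  rw [h3]

/-- induced map on singular chains. -/
noncomputable def pL {X Y : Type} [TopologicalSpace X] [TopologicalSpace Y] (g : C(X, Y)) (n : ℕ) :
    L X n →ₗ[ZMod 2] L Y n :=
  Finsupp.linearCombination _ (fun σ => s1 (g.comp σ))

theorem pL_s1 {X Y : Type} [TopologicalSpace X] [TopologicalSpace Y] (g : C(X, Y)) {n : ℕ}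
    (σ : C(D n, X)) : pL g n (s1 σ) = s1 (g.comp σ) := by
  simp [pL, s1, Finsupp.linearCombination_single]

theorem pL_dL {X Y : Type} [TopologicalSpace X] [TopologicalSpace Y] (g : C(X, Y)) {n : ℕ}
    (z : L X (n + 1)) : dL Y n (pL g (n + 1) z) = pL g n (dL X n z) := by
  refine L_ext (f := dL Y n ∘ₗ pL g (n + 1)) (g := pL g n ∘ₗ dL X n) ?_ z
  intro σ
  simp only [LinearMap.comp_apply]
  rw [pL_s1, dL_s1, dL_s1, map_sum]
  refine Finset.sum_congr rfl fun i _ => ?_
  rw [pL_s1, ContinuousMap.comp_assoc]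

theorem Ph_pL {X Y : TopCat.{0}} (g : X ⟶ Y) (n : ℕ) (z : L X n) :
    ((KM g).f n).hom (Ph X n z) = Ph Y n (pL g.hom n z) := by
  refine L_ext (f := ((KM g).f n).hom ∘ₗ Ph X n) (g := Ph Y n ∘ₗ pL g.hom n) ?_ z
  intro σ
  simp only [LinearMap.comp_apply]
  rw [Ph_s1, pL_s1, Ph_s1]
  have h1 := congrArg (fun f => f.hom (1 : ZMod 2))
    (SSet.ι_chainComplexMap_f _ _ (TopCat.toSSet.map g) F2
      ((X.toSSetObjEquiv (op ⦋n⦌)).symm σ))
  simp only [ModuleCat.hom_comp, LinearMap.comp_apply] at h1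
  exact h1

end Pool.Agent.Helper72.TS
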