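import Mathlib
import Pool.Agent.Helper72.TS3

/-!
Homology of spaces modulo two: functoriality, homotopy invariance, locality.
-/

set_option linter.unusedSectionVars false

namespace Pool.Agent.Helper72.TS

open CategoryTheory AlgebraicTopology Limits Opposite Simplicial

variable {X Y Z : Type} [TopologicalSpace X] [TopologicalSpace Y] [TopologicalSpace Z]

/-- homology map -/
noncomputable def Hm (g : C(X, Y)) (n : ℕ) :
    ((KX (TopCat.of X)).homology n) →ₗ[ZMod 2] ((KX (TopCat.of Y)).homology n) :=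
  (HomologicalComplex.homologyMap (KM (TopCat.ofHom g)) n).hom

theorem Hm_id (n : ℕ) : Hm (ContinuousMap.id X) n = LinearMap.id := by
  unfold Hm
  have h1 : KM (TopCat.ofHom (ContinuousMap.id X)) = 𝟙 _ := by
    unfold KM SSet.chainComplexMap
    have : TopCat.ofHom (ContinuousMap.id X) = 𝟙 (TopCat.of X) := rfl
    rw [this, CategoryTheory.Functor.map_id, CategoryTheory.Functor.map_id]
  rw [h1, HomologicalComplex.homologyMap_id]
  rfl

theorem Hm_comp (g : C(Y, Z)) (f : C(X, Y)) (n : ℕ) :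
    Hm (g.comp f) n = Hm g n ∘ₗ Hm f n := by
  unfold Hm
  have h1 : KM (TopCat.ofHom (g.comp f)) = KM (TopCat.ofHom f) ≫ KM (TopCat.ofHom g) := by
    unfold KM SSet.chainComplexMap
    have : TopCat.ofHom (g.comp f) = TopCat.ofHom f ≫ TopCat.ofHom g := rfl
    rw [this, CategoryTheory.Functor.map_comp, CategoryTheory.Functor.map_comp]
  rw [h1, HomologicalComplex.homologyMap_comp]
  rfl

theorem Hm_comp_apply (g : C(Y, Z)) (f : C(X, Y)) (n : ℕ)
    (x : ((KX (TopCat.of X)).homology n)) : Hm (g.comp f) n x = Hm g n (Hm f n x) := by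
  rw [Hm_comp]; rfl

theorem Hm_homotopic {f g : C(X, Y)} (h : ContinuousMap.Homotopic f g) (n : ℕ) :
    Hm f n = Hm g n := by
  obtain ⟨F⟩ := h
  unfold Hm
  have := TopCat.Homotopy.congr_homologyMap_singularChainComplexFunctor
    (X := TopCat.of X) (Y := TopCat.of Y) (f := TopCat.ofHom f) (g := TopCat.ofHom g) F F2 n
  exact congrArg (fun φ => φ.hom) this

theorem Hm_sum_zero {I : Type} {U : I → Set X} (hU : ∀ i, IsOpen (U i))
    (hcov : ∀ x, ∃ i, x ∈ U i) {J : Type} (s : Finset J) (g : J → C(X, Y)) (n : ℕ)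
    (hg : ∀ σ : C(D n, X), (∃ i, ∀ t, σ t ∈ U i) → ∑ j ∈ s, s1 ((g j).comp σ) = 0) :
    ∑ j ∈ s, Hm (g j) n = 0 := by
  have h1 : HomologicalComplex.homologyMap (∑ j ∈ s, KM (TopCat.ofHom (g j))) n = 0 := by
    refine homologyMap_zero _ n ?_
    intro x hx
    set z : L X n := (Ps (TopCat.of X) n).hom x with hz
    have hxz : x = Ph (TopCat.of X) n z := (Ph_Ps (TopCat.of X) n x).symm
    have hcyc : IsCyc n z := by
      cases n with
      | zero => trivial
      | succ k =>
        show dL X k z = 0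
        rw [← Ps_Ph (TopCat.of X) k (dL X k z)]
        have := Ph_dL (TopCat.of X) k z
        rw [← this, ← hxz, hx, map_zero]
    obtain ⟨w, hw⟩ := bounds_of_kill hU hcov (fun m => ∑ j ∈ s, pL (g j) m)
      (by
        intro m y
        simp only [LinearMap.sum_apply, map_sum]
        refine Finset.sum_congr rfl fun j _ => pL_dL (g j) y)
      (by
        intro σ hσ
        rw [LinearMap.sum_apply, ← hg σ hσ]
        exact Finset.sum_congr rfl fun j _ => pL_s1 (g j) σ) hcyc
    refine ⟨Ph (TopCat.of Y) (n + 1) w, ?_⟩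
    rw [Ph_dL (TopCat.of Y) n w, hw, LinearMap.sum_apply, map_sum, hxz]
    have h2 : (∑ j ∈ s, KM (TopCat.ofHom (g j))).f n = ∑ j ∈ s, (KM (TopCat.ofHom (g j))).f n :=
      map_sum (HomologicalComplex.Hom.fAddMonoidHom n) _ _
    rw [h2, ModuleCat.hom_sum, LinearMap.sum_apply]
    refine Finset.sum_congr rfl fun j _ => ?_
    exact (Ph_pL (TopCat.ofHom (g j)) n z).symm
  unfold Hm
  rw [← ModuleCat.hom_sum]
  have h3 : HomologicalComplex.homologyMap (∑ j ∈ s, KM (TopCat.ofHom (g j))) n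
      = ∑ j ∈ s, HomologicalComplex.homologyMap (KM (TopCat.ofHom (g j))) n := by
    exact (HomologicalComplex.homologyFunctor (ModuleCat.{0} (ZMod 2)) _ n).map_sum _ _
  rw [← h3, h1]
  rfl

/-- A homeomorphism of pairs transfers injectivity. -/
theorem inj_transfer (h : X ≃ₜ Y) {A : Set X} {B : Set Y} (hAB : ∀ x, x ∈ A ↔ h x ∈ B) (n : ℕ)
    (hinj : Function.Injective (Hm (⟨Subtype.val, continuous_subtype_val⟩ : C(B, Y)) n)) :
    Function.Injective (Hm (⟨Subtype.val, continuous_subtype_val⟩ : C(A, X)) n) := by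
  let f : C(A, B) := ⟨fun a => ⟨h a.1, (hAB a.1).1 a.2⟩, by fun_prop⟩
  let g : C(B, A) := ⟨fun b => ⟨h.symm b.1, (hAB _).2 (by rw [h.apply_symm_apply]; exact b.2)⟩,
    by fun_prop⟩
  have hgf : g.comp f = ContinuousMap.id A := by
    ext a
    exact h.symm_apply_apply a.1
  have hsq : (⟨h, h.continuous⟩ : C(X, Y)).comp (⟨Subtype.val, continuous_subtype_val⟩ : C(A, X))
      = (⟨Subtype.val, continuous_subtype_val⟩ : C(B, Y)).comp f := by
    ext a
    rfl
  have hf : Function.Injective (Hm f n) := by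
    intro a b hab
    have h1 : Hm (g.comp f) n a = Hm (g.comp f) n b := by
      rw [Hm_comp_apply, Hm_comp_apply, hab]
    rwa [hgf, Hm_id] at h1
  intro a b hab
  apply hf
  apply hinj
  rw [← Hm_comp_apply, ← Hm_comp_apply, ← hsq, Hm_comp_apply, Hm_comp_apply, hab]

end Pool.Agent.Helper72.TS
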