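import Mathlib
import Pool.Agent.Helper72.TS4

/-!
Tightness of real moment-angle complexes.
-/

set_option linter.unusedSectionVars false

namespace Pool.Agent.Helper72.TS

open Finset

variable {V : Type} [Fintype V] [DecidableEq V]

/-- coordinates strictly between zero and one -/
noncomputable def free (x : V → ℝ) : Finset V := univ.filter (fun v => 0 < x v ∧ x v < 1)

theorem mem_free {x : V → ℝ} {v : V} : v ∈ free x ↔ 0 < x v ∧ x v < 1 := by
  simp [free]

/-- the real moment-angle complex -/
def RZ (K : Set (Finset V)) : Set (V → ℝ) :=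
  {x | (∀ v, 0 ≤ x v ∧ x v ≤ 1) ∧ free x ∈ K}

variable {K : Set (Finset V)} (hK : ∀ s ∈ K, ∀ t ⊆ s, t ∈ K)

/-- set coordinates in `T` to one -/
def setOne (T : Finset V) (x : V → ℝ) : V → ℝ := fun v => if v ∈ T then 1 else x v

theorem setOne_free (T : Finset V) (x : V → ℝ) : free (setOne T x) ⊆ free x := by
  intro v hv
  rw [mem_free] at hv ⊢
  unfold setOne at hv
  split_ifs at hv with h
  · exact absurd hv.2 (lt_irrefl _)
  · exact hv

theorem continuous_setOne (T : Finset V) : Continuous (setOne T : (V → ℝ) → (V → ℝ)) := by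
  refine continuous_pi fun v => ?_
  unfold setOne
  split_ifs
  · exact continuous_const
  · exact continuous_apply v

include hK in
theorem setOne_mem {T : Finset V} {x : V → ℝ} (hx : x ∈ RZ K) : setOne T x ∈ RZ K := by
  refine ⟨fun v => ?_, hK _ hx.2 _ (setOne_free T x)⟩
  unfold setOne
  split_ifs
  · exact ⟨zero_le_one, le_rfl⟩
  · exact hx.1 v

/-- height -/
def ht (p : V → ℝ) (x : V → ℝ) : ℝ := ∑ v, p v * x v

theorem continuous_ht (p : V → ℝ) : Continuous (ht p) := by
  unfold ht
  fun_prop

/-- superlevel set -/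
def Up (K : Set (Finset V)) (p : V → ℝ) (c : ℝ) : Set (RZ K) := {x | c ≤ ht p x.1}

variable {p : V → ℝ} {c : ℝ} (hp : ∀ v, 0 < p v)

include hp in
theorem ht_mono {x y : V → ℝ} (h : ∀ v, x v ≤ y v) : ht p x ≤ ht p y :=
  Finset.sum_le_sum fun v _ => mul_le_mul_of_nonneg_left (h v) (hp v).le

theorem le_setOne {T : Finset V} {x : V → ℝ} (hx : x ∈ RZ K) (v : V) : x v ≤ setOne T x v := by
  unfold setOne
  split_ifs
  · exact (hx.1 v).2
  · exact le_rfl

/-- the map `setOne T` on the real moment-angle complex -/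
def xMap (K : Set (Finset V)) (hK : ∀ s ∈ K, ∀ t ⊆ s, t ∈ K) (T : Finset V) : C(RZ K, RZ K) :=
  ⟨fun x => ⟨setOne T x.1, setOne_mem hK x.2⟩,
    ((continuous_setOne T).comp continuous_subtype_val).subtype_mk _⟩

/-- the map `setOne T` on the superlevel set -/
def aMap (K : Set (Finset V)) (hK : ∀ s ∈ K, ∀ t ⊆ s, t ∈ K) (hp : ∀ v, 0 < p v) (T : Finset V) :
    C(Up K p c, Up K p c) :=
  ⟨fun x => ⟨xMap K hK T x.1, le_trans x.2 (ht_mono hp (fun v => le_setOne x.1.2 v))⟩,
    ((xMap K hK T).continuous.comp continuous_subtype_val).subtype_mk _⟩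

/-- the inclusion -/
abbrev inc (K : Set (Finset V)) (p : V → ℝ) (c : ℝ) : C(Up K p c, RZ K) :=
  ⟨Subtype.val, continuous_subtype_val⟩

theorem setOne_setOne (S T : Finset V) (x : V → ℝ) :
    setOne S (setOne T x) = setOne (S ∪ T) x := by
  funext v
  unfold setOne
  by_cases h1 : v ∈ S <;> by_cases h2 : v ∈ T <;> simp [h1, h2]

theorem aMap_comp (S T : Finset V) :
    (aMap (c := c) K hK hp S).comp (aMap K hK hp T) = aMap K hK hp (S ∪ T) := by
  ext x
  exact congrFun (setOne_setOne S T x.1.1) _

theorem aMap_empty : aMap (c := c) K hK hp ∅ = ContinuousMap.id _ := by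
  ext x v
  simp [aMap, xMap, setOne]

theorem inc_aMap (T : Finset V) :
    (inc K p c).comp (aMap K hK hp T) = (xMap K hK T).comp (inc K p c) := rfl

/-- The key vanishing: alternating sums on a face not containing the lowest vertex. -/
theorem key_vanish (hp : ∀ v, 0 < p v) (W : Finset V) (hW : ∑ v ∈ Wᶜ, p v < c) (n : ℕ) :
    ∑ T ∈ W.powerset, Hm ((aMap (c := c) K hK hp T).comp
      (⟨Subtype.val, continuous_subtype_val⟩ :
        C({x : Up K p c | ∀ v, v ∉ W → x.1.1 v = 1}, Up K p c))) n = 0 := by
  set AW : Set (Up K p c) := {x | ∀ v, v ∉ W → x.1.1 v = 1} with hAW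
  set j : C(AW, Up K p c) := ⟨Subtype.val, continuous_subtype_val⟩ with hj
  -- the normalising map
  set N : ℝ := Fintype.card V + 1 with hN
  have hNpos : 0 < N := by positivity
  let s : (V → ℝ) → ℝ := fun x => ∑ v ∈ W, x v
  have hs_cont : Continuous s := by fun_prop
  have hs_pos : ∀ x : AW, 0 < s x.1.1.1 := by
    intro x
    have hx0 : ∀ v ∈ W, 0 ≤ x.1.1.1 v := fun v _ => (x.1.1.2.1 v).1
    rcases (Finset.sum_nonneg hx0).lt_or_eq with h | h
    · exact h
    · exfalso
      have h0 : ∀ v ∈ W, x.1.1.1 v = 0 := (Finset.sum_eq_zero_iff_of_nonneg hx0).1 h.symm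
      have h1 : ht p x.1.1.1 = ∑ v ∈ Wᶜ, p v := by
        unfold ht
        rw [← Finset.sum_add_sum_compl W]
        have e1 : ∑ v ∈ W, p v * x.1.1.1 v = 0 :=
          Finset.sum_eq_zero fun v hv => by rw [h0 v hv, mul_zero]
        rw [e1, zero_add]
        refine Finset.sum_congr rfl fun v hv => ?_
        rw [x.2 v (Finset.mem_compl.1 hv), mul_one]
      have h2 : c ≤ ht p x.1.1.1 := x.1.2
      rw [h1] at h2
      exact absurd hW (not_lt.2 h2)
  let g0 : (V → ℝ) → (V → ℝ) := fun x v => if v ∈ W then min 1 (N * x v / s x) else x v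
  have hs_le : ∀ x : AW, s x.1.1.1 ≤ N := by
    intro x
    calc s x.1.1.1 ≤ ∑ _v ∈ W, (1 : ℝ) := Finset.sum_le_sum fun v _ => (x.1.1.2.1 v).2
      _ = W.card := by simp
      _ ≤ Fintype.card V := by exact_mod_cast Finset.card_le_univ W
      _ ≤ N := by rw [hN]; linarith
  have hge : ∀ (x : AW) v, x.1.1.1 v ≤ g0 x.1.1.1 v := by
    intro x v
    show x.1.1.1 v ≤ if v ∈ W then min 1 (N * x.1.1.1 v / s x.1.1.1) else x.1.1.1 v
    split_ifs with hv
    · refine le_min (x.1.1.2.1 v).2 ?_
      rw [le_div_iff₀ (hs_pos x), mul_comm]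
      exact mul_le_mul_of_nonneg_right (hs_le x) (x.1.1.2.1 v).1
    · exact le_rfl
  have hle : ∀ (x : AW) v, g0 x.1.1.1 v ≤ 1 := by
    intro x v
    show (if v ∈ W then min 1 (N * x.1.1.1 v / s x.1.1.1) else x.1.1.1 v) ≤ 1
    split_ifs with hv
    · exact min_le_left _ _
    · exact (x.1.1.2.1 v).2
  have hzero : ∀ (x : AW) v, x.1.1.1 v = 0 → g0 x.1.1.1 v = 0 := by
    intro x v h0
    show (if v ∈ W then min 1 (N * x.1.1.1 v / s x.1.1.1) else x.1.1.1 v) = 0
    split_ifs with hv
    · rw [h0]; simp
    · exact h0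
  have hone : ∀ (x : AW) v, v ∉ W → g0 x.1.1.1 v = 1 := by
    intro x v hv
    show (if v ∈ W then min 1 (N * x.1.1.1 v / s x.1.1.1) else x.1.1.1 v) = 1
    rw [if_neg hv]
    exact x.2 v hv
  have hg0_cont : Continuous (fun x : AW => g0 x.1.1.1) := by
    refine continuous_pi fun v => ?_
    show Continuous (fun x : AW => if v ∈ W then min 1 (N * x.1.1.1 v / s x.1.1.1) else x.1.1.1 v)
    have hxv : Continuous (fun x : AW => x.1.1.1 v) :=
      (continuous_apply v).comp
        (continuous_subtype_val.comp (continuous_subtype_val.comp continuous_subtype_val))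
    have hsx : Continuous (fun x : AW => s x.1.1.1) :=
      hs_cont.comp
        (continuous_subtype_val.comp (continuous_subtype_val.comp continuous_subtype_val))
    split_ifs with hv
    · exact continuous_const.min ((continuous_const.mul hxv).div hsx (fun x => (hs_pos x).ne'))
    · exact hxv
  -- straight line homotopy stays inside
  have hseg : ∀ (t : ℝ) (x : AW), 0 ≤ t → t ≤ 1 →
      (fun v => (1 - t) * x.1.1.1 v + t * g0 x.1.1.1 v) ∈ RZ K ∧
      c ≤ ht p (fun v => (1 - t) * x.1.1.1 v + t * g0 x.1.1.1 v) ∧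
      ∀ v, v ∉ W → (1 - t) * x.1.1.1 v + t * g0 x.1.1.1 v = 1 := by
    intro t x ht0 ht1
    have hb : ∀ v, x.1.1.1 v ≤ (1 - t) * x.1.1.1 v + t * g0 x.1.1.1 v := by
      intro v
      have := mul_le_mul_of_nonneg_left (hge x v) ht0
      nlinarith
    have hb1 : ∀ v, (1 - t) * x.1.1.1 v + t * g0 x.1.1.1 v ≤ 1 := by
      intro v
      have h1 := mul_le_mul_of_nonneg_left (hle x v) ht0
      have h2 := mul_le_mul_of_nonneg_left (x.1.1.2.1 v).2 (by linarith : 0 ≤ 1 - t)
      linarith
    refine ⟨⟨fun v => ⟨(x.1.1.2.1 v).1.trans (hb v), hb1 v⟩, ?_⟩, ?_, ?_⟩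
    · refine hK _ x.1.1.2.2 _ ?_
      intro v hv
      rw [mem_free] at hv ⊢
      refine ⟨?_, lt_of_le_of_lt (hb v) hv.2⟩
      rcases (x.1.1.2.1 v).1.lt_or_eq with h | h
      · exact h
      · exfalso
        have h0 := hv.1
        rw [hzero x v h.symm, ← h] at h0
        simp at h0
    · exact le_trans x.1.2 (ht_mono hp hb)
    · intro v hv
      rw [hone x v hv, x.2 v hv]
      ring
  have hmemg : ∀ x : AW, g0 x.1.1.1 ∈ RZ K ∧ c ≤ ht p (g0 x.1.1.1) := by
    intro x
    have := hseg 1 x zero_le_one le_rfl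
    have he : (fun v => (1 - (1 : ℝ)) * x.1.1.1 v + 1 * g0 x.1.1.1 v) = g0 x.1.1.1 := by
      funext v; ring
    rw [he] at this
    exact ⟨this.1, this.2.1⟩
  let g : C(AW, AW) := ⟨fun x => ⟨⟨⟨g0 x.1.1.1, (hmemg x).1⟩, (hmemg x).2⟩,
      fun v hv => hone x v hv⟩, by
    exact ((hg0_cont.subtype_mk _).subtype_mk _).subtype_mk _⟩
  have hhom : ContinuousMap.Homotopic (ContinuousMap.id AW) g := by
    refine ⟨⟨⟨fun q => ⟨⟨⟨fun v => (1 - (q.1 : ℝ)) * q.2.1.1.1 v + (q.1 : ℝ) * g0 q.2.1.1.1 v,
      (hseg q.1 q.2 q.1.2.1 q.1.2.2).1⟩, (hseg q.1 q.2 q.1.2.1 q.1.2.2).2.1⟩,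
      (hseg q.1 q.2 q.1.2.1 q.1.2.2).2.2⟩, ?_⟩, ?_, ?_⟩⟩
    · refine Continuous.subtype_mk (Continuous.subtype_mk (Continuous.subtype_mk ?_ _) _) _
      refine continuous_pi fun v => ?_
      have h1 : Continuous (fun q : unitInterval × AW => (q.1 : ℝ)) :=
        continuous_subtype_val.comp continuous_fst
      have h2 : Continuous (fun q : unitInterval × AW => q.2.1.1.1 v) :=
        (continuous_apply v).comp (continuous_subtype_val.comp (continuous_subtype_val.comp
          (continuous_subtype_val.comp continuous_snd)))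
      have h3 : Continuous (fun q : unitInterval × AW => g0 q.2.1.1.1 v) :=
        (continuous_apply v).comp (hg0_cont.comp continuous_snd)
      exact ((continuous_const.sub h1).mul h2).add (h1.mul h3)
    · intro x
      apply Subtype.ext; apply Subtype.ext; apply Subtype.ext
      funext v
      simp
    · intro x
      apply Subtype.ext; apply Subtype.ext; apply Subtype.ext
      funext v
      show (1 - ((1 : unitInterval) : ℝ)) * x.1.1.1 v + ((1 : unitInterval) : ℝ) * g0 x.1.1.1 v
        = g0 x.1.1.1 v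
      simp
  -- replace the inclusion
  have hrep : ∀ T : Finset V, Hm ((aMap (c := c) K hK hp T).comp j) n
      = Hm (((aMap (c := c) K hK hp T).comp j).comp g) n := by
    intro T
    have h1 := ContinuousMap.Homotopic.comp
      (ContinuousMap.Homotopic.refl ((aMap (c := c) K hK hp T).comp j)) hhom
    have h2 := Hm_homotopic h1 n
    rw [ContinuousMap.comp_id] at h2
    exact h2
  rw [Finset.sum_congr rfl (fun T _ => hrep T)]
  -- the cover
  let U : V → Set AW := fun i => {x | i ∈ W ∧ s x.1.1.1 < N * x.1.1.1 i}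
  have hUo : ∀ i, IsOpen (U i) := by
    intro i
    by_cases hi : i ∈ W
    · have : U i = {x : AW | s x.1.1.1 < N * x.1.1.1 i} := by
        ext x
        exact ⟨fun h => h.2, fun h => ⟨hi, h⟩⟩
      rw [this]
      refine isOpen_lt ?_ ?_
      · exact hs_cont.comp
          (continuous_subtype_val.comp (continuous_subtype_val.comp continuous_subtype_val))
      · exact continuous_const.mul ((continuous_apply i).comp
          (continuous_subtype_val.comp (continuous_subtype_val.comp continuous_subtype_val)))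
    · have : U i = ∅ := by
        ext x
        exact ⟨fun h => absurd h.1 hi, fun h => absurd h (Set.notMem_empty x)⟩
      rw [this]
      exact isOpen_empty
  have hUc : ∀ x, ∃ i, x ∈ U i := by
    intro x
    by_contra hcon
    push Not at hcon
    have h1 : ∀ i ∈ W, N * x.1.1.1 i ≤ s x.1.1.1 := by
      intro i hi
      by_contra h
      push Not at h
      exact hcon i ⟨hi, h⟩
    have h2 : ∑ i ∈ W, N * x.1.1.1 i ≤ ∑ _i ∈ W, s x.1.1.1 := Finset.sum_le_sum h1
    rw [← Finset.mul_sum, Finset.sum_const, nsmul_eq_mul] at h2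
    have h3 : (W.card : ℝ) ≤ Fintype.card V := by exact_mod_cast Finset.card_le_univ W
    have h4 := hs_pos x
    have h5 : N * s x.1.1.1 ≤ (W.card : ℝ) * s x.1.1.1 := h2
    have h6 : (W.card : ℝ) * s x.1.1.1 ≤ Fintype.card V * s x.1.1.1 :=
      mul_le_mul_of_nonneg_right h3 h4.le
    rw [hN] at h5
    nlinarith
  refine Hm_sum_zero hUo hUc W.powerset _ n ?_
  rintro σ ⟨i, hi⟩
  have hiW : i ∈ W := (hi (stdSimplex.vertex 0)).1
  have hone' : ∀ t, (g (σ t)).1.1.1 i = 1 := by
    intro t
    show (if i ∈ W then min 1 (N * (σ t).1.1.1 i / s (σ t).1.1.1) else (σ t).1.1.1 i) = 1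
    rw [if_pos hiW]
    refine min_eq_left ?_
    rw [le_div_iff₀ (hs_pos _), one_mul]
    exact (hi t).2.le
  have hWi : W = insert i (W.erase i) := (Finset.insert_erase hiW).symm
  have hpair : ∀ T : Finset V, ((((aMap (c := c) K hK hp (insert i T)).comp j).comp g).comp σ)
      = ((((aMap (c := c) K hK hp T).comp j).comp g).comp σ) := by
    intro T
    ext t v
    show setOne (insert i T) (g (σ t)).1.1.1 v = setOne T (g (σ t)).1.1.1 v
    unfold setOne
    by_cases h1 : v = i
    · subst h1
      rw [if_pos (Finset.mem_insert_self _ _), hone' t]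
      split_ifs <;> rfl
    · by_cases h2 : v ∈ T
      · rw [if_pos h2, if_pos (Finset.mem_insert_of_mem h2)]
      · rw [if_neg h2, if_neg (by simp [h1, h2])]
  have hcalc : ∀ (W' : Finset V), W = insert i W' → i ∉ W' →
      ∑ T ∈ W.powerset, s1 ((((aMap (c := c) K hK hp T).comp j).comp g).comp σ) = 0 := by
    intro W' hW' hi'
    have : ∑ T ∈ W.powerset, s1 ((((aMap (c := c) K hK hp T).comp j).comp g).comp σ)
      = ∑ T ∈ (insert i W').powerset, s1 ((((aMap (c := c) K hK hp T).comp j).comp g).comp σ) :=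
      Finset.sum_congr (by rw [hW']) (fun _ _ => rfl)
    rw [this, Finset.sum_powerset_insert hi', ← Finset.sum_add_distrib]
    refine Finset.sum_eq_zero fun T _ => ?_
    rw [hpair T]
    exact add_self_zero _
  exact hcalc (W.erase i) hWi (Finset.notMem_erase i W)

theorem aMap_apply_of_fixed (hp : ∀ v, 0 < p v) (n : ℕ)
    (x : (KX (TopCat.of (Up K p c))).homology n) (U : Finset V)
    (h : ∀ v ∈ U, Hm (aMap (c := c) K hK hp {v}) n x = x) :
    Hm (aMap (c := c) K hK hp U) n x = x := by
  induction U using Finset.induction_on with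
  | empty =>
    rw [aMap_empty, Hm_id]
    rfl
  | insert v U hv ih =>
    have h1 : aMap (c := c) K hK hp (insert v U)
        = (aMap (c := c) K hK hp U).comp (aMap K hK hp {v}) := by
      rw [aMap_comp]
      congr 1
      ext w
      simp
    rw [h1, Hm_comp_apply, h v (Finset.mem_insert_self v U),
      ih (fun w hw => h w (Finset.mem_insert_of_mem hw))]

theorem tight_aux (hp : ∀ v, 0 < p v) (n : ℕ) : ∀ (W : Finset V)
    (x : (KX (TopCat.of (Up K p c))).homology n),
    Hm (inc K p c) n x = 0 → (∀ v, v ∉ W → Hm (aMap (c := c) K hK hp {v}) n x = x) → x = 0 := by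
  intro W
  induction W using Finset.strongInduction with
  | H W ih =>
    intro x hx hfix
    -- all coordinates in `W` act by zero
    have hz : ∀ v ∈ W, Hm (aMap (c := c) K hK hp {v}) n x = 0 := by
      intro v hv
      refine ih (W.erase v) (Finset.erase_ssubset hv) _ ?_ ?_
      · rw [← Hm_comp_apply, inc_aMap, Hm_comp_apply, hx, map_zero]
      · intro w hw
        by_cases hwv : w = v
        · subst hwv
          rw [← Hm_comp_apply, aMap_comp]
          simp
        · have hwW : w ∉ W := fun h => hw (Finset.mem_erase.2 ⟨hwv, h⟩)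
          rw [← Hm_comp_apply, aMap_comp, Finset.union_comm, ← aMap_comp, Hm_comp_apply,
            hfix w hwW]
    have hzT : ∀ T ∈ W.powerset, T ≠ ∅ → Hm (aMap (c := c) K hK hp T) n x = 0 := by
      intro T hT hne
      obtain ⟨v, hv⟩ := Finset.nonempty_iff_ne_empty.2 hne
      have h1 : aMap (c := c) K hK hp T = (aMap (c := c) K hK hp T).comp (aMap K hK hp {v}) := by
        rw [aMap_comp]
        congr 1
        ext w
        simp only [Finset.mem_union, Finset.mem_singleton]
        constructor
        · exact Or.inl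
        · rintro (h | rfl)
          · exact h
          · exact hv
      rw [h1, Hm_comp_apply, hz v (Finset.mem_powerset.1 hT hv), map_zero]
    have hfixW : Hm (aMap (c := c) K hK hp Wᶜ) n x = x :=
      aMap_apply_of_fixed hK hp n x Wᶜ (fun v hv => hfix v (Finset.mem_compl.1 hv))
    by_cases hW : ∑ v ∈ Wᶜ, p v < c
    · -- the lowest vertex of the face is not in the half space
      have h1 := key_vanish (c := c) hK hp W hW n
      let j : C({x : Up K p c | ∀ v, v ∉ W → x.1.1 v = 1}, Up K p c) :=
        ⟨Subtype.val, continuous_subtype_val⟩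
      let r : C(Up K p c, {x : Up K p c | ∀ v, v ∉ W → x.1.1 v = 1}) :=
        ⟨fun x => ⟨aMap K hK hp Wᶜ x, fun v hv => by
          show setOne Wᶜ x.1.1 v = 1
          unfold setOne
          rw [if_pos (Finset.mem_compl.2 hv)]⟩,
          (aMap K hK hp Wᶜ).continuous.subtype_mk _⟩
      have hjr : j.comp r = aMap K hK hp Wᶜ := rfl
      have h2 : (∑ T ∈ W.powerset, Hm ((aMap (c := c) K hK hp T).comp j) n) (Hm r n x) = 0 := by
        rw [h1]; rfl
      rw [LinearMap.sum_apply] at h2
      have h3 : ∀ T ∈ W.powerset, Hm ((aMap (c := c) K hK hp T).comp j) n (Hm r n x)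
          = Hm (aMap (c := c) K hK hp T) n x := by
        intro T _
        rw [← Hm_comp_apply, ContinuousMap.comp_assoc, hjr, Hm_comp_apply, hfixW]
      rw [Finset.sum_congr rfl h3, Finset.sum_eq_single ∅] at h2
      · rwa [aMap_empty, Hm_id] at h2
      · intro T hT hne
        exact hzT T hT hne
      · intro h
        exact absurd (Finset.empty_mem_powerset W) h
    · -- everything retracts into the half space
      push Not at hW
      have hmem : ∀ x : RZ K, c ≤ ht p (setOne Wᶜ x.1) := by
        intro x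
        refine hW.trans ?_
        unfold ht
        rw [← Finset.sum_add_sum_compl Wᶜ]
        have e1 : ∑ v ∈ Wᶜ, p v * setOne Wᶜ x.1 v = ∑ v ∈ Wᶜ, p v := by
          refine Finset.sum_congr rfl fun v hv => ?_
          unfold setOne
          rw [if_pos hv, mul_one]
        rw [e1]
        have e2 : 0 ≤ ∑ v ∈ Wᶜᶜ, p v * setOne Wᶜ x.1 v := by
          refine Finset.sum_nonneg fun v hv => mul_nonneg (hp v).le ?_
          exact ((setOne_mem hK x.2).1 v).1
        linarith
      let q : C(RZ K, Up K p c) := ⟨fun x => ⟨xMap K hK Wᶜ x, hmem x⟩,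
        (xMap K hK Wᶜ).continuous.subtype_mk _⟩
      have hq : q.comp (inc K p c) = aMap K hK hp Wᶜ := rfl
      rw [← hfixW, ← hq, Hm_comp_apply, hx, map_zero]

include hK in
/-- Tightness for positive directions. -/
theorem tight_pos (hp : ∀ v, 0 < p v) (n : ℕ) : Function.Injective (Hm (inc K p c) n) := by
  rw [injective_iff_map_eq_zero]
  intro x hx
  exact tight_aux hK hp n Finset.univ x hx (fun v hv => absurd (Finset.mem_univ v) hv)

/-- reflection of coordinates -/
noncomputable def refl (p : V → ℝ) (x : V → ℝ) : V → ℝ := fun v => if 0 < p v then x v else 1 - x v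

theorem refl_refl (p : V → ℝ) (x : V → ℝ) : refl p (refl p x) = x := by
  funext v
  unfold refl
  split_ifs
  · rfl
  · ring

theorem continuous_refl (p : V → ℝ) : Continuous (refl p) := by
  refine continuous_pi fun v => ?_
  unfold refl
  split_ifs
  · exact continuous_apply v
  · exact continuous_const.sub (continuous_apply v)

theorem refl_mem (p : V → ℝ) {x : V → ℝ} (hx : x ∈ RZ K) : refl p x ∈ RZ K := by
  refine ⟨fun v => ?_, ?_⟩
  · unfold refl
    have := hx.1 v
    split_ifs
    · exact this
    · constructor <;> linarith [this.1, this.2]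
  · have : free (refl p x) = free x := by
      ext v
      rw [mem_free, mem_free]
      unfold refl
      split_ifs
      · exact Iff.rfl
      · constructor
        · rintro ⟨h1, h2⟩; constructor <;> linarith
        · rintro ⟨h1, h2⟩; constructor <;> linarith
    rw [this]
    exact hx.2

/-- reflection as a homeomorphism -/
noncomputable def reflHomeo (K : Set (Finset V)) (p : V → ℝ) : RZ K ≃ₜ RZ K where
  toFun x := ⟨refl p x.1, refl_mem p x.2⟩
  invFun x := ⟨refl p x.1, refl_mem p x.2⟩
  left_inv x := Subtype.ext (refl_refl p x.1)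
  right_inv x := Subtype.ext (refl_refl p x.1)
  continuous_toFun := ((continuous_refl p).comp continuous_subtype_val).subtype_mk _
  continuous_invFun := ((continuous_refl p).comp continuous_subtype_val).subtype_mk _

include hK in
/-- Tightness for all directions with nonzero coordinates. -/
theorem tight_RZ (hp : ∀ v, p v ≠ 0) (n : ℕ) : Function.Injective (Hm (inc K p c) n) := by
  have h := tight_pos hK (p := fun v => |p v|)
    (c := c - ∑ v, if 0 < p v then 0 else p v) (fun v => abs_pos.2 (hp v)) n
  refine inj_transfer (reflHomeo K p) ?_ n h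
  intro x
  show c ≤ ht p x.1 ↔ c - ∑ v, (if 0 < p v then 0 else p v) ≤ ht (fun v => |p v|) (refl p x.1)
  have : ht p x.1 = ht (fun v => |p v|) (refl p x.1) + ∑ v, (if 0 < p v then 0 else p v) := by
    unfold ht
    rw [← Finset.sum_add_distrib]
    refine Finset.sum_congr rfl fun v _ => ?_
    unfold refl
    split_ifs with hv
    · beta_reduce
      rw [abs_of_pos hv]; ring
    · have : p v < 0 := lt_of_le_of_ne (not_lt.1 hv) (hp v)
      beta_reduce
      rw [abs_of_neg this]; ring
  rw [this]
  constructor <;> intro h <;> linarith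

end Pool.Agent.Helper72.TS
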