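import Mathlib
import Pool.Agent.Helper72.TA7
import Pool.Agent.Helper72.TS5

/-!
Charts: the orthant complex of `K8` is homeomorphic to Euclidean space.
-/

set_option linter.unusedSectionVars false

namespace Pool.Agent.Helper72.TC

open Finset Pool.Agent.Helper72.TA Pool.Agent.Helper72.TS

open Classical in
/-- nonfaces -/
noncomputable def NF : Finset (Finset (Fin 8)) := univ.filter (fun τ => τ ∉ YY)

theorem mem_NF {τ : Finset (Fin 8)} : τ ∈ NF ↔ τ ∉ YY := by simp [NF]

theorem NF_ne : NF.Nonempty := by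
  refine ⟨univ, mem_NF.2 fun h => ?_⟩
  have := YY_card h
  simp at this

theorem NF_nonempty {τ : Finset (Fin 8)} (h : τ ∈ NF) : τ.Nonempty := by
  rw [Finset.nonempty_iff_ne_empty]
  rintro rfl
  exact mem_NF.1 h YY_empty

open Classical in
/-- minimum over a set -/
noncomputable def mi (τ : Finset (Fin 8)) (y : Fin 8 → ℝ) : ℝ :=
  if h : τ.Nonempty then τ.inf' h y else 0

/-- the threshold -/
noncomputable def thr (y : Fin 8 → ℝ) : ℝ := NF.sup' NF_ne (fun τ => mi τ y)

theorem continuous_mi (τ : Finset (Fin 8)) : Continuous (mi τ) := by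
  unfold mi
  split_ifs with h
  · exact Continuous.finset_inf'_apply h (fun i _ => continuous_apply i)
  · exact continuous_const

theorem continuous_thr : Continuous thr := by
  unfold thr
  exact Continuous.finset_sup'_apply NF_ne (fun τ _ => continuous_mi τ)

theorem le_thr_iff {c : ℝ} {y : Fin 8 → ℝ} :
    c ≤ thr y ↔ (univ.filter (fun i => c ≤ y i)) ∉ YY := by
  unfold thr
  rw [Finset.le_sup'_iff]
  constructor
  · rintro ⟨τ, hτ, h⟩ hcon
    apply mem_NF.1 hτ
    refine YY_dn _ hcon _ ?_
    intro i hi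
    have hne := NF_nonempty hτ
    rw [mi, dif_pos hne, Finset.le_inf'_iff] at h
    simp [h i hi]
  · intro h
    refine ⟨_, mem_NF.2 h, ?_⟩
    have hne := NF_nonempty (mem_NF.2 h)
    rw [mi, dif_pos hne, Finset.le_inf'_iff]
    intro i hi
    exact (Finset.mem_filter.1 hi).2

theorem lt_thr_iff {c : ℝ} {y : Fin 8 → ℝ} :
    c < thr y ↔ (univ.filter (fun i => c < y i)) ∉ YY := by
  unfold thr
  rw [Finset.lt_sup'_iff]
  constructor
  · rintro ⟨τ, hτ, h⟩ hcon
    apply mem_NF.1 hτ
    refine YY_dn _ hcon _ ?_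
    intro i hi
    have hne := NF_nonempty hτ
    rw [mi, dif_pos hne, Finset.lt_inf'_iff] at h
    simp [h i hi]
  · intro h
    refine ⟨_, mem_NF.2 h, ?_⟩
    have hne := NF_nonempty (mem_NF.2 h)
    rw [mi, dif_pos hne, Finset.lt_inf'_iff]
    intro i hi
    exact (Finset.mem_filter.1 hi).2

theorem thr_eq_zero_iff {y : Fin 8 → ℝ} :
    thr y = 0 ↔ (univ.filter (fun i => 0 < y i)) ∈ YY ∧ (univ.filter (fun i => 0 ≤ y i)) ∉ YY := by
  have h1 := le_thr_iff (c := 0) (y := y)
  have h2 := lt_thr_iff (c := 0) (y := y)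
  constructor
  · intro h
    rw [h] at h1 h2
    refine ⟨?_, h1.1 le_rfl⟩
    by_contra hcon
    exact lt_irrefl _ (h2.2 hcon)
  · rintro ⟨ha, hb⟩
    apply le_antisymm
    · by_contra hcon
      exact (h2.1 (not_le.1 hcon)) ha
    · exact h1.2 hb

theorem thr_sub (y : Fin 8 → ℝ) (c : ℝ) : thr (fun i => y i - c) = thr y - c := by
  apply eq_of_forall_le_iff
  intro a
  rw [le_sub_iff_add_le, le_thr_iff, le_thr_iff]
  have : (univ.filter (fun i => a ≤ y i - c)) = univ.filter (fun i => a + c ≤ y i) := by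
    ext i
    simp [le_sub_iff_add_le]
  rw [this]

/-- minimum of a row -/
noncomputable def mr (w : Fin 8 → Fin 4 → ℝ) (i : Fin 8) : ℝ :=
  (univ : Finset (Fin 4)).inf' ⟨0, Finset.mem_univ 0⟩ (w i)

theorem mr_le (w : Fin 8 → Fin 4 → ℝ) (i : Fin 8) (a : Fin 4) : mr w i ≤ w i a :=
  Finset.inf'_le _ (Finset.mem_univ a)

theorem exists_mr (w : Fin 8 → Fin 4 → ℝ) (i : Fin 8) : ∃ a, mr w i = w i a := by
  obtain ⟨a, _, ha⟩ := Finset.exists_mem_eq_inf' (⟨0, Finset.mem_univ 0⟩ : (univ : Finset (Fin 4)).Nonempty) (w i)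
  exact ⟨a, ha⟩

theorem continuous_mr (i : Fin 8) : Continuous (fun w => mr w i) := by
  unfold mr
  exact Continuous.finset_inf'_apply _ (fun a _ => (continuous_apply a).comp (continuous_apply i))

theorem mr_add (w : Fin 8 → Fin 4 → ℝ) (c : ℝ) (i : Fin 8) :
    mr (fun i a => w i a + c) i = mr w i + c := by
  apply le_antisymm
  · obtain ⟨a, ha⟩ := exists_mr w i
    rw [ha]
    exact mr_le _ i a
  · obtain ⟨a, ha⟩ := exists_mr (fun i a => w i a + c) i
    rw [ha]
    have := mr_le w i a
    linarith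

/-- the support of a vector -/
noncomputable def sp (t : X8 → ℝ) : Finset X8 := univ.filter (fun v => 0 < t v)

/-- orthant complex -/
def OC : Set (X8 → ℝ) := {t | (∀ v, 0 ≤ t v) ∧ sp t ∈ K8}

/-- level set -/
def Ws : Set (Fin 8 → Fin 4 → ℝ) := {w | thr (fun i => - mr w i) = 0}

/-- from the orthant complex to differences -/
def dif (t : X8 → ℝ) : Fin 8 → Fin 4 → ℝ := fun i a => t (toLex (i, a.succ)) - t (toLex (i, 0))

/-- back -/
noncomputable def rec (w : Fin 8 → Fin 4 → ℝ) : X8 → ℝ := fun x =>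
  Fin.cases (motive := fun _ => ℝ) (max 0 (- mr w (ofLex x).1))
    (fun b => w (ofLex x).1 b + max 0 (- mr w (ofLex x).1)) (ofLex x).2

theorem rec_zero (w : Fin 8 → Fin 4 → ℝ) (i : Fin 8) :
    rec w (toLex (i, 0)) = max 0 (- mr w i) := rfl

theorem rec_succ (w : Fin 8 → Fin 4 → ℝ) (i : Fin 8) (b : Fin 4) :
    rec w (toLex (i, b.succ)) = w i b + max 0 (- mr w i) := rfl

theorem continuous_dif : Continuous dif := by
  refine continuous_pi fun i => continuous_pi fun a => ?_
  exact (continuous_apply _).sub (continuous_apply _)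

theorem X8_cases {p : X8 → Prop} (h0 : ∀ i, p (toLex (i, 0)))
    (h1 : ∀ i b, p (toLex (i, Fin.succ b))) : ∀ x, p x := by
  intro x
  have hx : x = toLex ((ofLex x).1, (ofLex x).2) := rfl
  rw [hx]
  generalize (ofLex x).1 = i
  generalize (ofLex x).2 = a
  refine Fin.cases ?_ (fun b => ?_) a
  · exact h0 i
  · exact h1 i b

theorem continuous_rec : Continuous rec := by
  refine continuous_pi fun x => ?_
  revert x
  refine X8_cases ?_ ?_
  · intro i
    have h : Continuous (fun w : Fin 8 → Fin 4 → ℝ => - mr w i) := (continuous_mr i).neg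
    have h2 : Continuous (fun w : Fin 8 → Fin 4 → ℝ => max 0 (- mr w i)) :=
      Continuous.max continuous_const h
    exact h2
  · intro i b
    have h : Continuous (fun w : Fin 8 → Fin 4 → ℝ => - mr w i) := (continuous_mr i).neg
    have h2 : Continuous (fun w : Fin 8 → Fin 4 → ℝ => max 0 (- mr w i)) :=
      Continuous.max continuous_const h
    have h3 : Continuous (fun w : Fin 8 → Fin 4 → ℝ => w i b) :=
      (continuous_apply b).comp (continuous_apply i)
    exact h3.add h2

theorem dif_rec (w : Fin 8 → Fin 4 → ℝ) : dif (rec w) = w := by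
  funext i a
  unfold dif
  rw [rec_zero, rec_succ]
  ring

theorem mem_sp {t : X8 → ℝ} {v : X8} : v ∈ sp t ↔ 0 < t v := by simp [sp]

theorem notMem_sp {t : X8 → ℝ} (ht : ∀ v, 0 ≤ t v) {v : X8} : v ∉ sp t ↔ t v = 0 := by
  rw [mem_sp, not_lt]
  constructor
  · intro h; exact le_antisymm h (ht v)
  · intro h; exact h.le

theorem neg_mr_dif {t : X8 → ℝ} (ht : t ∈ OC) (i : Fin 8) :
    max 0 (- mr (dif t) i) = t (toLex (i, 0)) ∧
    (0 < - mr (dif t) i ↔ 0 < t (toLex (i, 0))) ∧
    (0 ≤ - mr (dif t) i ↔ ∃ a : Fin 5, a ≠ 0 ∧ t (toLex (i, a)) = 0) := by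
  obtain ⟨ht0, h1, -, -⟩ := ht
  obtain ⟨a, ha⟩ := exists_mr (dif t) i
  have hle := mr_le (dif t) i
  obtain ⟨a0, ha0⟩ := h1 i
  rw [notMem_sp ht0] at ha0
  have hd : ∀ b, dif t i b = t (toLex (i, b.succ)) - t (toLex (i, 0)) := fun b => rfl
  have hnn : ∀ b : Fin 4, 0 ≤ t (toLex (i, b.succ)) := fun b => ht0 _
  have h00 := ht0 (toLex (i, 0))
  -- either the zero entry vanishes or some other entry vanishes
  have hcase : t (toLex (i, 0)) = 0 ∨ ∃ b : Fin 4, t (toLex (i, b.succ)) = 0 := by
    revert ha0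
    refine Fin.cases ?_ (fun b => ?_) a0
    · exact fun h => Or.inl h
    · exact fun h => Or.inr ⟨b, h⟩
  rw [ha, hd]
  refine ⟨?_, ?_, ?_⟩
  · rcases hcase with h | ⟨b, hb⟩
    · rw [h]
      have := hnn a
      rw [max_eq_left (by linarith)]
    · have h2 := hle b
      rw [ha, hd, hd, hb] at h2
      have h3 := hnn a
      rw [max_eq_right (by linarith)]
      linarith
  · constructor
    · intro h
      have := hnn a
      linarith
    · intro h
      rcases hcase with h' | ⟨b, hb⟩
      · linarith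
      · have h2 := hle b
        rw [ha, hd, hd, hb] at h2
        have h3 := hnn a
        linarith
  · constructor
    · intro h
      rcases hcase with h' | ⟨b, hb⟩
      · refine ⟨a.succ, Fin.succ_ne_zero a, ?_⟩
        have := hnn a
        linarith
      · exact ⟨b.succ, Fin.succ_ne_zero b, hb⟩
    · rintro ⟨b, hb0, hb⟩
      obtain ⟨b', rfl⟩ := Fin.exists_succ_eq.2 hb0
      have h2 := hle b'
      rw [ha, hd, hd, hb] at h2
      linarith

theorem dif_mem {t : X8 → ℝ} (ht : t ∈ OC) : dif t ∈ Ws := by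
  show thr (fun i => - mr (dif t) i) = 0
  rw [thr_eq_zero_iff]
  have h2 := ht.2.2.1
  have h3 := ht.2.2.2
  constructor
  · convert h2 using 1
    ext i
    simp only [Finset.mem_filter, Finset.mem_univ, true_and]
    rw [(neg_mr_dif ht i).2.1, mem_sp]
  · intro hcon
    apply h3
    convert hcon using 1
    ext i
    simp only [Finset.mem_filter, Finset.mem_univ, true_and]
    rw [(neg_mr_dif ht i).2.2]
    constructor
    · rintro ⟨a, ha, ha'⟩
      exact ⟨a, ha, (notMem_sp ht.1).1 ha'⟩
    · rintro ⟨a, ha, ha'⟩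
      exact ⟨a, ha, (notMem_sp ht.1).2 ha'⟩

theorem rec_dif {t : X8 → ℝ} (ht : t ∈ OC) : rec (dif t) = t := by
  funext x
  revert x
  refine X8_cases ?_ ?_
  · intro i
    rw [rec_zero, (neg_mr_dif ht i).1]
  · intro i b
    rw [rec_succ, (neg_mr_dif ht i).1]
    unfold dif
    ring

theorem rec_mem {w : Fin 8 → Fin 4 → ℝ} (hw : w ∈ Ws) : rec w ∈ OC := by
  have h0 : ∀ v, 0 ≤ rec w v := by
    refine X8_cases ?_ ?_
    · intro i
      rw [rec_zero]; exact le_max_left _ _
    · intro i b
      rw [rec_succ]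
      have h1 := mr_le w i b
      have h2 := le_max_right 0 (- mr w i)
      linarith
  obtain ⟨h1, h2⟩ := thr_eq_zero_iff.1 (show thr (fun i => - mr w i) = 0 from hw)
  refine ⟨h0, ?_, ?_, ?_⟩
  · intro i
    obtain ⟨a, ha⟩ := exists_mr w i
    rcases le_or_gt (- mr w i) 0 with h | h
    · refine ⟨0, (notMem_sp h0).2 ?_⟩
      rw [rec_zero, max_eq_left h]
    · refine ⟨a.succ, (notMem_sp h0).2 ?_⟩
      rw [rec_succ, max_eq_right h.le, ha]
      ring
  · convert h1 using 1
    ext i
    simp only [Finset.mem_filter, Finset.mem_univ, true_and]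
    rw [mem_sp, rec_zero]
    simp
  · intro hcon
    apply h2
    convert hcon using 1
    ext i
    simp only [Finset.mem_filter, Finset.mem_univ, true_and]
    constructor
    · intro h
      obtain ⟨a, ha⟩ := exists_mr w i
      refine ⟨a.succ, Fin.succ_ne_zero a, (notMem_sp h0).2 ?_⟩
      rw [rec_succ, max_eq_right h, ha]
      ring
    · rintro ⟨a, ha, ha'⟩
      obtain ⟨b, rfl⟩ := Fin.exists_succ_eq.2 ha
      rw [notMem_sp h0, rec_succ] at ha'
      by_contra hneg
      push Not at hneg
      rw [max_eq_left hneg.le] at ha'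
      have := mr_le w i b
      linarith

/-- Orthant complex and level set -/
noncomputable def homA : OC ≃ₜ Ws where
  toFun t := ⟨dif t.1, dif_mem t.2⟩
  invFun w := ⟨rec w.1, rec_mem w.2⟩
  left_inv t := Subtype.ext (rec_dif t.2)
  right_inv w := Subtype.ext (dif_rec w.1)
  continuous_toFun := (continuous_dif.comp continuous_subtype_val).subtype_mk _
  continuous_invFun := (continuous_rec.comp continuous_subtype_val).subtype_mk _

/-- index set for coordinates -/
abbrev J : Type := {p : Fin 8 × Fin 4 // p ≠ (0, 0)}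

/-- extension by zero -/
noncomputable def ext0 (u : J → ℝ) : Fin 8 → Fin 4 → ℝ := fun i a =>
  if h : (i, a) ≠ (0, 0) then u ⟨(i, a), h⟩ else 0

/-- the level of the extension -/
noncomputable def lev (u : J → ℝ) : ℝ := thr (fun i => - mr (ext0 u) i)

/-- translate to the level set -/
noncomputable def lift (u : J → ℝ) : Fin 8 → Fin 4 → ℝ := fun i a => ext0 u i a + lev u

theorem continuous_ext0 : Continuous ext0 := by
  refine continuous_pi fun i => continuous_pi fun a => ?_
  unfold ext0
  split_ifs with h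
  · exact continuous_apply _
  · exact continuous_const

theorem continuous_lev : Continuous lev := by
  unfold lev
  refine continuous_thr.comp (continuous_pi fun i => ?_)
  exact ((continuous_mr i).comp continuous_ext0).neg

theorem continuous_lift : Continuous lift := by
  refine continuous_pi fun i => continuous_pi fun a => ?_
  exact ((continuous_apply a).comp ((continuous_apply i).comp continuous_ext0)).add continuous_lev

theorem lift_mem (u : J → ℝ) : lift u ∈ Ws := by
  show thr (fun i => - mr (lift u) i) = 0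
  have : (fun i => - mr (lift u) i) = fun i => - mr (ext0 u) i - lev u := by
    funext i
    have := mr_add (ext0 u) (lev u) i
    have h2 : mr (lift u) i = mr (ext0 u) i + lev u := this
    rw [h2]; ring
  rw [this, thr_sub]
  exact sub_self _

/-- relative coordinates -/
def relc (w : Fin 8 → Fin 4 → ℝ) : J → ℝ := fun p => w p.1.1 p.1.2 - w 0 0

theorem continuous_relc : Continuous relc := by
  refine continuous_pi fun p => ?_
  show Continuous (fun w : Fin 8 → Fin 4 → ℝ => w p.1.1 p.1.2 - w 0 0)
  have h : ∀ (i : Fin 8) (a : Fin 4), Continuous (fun w : Fin 8 → Fin 4 → ℝ => w i a) :=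
    fun i a => (continuous_apply a).comp (continuous_apply i)
  exact (h _ _).sub (h _ _)

theorem relc_lift (u : J → ℝ) : relc (lift u) = u := by
  funext p
  unfold relc lift
  have h1 : ext0 u 0 0 = 0 := by unfold ext0; simp
  have h2 : ext0 u p.1.1 p.1.2 = u p := by
    unfold ext0
    have hp : (p.1.1, p.1.2) ≠ ((0 : Fin 8), (0 : Fin 4)) := p.2
    rw [dif_pos hp]
  rw [h1, h2]
  ring

theorem ext0_relc (w : Fin 8 → Fin 4 → ℝ) (i : Fin 8) (a : Fin 4) :
    ext0 (relc w) i a = w i a - w 0 0 := by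
  unfold ext0 relc
  split_ifs with h
  · rfl
  · push Not at h
    have h1 : i = 0 := congrArg Prod.fst h
    have h2 : a = 0 := congrArg Prod.snd h
    rw [h1, h2, sub_self]

theorem lift_relc {w : Fin 8 → Fin 4 → ℝ} (hw : w ∈ Ws) : lift (relc w) = w := by
  have hlev : lev (relc w) = w 0 0 := by
    unfold lev
    have h1 : (fun i => - mr (ext0 (relc w)) i) = fun i => - mr w i - (- w 0 0) := by
      funext i
      have h2 : ext0 (relc w) = fun i a => w i a + (- w 0 0) := by
        funext i a
        rw [ext0_relc]; ring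
      rw [h2, mr_add]; ring
    rw [h1, thr_sub]
    have h3 : thr (fun i => - mr w i) = 0 := hw
    rw [h3]; ring
  funext i a
  unfold lift
  rw [hlev, ext0_relc]
  ring

/-- level set and coordinate space -/
noncomputable def homB : Ws ≃ₜ (J → ℝ) where
  toFun w := relc w.1
  invFun u := ⟨lift u, lift_mem u⟩
  left_inv w := Subtype.ext (lift_relc w.2)
  right_inv u := relc_lift u
  continuous_toFun := continuous_relc.comp continuous_subtype_val
  continuous_invFun := continuous_lift.subtype_mk _

theorem card_J : Fintype.card J = 31 := by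
  rw [Fintype.card_subtype_compl]
  simp

/-- The orthant complex is a Euclidean space. -/
noncomputable def homOC : OC ≃ₜ EuclideanSpace ℝ (Fin 31) :=
  homA.trans (homB.trans ((Homeomorph.piCongrLeft (Y := fun _ => ℝ)
    (Fintype.equivFinOfCardEq card_J)).trans
      (EuclideanSpace.equiv (Fin 31) ℝ).symm.toHomeomorph))

end Pool.Agent.Helper72.TC
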