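import Mathlib
import Pool.Agent.Helper72.TC1

/-!
Charts of the real moment-angle complex of `K8`.
-/

set_option linter.unusedSectionVars false

namespace Pool.Agent.Helper72.TC

open Finset Pool.Agent.Helper72.TA Pool.Agent.Helper72.TS

/-- from the real moment-angle complex to the orthant -/
noncomputable def tm (E : Finset X8) (x : X8 → ℝ) : X8 → ℝ := fun v =>
  if v ∈ E then (1 - x v) / x v else x v / (1 - x v)

/-- from the orthant -/
noncomputable def xm (E : Finset X8) (t : X8 → ℝ) : X8 → ℝ := fun v =>
  if v ∈ E then 1 / (1 + t v) else t v / (1 + t v)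

/-- domain of the chart at a corner -/
def UE (E : Finset X8) : Set (RZ K8) := {x | ∀ v, x.1 v ≠ if v ∈ E then 0 else 1}

theorem isOpen_UE (E : Finset X8) : IsOpen (UE E) := by
  have : UE E = ⋂ v, {x : RZ K8 | x.1 v ≠ if v ∈ E then 0 else 1} := by
    ext x
    simp only [UE, Set.mem_iInter]
    exact Iff.rfl
  rw [this]
  refine isOpen_iInter_of_finite fun v => ?_
  exact isOpen_ne.preimage ((continuous_apply v).comp continuous_subtype_val)

theorem xm_pos {E : Finset X8} {t : X8 → ℝ} (ht : ∀ v, 0 ≤ t v) (v : X8) :
    0 ≤ xm E t v ∧ xm E t v ≤ 1 ∧ (xm E t v ≠ if v ∈ E then 0 else 1) := by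
  have h := ht v
  have h1 : 0 < 1 + t v := by linarith
  unfold xm
  split_ifs with hv
  · refine ⟨by positivity, ?_, by positivity⟩
    rw [div_le_one h1]; linarith
  · refine ⟨by positivity, ?_, ?_⟩
    · rw [div_le_one h1]; linarith
    · intro h2
      rw [div_eq_one_iff_eq h1.ne'] at h2
      linarith

theorem free_xm {E : Finset X8} {t : X8 → ℝ} (ht : ∀ v, 0 ≤ t v) : free (xm E t) = sp t := by
  ext v
  rw [mem_free, mem_sp]
  have h := ht v
  have h1 : 0 < 1 + t v := by linarith
  unfold xm
  split_ifs with hv
  · constructor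
    · rintro ⟨_, h2⟩
      rw [div_lt_one h1] at h2
      linarith
    · intro h2
      refine ⟨by positivity, ?_⟩
      rw [div_lt_one h1]; linarith
  · constructor
    · rintro ⟨h2, _⟩
      by_contra h3
      have : t v = 0 := le_antisymm (not_lt.1 h3) h
      rw [this] at h2
      simp at h2
    · intro h2
      refine ⟨by positivity, ?_⟩
      rw [div_lt_one h1]; linarith

theorem tm_nonneg {E : Finset X8} {x : X8 → ℝ} (hx : ∀ v, 0 ≤ x v ∧ x v ≤ 1) (v : X8) :
    0 ≤ tm E x v := by
  have h := hx v
  unfold tm
  split_ifs with hv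
  · exact div_nonneg (by linarith [h.2]) h.1
  · exact div_nonneg h.1 (by linarith [h.2])

theorem xm_tm {E : Finset X8} {x : X8 → ℝ}
    (hE : ∀ v, x v ≠ if v ∈ E then 0 else 1) : xm E (tm E x) = x := by
  funext v
  have h2 := hE v
  unfold xm tm
  split_ifs with hv
  · rw [if_pos hv] at h2
    field_simp
    ring
  · rw [if_neg hv] at h2
    have h3 : 1 - x v ≠ 0 := fun h' => h2 (by linarith)
    field_simp
    ring

theorem tm_xm {E : Finset X8} {t : X8 → ℝ} (ht : ∀ v, 0 ≤ t v) : tm E (xm E t) = t := by
  funext v
  have h := ht v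
  have h1 : 1 + t v ≠ 0 := by linarith
  by_cases hv : v ∈ E
  · have hx : xm E t v = 1 / (1 + t v) := by unfold xm; rw [if_pos hv]
    unfold tm
    rw [if_pos hv, hx]
    field_simp
    ring
  · have hx : xm E t v = t v / (1 + t v) := by unfold xm; rw [if_neg hv]
    unfold tm
    have h3 : 1 - t v / (1 + t v) = 1 / (1 + t v) := by field_simp; ring
    rw [if_neg hv, hx, h3]
    field_simp

/-- the chart at a corner, as a homeomorphism -/
noncomputable def homU (E : Finset X8) : OC ≃ₜ UE E where
  toFun t := ⟨⟨xm E t.1, ⟨fun v => ⟨(xm_pos t.2.1 v).1, (xm_pos t.2.1 v).2.1⟩, by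
    rw [free_xm t.2.1]; exact t.2.2⟩⟩, fun v => (xm_pos t.2.1 v).2.2⟩
  invFun x := ⟨tm E x.1.1, ⟨tm_nonneg x.1.2.1, by
    have h1 : free (xm E (tm E x.1.1)) = sp (tm E x.1.1) := free_xm (tm_nonneg x.1.2.1)
    rw [← h1, xm_tm x.2]
    exact x.1.2.2⟩⟩
  left_inv t := Subtype.ext (tm_xm t.2.1)
  right_inv x := Subtype.ext (Subtype.ext (xm_tm x.2))
  continuous_toFun := by
    refine Continuous.subtype_mk (Continuous.subtype_mk ?_ _) _
    refine continuous_pi fun v => ?_
    have hc : Continuous (fun t : OC => t.1 v) := (continuous_apply v).comp continuous_subtype_val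
    have hd : Continuous (fun t : OC => 1 + t.1 v) := continuous_const.add hc
    have hne : ∀ t : OC, 1 + t.1 v ≠ 0 := fun t => by
      have := t.2.1 v
      intro h
      linarith
    by_cases hv : v ∈ E
    · have : (fun t : OC => xm E t.1 v) = fun t : OC => 1 / (1 + t.1 v) := by
        funext t; unfold xm; rw [if_pos hv]
      rw [this]
      exact continuous_const.div hd hne
    · have : (fun t : OC => xm E t.1 v) = fun t : OC => t.1 v / (1 + t.1 v) := by
        funext t; unfold xm; rw [if_neg hv]
      rw [this]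
      exact hc.div hd hne
  continuous_invFun := by
    refine Continuous.subtype_mk ?_ _
    refine continuous_pi fun v => ?_
    have hc : Continuous (fun x : UE E => x.1.1 v) :=
      (continuous_apply v).comp (continuous_subtype_val.comp continuous_subtype_val)
    by_cases hv : v ∈ E
    · have : (fun x : UE E => tm E x.1.1 v) = fun x : UE E => (1 - x.1.1 v) / x.1.1 v := by
        funext t; unfold tm; rw [if_pos hv]
      rw [this]
      refine (continuous_const.sub hc).div hc fun x => ?_
      have := x.2 v
      rwa [if_pos hv] at this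
    · have : (fun x : UE E => tm E x.1.1 v) = fun x : UE E => x.1.1 v / (1 - x.1.1 v) := by
        funext t; unfold tm; rw [if_neg hv]
      rw [this]
      refine hc.div (continuous_const.sub hc) fun x => ?_
      have := x.2 v
      rw [if_neg hv] at this
      intro h
      apply this
      linarith

/-- open embeddings covering -/
theorem exists_chart (x : RZ K8) : ∃ f : EuclideanSpace ℝ (Fin 31) → RZ K8,
    Topology.IsOpenEmbedding f ∧ x ∈ Set.range f := by
  classical
  set E : Finset X8 := univ.filter (fun v => x.1 v ≠ 0) with hE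
  have hx : x ∈ UE E := by
    intro v
    by_cases hv : x.1 v = 0
    · have : v ∉ E := by simp [hE, hv]
      rw [if_neg this, hv]
      exact zero_ne_one
    · have : v ∈ E := by simp [hE, hv]
      rw [if_pos this]
      exact hv
  refine ⟨fun y => ((homU E) (homOC.symm y)).1, ?_, ?_⟩
  · exact (isOpen_UE E).isOpenEmbedding_subtypeVal.comp
      ((homU E).isOpenEmbedding.comp homOC.symm.isOpenEmbedding)
  · refine ⟨homOC ((homU E).symm ⟨x, hx⟩), ?_⟩
    simp

theorem charted_of {M H : Type} [TopologicalSpace M] [TopologicalSpace H] [Nonempty H]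
    (h : ∀ x : M, ∃ f : H → M, Topology.IsOpenEmbedding f ∧ x ∈ Set.range f) :
    Nonempty (ChartedSpace H M) := by
  choose f hf hx using h
  exact ⟨{
    atlas := Set.range (fun x => ((hf x).toOpenPartialHomeomorph (f x)).symm)
    chartAt := fun x => ((hf x).toOpenPartialHomeomorph (f x)).symm
    mem_chart_source := fun x => by
      simpa using hx x
    chart_mem_atlas := fun x => ⟨x, rfl⟩ }⟩

end Pool.Agent.Helper72.TC
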