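import Mathlib

/-!
Finite simplicial complexes, barycentric subdivision, tightness, perfection.
-/

namespace Pool.Agent.Helper72.TD

open AlgebraicTopology

/-- A finite simplicial complex: a finite type of vertices together with a downward closed
family of nonempty finite sets of vertices, the faces. -/
structure FinComplex where
  /-- the vertex type -/
  Vert : Type
  [fin : Fintype Vert]
  /-- the complex -/
  cx : PreAbstractSimplicialComplex Vert

attribute [instance] FinComplex.fin

namespace FinComplex

/-- The barycentric subdivision: vertices are the faces, faces are the nonempty chains of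
faces ordered by inclusion. -/
def sd (C : FinComplex) : FinComplex where
  Vert := Finset C.Vert
  cx :=
    { faces := {F | F.Nonempty ∧ (∀ s ∈ F, s ∈ C.cx.faces) ∧
        IsChain (· ⊆ ·) (F : Set (Finset C.Vert))}
      isRelLowerSet_faces := by
        rintro F ⟨h1, h2, h3⟩
        refine ⟨h1, fun E hE hne => ⟨hne, fun s hs => h2 s (hE hs), ?_⟩⟩
        exact h3.mono (Finset.coe_subset.2 hE) }

/-- The geometric realization, in barycentric coordinates. -/
def real (C : FinComplex) : Set (C.Vert → ℝ) :=
  {x | (∀ v, 0 ≤ x v) ∧ ∑ v, x v = 1 ∧ ∃ s ∈ C.cx.faces, ∀ v, v ∉ s → x v = 0}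

/-- The realization is a topological manifold of dimension `d`. -/
def IsManifold (C : FinComplex) (d : ℕ) : Prop :=
  Nonempty (ChartedSpace (EuclideanSpace ℝ (Fin d)) C.real)

/-- The map which is linear on each simplex and sends a vertex `v` to the point `p v`. -/
noncomputable def lin (C : FinComplex) {k : ℕ} (p : C.Vert → EuclideanSpace ℝ (Fin k))
    (x : C.Vert → ℝ) : EuclideanSpace ℝ (Fin k) := ∑ v, x v • p v

end FinComplex

/-- Singular homology modulo two, as a functor. -/
noncomputable def homTwo (i : ℕ) : CategoryTheory.Functor TopCat.{0} (ModuleCat.{0} (ZMod 2)) :=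
  (singularHomologyFunctor (ModuleCat.{0} (ZMod 2)) i).obj (ModuleCat.of (ZMod 2) (ZMod 2))

/-- The inclusion of the subspace `A` induces an injective map on the `i`-th homology. -/
def InjTwo {X : Type} [TopologicalSpace X] (A : Set X) (i : ℕ) : Prop :=
  Function.Injective ((homTwo i).map
    (TopCat.ofHom (⟨Subtype.val, continuous_subtype_val⟩ : C(A, X)))).hom

/-- Dimension of the kernel of `f` minus the dimension of the image of `g`. -/
noncomputable def kerModIm {M N P : Type} [AddCommGroup M] [Module (ZMod 2) M]
    [AddCommGroup N] [Module (ZMod 2) N] [AddCommGroup P] [Module (ZMod 2) P]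
    (g : M →ₗ[ZMod 2] N) (f : N →ₗ[ZMod 2] P) : ℕ :=
  Module.finrank (ZMod 2) (LinearMap.ker f) - Module.finrank (ZMod 2) (LinearMap.range g)

/-- Tightness of a subset of Euclidean space in the direction `u`: the part of `P` in every
half space orthogonal to `u` includes injectively in homology modulo two. -/
def DirTight {k : ℕ} (P : Set (EuclideanSpace ℝ (Fin k))) (u : EuclideanSpace ℝ (Fin k)) : Prop :=
  ∀ (c : ℝ) (i : ℕ), InjTwo {y : P | c ≤ inner ℝ u y.1} i

namespace FinComplex

/-- Some linear embedding is tight for almost every direction. -/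
def Tight (C : FinComplex) : Prop :=
  ∃ (k : ℕ) (p : C.Vert → EuclideanSpace ℝ (Fin k)),
    Set.InjOn (C.lin p) C.real ∧
    ∀ᵐ u : EuclideanSpace ℝ (Fin k), DirTight (C.lin p '' C.real) u

/-- The faces with `n` vertices. -/
abbrev Face (C : FinComplex) (n : ℕ) : Type :=
  {s : Finset C.Vert // s ∈ C.cx.faces ∧ s.card = n}

open Classical in
/-- The simplicial boundary modulo two, from chains on faces with `n + 1` vertices to chains on
faces with `n` vertices. -/
noncomputable def bd (C : FinComplex) (n : ℕ) :
    (C.Face (n + 1) → ZMod 2) →ₗ[ZMod 2] (C.Face n → ZMod 2) :=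
  (Matrix.of fun (s : C.Face n) (t : C.Face (n + 1)) =>
    if s.1 ⊆ t.1 then (1 : ZMod 2) else 0).mulVecLin

/-- The `i`-th Betti number modulo two. -/
noncomputable def betti (C : FinComplex) (i : ℕ) : ℕ :=
  kerModIm (C.bd (i + 1)) (C.bd i)

/-- The cofaces `t` of `s` of dimension one more with `f t ≤ f s`. -/
def up (C : FinComplex) (f : Finset C.Vert → ℝ) (s : Finset C.Vert) : Set (Finset C.Vert) :=
  {t | t ∈ C.cx.faces ∧ s ⊆ t ∧ t.card = s.card + 1 ∧ f t ≤ f s}

/-- The faces `u` of `s` of dimension one less with `f s ≤ f u`. -/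
def down (C : FinComplex) (f : Finset C.Vert → ℝ) (s : Finset C.Vert) : Set (Finset C.Vert) :=
  {u | u ∈ C.cx.faces ∧ u ⊆ s ∧ s.card = u.card + 1 ∧ f s ≤ f u}

/-- Discrete Morse functions in the sense of Forman. -/
def IsMorse (C : FinComplex) (f : Finset C.Vert → ℝ) : Prop :=
  ∀ s ∈ C.cx.faces, (C.up f s).Subsingleton ∧ (C.down f s).Subsingleton

/-- The critical faces of dimension `i`. -/
def crit (C : FinComplex) (f : Finset C.Vert → ℝ) (i : ℕ) : Set (Finset C.Vert) :=
  {s | s ∈ C.cx.faces ∧ s.card = i + 1 ∧ C.up f s = ∅ ∧ C.down f s = ∅}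

/-- Some discrete Morse function has exactly `betti i` critical faces of dimension `i`,
for all `i`. -/
def Perfect (C : FinComplex) : Prop :=
  ∃ f : Finset C.Vert → ℝ, C.IsMorse f ∧ ∀ i, (C.crit f i).ncard = C.betti i

end FinComplex

end Pool.Agent.Helper72.TD
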