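import Mathlib
import Pool.Agent.Helper72.TA7
import Pool.Agent.Helper72.TD

/-!
Subdivisions are not perfect.
-/

set_option linter.unusedSectionVars false

namespace Pool.Agent.Helper72.TF

open Finset Pool.Agent.Helper72.TA Pool.Agent.Helper72.TD

theorem decomp (C : FinComplex) [PartialOrder C.Vert] {R : Type} [CommRing R] {n : ℕ}
    [Fintype (C.Face n)]
    {c : Finset C.Vert →₀ R} (hc : c ∈ Sup R (Fn C.cx.faces n)) :
    c = ∑ t : C.Face n, c t.1 • b R t.1 := by
  classical
  ext u
  rw [Finsupp.finsetSum_apply]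
  simp only [Finsupp.smul_apply, b, Finsupp.single_apply, smul_eq_mul, mul_ite, mul_one, mul_zero]
  by_cases hu : u ∈ Fn C.cx.faces n
  · rw [Finset.sum_eq_single (⟨u, hu⟩ : C.Face n)]
    · simp
    · intro t _ ht
      rw [if_neg]
      intro h
      exact ht (Subtype.ext h)
    · intro h; exact absurd (Finset.mem_univ _) h
  · have h0 : c u = 0 := by
      by_contra h
      exact hu ((Finsupp.mem_supported R c).1 hc (Finsupp.mem_support_iff.2 h))
    rw [h0]
    symm
    refine Finset.sum_eq_zero fun t _ => ?_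
    rw [if_neg]
    intro h
    exact hu (h ▸ t.2)

theorem bd_apply_eq (C : FinComplex) [PartialOrder C.Vert] {n : ℕ}
    {c : Finset C.Vert →₀ ZMod 2} (hc : c ∈ Sup (ZMod 2) (Fn C.cx.faces (n + 1)))
    (u : C.Face n) :
    (TA.bd (ZMod 2) C.Vert c) u.1 = C.bd n (fun t => c t.1) u := by
  classical
  have h1 := decomp C hc
  conv_lhs => rw [h1]
  rw [map_sum, Finsupp.finsetSum_apply]
  unfold FinComplex.bd
  rw [Matrix.mulVecLin_apply, Matrix.mulVec, dotProduct]
  refine Finset.sum_congr (by congr!) fun t _ => ?_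
  rw [map_smul, Finsupp.smul_apply, inc_two, Matrix.of_apply, smul_eq_mul]
  have hcard : t.1.card = u.1.card + 1 := by rw [t.2.2, u.2.2]
  by_cases h : u.1 ⊆ t.1
  · rw [if_pos ⟨h, hcard⟩, if_pos h]; ring
  · rw [if_neg (fun h' => h h'.1), if_neg h]; ring

theorem betti_eq_zero (C : FinComplex) [PartialOrder C.Vert] (hOC : IsOC C.cx.faces)
    (h : Acyc (ZMod 2) C.cx.faces 4) : C.betti 3 = 0 := by
  classical
  unfold FinComplex.betti kerModIm
  apply Nat.sub_eq_zero_of_le
  apply Submodule.finrank_mono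
  intro x hx
  rw [LinearMap.mem_ker] at hx
  set c : Finset C.Vert →₀ ZMod 2 := ∑ t : C.Face 4, x t • b (ZMod 2) t.1 with hc
  have hcF : c ∈ Sup (ZMod 2) (Fn C.cx.faces 4) :=
    Submodule.sum_mem _ fun t _ => Submodule.smul_mem _ _ (b_mem t.2)
  have hcx : ∀ t : C.Face 4, c t.1 = x t := by
    intro t
    rw [hc, Finsupp.finsetSum_apply, Finset.sum_eq_single t]
    · simp [b]
    · intro s _ hs
      have : s.1 ≠ t.1 := fun h' => hs (Subtype.ext h')
      simp [b, this]
    · intro h'; exact absurd (Finset.mem_univ _) h'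
  have hfun : (fun t : C.Face 4 => c t.1) = x := funext hcx
  have hbc : TA.bd (ZMod 2) C.Vert c = 0 := by
    ext u
    by_cases hu : u ∈ Fn C.cx.faces 3
    · have := bd_apply_eq C hcF ⟨u, hu⟩
      rw [this, hfun, hx]
      rfl
    · have h1 := bd_Fn hOC hcF
      by_contra h2
      exact hu ((Finsupp.mem_supported _ _).1 h1 (Finsupp.mem_support_iff.2 h2))
  obtain ⟨w, hw, hbw⟩ := h c hcF hbc
  refine ⟨fun t => w t.1, ?_⟩
  funext s
  rw [← bd_apply_eq C hw s, hbw, hcx]

/-- The property inherited by subdivisions. -/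
def Good (C : FinComplex) : Prop :=
  ∃ (_ : PartialOrder C.Vert) (_ : Nonempty C.Vert), IsOC C.cx.faces ∧
    Acyc (ZMod 2) C.cx.faces 4 ∧ ¬ Acyc (ZMod 3) C.cx.faces 4

theorem Good.sd {C : FinComplex} (h : Good C) : Good C.sd := by
  obtain ⟨po, ne, h1, h2, h3⟩ := h
  refine ⟨(inferInstance : PartialOrder (Finset C.Vert)),
    (inferInstance : Nonempty (Finset C.Vert)), h1.sdF, h2.sdF h1, ?_⟩
  intro h4
  exact h3 (Acyc.of_sdF h1 h4)

theorem Good.iterate {C : FinComplex} (h : Good C) (m : ℕ) : Good (FinComplex.sd^[m] C) := by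
  induction m with
  | zero => exact h
  | succ m ih =>
    rw [Function.iterate_succ_apply']
    exact ih.sd

theorem Good.not_perfect {C : FinComplex} (h : Good C) : ¬ C.Perfect := by
  obtain ⟨po, ne, h1, h2, h3⟩ := h
  rintro ⟨f, hf, hcrit⟩
  apply h3
  have h0 : (C.crit f 3).ncard = 0 := by rw [hcrit 3, betti_eq_zero C h1 h2]
  have hempty : C.crit f 3 = ∅ := by
    rwa [Set.ncard_eq_zero (Set.toFinite _)] at h0
  refine acyc_of_no_critical (n := 3) h1 (f := f) hf ?_
  intro s hs
  by_contra hcon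
  rw [not_or, Set.not_nonempty_iff_eq_empty, Set.not_nonempty_iff_eq_empty] at hcon
  have : s ∈ C.crit f 3 := ⟨hs.1, hs.2, hcon.1, hcon.2⟩
  rw [hempty] at this
  exact this

/-- the triangulated manifold -/
def M8 : FinComplex where
  Vert := Finset X8
  cx :=
    { faces := MK K8
      isRelLowerSet_faces := fun F h => ⟨h.1, fun E hE hne => (MK_isOC K8).dn F h E hE hne⟩ }

theorem M8_good : Good M8 :=
  ⟨(inferInstance : PartialOrder (Finset X8)), (inferInstance : Nonempty (Finset X8)),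
    MK_isOC K8, M8_acyc_two, M8_not_acyc_three⟩

end Pool.Agent.Helper72.TF
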