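import Mathlib
import Pool.Agent.Helper72.TA7
import Pool.Agent.Helper72.TS5
import Pool.Agent.Helper72.TD

/-!
The realization of the complex of chains is the real moment-angle complex.
-/

set_option linter.unusedSectionVars false

namespace Pool.Agent.Helper72.TR

open Finset Pool.Agent.Helper72.TA Pool.Agent.Helper72.TS

variable {X : Type} [LinearOrder X] [Fintype X]

/-- weights supported on a face -/
def Rl (K : Set (Finset X)) : Set (Finset X → ℝ) :=
  {x | (∀ S, 0 ≤ x S) ∧ ∑ S, x S = 1 ∧ ∃ C ∈ MK K, ∀ S, S ∉ C → x S = 0}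

/-- the linear map sending a vertex to the indicator function -/
noncomputable def Rmap (x : Finset X → ℝ) : X → ℝ := fun v => ∑ S, if v ∈ S then x S else 0

/-- total weight above `S` -/
noncomputable def aw (x : Finset X → ℝ) (S : Finset X) : ℝ := ∑ T, if S ⊆ T then x T else 0

theorem aw_le {x : Finset X → ℝ} (hx : ∀ S, 0 ≤ x S) {S : Finset X} {v : X} (hv : v ∈ S) :
    aw x S ≤ Rmap x v := by
  unfold aw Rmap
  refine Finset.sum_le_sum fun T _ => ?_
  split_ifs with h1 h2 h2
  · exact le_rfl
  · exact absurd (h1 hv) h2
  · exact hx T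
  · exact le_rfl

theorem aw_eq {x : Finset X → ℝ} {C : Finset (Finset X)}
    (hC : IsChain (· ≤ ·) (C : Set (Finset X))) (hxC : ∀ S, S ∉ C → x S = 0)
    {S : Finset X} (hS : S.Nonempty) : ∃ v ∈ S, Rmap x v = aw x S := by
  classical
  have key : ∀ v ∈ S, (∀ T ∈ C, v ∈ T → S ⊆ T) → Rmap x v = aw x S := by
    intro v hv h
    unfold aw Rmap
    refine Finset.sum_congr rfl fun T _ => ?_
    by_cases hT : T ∈ C
    · by_cases hvT : v ∈ T
      · rw [if_pos hvT, if_pos (h T hT hvT)]
      · rw [if_neg hvT, if_neg (fun h' => hvT (h' hv))]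
    · rw [hxC T hT]; simp
  set C' := C.filter (fun T => ¬ S ⊆ T) with hC'
  rcases C'.eq_empty_or_nonempty with h0 | hne
  · obtain ⟨v, hv⟩ := hS
    refine ⟨v, hv, key v hv ?_⟩
    intro T hT _
    by_contra h
    have : T ∈ C' := by simp [hC', hT, h]
    rw [h0] at this
    exact absurd this (Finset.notMem_empty T)
  · obtain ⟨T0, hT0, hmax⟩ := C'.exists_maximal hne
    have hT0' := Finset.mem_filter.1 hT0
    obtain ⟨v, hvS, hvT⟩ := Finset.not_subset.1 hT0'.2
    refine ⟨v, hvS, key v hvS ?_⟩
    intro T hT hvT'
    by_contra h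
    have hTC : T ∈ C' := by simp [hC', hT, h]
    rcases eq_or_ne T T0 with rfl | hne'
    · exact hvT hvT'
    · rcases hC hT hT0'.1 hne' with h1 | h1
      · exact hvT (h1 hvT')
      · exact hvT (hmax hTC h1 hvT')

theorem aw_empty (x : Finset X → ℝ) : aw x ∅ = ∑ S, x S := by
  unfold aw
  simp

theorem Rmap_injOn (K : Set (Finset X)) : Set.InjOn Rmap (Rl K) := by
  classical
  rintro x ⟨hx0, hx1, C, hC, hxC⟩ y ⟨hy0, hy1, D, hD, hyD⟩ hxy
  have haw : ∀ S, aw x S = aw y S := by
    intro S
    rcases S.eq_empty_or_nonempty with rfl | hS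
    · rw [aw_empty, aw_empty, hx1, hy1]
    · obtain ⟨v, hv, hvx⟩ := aw_eq hC.2.1 hxC hS
      obtain ⟨w, hw, hwy⟩ := aw_eq hD.2.1 hyD hS
      apply le_antisymm
      · rw [← hwy, ← hxy]; exact aw_le hx0 hw
      · rw [← hvx, hxy]; exact aw_le hy0 hv
  have hind : ∀ (n : ℕ) (S : Finset X), Fintype.card X - S.card = n → x S = y S := by
    intro n
    induction n using Nat.strong_induction_on with
    | _ n ih =>
      intro S hS
      have h1 : ∀ z : Finset X → ℝ, aw z S = z S + ∑ T, if S ⊂ T then z T else 0 := by
        intro z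
        unfold aw
        have : ∀ T : Finset X, (if S ⊆ T then z T else 0)
            = (if T = S then z T else 0) + if S ⊂ T then z T else 0 := by
          intro T
          by_cases hTS : T = S
          · subst hTS; simp
          · by_cases h : S ⊆ T
            · have : S ⊂ T := lt_of_le_of_ne h (fun h' => hTS h'.symm)
              simp [hTS, h, this]
            · have : ¬ S ⊂ T := fun h' => h h'.1
              simp [hTS, h, this]
        rw [Finset.sum_congr rfl (fun T _ => this T), Finset.sum_add_distrib]
        simp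
      have h2 : ∑ T, (if S ⊂ T then x T else 0) = ∑ T, (if S ⊂ T then y T else 0) := by
        refine Finset.sum_congr rfl fun T _ => ?_
        split_ifs with h
        · have hc := Finset.card_lt_card h
          have hT := Finset.card_le_univ T
          exact ih (Fintype.card X - T.card) (by omega) T rfl
        · rfl
      have h3 := haw S
      rw [h1 x, h1 y, h2] at h3
      linarith
  funext S
  exact hind _ S rfl

theorem Rmap_nonneg {x : Finset X → ℝ} (hx : ∀ S, 0 ≤ x S) (v : X) : 0 ≤ Rmap x v :=
  Finset.sum_nonneg fun S _ => by split_ifs; exacts [hx S, le_rfl]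

theorem Rmap_le {x : Finset X → ℝ} (hx : ∀ S, 0 ≤ x S) (v : X) : Rmap x v ≤ ∑ S, x S :=
  Finset.sum_le_sum fun S _ => by split_ifs; exacts [le_rfl, hx S]

theorem Rmap_mem {K : Set (Finset X)} (hK : ∀ s ∈ K, ∀ t ⊆ s, t ∈ K) {x : Finset X → ℝ}
    (hx : x ∈ Rl K) : Rmap x ∈ RZ K := by
  classical
  obtain ⟨hx0, hx1, C, hC, hxC⟩ := hx
  refine ⟨fun v => ⟨Rmap_nonneg hx0 v, by rw [← hx1]; exact Rmap_le hx0 v⟩, ?_⟩
  obtain ⟨S, hS, hSmax⟩ := C.exists_maximal hC.1
  obtain ⟨T, hT, hTmin⟩ := C.exists_minimal hC.1
  refine hK _ (hC.2.2 S hS T hT) _ ?_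
  intro v hv
  rw [mem_free] at hv
  rw [Finset.mem_sdiff]
  constructor
  · by_contra hvS
    have : Rmap x v = 0 := by
      unfold Rmap
      refine Finset.sum_eq_zero fun A _ => ?_
      by_cases hA : A ∈ C
      · rw [if_neg]
        intro hvA
        rcases eq_or_ne A S with rfl | hne
        · exact hvS hvA
        · rcases hC.2.1 hA hS hne with h | h
          · exact hvS (h hvA)
          · exact hvS (hSmax hA h hvA)
      · rw [hxC A hA]; simp
    rw [this] at hv
    exact lt_irrefl _ hv.1
  · intro hvT
    have : Rmap x v = 1 := by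
      rw [← hx1]
      unfold Rmap
      refine Finset.sum_congr rfl fun A _ => ?_
      by_cases hA : A ∈ C
      · rw [if_pos]
        rcases eq_or_ne T A with rfl | hne
        · exact hvT
        · rcases hC.2.1 hT hA hne with h | h
          · exact h hvT
          · exact hTmin hA h hvT
      · rw [hxC A hA]; simp
    rw [this] at hv
    exact lt_irrefl _ hv.2

theorem exists_weights : ∀ (n : ℕ) (y : X → ℝ) (c : ℝ), (∀ v, 0 ≤ y v) → (∀ v, y v ≤ c) →
    0 ≤ c → (univ.filter (fun v => 0 < y v)).card = n →
    ∃ x : Finset X → ℝ, (∀ S, 0 ≤ x S) ∧ ∑ S, x S = c ∧ Rmap x = y ∧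
      IsChain (· ≤ ·) {S | x S ≠ 0} ∧ ∀ S, x S ≠ 0 → ∀ v ∈ S, 0 < y v := by
  classical
  intro n
  induction n using Nat.strong_induction_on with
  | _ n ih =>
    intro y c hy0 hyc hc hn
    set S0 := univ.filter (fun v => 0 < y v) with hS0
    rcases S0.eq_empty_or_nonempty with h0 | hne
    · refine ⟨fun S => if S = ∅ then c else 0, ?_, ?_, ?_, ?_, ?_⟩
      · intro S; dsimp only; split_ifs; exacts [hc, le_rfl]
      · simp
      · funext v
        have hv0 : y v = 0 := by
          by_contra h
          have : v ∈ S0 := by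
            simp [hS0, lt_of_le_of_ne (hy0 v) (Ne.symm h)]
          rw [h0] at this
          exact absurd this (Finset.notMem_empty v)
        rw [hv0]
        unfold Rmap
        refine Finset.sum_eq_zero fun S _ => ?_
        by_cases h1 : v ∈ S
        · rw [if_pos h1]
          by_cases h2 : S = ∅
          · rw [h2] at h1; exact absurd h1 (Finset.notMem_empty v)
          · beta_reduce; rw [if_neg h2]
        · rw [if_neg h1]
      · intro S hS T hT hST
        simp only [Set.mem_ofPred_eq, ne_eq, ite_eq_right_iff, Classical.not_imp] at hS hT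
        exact absurd (hS.1.trans hT.1.symm) hST
      · intro S hS v hv
        simp only [ne_eq, ite_eq_right_iff, Classical.not_imp] at hS
        rw [hS.1] at hv
        exact absurd hv (Finset.notMem_empty v)
    · obtain ⟨v0, hv0, hmin⟩ := S0.exists_min_image y hne
      set a := y v0 with ha
      have hv0' : 0 < a := (Finset.mem_filter.1 hv0).2
      set y' : X → ℝ := fun v => if v ∈ S0 then y v - a else 0 with hy'
      have hy'0 : ∀ v, 0 ≤ y' v := by
        intro v
        simp only [hy']
        split_ifs with h
        · have := hmin v h; linarith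
        · exact le_rfl
      have hsub : univ.filter (fun v => 0 < y' v) ⊂ S0 := by
        refine ⟨?_, ?_⟩
        · intro v hv
          have := (Finset.mem_filter.1 hv).2
          simp only [hy'] at this
          by_contra h
          rw [if_neg h] at this
          exact lt_irrefl _ this
        · intro h
          have := (Finset.mem_filter.1 (h hv0)).2
          simp only [hy'] at this
          rw [if_pos hv0, ← ha, sub_self] at this
          exact lt_irrefl _ this
      obtain ⟨x', hx'0, hx's, hx'y, hx'c, hx'p⟩ := ih _ (by rw [← hn]; exact Finset.card_lt_card hsub)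
        y' (c - a) hy'0 (by
          intro v
          simp only [hy']
          split_ifs with h
          · have := hyc v; linarith
          · have := hyc v0; linarith) (by have := hyc v0; linarith) rfl
      have hsub' : ∀ S, x' S ≠ 0 → S ⊂ S0 := by
        intro S hS
        refine lt_of_le_of_lt ?_ hsub
        intro v hv
        simp [hx'p S hS v hv]
      have hx'S0 : x' S0 = 0 := by
        by_contra h
        exact lt_irrefl _ (hsub' S0 h)
      refine ⟨fun S => x' S + if S = S0 then a else 0, ?_, ?_, ?_, ?_, ?_⟩
      · intro S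
        have := hx'0 S
        dsimp only
        split_ifs <;> linarith
      · rw [Finset.sum_add_distrib, hx's]; simp
      · funext v
        have h1 : Rmap (fun S => x' S + if S = S0 then a else 0) v
            = Rmap x' v + if v ∈ S0 then a else 0 := by
          unfold Rmap
          have : ∀ S : Finset X, (if v ∈ S then x' S + (if S = S0 then a else 0) else 0)
              = (if v ∈ S then x' S else 0) + if S = S0 then (if v ∈ S0 then a else 0) else 0 := by
            intro S
            by_cases h : S = S0
            · subst h; split_ifs <;> simp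
            · simp [h]
          rw [Finset.sum_congr rfl (fun S _ => this S), Finset.sum_add_distrib]
          simp
        rw [h1, hx'y]
        simp only [hy']
        split_ifs with h
        · ring
        · have : ¬ 0 < y v := by simpa [hS0] using h
          have := hy0 v
          linarith [not_lt.1 ‹¬ 0 < y v›]
      · intro S hS T hT hST
        have hcase : ∀ S, S ∈ {S | (fun S => x' S + if S = S0 then a else 0) S ≠ 0} →
            x' S ≠ 0 ∨ S = S0 := by
          intro S hS
          by_contra hcon
          push Not at hcon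
          apply hS
          simp [hcon.1, hcon.2]
        rcases hcase S hS with h1 | h1 <;> rcases hcase T hT with h2 | h2
        · exact hx'c h1 h2 hST
        · left; rw [h2]; exact (hsub' S h1).le
        · right; rw [h1]; exact (hsub' T h2).le
        · exact absurd (h1.trans h2.symm) hST
      · intro S hS v hv
        have hvS0 : v ∈ S0 := by
          by_cases h : S = S0
          · rw [← h]; exact hv
          · have : x' S ≠ 0 := by
              intro h'
              apply hS
              simp [h, h']
            exact (hsub' S this).1 hv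
        exact (Finset.mem_filter.1 hvS0).2

theorem Rmap_surj {K : Set (Finset X)} (hK : ∀ s ∈ K, ∀ t ⊆ s, t ∈ K) {y : X → ℝ}
    (hy : y ∈ RZ K) : ∃ x ∈ Rl K, Rmap x = y := by
  classical
  obtain ⟨x, hx0, hx1, hxy, hxc, -⟩ := exists_weights _ y 1 (fun v => (hy.1 v).1)
    (fun v => (hy.1 v).2) zero_le_one rfl
  refine ⟨x, ⟨hx0, hx1, univ.filter (fun S => x S ≠ 0), ⟨?_, ?_, ?_⟩, ?_⟩, hxy⟩
  · by_contra h
    rw [Finset.not_nonempty_iff_eq_empty] at h
    have : ∑ S, x S = 0 := by
      refine Finset.sum_eq_zero fun S _ => ?_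
      by_contra h'
      have : S ∈ univ.filter (fun S => x S ≠ 0) := by simp [h']
      rw [h] at this
      exact absurd this (Finset.notMem_empty S)
    rw [hx1] at this
    exact one_ne_zero this
  · intro S hS T hT hST
    simp only [Finset.coe_filter, Finset.mem_univ, true_and, Set.mem_ofPred_eq] at hS hT
    exact hxc hS hT hST
  · intro S hS T hT
    have hS' : x S ≠ 0 := (Finset.mem_filter.1 hS).2
    have hT' : x T ≠ 0 := (Finset.mem_filter.1 hT).2
    have hSp : 0 < x S := lt_of_le_of_ne (hx0 S) hS'.symm
    have hTp : 0 < x T := lt_of_le_of_ne (hx0 T) hT'.symm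
    refine hK _ hy.2 _ ?_
    intro v hv
    rw [Finset.mem_sdiff] at hv
    rw [mem_free, ← hxy]
    constructor
    · have : x S ≤ Rmap x v := by
        unfold Rmap
        have h1 : (if v ∈ S then x S else 0) ≤ ∑ S, if v ∈ S then x S else 0 :=
          Finset.single_le_sum (f := fun S => if v ∈ S then x S else 0)
            (fun A _ => by split_ifs; exacts [hx0 A, le_rfl]) (Finset.mem_univ S)
        rwa [if_pos hv.1] at h1
      linarith
    · have : Rmap x v + x T ≤ 1 := by
        rw [← hx1]
        unfold Rmap
        rw [← Finset.sum_erase_add _ _ (Finset.mem_univ T),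
          ← Finset.sum_erase_add (Finset.univ) x (Finset.mem_univ T), if_neg hv.2, add_zero]
        refine add_le_add ?_ le_rfl
        refine Finset.sum_le_sum fun A _ => ?_
        split_ifs
        · exact le_rfl
        · exact hx0 A
      linarith
  · intro S hS
    by_contra h
    exact hS (by simp [h])

theorem continuous_Rmap : Continuous (Rmap : (Finset X → ℝ) → (X → ℝ)) := by
  refine continuous_pi fun v => continuous_finsetSum _ fun S _ => ?_
  split_ifs
  · exact continuous_apply S
  · exact continuous_const

theorem isCompact_Rl (K : Set (Finset X)) : IsCompact (Rl K) := by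
  classical
  have h : Rl K = stdSimplex ℝ (Finset X) ∩ ⋃ C ∈ MK K, {x | ∀ S, S ∉ C → x S = 0} := by
    ext x
    constructor
    · rintro ⟨h0, h1, C, hC, hx⟩
      exact ⟨⟨h0, h1⟩, Set.mem_biUnion hC hx⟩
    · rintro ⟨⟨h0, h1⟩, h2⟩
      obtain ⟨C, hC, hx⟩ := Set.mem_iUnion₂.1 h2
      exact ⟨h0, h1, C, hC, hx⟩
  rw [h]
  refine (isCompact_stdSimplex ℝ (Finset X)).inter_right ?_
  refine Set.Finite.isClosed_biUnion (Set.toFinite _) fun C _ => ?_
  have : {x : Finset X → ℝ | ∀ S, S ∉ C → x S = 0} = ⋂ S, ⋂ (_ : S ∉ C), {x | x S = 0} := by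
    ext x; simp
  rw [this]
  exact isClosed_iInter fun S => isClosed_iInter fun _ =>
    isClosed_eq (continuous_apply S) continuous_const

/-- The realization is homeomorphic to the real moment-angle complex. -/
theorem exists_homeo {K : Set (Finset X)} (hK : ∀ s ∈ K, ∀ t ⊆ s, t ∈ K) :
    ∃ h : Rl K ≃ₜ RZ K, ∀ x, (h x).1 = Rmap x.1 := by
  have : CompactSpace (Rl K) := isCompact_iff_compactSpace.1 (isCompact_Rl K)
  let f : Rl K → RZ K := fun x => ⟨Rmap x.1, Rmap_mem hK x.2⟩
  have hbij : Function.Bijective f := by
    constructor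
    · intro x y hxy
      exact Subtype.ext (Rmap_injOn K x.2 y.2 (congrArg Subtype.val hxy))
    · intro y
      obtain ⟨x, hx, hxy⟩ := Rmap_surj hK y.2
      exact ⟨⟨x, hx⟩, Subtype.ext hxy⟩
  have hcont : Continuous f := (continuous_Rmap.comp continuous_subtype_val).subtype_mk _
  refine ⟨Continuous.homeoOfEquivCompactToT2 (f := Equiv.ofBijective f hbij) hcont, fun x => rfl⟩

end Pool.Agent.Helper72.TR
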