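import Mathlib
import Pool.Agent.Helper72.TF1
import Pool.Agent.Helper72.TR1
import Pool.Agent.Helper72.TC2

/-!
The triangulated manifold is a connected manifold and is tight.
-/

set_option linter.unusedSectionVars false

namespace Pool.Agent.Helper72.TF

open Finset Pool.Agent.Helper72.TA Pool.Agent.Helper72.TD Pool.Agent.Helper72.TS
  Pool.Agent.Helper72.TR Pool.Agent.Helper72.TC

theorem real_eq : M8.real = Rl K8 := rfl

theorem M8_manifold : M8.IsManifold 31 := by
  obtain ⟨h, _⟩ := exists_homeo (K := K8) K8_dn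
  refine charted_of (M := M8.real) (H := EuclideanSpace ℝ (Fin 31)) ?_
  intro x
  obtain ⟨f, hf, y, hy⟩ := exists_chart (h x)
  refine ⟨fun z => h.symm (f z), h.symm.isOpenEmbedding.comp hf, y, ?_⟩
  have h1 : h.symm (f y) = h.symm (h x) := congrArg h.symm hy
  exact h1.trans (Homeomorph.symm_apply_apply h x)

theorem YY_singleton (i : Fin 8) : {i} ∈ YY := by
  have : ∀ i : Fin 8, ∃ j, {i} ⊆ tri j := by decide
  exact this i

theorem K8_singleton (v : X8) : {v} ∈ K8 := by
  rw [K8_small (by simp)]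
  refine YY_dn _ (YY_singleton (ofLex v).1) _ ?_
  intro i hi
  simp only [Finset.mem_filter, Finset.mem_univ, true_and, Finset.mem_singleton] at hi ⊢
  rw [← hi]
  rfl

/-- indicator vector -/
noncomputable def ind (S : Finset X8) : X8 → ℝ := fun v => if v ∈ S then 1 else 0

theorem joined_ind (S : Finset X8) : JoinedIn (RZ K8) (ind S) (ind ∅) := by
  induction S using Finset.induction_on with
  | empty =>
    refine JoinedIn.refl ⟨fun v => by simp [ind], ?_⟩
    have : free (ind ∅) = ∅ := by
      ext v; rw [mem_free]; simp [ind]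
    rw [this]; exact K8_empty
  | insert w S hw ih =>
    refine JoinedIn.trans (JoinedIn.of_segment_subset ?_) ih
    rintro y ⟨a, b, ha, hb, hab, rfl⟩
    have hval : ∀ v, (a • ind (insert w S) + b • ind S) v
        = if v ∈ S then 1 else if v = w then a else 0 := by
      intro v
      simp only [Pi.add_apply, Pi.smul_apply, smul_eq_mul, ind]
      by_cases hv : v ∈ S
      · rw [if_pos hv, if_pos (Finset.mem_insert_of_mem hv), if_pos hv]; linarith
      · by_cases hvw : v = w
        · subst hvw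
          rw [if_neg hv, if_pos (Finset.mem_insert_self _ _), if_neg hv, if_pos rfl]; ring
        · rw [if_neg hv, if_neg (by simp [hv, hvw]), if_neg hv, if_neg hvw]; ring
    refine ⟨fun v => ?_, ?_⟩
    · rw [hval]
      split_ifs
      · exact ⟨zero_le_one, le_rfl⟩
      · exact ⟨ha, by linarith⟩
      · exact ⟨le_rfl, zero_le_one⟩
    · refine K8_dn _ (K8_singleton w) _ ?_
      intro v hv
      rw [mem_free, hval] at hv
      rw [Finset.mem_singleton]
      by_contra hvw
      rw [if_neg hvw] at hv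
      split_ifs at hv
      · exact absurd hv.2 (lt_irrefl _)
      · exact absurd hv.1 (lt_irrefl _)

theorem joined_zero {x : X8 → ℝ} (hx : x ∈ RZ K8) : JoinedIn (RZ K8) x (ind ∅) := by
  refine JoinedIn.trans (JoinedIn.of_segment_subset ?_)
    (joined_ind (univ.filter (fun v => x v = 1)))
  rintro y ⟨a, b, ha, hb, hab, rfl⟩
  have hval : ∀ v, (a • x + b • ind (univ.filter (fun v => x v = 1))) v
      = if x v = 1 then 1 else a * x v := by
    intro v
    simp only [Pi.add_apply, Pi.smul_apply, smul_eq_mul, ind, Finset.mem_filter,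
      Finset.mem_univ, true_and]
    split_ifs with h
    · rw [h]; linarith
    · ring
  have ha1 : a ≤ 1 := by linarith
  refine ⟨fun v => ?_, ?_⟩
  · rw [hval]
    have h1 := hx.1 v
    split_ifs
    · exact ⟨zero_le_one, le_rfl⟩
    · exact ⟨mul_nonneg ha h1.1, by nlinarith [h1.1, h1.2]⟩
  · refine K8_dn _ hx.2 _ ?_
    intro v hv
    rw [mem_free, hval] at hv
    rw [mem_free]
    have h1 := hx.1 v
    by_cases h : x v = 1
    · rw [if_pos h] at hv
      exact absurd hv.2 (lt_irrefl _)
    · rw [if_neg h] at hv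
      refine ⟨?_, lt_of_le_of_ne h1.2 h⟩
      rcases h1.1.lt_or_eq with h2 | h2
      · exact h2
      · rw [← h2, mul_zero] at hv
        exact absurd hv.1 (lt_irrefl _)

theorem RZ_connected : IsConnected (RZ K8) := by
  refine IsPathConnected.isConnected ⟨ind ∅, ?_, fun {y} hy => (joined_zero hy).symm⟩
  exact (joined_ind ∅).source_mem

theorem M8_connected : IsConnected M8.real := by
  obtain ⟨h, _⟩ := exists_homeo (K := K8) K8_dn
  have h1 : ConnectedSpace (RZ K8) := isConnected_iff_connectedSpace.1 RZ_connected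
  have h2 : ConnectedSpace (Rl K8) := h.symm.surjective.connectedSpace h.symm.continuous
  exact isConnected_iff_connectedSpace.2 h2

section generic

variable {X : Type} [LinearOrder X] [Fintype X]

/-- coordinates as a Euclidean space -/
noncomputable def EhG {k : ℕ} (nm : X ≃ Fin k) : (X → ℝ) ≃ₜ EuclideanSpace ℝ (Fin k) where
  toFun y := WithLp.toLp 2 (fun j => y (nm.symm j))
  invFun z := fun v => z (nm v)
  left_inv y := by funext v; simp
  right_inv z := by ext j; simp
  continuous_toFun := by fun_prop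
  continuous_invFun := by fun_prop

theorem EhG_apply {k : ℕ} (nm : X ≃ Fin k) (y : X → ℝ) (j : Fin k) :
    (EhG nm y).ofLp j = y (nm.symm j) := rfl

/-- positions of the vertices -/
noncomputable def posG {k : ℕ} (nm : X ≃ Fin k) (S : Finset X) : EuclideanSpace ℝ (Fin k) :=
  EhG nm (fun v => if v ∈ S then 1 else 0)

theorem sum_eqG {k : ℕ} (nm : X ≃ Fin k) (x : Finset X → ℝ) :
    ∑ S, x S • posG nm S = EhG nm (Rmap x) := by
  ext j
  rw [WithLp.ofLp_sum, Finset.sum_apply]
  rw [EhG_apply]
  unfold Rmap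
  refine Finset.sum_congr rfl fun S _ => ?_
  rw [WithLp.ofLp_smul, Pi.smul_apply]
  rw [posG, EhG_apply]
  by_cases h : nm.symm j ∈ S
  · rw [if_pos h, if_pos h, smul_eq_mul, mul_one]
  · rw [if_neg h, if_neg h, smul_zero]

end generic

theorem card_X8 : Fintype.card X8 = 40 := rfl

/-- numbering of the coordinates -/
noncomputable def nm : X8 ≃ Fin 40 := Fintype.equivFinOfCardEq card_X8

/-- coordinates as a Euclidean space -/
noncomputable def Eh : (X8 → ℝ) ≃ₜ EuclideanSpace ℝ (Fin 40) := EhG nm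

/-- positions of the vertices -/
noncomputable def pos (S : Finset X8) : EuclideanSpace ℝ (Fin 40) := posG nm S

theorem lin_eq (x : M8.Vert → ℝ) : M8.lin pos x = Eh (Rmap (X := X8) x) := sum_eqG nm x

theorem image_eq : M8.lin pos '' M8.real = Eh '' RZ K8 := by
  ext y
  constructor
  · rintro ⟨x, hx, rfl⟩
    exact ⟨Rmap (X := X8) x, Rmap_mem K8_dn hx, (lin_eq x).symm⟩
  · rintro ⟨z, hz, rfl⟩
    obtain ⟨x, hx, rfl⟩ := Rmap_surj K8_dn hz
    exact ⟨x, hx, lin_eq x⟩

theorem inner_EhG {X : Type} [LinearOrder X] [Fintype X] {k : ℕ} (nm : X ≃ Fin k)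
    (u : EuclideanSpace ℝ (Fin k)) (x : X → ℝ) :
    inner ℝ u (EhG nm x) = ht (fun v => u (nm v)) x := by
  rw [PiLp.inner_apply]
  unfold ht
  rw [← Equiv.sum_comp nm]
  refine Finset.sum_congr rfl fun v _ => ?_
  rw [EhG_apply, Equiv.symm_apply_apply]
  simp [mul_comm]

/-- Tightness, general form. -/
theorem dirTight_gen {X : Type} [LinearOrder X] [Fintype X] {k : ℕ} (nm : X ≃ Fin k)
    {K : Set (Finset X)} (hK : ∀ s ∈ K, ∀ t ⊆ s, t ∈ K)
    {P : Set (EuclideanSpace ℝ (Fin k))} (hP : P = EhG nm '' RZ K)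
    {u : EuclideanSpace ℝ (Fin k)} (hu : ∀ j, u j ≠ 0) : DirTight P u := by
  intro c i
  show Function.Injective (Hm (⟨Subtype.val, continuous_subtype_val⟩ :
    C({y : P | c ≤ inner ℝ u y.1}, P)) i)
  subst hP
  have hinj := tight_RZ (c := c) hK (p := fun v => u (nm v)) (fun v => hu (nm v)) i
  refine inj_transfer (((EhG nm).image (RZ K)).symm) (B := Up K (fun v => u (nm v)) c) ?_ i hinj
  rintro ⟨y, x, hx, rfl⟩
  have h1 : ((EhG nm).image (RZ K)).symm ⟨EhG nm x, ⟨x, hx, rfl⟩⟩ = ⟨x, hx⟩ := by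
    rw [Homeomorph.symm_apply_eq]
    rfl
  rw [h1]
  show c ≤ inner ℝ u (EhG nm x) ↔ c ≤ ht (fun v => u (nm v)) x
  rw [inner_EhG]

theorem ae_ne (k : ℕ) : ∀ᵐ u : EuclideanSpace ℝ (Fin k), ∀ j, u j ≠ 0 := by
  rw [MeasureTheory.ae_all_iff]
  intro j
  set L : Submodule ℝ (EuclideanSpace ℝ (Fin k)) :=
    LinearMap.ker (EuclideanSpace.proj j : EuclideanSpace ℝ (Fin k) →L[ℝ] ℝ).toLinearMap with hL
  have hne : L ≠ ⊤ := by
    intro h
    have h1 : (EuclideanSpace.single j (1 : ℝ)) ∈ L := by rw [h]; trivial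
    rw [hL, LinearMap.mem_ker] at h1
    simp at h1
  have h0 := MeasureTheory.Measure.addHaar_submodule
    (MeasureTheory.volume : MeasureTheory.Measure (EuclideanSpace ℝ (Fin k))) L hne
  rw [MeasureTheory.ae_iff]
  refine MeasureTheory.measure_mono_null ?_ h0
  intro u hu
  have hu' : u j = 0 := by
    by_contra h
    exact hu h
  show u ∈ L
  rw [hL, LinearMap.mem_ker]
  exact hu'

theorem M8_tight : M8.Tight := by
  refine ⟨40, pos, ?_, ?_⟩
  · intro x hx y hy hxy
    rw [lin_eq, lin_eq] at hxy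
    exact Rmap_injOn K8 hx hy (Eh.injective hxy)
  · filter_upwards [ae_ne 40] with u hu
    exact dirTight_gen nm K8_dn image_eq hu

/-- Main statement. -/
theorem main : ∃ C : FinComplex,
    C.IsManifold 31 ∧ IsConnected C.real ∧ C.Tight ∧ ∀ m : ℕ, ¬ (FinComplex.sd^[m] C).Perfect :=
  ⟨M8, M8_manifold, M8_connected, M8_tight, fun m => (M8_good.iterate m).not_perfect⟩

end Pool.Agent.Helper72.TF
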