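import Mathlib

set_option autoImplicit false

open MeasureTheory Filter Topology Set

namespace Pool.Agent.Helper72.Toric

/-- `(1 + e^(s+l))^(-e)`. -/
noncomputable def E (e : ℕ) (l : ℂ) (s : ℝ) : ℂ := ((1 + Complex.exp ((s : ℂ) + l)) ^ e)⁻¹

/-- The indicator of the negative half line. -/
noncomputable def hv (s : ℝ) : ℂ := if s < 0 then 1 else 0

/-- `cos (Im l / 2)`. -/
noncomputable def kap (l : ℂ) : ℝ := Real.cos (l.im / 2)

theorem kap_pos {l : ℂ} (h : |l.im| < Real.pi) : 0 < kap l := by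
  obtain ⟨h1, h2⟩ := abs_lt.1 h
  exact Real.cos_pos_of_mem_Ioo ⟨by linarith, by linarith⟩

theorem norm_one_add_exp_sq (w : ℂ) :
    ‖1 + Complex.exp w‖ ^ 2 = 1 + 2 * Real.exp w.re * Real.cos w.im + Real.exp w.re ^ 2 := by
  rw [← Complex.normSq_eq_norm_sq, Complex.normSq_apply]
  simp only [Complex.add_re, Complex.one_re, Complex.add_im, Complex.one_im, Complex.exp_re,
    Complex.exp_im, zero_add]
  have h := Real.sin_sq_add_cos_sq w.im
  nlinarith [h]

theorem norm_one_add_exp (w : ℂ) : |Real.cos (w.im / 2)| * (1 + Real.exp w.re) ≤ ‖1 + Complex.exp w‖ := by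
  apply abs_le_of_sq_le_sq' _ (norm_nonneg _) |>.2
  rw [norm_one_add_exp_sq, mul_pow, sq_abs]
  have h1 : Real.cos w.im = 2 * Real.cos (w.im / 2) ^ 2 - 1 := by
    rw [← Real.cos_two_mul]
    congr 1
    ring
  have h2 : Real.cos (w.im / 2) ^ 2 ≤ 1 := by
    have := Real.sin_sq_add_cos_sq (w.im / 2)
    nlinarith [sq_nonneg (Real.sin (w.im / 2))]
  rw [h1]
  nlinarith [sq_nonneg (1 - Real.exp w.re), mul_nonneg (sub_nonneg.2 h2) (sq_nonneg (1 - Real.exp w.re))]

theorem one_add_ne {l : ℂ} (h : |l.im| < Real.pi) (s : ℝ) : 1 + Complex.exp ((s : ℂ) + l) ≠ 0 := by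
  intro h0
  have h1 := norm_one_add_exp ((s : ℂ) + l)
  rw [h0, norm_zero] at h1
  have h2 : ((s : ℂ) + l).im = l.im := by simp
  rw [h2] at h1
  have h3 : 0 < |Real.cos (l.im / 2)| := abs_pos.2 (kap_pos h).ne'
  have h4 : 0 < 1 + Real.exp ((s : ℂ) + l).re := by positivity
  nlinarith [mul_pos h3 h4]

theorem norm_E_one_le {l : ℂ} (h : |l.im| < Real.pi) (s : ℝ) :
    ‖E 1 l s‖ ≤ (kap l)⁻¹ * (1 + Real.exp (s + l.re))⁻¹ := by
  have h1 := norm_one_add_exp ((s : ℂ) + l)
  have h2 : ((s : ℂ) + l).im = l.im := by simp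
  have h3 : ((s : ℂ) + l).re = s + l.re := by simp
  rw [h2, h3] at h1
  have h4 : |Real.cos (l.im / 2)| = kap l := abs_of_pos (kap_pos h)
  rw [h4] at h1
  unfold E
  rw [pow_one, norm_inv, ← mul_inv]
  apply inv_anti₀ _ h1
  have := kap_pos h
  positivity

theorem norm_E_one_le' {l : ℂ} (h : |l.im| < Real.pi) (s : ℝ) : ‖E 1 l s‖ ≤ (kap l)⁻¹ := by
  refine (norm_E_one_le h s).trans ?_
  have h1 := kap_pos h
  have h2 : (1 + Real.exp (s + l.re))⁻¹ ≤ 1 := by
    apply inv_le_one_of_one_le₀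
    have := Real.exp_pos (s + l.re)
    linarith
  calc (kap l)⁻¹ * (1 + Real.exp (s + l.re))⁻¹ ≤ (kap l)⁻¹ * 1 :=
        mul_le_mul_of_nonneg_left h2 (by positivity)
    _ = _ := mul_one _

theorem norm_E_one_le'' {l : ℂ} (h : |l.im| < Real.pi) (s : ℝ) :
    ‖E 1 l s‖ ≤ (kap l)⁻¹ * Real.exp (-(s + l.re)) := by
  refine (norm_E_one_le h s).trans ?_
  have h1 := kap_pos h
  apply mul_le_mul_of_nonneg_left _ (by positivity)
  rw [Real.exp_neg]
  apply inv_anti₀ (Real.exp_pos _)
  linarith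

theorem E_succ (e : ℕ) (l : ℂ) (s : ℝ) : E (e + 1) l s = E e l s * E 1 l s := by
  unfold E
  rw [pow_succ, pow_one, mul_inv]

theorem norm_E_one_sub_le {l : ℂ} (h : |l.im| < Real.pi) (s : ℝ) :
    ‖E 1 l s - 1‖ ≤ (kap l)⁻¹ * Real.exp (s + l.re) := by
  have h1 : E 1 l s - 1 = - (Complex.exp ((s : ℂ) + l) * E 1 l s) := by
    unfold E
    have := one_add_ne h s
    field_simp
    ring
  rw [h1, norm_neg, norm_mul, Complex.norm_exp]
  have h3 : ((s : ℂ) + l).re = s + l.re := by simp
  rw [h3, mul_comm]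
  exact mul_le_mul_of_nonneg_right (norm_E_one_le' h s) (Real.exp_pos _).le

/-- Exponential decay of `E - hv`, with constant depending only on `e`, `kap l` and `Re l`. -/
noncomputable def cst (e : ℕ) (K R : ℝ) : ℝ := (e + 1) * (1 + K) ^ (e + 1) * Real.exp R

theorem norm_sub_hv_le {l : ℂ} (h : |l.im| < Real.pi) {K R : ℝ} (hK : (kap l)⁻¹ ≤ K)
    (hR : |l.re| ≤ R) (e : ℕ) (s : ℝ) :
    ‖E (e + 1) l s - hv s‖ ≤ cst (e + 1) K R * Real.exp (-|s|) := by
  have hk := kap_pos h
  have hK0 : 0 ≤ K := le_trans (by positivity) hK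
  have hR1 := abs_le.1 hR
  have hE1 : ‖E 1 l s‖ ≤ 1 + K := (norm_E_one_le' h s).trans (by linarith)
  rcases lt_or_ge s 0 with hs | hs
  · rw [abs_of_neg hs, neg_neg]
    simp only [hv, if_pos hs]
    have base : ‖E 1 l s - 1‖ ≤ (1 + K) * Real.exp R * Real.exp s := by
      refine (norm_E_one_sub_le h s).trans ?_
      rw [Real.exp_add, mul_assoc, mul_comm (Real.exp s)]
      apply mul_le_mul _ _ (by positivity) (by linarith)
      · linarith
      · exact mul_le_mul_of_nonneg_right (Real.exp_le_exp.2 hR1.2) (Real.exp_pos _).le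
    have key : ‖E (e + 1) l s - 1‖ ≤ (e + 1) * (1 + K) ^ (e + 1) * (Real.exp R * Real.exp s) := by
      induction e with
      | zero => simpa [mul_assoc] using base
      | succ e ih =>
        rw [E_succ]
        have e1 : E (e + 1) l s * E 1 l s - 1 = (E (e + 1) l s - 1) * E 1 l s + (E 1 l s - 1) := by
          ring
        rw [e1]
        refine (norm_add_le _ _).trans ?_
        rw [norm_mul]
        have h1 := mul_le_mul ih hE1 (norm_nonneg _) (by positivity)
        have h2 : (1 + K) ≤ (1 + K) ^ (e + 1 + 1) := by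
          calc (1 + K) = (1 + K) ^ 1 := (pow_one _).symm
            _ ≤ _ := pow_le_pow_right₀ (by linarith) (by omega)
        have h3 : 0 ≤ Real.exp R * Real.exp s := by positivity
        calc _ ≤ (e + 1) * (1 + K) ^ (e + 1) * (Real.exp R * Real.exp s) * (1 + K)
              + (1 + K) * Real.exp R * Real.exp s := add_le_add h1 base
          _ = (e + 1) * (1 + K) ^ (e + 1 + 1) * (Real.exp R * Real.exp s)
              + (1 + K) * (Real.exp R * Real.exp s) := by ring
          _ ≤ (e + 1) * (1 + K) ^ (e + 1 + 1) * (Real.exp R * Real.exp s)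
              + (1 + K) ^ (e + 1 + 1) * (Real.exp R * Real.exp s) := by
            gcongr
          _ = _ := by push_cast; ring
    refine key.trans ?_
    unfold cst
    push_cast
    have h5 : (0 : ℝ) ≤ (1 + K) ^ (e + 1) * (Real.exp R * Real.exp s) := by positivity
    have h6 : (1 + K) ^ (e + 1) ≤ (1 + K) ^ (e + 1 + 1) := pow_le_pow_right₀ (by linarith) (by omega)
    calc (e + 1 : ℝ) * (1 + K) ^ (e + 1) * (Real.exp R * Real.exp s)
        ≤ (e + 1 + 1) * (1 + K) ^ (e + 1 + 1) * (Real.exp R * Real.exp s) := by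
          gcongr
          linarith
      _ = _ := by ring
  · rw [abs_of_nonneg hs]
    have : ¬ s < 0 := not_lt.2 hs
    simp only [hv, if_neg this, sub_zero]
    have base : ‖E 1 l s‖ ≤ (1 + K) * Real.exp R * Real.exp (-s) := by
      refine (norm_E_one_le'' h s).trans ?_
      rw [neg_add, Real.exp_add, mul_assoc, mul_comm (Real.exp (-s))]
      apply mul_le_mul _ _ (by positivity) (by linarith)
      · linarith
      · exact mul_le_mul_of_nonneg_right (Real.exp_le_exp.2 (by linarith)) (Real.exp_pos _).le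
    have key : ‖E (e + 1) l s‖ ≤ (1 + K) ^ (e + 1) * (Real.exp R * Real.exp (-s)) := by
      induction e with
      | zero => simpa [mul_assoc] using base
      | succ e ih =>
        rw [E_succ, norm_mul]
        have h1 := mul_le_mul ih hE1 (norm_nonneg _) (by positivity)
        refine h1.trans (le_of_eq ?_)
        ring
    refine key.trans ?_
    unfold cst
    push_cast
    have h6 : (1 + K) ^ (e + 1) ≤ (1 + K) ^ (e + 1 + 1) := pow_le_pow_right₀ (by linarith) (by omega)
    have h7 : (1 : ℝ) ≤ e + 1 + 1 := by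
      have := Nat.cast_nonneg (α := ℝ) e
      linarith
    calc (1 + K) ^ (e + 1) * (Real.exp R * Real.exp (-s))
        = 1 * (1 + K) ^ (e + 1) * (Real.exp R * Real.exp (-s)) := by ring
      _ ≤ (e + 1 + 1) * (1 + K) ^ (e + 1 + 1) * (Real.exp R * Real.exp (-s)) := by
          gcongr
      _ = _ := by ring

end Pool.Agent.Helper72.Toric
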