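import Pool.Agent.Helper72.Toric1

set_option autoImplicit false

open MeasureTheory Filter Topology Set

namespace Pool.Agent.Helper72.Toric

/-- The majorant. -/
noncomputable def maj (k : ℕ) (s : ℝ) : ℝ := |s| ^ k * Real.exp (-|s|)

theorem maj_nonneg (k : ℕ) (s : ℝ) : 0 ≤ maj k s := by
  unfold maj
  positivity

theorem integrable_maj (k : ℕ) : Integrable (maj k) := by
  have h1 : IntegrableOn (maj k) (Ioi 0) := by
    have h := Real.GammaIntegral_convergent (s := (k : ℝ) + 1) (by positivity)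
    refine h.congr_fun (fun x hx => ?_) measurableSet_Ioi
    have hx' : (0 : ℝ) < x := hx
    simp only [maj, abs_of_pos hx', add_sub_cancel_right, Real.rpow_natCast]
    ring
  have h2 : IntegrableOn (maj k) (Iic 0) := by
    rw [← Measure.map_neg_eq_self (volume : Measure ℝ)]
    let m : MeasurableEmbedding fun x : ℝ => -x := (Homeomorph.neg ℝ).measurableEmbedding
    rw [m.integrableOn_map_iff]
    have e : (maj k ∘ fun x : ℝ => -x) = maj k := by
      funext x
      simp [maj]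
    rw [e]
    simp_rw [neg_preimage, neg_Iic, neg_zero]
    exact Iff.mpr integrableOn_Ici_iff_integrableOn_Ioi h1
  rw [← integrableOn_univ, ← Iic_union_Ioi (a := (0 : ℝ))]
  exact h2.union h1

theorem continuous_E {l : ℂ} (h : |l.im| < Real.pi) (e : ℕ) : Continuous (E e l) := by
  unfold E
  apply Continuous.inv₀
  · fun_prop
  · intro s
    exact pow_ne_zero _ (one_add_ne h s)

theorem measurable_hv : Measurable hv :=
  Measurable.ite measurableSet_Iio measurable_const measurable_const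

theorem norm_pow_mul_sub_le {l : ℂ} (h : |l.im| < Real.pi) {K R : ℝ} (hK : (kap l)⁻¹ ≤ K)
    (hR : |l.re| ≤ R) (k e : ℕ) (s : ℝ) :
    ‖(s : ℂ) ^ k * (E (e + 1) l s - hv s)‖ ≤ cst (e + 1) K R * maj k s := by
  rw [norm_mul, norm_pow, Complex.norm_real, Real.norm_eq_abs]
  calc |s| ^ k * ‖E (e + 1) l s - hv s‖ ≤ |s| ^ k * (cst (e + 1) K R * Real.exp (-|s|)) :=
        mul_le_mul_of_nonneg_left (norm_sub_hv_le h hK hR e s) (by positivity)
    _ = _ := by unfold maj; ring

theorem integrable_sub {l : ℂ} (h : |l.im| < Real.pi) (k e : ℕ) :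
    Integrable (fun s : ℝ => (s : ℂ) ^ k * (E (e + 1) l s - hv s)) := by
  refine Integrable.mono' ((integrable_maj k).const_mul (cst (e + 1) (kap l)⁻¹ |l.re|)) ?_
    (Eventually.of_forall fun s => norm_pow_mul_sub_le h le_rfl le_rfl k e s)
  apply AEStronglyMeasurable.mul
  · exact (Complex.continuous_ofReal.pow k).aestronglyMeasurable
  · exact (continuous_E h _).aestronglyMeasurable.sub measurable_hv.aestronglyMeasurable

/-- The regularised integral. -/
noncomputable def J (k e : ℕ) (l : ℂ) : ℂ := ∫ s : ℝ, (s : ℂ) ^ k * (E e l s - hv s)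

theorem hasDerivAt_E {l : ℂ} (h : |l.im| < Real.pi) (e : ℕ) (s : ℝ) :
    HasDerivAt (E (e + 1) l) (((e : ℂ) + 1) * (E (e + 2) l s - E (e + 1) l s)) s := by
  have h0 := one_add_ne h s
  have h1 : HasDerivAt (fun s : ℝ => 1 + Complex.exp ((s : ℂ) + l)) (Complex.exp ((s : ℂ) + l)) s := by
    have h2 : HasDerivAt (fun s : ℝ => (s : ℂ) + l) 1 s := (Complex.ofRealCLM.hasDerivAt).add_const l
    have h3 := h2.cexp.const_add 1
    simpa using h3
  have h4 := (h1.pow (e + 1)).inv (pow_ne_zero _ h0)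
  refine HasDerivAt.congr_deriv (f := E (e + 1) l) h4 ?_
  unfold E
  have h5 : Complex.exp ((s : ℂ) + l) = (1 + Complex.exp ((s : ℂ) + l)) - 1 := by ring
  set z := 1 + Complex.exp ((s : ℂ) + l) with hz
  rw [h5]
  push_cast
  have h6 : z ≠ 0 := h0
  rw [show ((fun s : ℝ => 1 + Complex.exp ((s : ℂ) + l)) ^ (e + 1)) s = z ^ (e + 1) from rfl]
  field_simp
  ring

theorem hasDerivAt_E_l {l : ℂ} (h : |l.im| < Real.pi) (e : ℕ) (s : ℝ) :
    HasDerivAt (fun l => E (e + 1) l s) (((e : ℂ) + 1) * (E (e + 2) l s - E (e + 1) l s)) l := by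
  have h0 := one_add_ne h s
  have h1 : HasDerivAt (fun l : ℂ => 1 + Complex.exp ((s : ℂ) + l)) (Complex.exp ((s : ℂ) + l)) l := by
    have h2 : HasDerivAt (fun l : ℂ => (s : ℂ) + l) 1 l := (hasDerivAt_id l).const_add _
    have h3 := h2.cexp.const_add 1
    simpa using h3
  have h4 := (h1.pow (e + 1)).inv (pow_ne_zero _ h0)
  refine HasDerivAt.congr_deriv (f := fun l => E (e + 1) l s) h4 ?_
  unfold E
  have h5 : Complex.exp ((s : ℂ) + l) = (1 + Complex.exp ((s : ℂ) + l)) - 1 := by ring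
  set z := 1 + Complex.exp ((s : ℂ) + l) with hz
  rw [h5]
  push_cast
  have h6 : z ≠ 0 := h0
  rw [show ((fun l : ℂ => 1 + Complex.exp ((s : ℂ) + l)) ^ (e + 1)) l = z ^ (e + 1) from rfl]
  field_simp
  ring

theorem tendsto_maj_atTop (k : ℕ) : Tendsto (maj k) atTop (𝓝 0) := by
  have h := Real.tendsto_pow_mul_exp_neg_atTop_nhds_zero k
  refine h.congr' ?_
  filter_upwards [eventually_ge_atTop 0] with s hs
  simp [maj, abs_of_nonneg hs]

theorem tendsto_maj_atBot (k : ℕ) : Tendsto (maj k) atBot (𝓝 0) := by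
  have h := (tendsto_maj_atTop k).comp tendsto_neg_atBot_atTop
  refine h.congr fun s => ?_
  simp [maj]

/-- The derivative `∂_s E = ∂_l E`. -/
noncomputable def dE (e : ℕ) (l : ℂ) (s : ℝ) : ℂ := ((e : ℂ) + 1) * (E (e + 2) l s - E (e + 1) l s)

theorem dE_eq (e : ℕ) (l : ℂ) (s : ℝ) :
    dE e l s = ((e : ℂ) + 1) * ((E (e + 2) l s - hv s) - (E (e + 1) l s - hv s)) := by
  unfold dE
  ring

theorem integrable_dE {l : ℂ} (h : |l.im| < Real.pi) (k e : ℕ) :
    Integrable (fun s : ℝ => (s : ℂ) ^ k * dE e l s) := by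
  have h1 := ((integrable_sub h k (e + 1)).sub (integrable_sub h k e)).const_mul ((e : ℂ) + 1)
  refine h1.congr (Eventually.of_forall fun s => ?_)
  simp only [dE_eq, Pi.sub_apply]
  ring

theorem norm_dE_le {l : ℂ} (h : |l.im| < Real.pi) {K R : ℝ} (hK : (kap l)⁻¹ ≤ K)
    (hR : |l.re| ≤ R) (k e : ℕ) (s : ℝ) :
    ‖(s : ℂ) ^ k * dE e l s‖ ≤
      ((e + 1) * (cst (e + 2) K R + cst (e + 1) K R)) * maj k s := by
  have h1 := norm_pow_mul_sub_le h hK hR k (e + 1) s
  have h2 := norm_pow_mul_sub_le h hK hR k e s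
  have e1 : (s : ℂ) ^ k * dE e l s = ((e : ℂ) + 1) *
      ((s : ℂ) ^ k * (E (e + 2) l s - hv s) - (s : ℂ) ^ k * (E (e + 1) l s - hv s)) := by
    rw [dE_eq]
    ring
  rw [e1, norm_mul]
  have h3 : ‖(e : ℂ) + 1‖ = e + 1 := by
    have : ((e : ℂ) + 1) = ((e + 1 : ℝ) : ℂ) := by push_cast; ring
    rw [this, Complex.norm_real, Real.norm_eq_abs, abs_of_nonneg (by positivity)]
  rw [h3, mul_assoc]
  apply mul_le_mul_of_nonneg_left _ (by positivity)
  rw [add_mul]
  exact (norm_sub_le _ _).trans (add_le_add h1 h2)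

/-- Integration by parts. -/
theorem integral_dE {l : ℂ} (h : |l.im| < Real.pi) (k e : ℕ) :
    ∫ s : ℝ, (s : ℂ) ^ k * dE e l s = - (0 : ℂ) ^ k - k * J (k - 1) (e + 1) l := by
  have hpow : ∀ s : ℝ, HasDerivAt (fun s : ℝ => (s : ℂ) ^ k) (k * (s : ℂ) ^ (k - 1)) s := by
    intro s
    have h1 : HasDerivAt (fun s : ℝ => (s : ℂ) ^ k) _ s :=
      (Complex.ofRealCLM.hasDerivAt (x := s)).pow k
    refine h1.congr_deriv ?_
    simp
  have hint1 : Integrable (fun s : ℝ => (k : ℂ) * ((s : ℂ) ^ (k - 1) * (E (e + 1) l s - hv s))) :=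
    (integrable_sub h (k - 1) e).const_mul _
  have hint2 := integrable_dE h k e
  have hI := integral_add hint1 hint2
  have hint := hint1.add hint2
  -- right half line
  have hR : ∫ s in Ioi (0 : ℝ), ((k : ℂ) * ((s : ℂ) ^ (k - 1) * (E (e + 1) l s - hv s))
      + (s : ℂ) ^ k * dE e l s) = 0 - ((0 : ℝ) : ℂ) ^ k * E (e + 1) l 0 := by
    have h1 : ∫ s in Ioi (0 : ℝ), ((k : ℂ) * ((s : ℂ) ^ (k - 1) * (E (e + 1) l s - hv s))
      + (s : ℂ) ^ k * dE e l s) =
      ∫ s in Ioi (0 : ℝ), ((k * (s : ℂ) ^ (k - 1)) * E (e + 1) l s + (s : ℂ) ^ k * dE e l s) := by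
      apply setIntegral_congr_fun measurableSet_Ioi
      intro s hs
      have : ¬ s < 0 := not_lt.2 (le_of_lt hs)
      simp only [hv, if_neg this, sub_zero]
      ring
    rw [h1]
    apply integral_Ioi_of_hasDerivAt_of_tendsto' (f := fun s : ℝ => (s : ℂ) ^ k * E (e + 1) l s)
    · intro s _
      exact (hpow s).mul (hasDerivAt_E h e s)
    · refine (hint.integrableOn (s := Ioi 0)).congr_fun ?_ measurableSet_Ioi
      intro s hs
      have : ¬ s < 0 := not_lt.2 (le_of_lt hs)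
      simp only [hv, if_neg this, sub_zero, Pi.add_apply]
      ring
    · have h2 : Tendsto (fun s => cst (e + 1) (kap l)⁻¹ |l.re| * maj k s) atTop (𝓝 0) := by
        simpa using (tendsto_maj_atTop k).const_mul (cst (e + 1) (kap l)⁻¹ |l.re|)
      refine squeeze_zero_norm' ?_ h2
      filter_upwards [eventually_ge_atTop 0] with s hs
      have h3 := norm_pow_mul_sub_le h le_rfl le_rfl k e s
      have : ¬ s < 0 := not_lt.2 hs
      simpa only [hv, if_neg this, sub_zero] using h3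
  -- left half line
  have hL : ∫ s in Iic (0 : ℝ), ((k : ℂ) * ((s : ℂ) ^ (k - 1) * (E (e + 1) l s - hv s))
      + (s : ℂ) ^ k * dE e l s) = ((0 : ℝ) : ℂ) ^ k * (E (e + 1) l 0 - 1) - 0 := by
    have h1 : ∫ s in Iic (0 : ℝ), ((k : ℂ) * ((s : ℂ) ^ (k - 1) * (E (e + 1) l s - hv s))
      + (s : ℂ) ^ k * dE e l s) =
      ∫ s in Iio (0 : ℝ), ((k * (s : ℂ) ^ (k - 1)) * (E (e + 1) l s - 1) + (s : ℂ) ^ k * dE e l s) := by
      rw [integral_Iic_eq_integral_Iio]
      apply setIntegral_congr_fun measurableSet_Iio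
      intro s hs
      have : s < 0 := hs
      simp only [hv, if_pos this]
      ring
    rw [h1, ← integral_Iic_eq_integral_Iio]
    apply integral_Iic_of_hasDerivAt_of_tendsto' (f := fun s : ℝ => (s : ℂ) ^ k * (E (e + 1) l s - 1))
    · intro s _
      exact (hpow s).mul ((hasDerivAt_E h e s).sub_const 1)
    · rw [integrableOn_Iic_iff_integrableOn_Iio]
      refine (hint.integrableOn (s := Iio 0)).congr_fun ?_ measurableSet_Iio
      intro s hs
      have : s < 0 := hs
      simp only [hv, if_pos this, Pi.add_apply]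
      ring
    · have h2 : Tendsto (fun s => cst (e + 1) (kap l)⁻¹ |l.re| * maj k s) atBot (𝓝 0) := by
        simpa using (tendsto_maj_atBot k).const_mul (cst (e + 1) (kap l)⁻¹ |l.re|)
      refine squeeze_zero_norm' ?_ h2
      filter_upwards [eventually_lt_atBot 0] with s hs
      have h3 := norm_pow_mul_sub_le h le_rfl le_rfl k e s
      simpa only [hv, if_pos hs] using h3
  have hsplit := integral_add_compl (measurableSet_Iic (a := (0 : ℝ))) hint
  rw [compl_Iic] at hsplit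
  simp only [Pi.add_apply] at hsplit
  rw [hL, hR] at hsplit
  have hkJ : ∫ s : ℝ, (k : ℂ) * ((s : ℂ) ^ (k - 1) * (E (e + 1) l s - hv s)) = k * J (k - 1) (e + 1) l := by
    rw [integral_const_mul]
    rfl
  rw [hkJ] at hI
  rw [← hsplit] at hI
  simp only [Complex.ofReal_zero] at hI
  linear_combination (-1 : ℂ) * hI

/-- Raising the exponent. -/
theorem J_succ {l : ℂ} (h : |l.im| < Real.pi) (k e : ℕ) :
    J k (e + 2) l = J k (e + 1) l - ((0 : ℂ) ^ k + k * J (k - 1) (e + 1) l) / ((e : ℂ) + 1) := by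
  have h1 := integral_dE h k e
  have h2 : ∫ s : ℝ, (s : ℂ) ^ k * dE e l s = ((e : ℂ) + 1) * (J k (e + 2) l - J k (e + 1) l) := by
    unfold J
    rw [← integral_sub (integrable_sub h k (e + 1)) (integrable_sub h k e), ← integral_const_mul]
    congr 1
    funext s
    rw [dE_eq]
    ring
  have h3 : ((e : ℂ) + 1) ≠ 0 := by
    have : ((e : ℂ) + 1) = ((e + 1 : ℕ) : ℂ) := by push_cast; ring
    rw [this]
    exact Nat.cast_ne_zero.2 (Nat.succ_ne_zero e)
  rw [h2] at h1
  field_simp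
  linear_combination h1

theorem isOpen_strip : IsOpen {l : ℂ | |l.im| < Real.pi} :=
  isOpen_lt (by fun_prop) continuous_const

/-- The derivative in the parameter. -/
theorem hasDerivAt_J {l : ℂ} (h : |l.im| < Real.pi) (k e : ℕ) :
    HasDerivAt (J k (e + 1)) (- (0 : ℂ) ^ k - k * J (k - 1) (e + 1) l) l := by
  have hkap : ContinuousAt (fun l => (kap l)⁻¹) l := by
    apply ContinuousAt.inv₀
    · unfold kap
      fun_prop
    · exact (kap_pos h).ne'
  have h1 : ∀ᶠ x in 𝓝 l, |x.im| < Real.pi := isOpen_strip.mem_nhds h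
  have h2 : ∀ᶠ x in 𝓝 l, (kap x)⁻¹ ≤ (kap l)⁻¹ + 1 := by
    filter_upwards [hkap.eventually (gt_mem_nhds (lt_add_one _))] with x hx using le_of_lt hx
  have h3 : ∀ᶠ x in 𝓝 l, |x.re| ≤ |l.re| + 1 := by
    have hc : ContinuousAt (fun x : ℂ => |x.re|) l := by fun_prop
    filter_upwards [hc.eventually (gt_mem_nhds (lt_add_one _))] with x hx using le_of_lt hx
  have h4 := hasDerivAt_integral_of_dominated_loc_of_deriv_le (μ := volume) (𝕜 := ℂ)
    (F := fun (l : ℂ) (s : ℝ) => (s : ℂ) ^ k * (E (e + 1) l s - hv s))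
    (F' := fun (l : ℂ) (s : ℝ) => (s : ℂ) ^ k * dE e l s) (x₀ := l)
    (s := {x | |x.im| < Real.pi ∧ (kap x)⁻¹ ≤ (kap l)⁻¹ + 1 ∧ |x.re| ≤ |l.re| + 1})
    (bound := fun s => ((e + 1) * (cst (e + 2) ((kap l)⁻¹ + 1) (|l.re| + 1)
      + cst (e + 1) ((kap l)⁻¹ + 1) (|l.re| + 1))) * maj k s)
    (by filter_upwards [h1, h2, h3] with x a b c using ⟨a, b, c⟩)
    (by
      filter_upwards [h1] with x hx
      exact (integrable_sub hx k e).aestronglyMeasurable)
    (integrable_sub h k e) (integrable_dE h k e).aestronglyMeasurable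
    (Eventually.of_forall fun s x hx => norm_dE_le hx.1 hx.2.1 hx.2.2 k e s)
    ((integrable_maj k).const_mul _)
    (Eventually.of_forall fun s x hx => by
      exact ((hasDerivAt_E_l hx.1 e s).sub_const _).const_mul _)
  have h5 := h4.2
  rw [integral_dE h k e] at h5
  exact h5

end Pool.Agent.Helper72.Toric
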