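import Pool.Agent.Helper72.Toric2

set_option autoImplicit false

open MeasureTheory Filter Topology Set

namespace Pool.Agent.Helper72.Toric

/-- The polynomial with constants `c`. -/
noncomputable def pol (k : ℕ) (c : ℕ → ℂ) (x : ℂ) : ℂ :=
  (∑ j ∈ Finset.range (k + 1), (k.choose j : ℂ) * c j * (-x) ^ (k - j)) + (-x) ^ (k + 1) / (k + 1)

theorem continuous_pol (k : ℕ) (c : ℕ → ℂ) : Continuous (pol k c) := by
  unfold pol
  fun_prop

theorem pol_zero_right (k : ℕ) (c : ℕ → ℂ) : pol k c 0 = c k := by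
  unfold pol
  rw [Finset.sum_range_succ, Finset.sum_eq_zero]
  · simp
  · intro j hj
    rw [Finset.mem_range] at hj
    have : k - j ≠ 0 := by omega
    simp [this]

theorem hasDerivAt_pol (k : ℕ) (c : ℕ → ℂ) (x : ℂ) :
    HasDerivAt (pol k c) (- (0 : ℂ) ^ k - k * pol (k - 1) c x) x := by
  have hneg : HasDerivAt (fun x : ℂ => -x) (-1) x := (hasDerivAt_id x).neg
  have h1 : HasDerivAt (fun x : ℂ => ∑ j ∈ Finset.range (k + 1), (k.choose j : ℂ) * c j * (-x) ^ (k - j))
      (∑ j ∈ Finset.range (k + 1), (k.choose j : ℂ) * c j * (((k - j : ℕ) : ℂ) * (-x) ^ (k - j - 1) * (-1))) x := by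
    apply HasDerivAt.fun_sum
    intro j _
    exact (hneg.pow (k - j)).const_mul _
  have h2 : HasDerivAt (fun x : ℂ => (-x) ^ (k + 1) / ((k : ℂ) + 1))
      ((((k + 1 : ℕ) : ℂ) * (-x) ^ (k + 1 - 1) * (-1)) / ((k : ℂ) + 1)) x :=
    (hneg.pow (k + 1)).div_const _
  refine HasDerivAt.congr_deriv (f := pol k c) (h1.add h2) ?_
  have hk1 : ((k : ℂ) + 1) ≠ 0 := by
    have : ((k : ℂ) + 1) = ((k + 1 : ℕ) : ℂ) := by push_cast; ring
    rw [this]
    exact Nat.cast_ne_zero.2 (Nat.succ_ne_zero k)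
  have e2 : (((k + 1 : ℕ) : ℂ) * (-x) ^ (k + 1 - 1) * (-1)) / ((k : ℂ) + 1) = - (-x) ^ k := by
    rw [Nat.add_sub_cancel]
    push_cast
    field_simp
  rw [e2]
  rcases k with _ | k
  · simp [pol]
  · have e3 : (k + 1 - 1 : ℕ) = k := rfl
    rw [e3]
    unfold pol
    rw [Finset.sum_range_succ]
    have hk2 : ((k : ℂ) + 1) ≠ 0 := by
      have : ((k : ℂ) + 1) = ((k + 1 : ℕ) : ℂ) := by push_cast; ring
      rw [this]
      exact Nat.cast_ne_zero.2 (Nat.succ_ne_zero k)
    have e4 : ∑ j ∈ Finset.range (k + 1), ((k + 1).choose j : ℂ) * c j *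
        (((k + 1 - j : ℕ) : ℂ) * (-x) ^ (k + 1 - j - 1) * (-1)) =
        - ((k : ℂ) + 1) * ∑ j ∈ Finset.range (k + 1), (k.choose j : ℂ) * c j * (-x) ^ (k - j) := by
      rw [Finset.mul_sum]
      apply Finset.sum_congr rfl
      intro j hj
      rw [Finset.mem_range] at hj
      have e5 : ((k + 1).choose j : ℂ) * ((k + 1 - j : ℕ) : ℂ) = ((k : ℂ) + 1) * (k.choose j : ℂ) := by
        have := Nat.choose_mul_succ_eq k j
        have h6 : (((k.choose j) * (k + 1) : ℕ) : ℂ) = (((k + 1).choose j * (k + 1 - j) : ℕ) : ℂ) := by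
          rw [this]
        push_cast at h6 ⊢
        rw [← h6]
        ring
      have e6 : k + 1 - j - 1 = k - j := by omega
      rw [e6]
      linear_combination (-(c j) * (-x) ^ (k - j)) * e5
    rw [e4]
    simp only [Nat.sub_self, Nat.cast_zero, zero_mul, mul_zero, add_zero]
    push_cast
    have e7 : (0 : ℂ) ^ (k + 1) = 0 := by simp
    rw [e7]
    field_simp
    ring

theorem isPreconnected_strip : IsPreconnected {l : ℂ | |l.im| < Real.pi} := by
  apply Convex.isPreconnected
  have h : {l : ℂ | |l.im| < Real.pi} = Complex.imLm ⁻¹' (Ioo (-Real.pi) Real.pi) := by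
    ext l
    simp only [mem_ofPred_eq, abs_lt, mem_preimage, Complex.imLm_coe, mem_Ioo]
  rw [h]
  exact (convex_Ioo _ _).linear_preimage _

theorem J_eq_pol_aux (e k : ℕ) (hprev : ∀ l : ℂ, |l.im| < Real.pi →
      (k : ℂ) * (J (k - 1) (e + 1) l - pol (k - 1) (fun j => J j (e + 1) 0) l) = 0) :
      ∀ l : ℂ, |l.im| < Real.pi → J k (e + 1) l = pol k (fun j => J j (e + 1) 0) l := by
  intro l hl
  have hd : ∀ x ∈ {l : ℂ | |l.im| < Real.pi},
      HasDerivAt (fun l => J k (e + 1) l - pol k (fun j => J j (e + 1) 0) l) 0 x := by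
    intro x hx
    refine ((hasDerivAt_J hx k e).sub (hasDerivAt_pol k _ x)).congr_deriv ?_
    linear_combination (-1 : ℂ) * hprev x hx
  have h0 : |(0 : ℂ).im| < Real.pi := by simpa using Real.pi_pos
  have := isOpen_strip.is_const_of_deriv_eq_zero isPreconnected_strip
    (fun x hx => (hd x hx).differentiableAt.differentiableWithinAt)
    (fun x hx => (hd x hx).deriv) hl h0
  simp only [pol_zero_right, sub_self] at this
  exact sub_eq_zero.1 this

/-- The regularised integral is a polynomial in the parameter. -/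
theorem J_eq_pol (e k : ℕ) : ∀ l : ℂ, |l.im| < Real.pi →
    J k (e + 1) l = pol k (fun j => J j (e + 1) 0) l := by
  induction k with
  | zero => exact J_eq_pol_aux e 0 (by intro l _; simp)
  | succ k ih =>
    apply J_eq_pol_aux
    intro l hl
    rw [Nat.add_sub_cancel, ih l hl, sub_self, mul_zero]

theorem half_pi_strip : |(Complex.I * (Real.pi / 2)).im| < Real.pi := by
  have h : (Complex.I * (Real.pi / 2)).im = Real.pi / 2 := by
    have : Complex.I * (Real.pi / 2 : ℂ) = ((Real.pi / 2 : ℝ) : ℂ) * Complex.I := by push_cast; ring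
    rw [this]
    simp
  rw [h, abs_of_pos (by positivity)]
  linarith [Real.pi_pos]

theorem neg_half_pi_strip : |(-(Complex.I * (Real.pi / 2))).im| < Real.pi := by
  rw [Complex.neg_im, abs_neg]
  exact half_pi_strip

/-- Duplication. -/
theorem J_dup (k : ℕ) : J k 1 0 =
    2 ^ k * (J k 1 (Complex.I * (Real.pi / 2)) + J k 1 (-(Complex.I * (Real.pi / 2)))) := by
  have h1 := Measure.integral_comp_mul_left (fun s : ℝ => (s : ℂ) ^ k * (E 1 0 s - hv s)) 2
  have h2 : ∀ u : ℝ, ((2 * u : ℝ) : ℂ) ^ k * (E 1 0 (2 * u) - hv (2 * u)) =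
      (2 ^ k / 2) * ((u : ℂ) ^ k * (E 1 (Complex.I * (Real.pi / 2)) u - hv u) +
        (u : ℂ) ^ k * (E 1 (-(Complex.I * (Real.pi / 2))) u - hv u)) := by
    intro u
    have hvu : hv (2 * u) = hv u := by
      unfold hv
      have : (2 * u < 0) ↔ u < 0 := by constructor <;> intro h <;> linarith
      simp only [this]
    have e1 : Complex.exp ((u : ℂ) + Complex.I * (Real.pi / 2)) = Complex.I * Complex.exp u := by
      have : Complex.I * (Real.pi / 2 : ℂ) = (Real.pi / 2 : ℂ) * Complex.I := by ring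
      rw [Complex.exp_add, this, Complex.exp_pi_div_two_mul_I]
      ring
    have e2 : Complex.exp ((u : ℂ) + -(Complex.I * (Real.pi / 2))) = -Complex.I * Complex.exp u := by
      have : -(Complex.I * (Real.pi / 2 : ℂ)) = -(Real.pi / 2 * Complex.I) := by ring
      rw [Complex.exp_add, this, Complex.exp_neg, Complex.exp_pi_div_two_mul_I, Complex.inv_I]
      ring
    have e3 : Complex.exp (((2 * u : ℝ) : ℂ) + 0) = Complex.exp u ^ 2 := by
      rw [add_zero, ← Complex.exp_nat_mul]
      push_cast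
      ring_nf
    have n1 := one_add_ne half_pi_strip u
    have n2 := one_add_ne neg_half_pi_strip u
    have n3 := one_add_ne (l := 0) (by simpa using Real.pi_pos) (2 * u)
    rw [e1] at n1
    rw [e2] at n2
    rw [e3] at n3
    have e4 : E 1 0 (2 * u) = (E 1 (Complex.I * (Real.pi / 2)) u + E 1 (-(Complex.I * (Real.pi / 2))) u) / 2 := by
      unfold E
      rw [e1, e2, e3, pow_one, pow_one, pow_one]
      set y := Complex.exp (u : ℂ)
      have n4 : (1 + Complex.I * y) * (1 + -Complex.I * y) = 1 + y ^ 2 := by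
        have := Complex.I_sq
        linear_combination (-(y ^ 2)) * this
      rw [← n4, mul_inv]
      have n5 : (1 + Complex.I * y) + (1 + -Complex.I * y) = 2 := by ring
      set A := 1 + Complex.I * y
      set D := 1 + -Complex.I * y
      field_simp
      rw [add_comm, n5]
    rw [hvu, e4]
    push_cast
    rw [mul_pow]
    ring
  have h3 : ∫ u : ℝ, ((2 * u : ℝ) : ℂ) ^ k * (E 1 0 (2 * u) - hv (2 * u)) =
      (2 ^ k / 2) * (J k 1 (Complex.I * (Real.pi / 2)) + J k 1 (-(Complex.I * (Real.pi / 2)))) := by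
    rw [integral_congr_ae (Eventually.of_forall h2), integral_const_mul, integral_add]
    · rfl
    · exact integrable_sub half_pi_strip k 0
    · exact integrable_sub neg_half_pi_strip k 0
  rw [h3] at h1
  have h4 : |(2 : ℝ)⁻¹| • ∫ s : ℝ, (s : ℂ) ^ k * (E 1 0 s - hv s) = (1 / 2 : ℂ) * J k 1 0 := by
    rw [abs_of_pos (by norm_num : (0 : ℝ) < 2⁻¹), Complex.real_smul]
    unfold J
    push_cast
    ring
  rw [h4] at h1
  linear_combination (-2 : ℂ) * h1

/-- The ring of the values. -/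
noncomputable def B : Subalgebra ℚ ℂ := Algebra.adjoin ℚ {((Real.pi : ℂ)) ^ 2}

theorem pi_sq_mem : ((Real.pi : ℂ)) ^ 2 ∈ B := Algebra.subset_adjoin rfl

theorem rat_mem (q : ℚ) : (q : ℂ) ∈ B := B.algebraMap_mem q

theorem nat_mem (n : ℕ) : (n : ℂ) ∈ B := by
  have := rat_mem n
  simpa using this

theorem pol_add_neg (k : ℕ) (c : ℕ → ℂ) (a : ℂ) :
    pol k c a + pol k c (-a) = 2 * c k + (∑ j ∈ Finset.range k, (k.choose j : ℂ) * c j *
      ((-a) ^ (k - j) + a ^ (k - j))) + ((-a) ^ (k + 1) + a ^ (k + 1)) / (k + 1) := by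
  unfold pol
  rw [Finset.sum_range_succ, Finset.sum_range_succ]
  simp only [Nat.choose_self, Nat.sub_self, pow_zero, neg_neg, mul_add, Finset.sum_add_distrib,
    add_div]
  ring

theorem even_pow_mem (n : ℕ) :
    (-(Complex.I * (Real.pi / 2))) ^ n + (Complex.I * (Real.pi / 2)) ^ n ∈ B := by
  rcases Nat.even_or_odd n with h | h
  · rw [h.neg_pow]
    obtain ⟨m, rfl⟩ := h
    have e : (Complex.I * (Real.pi / 2 : ℂ)) ^ (m + m) = ((-1 / 4 : ℚ) : ℂ) ^ m * ((Real.pi : ℂ) ^ 2) ^ m := by
      rw [← two_mul, pow_mul, ← mul_pow]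
      congr 1
      have := Complex.I_sq
      push_cast
      linear_combination ((Real.pi : ℂ) ^ 2 / 4) * this
    rw [e]
    have h1 := B.mul_mem (B.pow_mem (rat_mem (-1 / 4)) m) (B.pow_mem pi_sq_mem m)
    exact B.add_mem h1 h1
  · rw [h.neg_pow, neg_add_cancel]
    exact B.zero_mem

theorem div_nat_mem {x : ℂ} (hx : x ∈ B) (n : ℕ) : x / n ∈ B := by
  have h := B.mul_mem hx (rat_mem (1 / n))
  have e : x * (((1 / n : ℚ)) : ℂ) = x / n := by
    push_cast
    ring
  rwa [e] at h

theorem J_one_mem (k : ℕ) : J k 1 0 ∈ B := by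
  induction k using Nat.strong_induction_on with
  | _ k ih =>
    have h1 := J_dup k
    rw [J_eq_pol 0 k _ half_pi_strip, J_eq_pol 0 k _ neg_half_pi_strip, pol_add_neg] at h1
    set r : ℂ := (∑ j ∈ Finset.range k, (k.choose j : ℂ) * J j (0 + 1) 0 *
      ((-(Complex.I * (Real.pi / 2))) ^ (k - j) + (Complex.I * (Real.pi / 2)) ^ (k - j))) +
      ((-(Complex.I * (Real.pi / 2))) ^ (k + 1) + (Complex.I * (Real.pi / 2)) ^ (k + 1)) / (k + 1)
      with hr
    have hrB : r ∈ B := by
      apply B.add_mem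
      · apply B.sum_mem
        intro j hj
        exact B.mul_mem (B.mul_mem (nat_mem _) (ih j (Finset.mem_range.1 hj))) (even_pow_mem _)
      · have := div_nat_mem (even_pow_mem (k + 1)) (k + 1)
        push_cast at this
        exact this
    have h2 : J k 1 0 = (2 ^ k * r) / ((1 : ℂ) - 2 ^ (k + 1)) := by
      have h3 : ((1 : ℂ) - 2 ^ (k + 1)) ≠ 0 := by
        have h4 : (1 : ℕ) < 2 ^ (k + 1) := Nat.one_lt_two_pow (Nat.succ_ne_zero k)
        have h5 : (1 : ℂ) ≠ 2 ^ (k + 1) := by
          intro h6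
          have : ((1 : ℕ) : ℂ) = ((2 ^ (k + 1) : ℕ) : ℂ) := by push_cast; exact h6
          have := Nat.cast_injective this
          omega
        exact sub_ne_zero.2 h5
      rw [eq_div_iff h3]
      simp only [zero_add] at h1 hr
      rw [hr]
      rw [pow_succ]
      linear_combination h1
    rw [h2]
    have h6 := B.mul_mem (B.mul_mem (B.pow_mem (nat_mem 2) k) hrB) (rat_mem (1 / (1 - 2 ^ (k + 1))))
    have e : (((2 : ℕ) : ℂ)) ^ k * r * ((1 / (1 - 2 ^ (k + 1)) : ℚ) : ℂ) =
        (2 ^ k * r) / ((1 : ℂ) - 2 ^ (k + 1)) := by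
      push_cast
      ring
    rwa [e] at h6

/-- All the constants lie in the ring generated by `π ^ 2` over the rationals. -/
theorem J_mem (e k : ℕ) : J k (e + 1) 0 ∈ B := by
  induction e generalizing k with
  | zero => exact J_one_mem k
  | succ e ih =>
    rw [J_succ (l := 0) (by simpa using Real.pi_pos) k e]
    apply B.sub_mem (ih k)
    have h1 : (0 : ℂ) ^ k + k * J (k - 1) (e + 1) 0 ∈ B := by
      apply B.add_mem
      · exact B.pow_mem B.zero_mem k
      · exact B.mul_mem (nat_mem k) (ih (k - 1))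
    have := div_nat_mem h1 (e + 1)
    push_cast at this
    exact this

end Pool.Agent.Helper72.Toric
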