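import Pool.Agent.Helper72.Toric3

set_option autoImplicit false

open Polynomial

namespace Pool.Agent.Helper72.Toric

/-- Rational polynomials in `π` of degree at most `n`. -/
def PiDeg (n : ℕ) (x : ℂ) : Prop := ∃ p : ℚ[X], p.natDegree ≤ n ∧ aeval (Real.pi : ℂ) p = x

theorem PiDeg.mono {m n : ℕ} {x : ℂ} (h : PiDeg m x) (hmn : m ≤ n) : PiDeg n x := by
  obtain ⟨p, h1, h2⟩ := h
  exact ⟨p, h1.trans hmn, h2⟩

theorem PiDeg.add {n : ℕ} {x y : ℂ} (hx : PiDeg n x) (hy : PiDeg n y) : PiDeg n (x + y) := by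
  obtain ⟨p, h1, rfl⟩ := hx
  obtain ⟨q, h2, rfl⟩ := hy
  exact ⟨p + q, (natDegree_add_le p q).trans (max_le h1 h2), map_add _ _ _⟩

theorem PiDeg.sub {n : ℕ} {x y : ℂ} (hx : PiDeg n x) (hy : PiDeg n y) : PiDeg n (x - y) := by
  obtain ⟨p, h1, rfl⟩ := hx
  obtain ⟨q, h2, rfl⟩ := hy
  exact ⟨p - q, (natDegree_sub_le p q).trans (max_le h1 h2), map_sub _ _ _⟩

theorem PiDeg.mul {m n : ℕ} {x y : ℂ} (hx : PiDeg m x) (hy : PiDeg n y) : PiDeg (m + n) (x * y) := by
  obtain ⟨p, h1, rfl⟩ := hx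
  obtain ⟨q, h2, rfl⟩ := hy
  exact ⟨p * q, natDegree_mul_le.trans (add_le_add h1 h2), map_mul _ _ _⟩

theorem piDeg_rat (q : ℚ) : PiDeg 0 (q : ℂ) :=
  ⟨C q, by rw [natDegree_C], by rw [aeval_C]; rfl⟩

theorem piDeg_pow (n : ℕ) : PiDeg n ((Real.pi : ℂ) ^ n) :=
  ⟨X ^ n, by rw [natDegree_X_pow], by rw [map_pow, aeval_X]⟩

theorem PiDeg.div {n : ℕ} {x : ℂ} (h : PiDeg n x) (m : ℕ) : PiDeg n (x / m) := by
  have h1 := h.mul (piDeg_rat (1 / m))
  have e : x * ((1 / m : ℚ) : ℂ) = x / m := by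
    push_cast
    ring
  rwa [e, add_zero] at h1

theorem PiDeg.sum {ι : Type} (s : Finset ι) {n : ℕ} (f : ι → ℂ) (h : ∀ i ∈ s, PiDeg n (f i)) :
    PiDeg n (∑ i ∈ s, f i) := by
  classical
  induction s using Finset.induction_on with
  | empty => simpa using (piDeg_rat 0).mono (Nat.zero_le n)
  | insert a s ha ih =>
    rw [Finset.sum_insert ha]
    exact (h a (Finset.mem_insert_self a s)).add (ih fun i hi => h i (Finset.mem_insert_of_mem hi))

theorem piDeg_even (n : ℕ) :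
    PiDeg n ((-(Complex.I * (Real.pi / 2))) ^ n + (Complex.I * (Real.pi / 2)) ^ n) := by
  rcases Nat.even_or_odd n with h | h
  · rw [h.neg_pow]
    obtain ⟨m, rfl⟩ := h
    have e : (Complex.I * (Real.pi / 2 : ℂ)) ^ (m + m) =
        (((-1 / 4 : ℚ) ^ m : ℚ) : ℂ) * (Real.pi : ℂ) ^ (m + m) := by
      rw [← two_mul, pow_mul, pow_mul]
      push_cast
      rw [← mul_pow]
      congr 1
      have := Complex.I_sq
      linear_combination ((Real.pi : ℂ) ^ 2 / 4) * this
    rw [e]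
    have h1 := (piDeg_rat ((-1 / 4) ^ m)).mul (piDeg_pow (m + m))
    rw [zero_add] at h1
    exact h1.add h1
  · rw [h.neg_pow, neg_add_cancel]
    simpa using (piDeg_rat 0).mono (Nat.zero_le n)

theorem J_one_deg (k : ℕ) : PiDeg (k + 1) (J k 1 0) := by
  induction k using Nat.strong_induction_on with
  | _ k ih =>
    have h1 := J_dup k
    rw [J_eq_pol 0 k _ half_pi_strip, J_eq_pol 0 k _ neg_half_pi_strip, pol_add_neg] at h1
    set r : ℂ := (∑ j ∈ Finset.range k, (k.choose j : ℂ) * J j (0 + 1) 0 *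
      ((-(Complex.I * (Real.pi / 2))) ^ (k - j) + (Complex.I * (Real.pi / 2)) ^ (k - j))) +
      ((-(Complex.I * (Real.pi / 2))) ^ (k + 1) + (Complex.I * (Real.pi / 2)) ^ (k + 1)) / (k + 1)
      with hr
    have hrB : PiDeg (k + 1) r := by
      apply PiDeg.add
      · apply PiDeg.sum
        intro j hj
        have hjk := Finset.mem_range.1 hj
        have h2 := ((piDeg_rat (k.choose j)).mul (ih j hjk)).mul (piDeg_even (k - j))
        have e : 0 + (j + 1) + (k - j) = k + 1 := by omega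
        rw [e] at h2
        simpa using h2
      · have := (piDeg_even (k + 1)).div (k + 1)
        push_cast at this
        exact this
    have h2 : J k 1 0 = (2 ^ k * r) / ((1 : ℂ) - 2 ^ (k + 1)) := by
      have h3 : ((1 : ℂ) - 2 ^ (k + 1)) ≠ 0 := by
        have h4 : (1 : ℕ) < 2 ^ (k + 1) := Nat.one_lt_two_pow (Nat.succ_ne_zero k)
        have h5 : (1 : ℂ) ≠ 2 ^ (k + 1) := by
          intro h6
          have : ((1 : ℕ) : ℂ) = ((2 ^ (k + 1) : ℕ) : ℂ) := by push_cast; exact h6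
          have := Nat.cast_injective this
          omega
        exact sub_ne_zero.2 h5
      rw [eq_div_iff h3]
      simp only [zero_add] at h1 hr
      rw [hr]
      rw [pow_succ]
      linear_combination h1
    rw [h2]
    have h6 := (piDeg_rat (2 ^ k / (1 - 2 ^ (k + 1)))).mul hrB
    have e : ((2 ^ k / (1 - 2 ^ (k + 1)) : ℚ) : ℂ) * r =
        (2 ^ k * r) / ((1 : ℂ) - 2 ^ (k + 1)) := by
      push_cast
      ring
    rwa [e, zero_add] at h6

theorem J_deg (e k : ℕ) : PiDeg (k + 1) (J k (e + 1) 0) := by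
  induction e generalizing k with
  | zero => exact J_one_deg k
  | succ e ih =>
    rw [J_succ (l := 0) (by simpa using Real.pi_pos) k e]
    apply PiDeg.sub (ih k)
    have h1 : PiDeg (k + 1) ((0 : ℂ) ^ k + k * J (k - 1) (e + 1) 0) := by
      apply PiDeg.add
      · have := (piDeg_rat (0 ^ k)).mono (Nat.zero_le (k + 1))
        simpa using this
      · have := ((piDeg_rat k).mul (ih (k - 1))).mono (show 0 + (k - 1 + 1) ≤ k + 1 by omega)
        simpa using this
    have := h1.div (e + 1)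
    push_cast at this
    exact this

/-- The constants are rational combinations of `1, π, ..., π ^ (k + 1)`. -/
theorem J_const (k e : ℕ) (he : 1 ≤ e) :
    ∃ a : ℕ → ℚ, J k e 0 = ∑ i ∈ Finset.range (k + 2), (a i : ℂ) * (Real.pi : ℂ) ^ i := by
  obtain ⟨e, rfl⟩ : ∃ e', e = e' + 1 := ⟨e - 1, by omega⟩
  obtain ⟨p, h1, h2⟩ := J_deg e k
  refine ⟨p.coeff, ?_⟩
  rw [← h2, aeval_eq_sum_range' (Nat.lt_succ_of_le h1)]
  apply Finset.sum_congr rfl
  intro i _
  rw [Algebra.smul_def]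
  rfl

end Pool.Agent.Helper72.Toric
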