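import Pool.Agent.Helper21.MZVAlg

set_option autoImplicit false

open Finset Polynomial

namespace Pool.Agent.Helper72.WS

open Pool.Agent.Helper21

/-- The monomial `π ^ (2 a) ζ(3) ^ b`, of weight `2 a + 3 b`. -/
noncomputable def mon (a b : ℕ) : ℝ := (Real.pi ^ 2) ^ a * zl [3] ^ b

theorem mon_mem (a b : ℕ) : mon a b ∈ mzvSpace (2 * a + 3 * b) := by
  have h := mul_mem_mzvSpace (pow_mem_mzvSpace pi_sq_mem a) (pow_mem_mzvSpace zl_three_mem b)
  have e : a * 2 + b * 3 = 2 * a + 3 * b := by ring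
  rwa [e] at h

theorem trans_sq : Transcendental (algebraicClosure ℚ ℝ) (Real.pi ^ 2) :=
  transcendental_pi.algebraicClosure.pow (by norm_num)

theorem eq_zero_of_aeval {P : (algebraicClosure ℚ ℝ)[X]} (h : aeval (Real.pi ^ 2) P = 0) :
    P = 0 := (transcendental_iff.1 trans_sq) P h

/-- If `ζ(3)` is a rational function of `π ^ 2` with algebraic coefficients, of degree `δ`, then
monomials with distinct values of `a + δ b` are independent over the algebraic numbers. -/
theorem caseTwo (P Q : (algebraicClosure ℚ ℝ)[X]) (hQ : Q ≠ 0)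
    (h : aeval (Real.pi ^ 2) P + zl [3] * aeval (Real.pi ^ 2) Q = 0) {ι : Type} (a b : ι → ℕ)
    (hinj : Function.Injective
      (fun i => (a i : ℤ) + ((P.natDegree : ℤ) - Q.natDegree) * b i)) :
    LinearIndependent (algebraicClosure ℚ ℝ) (fun i => mon (a i) (b i)) := by
  classical
  have hQx : aeval (Real.pi ^ 2) Q ≠ 0 := fun h0 => hQ (eq_zero_of_aeval h0)
  have hP : P ≠ 0 := by
    rintro rfl
    rw [map_zero, zero_add] at h
    exact (mul_ne_zero zl_three_pos.ne' hQx) h
  rw [linearIndependent_iff']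
  intro S g hg i hi
  set B := S.sup b with hB
  have hbB : ∀ j ∈ S, b j ≤ B := fun j hj => Finset.le_sup hj
  let f : ι → (algebraicClosure ℚ ℝ)[X] := fun j =>
    C (g j) * (X ^ a j * ((-P) ^ b j * Q ^ (B - b j)))
  have hf : ∀ j ∈ S, aeval (Real.pi ^ 2) (f j) =
      (g j • mon (a j) (b j)) * (aeval (Real.pi ^ 2) Q) ^ B := by
    intro j hj
    have e1 : aeval (Real.pi ^ 2) (-P) = zl [3] * aeval (Real.pi ^ 2) Q := by
      rw [map_neg]
      linarith
    have e2 : (aeval (Real.pi ^ 2) Q) ^ B =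
        (aeval (Real.pi ^ 2) Q) ^ (b j) * (aeval (Real.pi ^ 2) Q) ^ (B - b j) := by
      rw [← pow_add, Nat.add_sub_cancel' (hbB j hj)]
    simp only [f, map_mul, map_pow, aeval_C, aeval_X, e1, mul_pow, Algebra.smul_def, mon]
    rw [e2]
    ring
  have hsum : ∑ j ∈ S, f j = 0 := by
    apply eq_zero_of_aeval
    rw [map_sum, Finset.sum_congr rfl hf, ← Finset.sum_mul, hg, zero_mul]
  have hg0 : ∀ j, f j ≠ 0 → g j ≠ 0 := by
    intro j hj h0
    apply hj
    simp only [f, h0, map_zero, zero_mul]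
  have hnd : ∀ j, f j ≠ 0 →
      (f j).natDegree = a j + (b j * P.natDegree + (B - b j) * Q.natDegree) := by
    intro j hj
    have h1 : (-P) ^ b j ≠ 0 := pow_ne_zero _ (neg_ne_zero.2 hP)
    have h2 : Q ^ (B - b j) ≠ 0 := pow_ne_zero _ hQ
    simp only [f]
    rw [natDegree_C_mul (hg0 j hj), natDegree_mul (pow_ne_zero _ X_ne_zero) (mul_ne_zero h1 h2),
      natDegree_mul h1 h2, natDegree_pow, natDegree_pow, natDegree_pow, natDegree_neg, natDegree_X,
      mul_one]
  have hdeg : (∑ j ∈ S, f j).degree = S.sup (fun j => (f j).degree) := by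
    apply Polynomial.degree_sum_eq_of_disjoint
    rintro j ⟨hjS, hj⟩ l ⟨hlS, hl⟩ hne
    simp only [Function.onFun, Function.comp_apply]
    intro heq
    have h1 : (f j).natDegree = (f l).natDegree := natDegree_eq_of_degree_eq heq
    rw [hnd j hj, hnd l hl] at h1
    apply hne
    apply hinj
    have h2 := congrArg (fun n : ℕ => (n : ℤ)) h1
    simp only [Nat.cast_add, Nat.cast_mul, Nat.cast_sub (hbB j hjS), Nat.cast_sub (hbB l hlS)] at h2
    simp only
    linear_combination h2
  rw [hsum, degree_zero] at hdeg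
  have h3 : (f i).degree ≤ ⊥ := by
    rw [hdeg]
    exact Finset.le_sup (f := fun j => (f j).degree) hi
  have h4 : f i = 0 := degree_eq_bot.1 (le_bot_iff.1 h3)
  by_contra h5
  have h6 : C (g i) ≠ 0 := by
    rw [Ne, C_eq_zero]
    exact h5
  exact (mul_ne_zero h6 (mul_ne_zero (pow_ne_zero _ X_ne_zero)
    (mul_ne_zero (pow_ne_zero _ (neg_ne_zero.2 hP)) (pow_ne_zero _ hQ)))) h4

/-- Otherwise one monomial in each weight other than `1` gives an independent family. -/
theorem caseOne (h : ∀ P Q : (algebraicClosure ℚ ℝ)[X],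
    aeval (Real.pi ^ 2) P + zl [3] * aeval (Real.pi ^ 2) Q = 0 → Q = 0) {J : Set ℕ} (h1 : 1 ∉ J) :
    LinearIndependent (algebraicClosure ℚ ℝ)
      (fun s : J => mon (((s : ℕ) - 3 * ((s : ℕ) % 2)) / 2) ((s : ℕ) % 2)) := by
  classical
  rw [linearIndependent_iff']
  intro S g hg i hi
  have key : ∀ s ∈ J, s % 2 = 0 ∨ (s % 2 = 1 ∧ 3 ≤ s) := by
    intro s hs
    have : s ≠ 1 := by
      rintro rfl
      exact h1 hs
    omega
  let f : ℕ → (algebraicClosure ℚ ℝ)[X] := fun e =>
    ∑ s ∈ S, if (s : ℕ) % 2 = e then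
      C (g s) * (X : (algebraicClosure ℚ ℝ)[X]) ^ (((s : ℕ) - 3 * ((s : ℕ) % 2)) / 2) else 0
  have hf : ∀ e, f e = 0 → ∀ j ∈ S, (j : ℕ) % 2 = e → g j = 0 := by
    intro e he j hj hje
    have h2 := congrArg (fun p => Polynomial.coeff p (((j : ℕ) - 3 * ((j : ℕ) % 2)) / 2)) he
    simp only [f, finsetSum_coeff, coeff_zero] at h2
    rw [Finset.sum_eq_single j] at h2
    · rw [if_pos hje] at h2
      simpa using h2
    · intro s hs hsj
      split_ifs with h3
      · rw [coeff_C_mul, coeff_X_pow, if_neg, mul_zero]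
        intro h4
        apply hsj
        apply Subtype.ext
        have h5 := key s s.2
        have h6 := key j j.2
        omega
      · exact coeff_zero _
    · intro h3
      exact absurd hj h3
  have hrel : aeval (Real.pi ^ 2) (f 0) + zl [3] * aeval (Real.pi ^ 2) (f 1) = 0 := by
    rw [← hg]
    simp only [f]
    rw [map_sum, map_sum, Finset.mul_sum, ← Finset.sum_add_distrib]
    apply Finset.sum_congr rfl
    intro s _
    rcases Nat.mod_two_eq_zero_or_one (s : ℕ) with h3 | h3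
    · rw [h3]
      simp only [mul_zero, tsub_zero, if_true, zero_ne_one, if_false, map_zero, add_zero, map_mul,
        aeval_C, map_pow, aeval_X, Algebra.smul_def, mon, pow_zero, mul_one]
    · rw [h3]
      simp only [one_ne_zero, if_true, if_false, map_zero, zero_add, map_mul,
        aeval_C, map_pow, aeval_X, Algebra.smul_def, mon, pow_one]
      ring
  have hQ : f 1 = 0 := h _ _ hrel
  have hP : f 0 = 0 := by
    rw [hQ, map_zero, mul_zero, add_zero] at hrel
    exact eq_zero_of_aeval hrel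
  rcases Nat.mod_two_eq_zero_or_one (i : ℕ) with h3 | h3
  · exact hf 0 hP i hi h3
  · exact hf 1 hQ i hi h3

theorem dichotomy :
    (∀ J : Set ℕ, 1 ∉ J → LinearIndependent (algebraicClosure ℚ ℝ)
      (fun s : J => mon (((s : ℕ) - 3 * ((s : ℕ) % 2)) / 2) ((s : ℕ) % 2))) ∨
    ∃ δ : ℤ, ∀ (ι : Type) (a b : ι → ℕ),
      Function.Injective (fun i => (a i : ℤ) + δ * b i) →
        LinearIndependent (algebraicClosure ℚ ℝ) (fun i => mon (a i) (b i)) := by
  by_cases h : ∀ P Q : (algebraicClosure ℚ ℝ)[X],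
    aeval (Real.pi ^ 2) P + zl [3] * aeval (Real.pi ^ 2) Q = 0 → Q = 0
  · exact Or.inl fun J hJ => caseOne h hJ
  · right
    push Not at h
    obtain ⟨P, Q, h1, h2⟩ := h
    exact ⟨(P.natDegree : ℤ) - Q.natDegree, fun ι a b hi => caseTwo P Q h2 h1 a b hi⟩

/-- The pairs `(a, b)` with `2 a + 3 b = s`. -/
def prs (s : ℕ) : Finset (ℕ × ℕ) :=
  (Finset.range (s + 1) ×ˢ Finset.range (s + 1)).filter (fun p => 2 * p.1 + 3 * p.2 = s)

theorem mem_prs {s : ℕ} {p : ℕ × ℕ} : p ∈ prs s ↔ 2 * p.1 + 3 * p.2 = s := by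
  simp only [prs, Finset.mem_filter, Finset.mem_product, Finset.mem_range]
  constructor
  · exact fun h => h.2
  · exact fun h => ⟨⟨by omega, by omega⟩, h⟩

/-- The integers `a + δ b` with `2 a + 3 b = s`. -/
def degs (δ : ℤ) (s : ℕ) : Finset ℤ := (prs s).image (fun p => (p.1 : ℤ) + δ * p.2)

theorem mem_degs {δ : ℤ} {s : ℕ} {n : ℤ} :
    n ∈ degs δ s ↔ ∃ a b : ℕ, 2 * a + 3 * b = s ∧ n = a + δ * b := by
  simp only [degs, Finset.mem_image, mem_prs]
  constructor
  · rintro ⟨⟨a, b⟩, h1, h2⟩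
    exact ⟨a, b, h1, h2.symm⟩
  · rintro ⟨a, b, h1, h2⟩
    exact ⟨⟨a, b⟩, h1, h2.symm⟩

theorem card_degs (δ : ℤ) (s : ℕ) : (degs δ s).card = (prs s).card := by
  apply Finset.card_image_of_injOn
  rintro ⟨a, b⟩ h1 ⟨c, d⟩ h2 h
  rw [Finset.mem_coe, mem_prs] at h1 h2
  simp only at h1 h2 h
  have h3 : (b : ℤ) * (2 * δ - 3) = (d : ℤ) * (2 * δ - 3) := by
    have h4 : 2 * (a : ℤ) + 3 * b = 2 * c + 3 * d := by exact_mod_cast h1.trans h2.symm
    linear_combination 2 * h - h4
  have h5 : (2 * δ - 3 : ℤ) ≠ 0 := by omega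
  have h6 : (b : ℤ) = d := mul_right_cancel₀ h5 h3
  have h7 : b = d := by exact_mod_cast h6
  subst h7
  have h8 : a = c := by omega
  rw [h8]

theorem set_eq (δ : ℤ) (J : Finset ℕ) :
    {n : ℤ | ∃ a b : ℕ, 2 * a + 3 * b ∈ J ∧ n = a + δ * b} = ((J.biUnion (degs δ) : Finset ℤ) : Set ℤ) := by
  ext n
  simp only [Set.mem_ofPred_eq, Finset.mem_coe, Finset.mem_biUnion, mem_degs]
  constructor
  · rintro ⟨a, b, h1, h2⟩
    exact ⟨_, h1, a, b, rfl, h2⟩
  · rintro ⟨s, hs, a, b, h1, h2⟩
    exact ⟨a, b, by rw [h1]; exact hs, h2⟩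

/-- Systems of independent representatives. -/
theorem transversal {J : Set ℕ} (h1 : 1 ∉ J)
    (hJ : ∀ δ : ℤ, ∀ S : Finset ℕ, (S : Set ℕ) ⊆ J → S.card ≤ (S.biUnion (degs δ)).card) :
    ∃ a b : ℕ → ℕ, (∀ s ∈ J, 2 * a s + 3 * b s = s) ∧
      LinearIndependent (algebraicClosure ℚ ℝ) (fun s : J => mon (a s) (b s)) := by
  classical
  rcases dichotomy with hI | ⟨δ, hII⟩
  · refine ⟨fun s => (s - 3 * (s % 2)) / 2, fun s => s % 2, ?_, hI J h1⟩
    intro s hs
    have : s ≠ 1 := by
      rintro rfl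
      exact h1 hs
    dsimp only
    omega
  · have hall := (Finset.all_card_le_biUnion_card_iff_exists_injective
      (fun s : J => degs δ (s : ℕ))).1 (by
        intro S
        have h2 := hJ δ (S.map (Function.Embedding.subtype _)) (by
          intro x hx
          rw [Finset.mem_coe, Finset.mem_map] at hx
          obtain ⟨y, _, rfl⟩ := hx
          exact y.2)
        rw [Finset.card_map] at h2
        refine h2.trans (Finset.card_le_card ?_)
        intro n hn
        rw [Finset.mem_biUnion] at hn ⊢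
        obtain ⟨x, hx, hn⟩ := hn
        rw [Finset.mem_map] at hx
        obtain ⟨y, hy, rfl⟩ := hx
        exact ⟨y, hy, hn⟩)
    obtain ⟨f, hf, hfm⟩ := hall
    have hfm' : ∀ s : J, ∃ a b : ℕ, 2 * a + 3 * b = s ∧ f s = a + δ * b :=
      fun s => mem_degs.1 (hfm s)
    choose a b hab hfab using hfm'
    refine ⟨fun s => if h : s ∈ J then a ⟨s, h⟩ else 0, fun s => if h : s ∈ J then b ⟨s, h⟩ else 0,
      ?_, ?_⟩
    · intro s hs
      simp only [dif_pos hs]
      exact hab ⟨s, hs⟩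
    · have h3 := hII J a b (by
        intro s s' hss
        apply hf
        rw [hfab s, hfab s']
        exact hss)
      convert h3 using 2 with s
      simp only [s.2, dif_pos]

theorem representatives {J : Set ℕ} (h1 : 1 ∉ J)
    (hJ : ∀ δ : ℤ, ∀ S : Finset ℕ, (S : Set ℕ) ⊆ J → S.card ≤ (S.biUnion (degs δ)).card) :
    ∃ z : ℕ → ℝ, (∀ s ∈ J, z s ∈ mzvSpace s) ∧
      LinearIndependent (algebraicClosure ℚ ℝ) (fun s : J => z s) := by
  obtain ⟨a, b, hab, hli⟩ := transversal h1 hJ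
  refine ⟨fun s => mon (a s) (b s), fun s hs => ?_, hli⟩
  have h2 := mon_mem (a s) (b s)
  rwa [hab s hs] at h2

theorem finite_sup_alg (J : Finset ℕ) :
    Module.Finite (algebraicClosure ℚ ℝ) ↥(⨆ s ∈ J, algSpace s) := by
  have := finite_algSpace
  rw [← Finset.sup_eq_iSup]
  exact Submodule.finite_finset_sup _ _

theorem finite_sup (J : Finset ℕ) : Module.Finite ℚ ↥(⨆ s ∈ J, mzvSpace s) := by
  have := finite_mzvSpace
  rw [← Finset.sup_eq_iSup]
  exact Submodule.finite_finset_sup _ _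

theorem mon_mem_sup {J : Finset ℕ} {a b : ℕ} (h : 2 * a + 3 * b ∈ J) :
    mon a b ∈ ⨆ s ∈ J, mzvSpace s :=
  (le_iSup₂_of_le (f := fun s (_ : s ∈ J) => mzvSpace s) _ h le_rfl) (mon_mem a b)

theorem mon_mem_sup_alg {J : Finset ℕ} {a b : ℕ} (h : 2 * a + 3 * b ∈ J) :
    mon a b ∈ ⨆ s ∈ J, algSpace s :=
  (le_iSup₂_of_le (f := fun s (_ : s ∈ J) => algSpace s) _ h le_rfl) (mem_algSpace (mon_mem a b))

theorem card_le {ι : Type} [Fintype ι] {J : Finset ℕ} {a b : ι → ℕ}
    (hm : ∀ i, 2 * a i + 3 * b i ∈ J)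
    (hli : LinearIndependent (algebraicClosure ℚ ℝ) (fun i => mon (a i) (b i))) :
    Fintype.card ι ≤ Module.finrank ℚ ↥(⨆ s ∈ J, mzvSpace s) ∧
    Fintype.card ι ≤ Module.finrank (algebraicClosure ℚ ℝ) ↥(⨆ s ∈ J, algSpace s) := by
  have i1 := finite_sup_alg J
  have i2 := finite_sup J
  constructor
  · have hq : LinearIndependent ℚ (fun i => mon (a i) (b i)) := by
      apply hli.restrict_scalars
      intro x y hxy
      simpa using hxy
    have h3 : LinearIndependent ℚ (fun i =>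
        (⟨mon (a i) (b i), mon_mem_sup (hm i)⟩ : ↥(⨆ s ∈ J, mzvSpace s))) :=
      LinearIndependent.of_comp (Submodule.subtype _) hq
    exact h3.fintype_card_le_finrank
  · have h3 : LinearIndependent (algebraicClosure ℚ ℝ) (fun i =>
        (⟨mon (a i) (b i), mon_mem_sup_alg (hm i)⟩ : ↥(⨆ s ∈ J, algSpace s))) :=
      LinearIndependent.of_comp (Submodule.subtype _) hli
    exact h3.fintype_card_le_finrank

/-- Lower bounds for the dimension of the sum of finitely many weight spaces. -/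
theorem dimension :
    ∃ δ : ℤ, ∀ J : Finset ℕ, 1 ∉ J →
      min J.card (J.biUnion (degs δ)).card ≤ Module.finrank ℚ ↥(⨆ s ∈ J, mzvSpace s) ∧
      min J.card (J.biUnion (degs δ)).card ≤
        Module.finrank (algebraicClosure ℚ ℝ) ↥(⨆ s ∈ J, algSpace s) := by
  classical
  rcases dichotomy with hI | ⟨δ, hII⟩
  · refine ⟨0, fun J h1 => ?_⟩
    have h2 := card_le (J := J) (a := fun s : ((J : Set ℕ) : Type) => ((s : ℕ) - 3 * ((s : ℕ) % 2)) / 2)
      (b := fun s : ((J : Set ℕ) : Type) => (s : ℕ) % 2) (by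
        intro s
        have h3 : (s : ℕ) ≠ 1 := by
          intro h4
          apply h1
          rw [← h4]
          exact s.2
        have h5 : 2 * (((s : ℕ) - 3 * ((s : ℕ) % 2)) / 2) + 3 * ((s : ℕ) % 2) = s := by omega
        rw [h5]
        exact s.2) (hI (J : Set ℕ) h1)
    have h6 : Fintype.card ((J : Set ℕ) : Type) = J.card := by simp
    rw [h6] at h2
    exact ⟨(min_le_left _ _).trans h2.1, (min_le_left _ _).trans h2.2⟩
  · refine ⟨δ, fun J _ => ?_⟩
    have h3 : ∀ n : ((J.biUnion (degs δ) : Finset ℤ) : Type), ∃ a b : ℕ,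
        2 * a + 3 * b ∈ J ∧ (n : ℤ) = a + δ * b := by
      intro n
      have h4 : (n : ℤ) ∈ ((J.biUnion (degs δ) : Finset ℤ) : Set ℤ) := n.2
      rw [← set_eq] at h4
      exact h4
    choose a b hab hn using h3
    have h5 := hII _ a b (by
      intro n n' hnn
      apply Subtype.ext
      rw [hn n, hn n']
      exact hnn)
    have h6 := card_le hab h5
    have h7 : Fintype.card ((J.biUnion (degs δ) : Finset ℤ) : Type) = (J.biUnion (degs δ)).card := by
      simp
    rw [h7] at h6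
    exact ⟨(min_le_right _ _).trans h6.1, (min_le_right _ _).trans h6.2⟩

theorem hall_of_choice {J : Set ℕ} (δ : ℤ) (a b : ℕ → ℕ) (hab : ∀ s ∈ J, 2 * a s + 3 * b s = s)
    (hinj : Set.InjOn (fun s => (a s : ℤ) + δ * b s) J) (S : Finset ℕ) (hS : (S : Set ℕ) ⊆ J) :
    S.card ≤ (S.biUnion (degs δ)).card := by
  apply Finset.card_le_card_of_injOn (fun s => (a s : ℤ) + δ * b s)
  · intro s hs
    rw [Finset.mem_coe, Finset.mem_biUnion]
    exact ⟨s, hs, mem_degs.2 ⟨a s, b s, hab s (hS hs), rfl⟩⟩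
  · exact hinj.mono hS

/-- Windows of consecutive weights satisfy the condition. -/
theorem hall_window {N k : ℕ} (h : 3 * k ≤ N + 1) (δ : ℤ) (S : Finset ℕ)
    (hS : (S : Set ℕ) ⊆ Set.Ico N (N + k)) : S.card ≤ (S.biUnion (degs δ)).card := by
  rcases Nat.eq_zero_or_pos k with hk | hk
  · subst hk
    have : S = ∅ := by
      rw [← Finset.coe_eq_empty, ← Set.subset_empty_iff]
      intro x hx
      have := hS hx
      simp at this
    subst this
    simp
  · by_cases hδ : δ = 2
    · -- `b = (s - N) + (N mod 2)`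
      apply hall_of_choice (J := Set.Ico N (N + k)) δ
        (fun s => (s - 3 * (s - N + N % 2)) / 2) (fun s => s - N + N % 2) _ _ S hS
      · rintro s ⟨h1, h2⟩
        omega
      · rintro s ⟨h1, h2⟩ t ⟨h3, h4⟩ hst
        dsimp only at hst
        subst hδ
        omega
    · -- `b = (k - 1) + (M mod 2) - (s - N)`, `M = N + k - 1`
      apply hall_of_choice (J := Set.Ico N (N + k)) δ
        (fun s => (s - 3 * ((k - 1) + (N + k - 1) % 2 - (s - N))) / 2)
        (fun s => (k - 1) + (N + k - 1) % 2 - (s - N)) _ _ S hS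
      · rintro s ⟨h1, h2⟩
        omega
      · rintro s ⟨h1, h2⟩ t ⟨h3, h4⟩ hst
        dsimp only at hst
        set bs := (k - 1) + (N + k - 1) % 2 - (s - N) with hbs
        set bt := (k - 1) + (N + k - 1) % 2 - (t - N) with hbt
        have e1 : 2 * (((s - 3 * bs) / 2 : ℕ) : ℤ) = s - 3 * bs := by omega
        have e2 : 2 * (((t - 3 * bt) / 2 : ℕ) : ℤ) = t - 3 * bt := by omega
        have e3 : (bs : ℤ) = bt + (t - s) := by omega
        have e4 : ((s : ℤ) - t) * (2 * (2 - δ)) = 0 := by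
          have e5 : (s : ℤ) - 3 * bs + 2 * δ * bs = t - 3 * bt + 2 * δ * bt := by
            rw [← e1, ← e2]
            linear_combination 2 * hst
          rw [e3] at e5
          linear_combination e5
        rcases mul_eq_zero.1 e4 with e6 | e6
        · omega
        · exfalso
          apply hδ
          omega

/-- Sparse sets of weights satisfy the condition. -/
theorem hall_sparse {J : Set ℕ} (h : ∀ m ∈ J, (J ∩ Set.Iic m).ncard ≤ (prs m).card) (δ : ℤ)
    (S : Finset ℕ) (hS : (S : Set ℕ) ⊆ J) : S.card ≤ (S.biUnion (degs δ)).card := by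
  rcases S.eq_empty_or_nonempty with rfl | hne
  · simp
  · have hm : S.max' hne ∈ S := Finset.max'_mem S hne
    have h1 : S.card ≤ (J ∩ Set.Iic (S.max' hne)).ncard := by
      rw [← Set.ncard_coe_finset]
      apply Set.ncard_le_ncard
      · intro x hx
        exact ⟨hS hx, Finset.le_max' S x hx⟩
      · exact (Set.finite_Iic _).subset Set.inter_subset_right
    have h2 := h _ (hS hm)
    have h3 : (degs δ (S.max' hne)).card ≤ (S.biUnion (degs δ)).card :=
      Finset.card_le_card (Finset.subset_biUnion_of_mem (degs δ) hm)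
    rw [card_degs] at h3
    exact (h1.trans h2).trans h3

end Pool.Agent.Helper72.WS
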